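import Pool.Agent.Gen.F5.X12CD13m3.S000
import Pool.Agent.Gen.F5.X12CD13m3.S001
import Pool.Agent.Gen.F5.X12CD13m3.S002
import Pool.Agent.Gen.F5.X12CD13m3.S003
import Pool.Agent.Gen.F5.X12CD13m3.S004
import Pool.Agent.Gen.F5.X12CD13m3.S005
import Pool.Agent.Gen.F5.X12CD13m3.S006
import Pool.Agent.Gen.F5.X12CD13m3.S007
import Pool.Agent.Gen.F5.X12CD13m3.S008

set_option autoImplicit false
set_option maxRecDepth 100000

namespace Pool.Agent.Gen.F5.X12CD13m3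

open Pool.Agent.Helper72.F5

def n0 : Cl (O (nat_lit 3)) (R (nat_lit 104465))
    (p (nat_lit 0x89) (nat_lit 0) (p (nat_lit 0x111) (nat_lit 1) (p (nat_lit 0x41) (nat_lit 0) (p (nat_lit 0x8d0c8e0c0d9a) (nat_lit 0) (p (nat_lit 0xc8c0d8b8d1a) (nat_lit 0) (p (nat_lit 0x8c0b8d0b0a9a) (nat_lit 0) (p (nat_lit 0xb8b0c8a8a1a) (nat_lit 0) (p (nat_lit 0x2a825aa8258b0c0a0b8a) (nat_lit 0) (p (nat_lit 0x2a825aa8258a8b89890a) (nat_lit 0) (p (nat_lit 0xb0014) (nat_lit 1) (p (nat_lit 0x20000c) (nat_lit 0) (p (nat_lit 0x200004) (nat_lit 0) (p (nat_lit 0xd1) (nat_lit 1) (p (nat_lit 0x109) (nat_lit 1) (p (nat_lit 0x101) (nat_lit 0) (p (nat_lit 0x119) (nat_lit 0) (p (nat_lit 0xc9) (nat_lit 0) (p (nat_lit 0x89) (nat_lit 1) (p (nat_lit 0x41) (nat_lit 0) (p (nat_lit 0x8a098b090a9a) (nat_lit 0) (p (nat_lit 0x9890a888a1a) (nat_lit 0) (p (nat_lit 0x89088a08079a) (nat_lit 0) (p (nat_lit 0x8880987871a)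 (nat_lit 0) (p (nat_lit 0x80000800080907088a) (nat_lit 0) (p (nat_lit 0x80000800078886860a) (nat_lit 0) (p (nat_lit 0x8688060782) (nat_lit 0) (p (nat_lit 0x607858702) (nat_lit 0) (p (nat_lit 0x8587050482) (nat_lit 0) (p (nat_lit 0x506848402) (nat_lit 0) (p (nat_lit 0x160014) (nat_lit 0) (p (nat_lit 0x50612) (nat_lit 0) (p (nat_lit 0x40592) (nat_lit 0) (p (nat_lit 0x40492) (nat_lit 0) (p (nat_lit 0x30412) (nat_lit 0) (p (nat_lit 0x30212) (nat_lit 0) (p (nat_lit 0x20192) (nat_lit 0) (p (nat_lit 0x20092) (nat_lit 0) (p (nat_lit 0x10012) (nat_lit 0) pn)))))))))))))))))))))))))))))))))))))) :=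
  Cl.node (nat_lit 0x81) (nat_lit 2) (by decide +kernel) (ClAll.succ (ClAll.succ ClAll.zero s82) s83)

def n1 : Cl (O (nat_lit 3)) (R (nat_lit 104465))
    (p (nat_lit 0x111) (nat_lit 1) (p (nat_lit 0x41) (nat_lit 0) (p (nat_lit 0x8d0c8e0c0d9a) (nat_lit 0) (p (nat_lit 0xc8c0d8b8d1a) (nat_lit 0) (p (nat_lit 0x8c0b8d0b0a9a) (nat_lit 0) (p (nat_lit 0xb8b0c8a8a1a) (nat_lit 0) (p (nat_lit 0x2a825aa8258b0c0a0b8a) (nat_lit 0) (p (nat_lit 0x2a825aa8258a8b89890a) (nat_lit 0) (p (nat_lit 0xb0014) (nat_lit 1) (p (nat_lit 0x20000c) (nat_lit 0) (p (nat_lit 0x200004) (nat_lit 0) (p (nat_lit 0xd1) (nat_lit 1) (p (nat_lit 0x109) (nat_lit 1) (p (nat_lit 0x101) (nat_lit 0) (p (nat_lit 0x119) (nat_lit 0) (p (nat_lit 0xc9) (nat_lit 0) (p (nat_lit 0x89) (nat_lit 1) (p (nat_lit 0x41) (nat_lit 0) (p (nat_lit 0x8a098b090a9a) (nat_lit 0) (p (nat_lit 0x9890a888a1a) (nat_lit 0) (p (nat_lit 0x89088a08079a)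 (nat_lit 0) (p (nat_lit 0x8880987871a) (nat_lit 0) (p (nat_lit 0x80000800080907088a) (nat_lit 0) (p (nat_lit 0x80000800078886860a) (nat_lit 0) (p (nat_lit 0x8688060782) (nat_lit 0) (p (nat_lit 0x607858702) (nat_lit 0) (p (nat_lit 0x8587050482) (nat_lit 0) (p (nat_lit 0x506848402) (nat_lit 0) (p (nat_lit 0x160014) (nat_lit 0) (p (nat_lit 0x50612) (nat_lit 0) (p (nat_lit 0x40592) (nat_lit 0) (p (nat_lit 0x40492) (nat_lit 0) (p (nat_lit 0x30412) (nat_lit 0) (p (nat_lit 0x30212) (nat_lit 0) (p (nat_lit 0x20192) (nat_lit 0) (p (nat_lit 0x20092) (nat_lit 0) (p (nat_lit 0x10012) (nat_lit 0) pn))))))))))))))))))))))))))))))))))))) :=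
  Cl.node (nat_lit 0x89) (nat_lit 2) (by decide +kernel) (ClAll.succ (ClAll.succ ClAll.zero n0) s84)

def n2 : Cl (O (nat_lit 3)) (R (nat_lit 104465))
    (p (nat_lit 0x81) (nat_lit 0) (p (nat_lit 0x109) (nat_lit 1) (p (nat_lit 0x8d0c8e0c0d9a) (nat_lit 0) (p (nat_lit 0xc8c0d8b8d1a) (nat_lit 0) (p (nat_lit 0x8c0b8d0b0a9a) (nat_lit 0) (p (nat_lit 0xb8b0c8a8a1a) (nat_lit 0) (p (nat_lit 0x2a825aa8258b0c0a0b8a) (nat_lit 0) (p (nat_lit 0x2a825aa8258a8b89890a) (nat_lit 0) (p (nat_lit 0xb0014) (nat_lit 1) (p (nat_lit 0x20000c) (nat_lit 0) (p (nat_lit 0x200004) (nat_lit 0) (p (nat_lit 0xd1) (nat_lit 1) (p (nat_lit 0xc1) (nat_lit 0) (p (nat_lit 0x101) (nat_lit 1) (p (nat_lit 0x119) (nat_lit 0) (p (nat_lit 0xc9) (nat_lit 0) (p (nat_lit 0x89) (nat_lit 1) (p (nat_lit 0x41) (nat_lit 0) (p (nat_lit 0x8a098b090a9a) (nat_lit 0) (p (nat_lit 0x9890a888a1a) (nat_lit 0) (p (nat_lit 0x89088a08079a)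 (nat_lit 0) (p (nat_lit 0x8880987871a) (nat_lit 0) (p (nat_lit 0x80000800080907088a) (nat_lit 0) (p (nat_lit 0x80000800078886860a) (nat_lit 0) (p (nat_lit 0x8688060782) (nat_lit 0) (p (nat_lit 0x607858702) (nat_lit 0) (p (nat_lit 0x8587050482) (nat_lit 0) (p (nat_lit 0x506848402) (nat_lit 0) (p (nat_lit 0x160014) (nat_lit 0) (p (nat_lit 0x50612) (nat_lit 0) (p (nat_lit 0x40592) (nat_lit 0) (p (nat_lit 0x40492) (nat_lit 0) (p (nat_lit 0x30412) (nat_lit 0) (p (nat_lit 0x30212) (nat_lit 0) (p (nat_lit 0x20192) (nat_lit 0) (p (nat_lit 0x20092) (nat_lit 0) (p (nat_lit 0x10012) (nat_lit 0) pn))))))))))))))))))))))))))))))))))))) :=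
  Cl.node (nat_lit 0x89) (nat_lit 2) (by decide +kernel) (ClAll.succ (ClAll.succ ClAll.zero s97) s98)

def n3 : Cl (O (nat_lit 3)) (R (nat_lit 104465))
    (p (nat_lit 0x81) (nat_lit 0) (p (nat_lit 0xd1) (nat_lit 1) (p (nat_lit 0x8d0c8e0c0d9a) (nat_lit 0) (p (nat_lit 0xc8c0d8b8d1a) (nat_lit 0) (p (nat_lit 0x8c0b8d0b0a9a) (nat_lit 0) (p (nat_lit 0xb8b0c8a8a1a) (nat_lit 0) (p (nat_lit 0x2a825aa8258b0c0a0b8a) (nat_lit 0) (p (nat_lit 0x2a825aa8258a8b89890a) (nat_lit 0) (p (nat_lit 0xb0014) (nat_lit 1) (p (nat_lit 0x20000c) (nat_lit 0) (p (nat_lit 0x200004) (nat_lit 0) (p (nat_lit 0x111) (nat_lit 1) (p (nat_lit 0x101) (nat_lit 0) (p (nat_lit 0xc1) (nat_lit 1) (p (nat_lit 0x119) (nat_lit 1) (p (nat_lit 0xc9) (nat_lit 0) (p (nat_lit 0x89) (nat_lit 1) (p (nat_lit 0x41) (nat_lit 0) (p (nat_lit 0x8a098b090a9a) (nat_lit 0) (p (nat_lit 0x9890a888a1a) (nat_lit 0) (p (nat_lit 0x89088a08079a)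 (nat_lit 0) (p (nat_lit 0x8880987871a) (nat_lit 0) (p (nat_lit 0x80000800080907088a) (nat_lit 0) (p (nat_lit 0x80000800078886860a) (nat_lit 0) (p (nat_lit 0x8688060782) (nat_lit 0) (p (nat_lit 0x607858702) (nat_lit 0) (p (nat_lit 0x8587050482) (nat_lit 0) (p (nat_lit 0x506848402) (nat_lit 0) (p (nat_lit 0x160014) (nat_lit 0) (p (nat_lit 0x50612) (nat_lit 0) (p (nat_lit 0x40592) (nat_lit 0) (p (nat_lit 0x40492) (nat_lit 0) (p (nat_lit 0x30412) (nat_lit 0) (p (nat_lit 0x30212) (nat_lit 0) (p (nat_lit 0x20192) (nat_lit 0) (p (nat_lit 0x20092) (nat_lit 0) (p (nat_lit 0x10012) (nat_lit 0) pn))))))))))))))))))))))))))))))))))))) :=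
  Cl.node (nat_lit 0x89) (nat_lit 2) (by decide +kernel) (ClAll.succ (ClAll.succ ClAll.zero s116) s117)

def n4 : Cl (O (nat_lit 3)) (R (nat_lit 104465))
    (p (nat_lit 0x41) (nat_lit 0) (p (nat_lit 0x8d0c8e0c0d9a) (nat_lit 0) (p (nat_lit 0xc8c0d8b8d1a) (nat_lit 0) (p (nat_lit 0x8c0b8d0b0a9a) (nat_lit 0) (p (nat_lit 0xb8b0c8a8a1a) (nat_lit 0) (p (nat_lit 0x2a825aa8258b0c0a0b8a) (nat_lit 0) (p (nat_lit 0x2a825aa8258a8b89890a) (nat_lit 0) (p (nat_lit 0xb0014) (nat_lit 1) (p (nat_lit 0x20000c) (nat_lit 0) (p (nat_lit 0x200004) (nat_lit 0) (p (nat_lit 0xd1) (nat_lit 0) (p (nat_lit 0x109) (nat_lit 1) (p (nat_lit 0x101) (nat_lit 0) (p (nat_lit 0x119) (nat_lit 0) (p (nat_lit 0xc9) (nat_lit 0) (p (nat_lit 0x89) (nat_lit 1) (p (nat_lit 0x41) (nat_lit 0) (p (nat_lit 0x8a098b090a9a) (nat_lit 0) (p (nat_lit 0x9890a888a1a) (nat_lit 0) (p (nat_lit 0x89088a08079a) (nat_lit 0) (p (nat_lit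 0x8880987871a) (nat_lit 0) (p (nat_lit 0x80000800080907088a) (nat_lit 0) (p (nat_lit 0x80000800078886860a) (nat_lit 0) (p (nat_lit 0x8688060782) (nat_lit 0) (p (nat_lit 0x607858702) (nat_lit 0) (p (nat_lit 0x8587050482) (nat_lit 0) (p (nat_lit 0x506848402) (nat_lit 0) (p (nat_lit 0x160014) (nat_lit 0) (p (nat_lit 0x50612) (nat_lit 0) (p (nat_lit 0x40592) (nat_lit 0) (p (nat_lit 0x40492) (nat_lit 0) (p (nat_lit 0x30412) (nat_lit 0) (p (nat_lit 0x30212) (nat_lit 0) (p (nat_lit 0x20192) (nat_lit 0) (p (nat_lit 0x20092) (nat_lit 0) (p (nat_lit 0x10012) (nat_lit 0) pn)))))))))))))))))))))))))))))))))))) :=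
  Cl.node (nat_lit 0xc9) (nat_lit 2) (by decide +kernel) (ClAll.succ (ClAll.succ ClAll.zero s70) s71)

def n5 : Cl (O (nat_lit 3)) (R (nat_lit 104465))
    (p (nat_lit 0x41) (nat_lit 0) (p (nat_lit 0x8d0c8e0c0d9a) (nat_lit 0) (p (nat_lit 0xc8c0d8b8d1a) (nat_lit 0) (p (nat_lit 0x8c0b8d0b0a9a) (nat_lit 0) (p (nat_lit 0xb8b0c8a8a1a) (nat_lit 0) (p (nat_lit 0x2a825aa8258b0c0a0b8a) (nat_lit 0) (p (nat_lit 0x2a825aa8258a8b89890a) (nat_lit 0) (p (nat_lit 0xb0014) (nat_lit 1) (p (nat_lit 0x20000c) (nat_lit 0) (p (nat_lit 0x200004) (nat_lit 0) (p (nat_lit 0xd1) (nat_lit 1) (p (nat_lit 0x109) (nat_lit 1) (p (nat_lit 0x101) (nat_lit 0) (p (nat_lit 0x119) (nat_lit 0) (p (nat_lit 0xc9) (nat_lit 0) (p (nat_lit 0x89) (nat_lit 1) (p (nat_lit 0x41) (nat_lit 0) (p (nat_lit 0x8a098b090a9a) (nat_lit 0) (p (nat_lit 0x9890a888a1a) (nat_lit 0) (p (nat_lit 0x89088a08079a) (nat_lit 0) (p (nat_lit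 0x8880987871a) (nat_lit 0) (p (nat_lit 0x80000800080907088a) (nat_lit 0) (p (nat_lit 0x80000800078886860a) (nat_lit 0) (p (nat_lit 0x8688060782) (nat_lit 0) (p (nat_lit 0x607858702) (nat_lit 0) (p (nat_lit 0x8587050482) (nat_lit 0) (p (nat_lit 0x506848402) (nat_lit 0) (p (nat_lit 0x160014) (nat_lit 0) (p (nat_lit 0x50612) (nat_lit 0) (p (nat_lit 0x40592) (nat_lit 0) (p (nat_lit 0x40492) (nat_lit 0) (p (nat_lit 0x30412) (nat_lit 0) (p (nat_lit 0x30212) (nat_lit 0) (p (nat_lit 0x20192) (nat_lit 0) (p (nat_lit 0x20092) (nat_lit 0) (p (nat_lit 0x10012) (nat_lit 0) pn)))))))))))))))))))))))))))))))))))) :=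
  Cl.node (nat_lit 0x111) (nat_lit 2) (by decide +kernel) (ClAll.succ (ClAll.succ ClAll.zero s81) n1)

def n6 : Cl (O (nat_lit 3)) (R (nat_lit 104465))
    (p (nat_lit 0x109) (nat_lit 1) (p (nat_lit 0x8d0c8e0c0d9a) (nat_lit 0) (p (nat_lit 0xc8c0d8b8d1a) (nat_lit 0) (p (nat_lit 0x8c0b8d0b0a9a) (nat_lit 0) (p (nat_lit 0xb8b0c8a8a1a) (nat_lit 0) (p (nat_lit 0x2a825aa8258b0c0a0b8a) (nat_lit 0) (p (nat_lit 0x2a825aa8258a8b89890a) (nat_lit 0) (p (nat_lit 0xb0014) (nat_lit 1) (p (nat_lit 0x20000c) (nat_lit 0) (p (nat_lit 0x200004) (nat_lit 0) (p (nat_lit 0xd1) (nat_lit 1) (p (nat_lit 0xc1) (nat_lit 0) (p (nat_lit 0x101) (nat_lit 1) (p (nat_lit 0x119) (nat_lit 0) (p (nat_lit 0xc9) (nat_lit 0) (p (nat_lit 0x89) (nat_lit 1) (p (nat_lit 0x41) (nat_lit 0) (p (nat_lit 0x8a098b090a9a) (nat_lit 0) (p (nat_lit 0x9890a888a1a) (nat_lit 0) (p (nat_lit 0x89088a08079a) (nat_lit 0) (p (nat_lit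 0x8880987871a) (nat_lit 0) (p (nat_lit 0x80000800080907088a) (nat_lit 0) (p (nat_lit 0x80000800078886860a) (nat_lit 0) (p (nat_lit 0x8688060782) (nat_lit 0) (p (nat_lit 0x607858702) (nat_lit 0) (p (nat_lit 0x8587050482) (nat_lit 0) (p (nat_lit 0x506848402) (nat_lit 0) (p (nat_lit 0x160014) (nat_lit 0) (p (nat_lit 0x50612) (nat_lit 0) (p (nat_lit 0x40592) (nat_lit 0) (p (nat_lit 0x40492) (nat_lit 0) (p (nat_lit 0x30412) (nat_lit 0) (p (nat_lit 0x30212) (nat_lit 0) (p (nat_lit 0x20192) (nat_lit 0) (p (nat_lit 0x20092) (nat_lit 0) (p (nat_lit 0x10012) (nat_lit 0) pn)))))))))))))))))))))))))))))))))))) :=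
  Cl.node (nat_lit 0x81) (nat_lit 2) (by decide +kernel) (ClAll.succ (ClAll.succ ClAll.zero n2) s99)

def n7 : Cl (O (nat_lit 3)) (R (nat_lit 104465))
    (p (nat_lit 0x81) (nat_lit 0) (p (nat_lit 0x8d0c8e0c0d9a) (nat_lit 0) (p (nat_lit 0xc8c0d8b8d1a) (nat_lit 0) (p (nat_lit 0x8c0b8d0b0a9a) (nat_lit 0) (p (nat_lit 0xb8b0c8a8a1a) (nat_lit 0) (p (nat_lit 0x2a825aa8258b0c0a0b8a) (nat_lit 0) (p (nat_lit 0x2a825aa8258a8b89890a) (nat_lit 0) (p (nat_lit 0xb0014) (nat_lit 1) (p (nat_lit 0x20000c) (nat_lit 0) (p (nat_lit 0x200004) (nat_lit 0) (p (nat_lit 0x111) (nat_lit 1) (p (nat_lit 0xd1) (nat_lit 1) (p (nat_lit 0xc1) (nat_lit 0) (p (nat_lit 0x119) (nat_lit 1) (p (nat_lit 0xc9) (nat_lit 0) (p (nat_lit 0x89) (nat_lit 1) (p (nat_lit 0x41) (nat_lit 0) (p (nat_lit 0x8a098b090a9a) (nat_lit 0) (p (nat_lit 0x9890a888a1a) (nat_lit 0) (p (nat_lit 0x89088a08079a) (nat_lit 0) (p (nat_lit 0x8880987871a)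 (nat_lit 0) (p (nat_lit 0x80000800080907088a) (nat_lit 0) (p (nat_lit 0x80000800078886860a) (nat_lit 0) (p (nat_lit 0x8688060782) (nat_lit 0) (p (nat_lit 0x607858702) (nat_lit 0) (p (nat_lit 0x8587050482) (nat_lit 0) (p (nat_lit 0x506848402) (nat_lit 0) (p (nat_lit 0x160014) (nat_lit 0) (p (nat_lit 0x50612) (nat_lit 0) (p (nat_lit 0x40592) (nat_lit 0) (p (nat_lit 0x40492) (nat_lit 0) (p (nat_lit 0x30412) (nat_lit 0) (p (nat_lit 0x30212) (nat_lit 0) (p (nat_lit 0x20192) (nat_lit 0) (p (nat_lit 0x20092) (nat_lit 0) (p (nat_lit 0x10012) (nat_lit 0) pn)))))))))))))))))))))))))))))))))))) :=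
  Cl.node (nat_lit 0x89) (nat_lit 2) (by decide +kernel) (ClAll.succ (ClAll.succ ClAll.zero s106) s107)

def n8 : Cl (O (nat_lit 3)) (R (nat_lit 104465))
    (p (nat_lit 0xd1) (nat_lit 1) (p (nat_lit 0x8d0c8e0c0d9a) (nat_lit 0) (p (nat_lit 0xc8c0d8b8d1a) (nat_lit 0) (p (nat_lit 0x8c0b8d0b0a9a) (nat_lit 0) (p (nat_lit 0xb8b0c8a8a1a) (nat_lit 0) (p (nat_lit 0x2a825aa8258b0c0a0b8a) (nat_lit 0) (p (nat_lit 0x2a825aa8258a8b89890a) (nat_lit 0) (p (nat_lit 0xb0014) (nat_lit 1) (p (nat_lit 0x20000c) (nat_lit 0) (p (nat_lit 0x200004) (nat_lit 0) (p (nat_lit 0x111) (nat_lit 1) (p (nat_lit 0x101) (nat_lit 0) (p (nat_lit 0xc1) (nat_lit 1) (p (nat_lit 0x119) (nat_lit 1) (p (nat_lit 0xc9) (nat_lit 0) (p (nat_lit 0x89) (nat_lit 1) (p (nat_lit 0x41) (nat_lit 0) (p (nat_lit 0x8a098b090a9a) (nat_lit 0) (p (nat_lit 0x9890a888a1a) (nat_lit 0) (p (nat_lit 0x89088a08079a) (nat_lit 0) (p (nat_lit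 0x8880987871a) (nat_lit 0) (p (nat_lit 0x80000800080907088a) (nat_lit 0) (p (nat_lit 0x80000800078886860a) (nat_lit 0) (p (nat_lit 0x8688060782) (nat_lit 0) (p (nat_lit 0x607858702) (nat_lit 0) (p (nat_lit 0x8587050482) (nat_lit 0) (p (nat_lit 0x506848402) (nat_lit 0) (p (nat_lit 0x160014) (nat_lit 0) (p (nat_lit 0x50612) (nat_lit 0) (p (nat_lit 0x40592) (nat_lit 0) (p (nat_lit 0x40492) (nat_lit 0) (p (nat_lit 0x30412) (nat_lit 0) (p (nat_lit 0x30212) (nat_lit 0) (p (nat_lit 0x20192) (nat_lit 0) (p (nat_lit 0x20092) (nat_lit 0) (p (nat_lit 0x10012) (nat_lit 0) pn)))))))))))))))))))))))))))))))))))) :=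
  Cl.node (nat_lit 0x81) (nat_lit 2) (by decide +kernel) (ClAll.succ (ClAll.succ ClAll.zero n3) s118)

def n9 : Cl (O (nat_lit 3)) (R (nat_lit 104465))
    (p (nat_lit 0x8d0c8e0c0d9a) (nat_lit 0) (p (nat_lit 0xc8c0d8b8d1a) (nat_lit 0) (p (nat_lit 0x8c0b8d0b0a9a) (nat_lit 0) (p (nat_lit 0xb8b0c8a8a1a) (nat_lit 0) (p (nat_lit 0x2a825aa8258b0c0a0b8a) (nat_lit 0) (p (nat_lit 0x2a825aa8258a8b89890a) (nat_lit 0) (p (nat_lit 0xb0014) (nat_lit 1) (p (nat_lit 0x20000c) (nat_lit 0) (p (nat_lit 0x200004) (nat_lit 0) (p (nat_lit 0xd1) (nat_lit 0) (p (nat_lit 0x109) (nat_lit 1) (p (nat_lit 0x101) (nat_lit 0) (p (nat_lit 0x119) (nat_lit 0) (p (nat_lit 0xc9) (nat_lit 0) (p (nat_lit 0x89) (nat_lit 1) (p (nat_lit 0x41) (nat_lit 0) (p (nat_lit 0x8a098b090a9a) (nat_lit 0) (p (nat_lit 0x9890a888a1a) (nat_lit 0) (p (nat_lit 0x89088a08079a) (nat_lit 0) (p (nat_lit 0x8880987871a) (nat_lit 0) (p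 (nat_lit 0x80000800080907088a) (nat_lit 0) (p (nat_lit 0x80000800078886860a) (nat_lit 0) (p (nat_lit 0x8688060782) (nat_lit 0) (p (nat_lit 0x607858702) (nat_lit 0) (p (nat_lit 0x8587050482) (nat_lit 0) (p (nat_lit 0x506848402) (nat_lit 0) (p (nat_lit 0x160014) (nat_lit 0) (p (nat_lit 0x50612) (nat_lit 0) (p (nat_lit 0x40592) (nat_lit 0) (p (nat_lit 0x40492) (nat_lit 0) (p (nat_lit 0x30412) (nat_lit 0) (p (nat_lit 0x30212) (nat_lit 0) (p (nat_lit 0x20192) (nat_lit 0) (p (nat_lit 0x20092) (nat_lit 0) (p (nat_lit 0x10012) (nat_lit 0) pn))))))))))))))))))))))))))))))))))) :=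
  Cl.node (nat_lit 0x41) (nat_lit 2) (by decide +kernel) (ClAll.succ (ClAll.succ ClAll.zero n4) s72)

def n10 : Cl (O (nat_lit 3)) (R (nat_lit 104465))
    (p (nat_lit 0x8d0c8e0c0d9a) (nat_lit 0) (p (nat_lit 0xc8c0d8b8d1a) (nat_lit 0) (p (nat_lit 0x8c0b8d0b0a9a) (nat_lit 0) (p (nat_lit 0xb8b0c8a8a1a) (nat_lit 0) (p (nat_lit 0x2a825aa8258b0c0a0b8a) (nat_lit 0) (p (nat_lit 0x2a825aa8258a8b89890a) (nat_lit 0) (p (nat_lit 0xb0014) (nat_lit 1) (p (nat_lit 0x20000c) (nat_lit 0) (p (nat_lit 0x200004) (nat_lit 0) (p (nat_lit 0xd1) (nat_lit 1) (p (nat_lit 0x109) (nat_lit 1) (p (nat_lit 0x101) (nat_lit 0) (p (nat_lit 0x119) (nat_lit 0) (p (nat_lit 0xc9) (nat_lit 0) (p (nat_lit 0x89) (nat_lit 1) (p (nat_lit 0x41) (nat_lit 0) (p (nat_lit 0x8a098b090a9a) (nat_lit 0) (p (nat_lit 0x9890a888a1a) (nat_lit 0) (p (nat_lit 0x89088a08079a) (nat_lit 0) (p (nat_lit 0x8880987871a) (nat_lit 0) (p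 (nat_lit 0x80000800080907088a) (nat_lit 0) (p (nat_lit 0x80000800078886860a) (nat_lit 0) (p (nat_lit 0x8688060782) (nat_lit 0) (p (nat_lit 0x607858702) (nat_lit 0) (p (nat_lit 0x8587050482) (nat_lit 0) (p (nat_lit 0x506848402) (nat_lit 0) (p (nat_lit 0x160014) (nat_lit 0) (p (nat_lit 0x50612) (nat_lit 0) (p (nat_lit 0x40592) (nat_lit 0) (p (nat_lit 0x40492) (nat_lit 0) (p (nat_lit 0x30412) (nat_lit 0) (p (nat_lit 0x30212) (nat_lit 0) (p (nat_lit 0x20192) (nat_lit 0) (p (nat_lit 0x20092) (nat_lit 0) (p (nat_lit 0x10012) (nat_lit 0) pn))))))))))))))))))))))))))))))))))) :=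
  Cl.node (nat_lit 0x41) (nat_lit 2) (by decide +kernel) (ClAll.succ (ClAll.succ ClAll.zero n5) s85)

def n11 : Cl (O (nat_lit 3)) (R (nat_lit 104465))
    (p (nat_lit 0x8d0c8e0c0d9a) (nat_lit 0) (p (nat_lit 0xc8c0d8b8d1a) (nat_lit 0) (p (nat_lit 0x8c0b8d0b0a9a) (nat_lit 0) (p (nat_lit 0xb8b0c8a8a1a) (nat_lit 0) (p (nat_lit 0x2a825aa8258b0c0a0b8a) (nat_lit 0) (p (nat_lit 0x2a825aa8258a8b89890a) (nat_lit 0) (p (nat_lit 0xb0014) (nat_lit 1) (p (nat_lit 0x20000c) (nat_lit 0) (p (nat_lit 0x200004) (nat_lit 0) (p (nat_lit 0xd1) (nat_lit 1) (p (nat_lit 0xc1) (nat_lit 0) (p (nat_lit 0x101) (nat_lit 1) (p (nat_lit 0x119) (nat_lit 0) (p (nat_lit 0xc9) (nat_lit 0) (p (nat_lit 0x89) (nat_lit 1) (p (nat_lit 0x41) (nat_lit 0) (p (nat_lit 0x8a098b090a9a) (nat_lit 0) (p (nat_lit 0x9890a888a1a) (nat_lit 0) (p (nat_lit 0x89088a08079a) (nat_lit 0) (p (nat_lit 0x8880987871a) (nat_lit 0) (p (nat_lit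 0x80000800080907088a) (nat_lit 0) (p (nat_lit 0x80000800078886860a) (nat_lit 0) (p (nat_lit 0x8688060782) (nat_lit 0) (p (nat_lit 0x607858702) (nat_lit 0) (p (nat_lit 0x8587050482) (nat_lit 0) (p (nat_lit 0x506848402) (nat_lit 0) (p (nat_lit 0x160014) (nat_lit 0) (p (nat_lit 0x50612) (nat_lit 0) (p (nat_lit 0x40592) (nat_lit 0) (p (nat_lit 0x40492) (nat_lit 0) (p (nat_lit 0x30412) (nat_lit 0) (p (nat_lit 0x30212) (nat_lit 0) (p (nat_lit 0x20192) (nat_lit 0) (p (nat_lit 0x20092) (nat_lit 0) (p (nat_lit 0x10012) (nat_lit 0) pn))))))))))))))))))))))))))))))))))) :=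
  Cl.node (nat_lit 0x109) (nat_lit 2) (by decide +kernel) (ClAll.succ (ClAll.succ ClAll.zero s96) n6)

def n12 : Cl (O (nat_lit 3)) (R (nat_lit 104465))
    (p (nat_lit 0x8d0c8e0c0d9a) (nat_lit 0) (p (nat_lit 0xc8c0d8b8d1a) (nat_lit 0) (p (nat_lit 0x8c0b8d0b0a9a) (nat_lit 0) (p (nat_lit 0xb8b0c8a8a1a) (nat_lit 0) (p (nat_lit 0x2a825aa8258b0c0a0b8a) (nat_lit 0) (p (nat_lit 0x2a825aa8258a8b89890a) (nat_lit 0) (p (nat_lit 0xb0014) (nat_lit 1) (p (nat_lit 0x20000c) (nat_lit 0) (p (nat_lit 0x200004) (nat_lit 0) (p (nat_lit 0x111) (nat_lit 1) (p (nat_lit 0xd1) (nat_lit 1) (p (nat_lit 0xc1) (nat_lit 0) (p (nat_lit 0x119) (nat_lit 1) (p (nat_lit 0xc9) (nat_lit 0) (p (nat_lit 0x89) (nat_lit 1) (p (nat_lit 0x41) (nat_lit 0) (p (nat_lit 0x8a098b090a9a) (nat_lit 0) (p (nat_lit 0x9890a888a1a) (nat_lit 0) (p (nat_lit 0x89088a08079a) (nat_lit 0) (p (nat_lit 0x8880987871a) (nat_lit 0) (p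 (nat_lit 0x80000800080907088a) (nat_lit 0) (p (nat_lit 0x80000800078886860a) (nat_lit 0) (p (nat_lit 0x8688060782) (nat_lit 0) (p (nat_lit 0x607858702) (nat_lit 0) (p (nat_lit 0x8587050482) (nat_lit 0) (p (nat_lit 0x506848402) (nat_lit 0) (p (nat_lit 0x160014) (nat_lit 0) (p (nat_lit 0x50612) (nat_lit 0) (p (nat_lit 0x40592) (nat_lit 0) (p (nat_lit 0x40492) (nat_lit 0) (p (nat_lit 0x30412) (nat_lit 0) (p (nat_lit 0x30212) (nat_lit 0) (p (nat_lit 0x20192) (nat_lit 0) (p (nat_lit 0x20092) (nat_lit 0) (p (nat_lit 0x10012) (nat_lit 0) pn))))))))))))))))))))))))))))))))))) :=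
  Cl.node (nat_lit 0x81) (nat_lit 2) (by decide +kernel) (ClAll.succ (ClAll.succ ClAll.zero n7) s108)

def n13 : Cl (O (nat_lit 3)) (R (nat_lit 104465))
    (p (nat_lit 0x8d0c8e0c0d9a) (nat_lit 0) (p (nat_lit 0xc8c0d8b8d1a) (nat_lit 0) (p (nat_lit 0x8c0b8d0b0a9a) (nat_lit 0) (p (nat_lit 0xb8b0c8a8a1a) (nat_lit 0) (p (nat_lit 0x2a825aa8258b0c0a0b8a) (nat_lit 0) (p (nat_lit 0x2a825aa8258a8b89890a) (nat_lit 0) (p (nat_lit 0xb0014) (nat_lit 1) (p (nat_lit 0x20000c) (nat_lit 0) (p (nat_lit 0x200004) (nat_lit 0) (p (nat_lit 0x111) (nat_lit 1) (p (nat_lit 0x101) (nat_lit 0) (p (nat_lit 0xc1) (nat_lit 1) (p (nat_lit 0x119) (nat_lit 1) (p (nat_lit 0xc9) (nat_lit 0) (p (nat_lit 0x89) (nat_lit 1) (p (nat_lit 0x41) (nat_lit 0) (p (nat_lit 0x8a098b090a9a) (nat_lit 0) (p (nat_lit 0x9890a888a1a) (nat_lit 0) (p (nat_lit 0x89088a08079a) (nat_lit 0) (p (nat_lit 0x8880987871a) (nat_lit 0) (p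 (nat_lit 0x80000800080907088a) (nat_lit 0) (p (nat_lit 0x80000800078886860a) (nat_lit 0) (p (nat_lit 0x8688060782) (nat_lit 0) (p (nat_lit 0x607858702) (nat_lit 0) (p (nat_lit 0x8587050482) (nat_lit 0) (p (nat_lit 0x506848402) (nat_lit 0) (p (nat_lit 0x160014) (nat_lit 0) (p (nat_lit 0x50612) (nat_lit 0) (p (nat_lit 0x40592) (nat_lit 0) (p (nat_lit 0x40492) (nat_lit 0) (p (nat_lit 0x30412) (nat_lit 0) (p (nat_lit 0x30212) (nat_lit 0) (p (nat_lit 0x20192) (nat_lit 0) (p (nat_lit 0x20092) (nat_lit 0) (p (nat_lit 0x10012) (nat_lit 0) pn))))))))))))))))))))))))))))))))))) :=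
  Cl.node (nat_lit 0xd1) (nat_lit 2) (by decide +kernel) (ClAll.succ (ClAll.succ ClAll.zero s115) n8)

def n14 : Cl (O (nat_lit 3)) (R (nat_lit 104465))
    (p (nat_lit 0xc8c0d8b8d1a) (nat_lit 0) (p (nat_lit 0x8c0b8d0b0a9a) (nat_lit 0) (p (nat_lit 0xb8b0c8a8a1a) (nat_lit 0) (p (nat_lit 0x2a825aa8258b0c0a0b8a) (nat_lit 0) (p (nat_lit 0x2a825aa8258a8b89890a) (nat_lit 0) (p (nat_lit 0xb0014) (nat_lit 1) (p (nat_lit 0x20000c) (nat_lit 0) (p (nat_lit 0x200004) (nat_lit 0) (p (nat_lit 0xd1) (nat_lit 0) (p (nat_lit 0x109) (nat_lit 1) (p (nat_lit 0x101) (nat_lit 0) (p (nat_lit 0x119) (nat_lit 0) (p (nat_lit 0xc9) (nat_lit 0) (p (nat_lit 0x89) (nat_lit 1) (p (nat_lit 0x41) (nat_lit 0) (p (nat_lit 0x8a098b090a9a) (nat_lit 0) (p (nat_lit 0x9890a888a1a) (nat_lit 0) (p (nat_lit 0x89088a08079a) (nat_lit 0) (p (nat_lit 0x8880987871a) (nat_lit 0) (p (nat_lit 0x80000800080907088a) (nat_lit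 0) (p (nat_lit 0x80000800078886860a) (nat_lit 0) (p (nat_lit 0x8688060782) (nat_lit 0) (p (nat_lit 0x607858702) (nat_lit 0) (p (nat_lit 0x8587050482) (nat_lit 0) (p (nat_lit 0x506848402) (nat_lit 0) (p (nat_lit 0x160014) (nat_lit 0) (p (nat_lit 0x50612) (nat_lit 0) (p (nat_lit 0x40592) (nat_lit 0) (p (nat_lit 0x40492) (nat_lit 0) (p (nat_lit 0x30412) (nat_lit 0) (p (nat_lit 0x30212) (nat_lit 0) (p (nat_lit 0x20192) (nat_lit 0) (p (nat_lit 0x20092) (nat_lit 0) (p (nat_lit 0x10012) (nat_lit 0) pn)))))))))))))))))))))))))))))))))) :=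
  Cl.node (nat_lit 0x8d0c8e0c0d9a) (nat_lit 1) (by decide +kernel) (ClAll.succ ClAll.zero n9)

def n15 : Cl (O (nat_lit 3)) (R (nat_lit 104465))
    (p (nat_lit 0xc8c0d8b8d1a) (nat_lit 0) (p (nat_lit 0x8c0b8d0b0a9a) (nat_lit 0) (p (nat_lit 0xb8b0c8a8a1a) (nat_lit 0) (p (nat_lit 0x2a825aa8258b0c0a0b8a) (nat_lit 0) (p (nat_lit 0x2a825aa8258a8b89890a) (nat_lit 0) (p (nat_lit 0xb0014) (nat_lit 1) (p (nat_lit 0x20000c) (nat_lit 0) (p (nat_lit 0x200004) (nat_lit 0) (p (nat_lit 0xd1) (nat_lit 1) (p (nat_lit 0x109) (nat_lit 1) (p (nat_lit 0x101) (nat_lit 0) (p (nat_lit 0x119) (nat_lit 0) (p (nat_lit 0xc9) (nat_lit 0) (p (nat_lit 0x89) (nat_lit 1) (p (nat_lit 0x41) (nat_lit 0) (p (nat_lit 0x8a098b090a9a) (nat_lit 0) (p (nat_lit 0x9890a888a1a) (nat_lit 0) (p (nat_lit 0x89088a08079a) (nat_lit 0) (p (nat_lit 0x8880987871a) (nat_lit 0) (p (nat_lit 0x80000800080907088a) (nat_lit 0) (p (nat_lit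 0x80000800078886860a) (nat_lit 0) (p (nat_lit 0x8688060782) (nat_lit 0) (p (nat_lit 0x607858702) (nat_lit 0) (p (nat_lit 0x8587050482) (nat_lit 0) (p (nat_lit 0x506848402) (nat_lit 0) (p (nat_lit 0x160014) (nat_lit 0) (p (nat_lit 0x50612) (nat_lit 0) (p (nat_lit 0x40592) (nat_lit 0) (p (nat_lit 0x40492) (nat_lit 0) (p (nat_lit 0x30412) (nat_lit 0) (p (nat_lit 0x30212) (nat_lit 0) (p (nat_lit 0x20192) (nat_lit 0) (p (nat_lit 0x20092) (nat_lit 0) (p (nat_lit 0x10012) (nat_lit 0) pn)))))))))))))))))))))))))))))))))) :=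
  Cl.node (nat_lit 0x8d0c8e0c0d9a) (nat_lit 1) (by decide +kernel) (ClAll.succ ClAll.zero n10)

def n16 : Cl (O (nat_lit 3)) (R (nat_lit 104465))
    (p (nat_lit 0xc8c0d8b8d1a) (nat_lit 0) (p (nat_lit 0x8c0b8d0b0a9a) (nat_lit 0) (p (nat_lit 0xb8b0c8a8a1a) (nat_lit 0) (p (nat_lit 0x2a825aa8258b0c0a0b8a) (nat_lit 0) (p (nat_lit 0x2a825aa8258a8b89890a) (nat_lit 0) (p (nat_lit 0xb0014) (nat_lit 1) (p (nat_lit 0x20000c) (nat_lit 0) (p (nat_lit 0x200004) (nat_lit 0) (p (nat_lit 0xd1) (nat_lit 1) (p (nat_lit 0xc1) (nat_lit 0) (p (nat_lit 0x101) (nat_lit 1) (p (nat_lit 0x119) (nat_lit 0) (p (nat_lit 0xc9) (nat_lit 0) (p (nat_lit 0x89) (nat_lit 1) (p (nat_lit 0x41) (nat_lit 0) (p (nat_lit 0x8a098b090a9a) (nat_lit 0) (p (nat_lit 0x9890a888a1a) (nat_lit 0) (p (nat_lit 0x89088a08079a) (nat_lit 0) (p (nat_lit 0x8880987871a) (nat_lit 0) (p (nat_lit 0x80000800080907088a) (nat_lit 0) (p (nat_lit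 0x80000800078886860a) (nat_lit 0) (p (nat_lit 0x8688060782) (nat_lit 0) (p (nat_lit 0x607858702) (nat_lit 0) (p (nat_lit 0x8587050482) (nat_lit 0) (p (nat_lit 0x506848402) (nat_lit 0) (p (nat_lit 0x160014) (nat_lit 0) (p (nat_lit 0x50612) (nat_lit 0) (p (nat_lit 0x40592) (nat_lit 0) (p (nat_lit 0x40492) (nat_lit 0) (p (nat_lit 0x30412) (nat_lit 0) (p (nat_lit 0x30212) (nat_lit 0) (p (nat_lit 0x20192) (nat_lit 0) (p (nat_lit 0x20092) (nat_lit 0) (p (nat_lit 0x10012) (nat_lit 0) pn)))))))))))))))))))))))))))))))))) :=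
  Cl.node (nat_lit 0x8d0c8e0c0d9a) (nat_lit 1) (by decide +kernel) (ClAll.succ ClAll.zero n11)

def n17 : Cl (O (nat_lit 3)) (R (nat_lit 104465))
    (p (nat_lit 0xc8c0d8b8d1a) (nat_lit 0) (p (nat_lit 0x8c0b8d0b0a9a) (nat_lit 0) (p (nat_lit 0xb8b0c8a8a1a) (nat_lit 0) (p (nat_lit 0x2a825aa8258b0c0a0b8a) (nat_lit 0) (p (nat_lit 0x2a825aa8258a8b89890a) (nat_lit 0) (p (nat_lit 0xb0014) (nat_lit 1) (p (nat_lit 0x20000c) (nat_lit 0) (p (nat_lit 0x200004) (nat_lit 0) (p (nat_lit 0x111) (nat_lit 1) (p (nat_lit 0xd1) (nat_lit 1) (p (nat_lit 0xc1) (nat_lit 0) (p (nat_lit 0x119) (nat_lit 1) (p (nat_lit 0xc9) (nat_lit 0) (p (nat_lit 0x89) (nat_lit 1) (p (nat_lit 0x41) (nat_lit 0) (p (nat_lit 0x8a098b090a9a) (nat_lit 0) (p (nat_lit 0x9890a888a1a) (nat_lit 0) (p (nat_lit 0x89088a08079a) (nat_lit 0) (p (nat_lit 0x8880987871a) (nat_lit 0) (p (nat_lit 0x80000800080907088a) (nat_lit 0) (p (nat_lit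 0x80000800078886860a) (nat_lit 0) (p (nat_lit 0x8688060782) (nat_lit 0) (p (nat_lit 0x607858702) (nat_lit 0) (p (nat_lit 0x8587050482) (nat_lit 0) (p (nat_lit 0x506848402) (nat_lit 0) (p (nat_lit 0x160014) (nat_lit 0) (p (nat_lit 0x50612) (nat_lit 0) (p (nat_lit 0x40592) (nat_lit 0) (p (nat_lit 0x40492) (nat_lit 0) (p (nat_lit 0x30412) (nat_lit 0) (p (nat_lit 0x30212) (nat_lit 0) (p (nat_lit 0x20192) (nat_lit 0) (p (nat_lit 0x20092) (nat_lit 0) (p (nat_lit 0x10012) (nat_lit 0) pn)))))))))))))))))))))))))))))))))) :=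
  Cl.node (nat_lit 0x8d0c8e0c0d9a) (nat_lit 1) (by decide +kernel) (ClAll.succ ClAll.zero n12)

def n18 : Cl (O (nat_lit 3)) (R (nat_lit 104465))
    (p (nat_lit 0xc8c0d8b8d1a) (nat_lit 0) (p (nat_lit 0x8c0b8d0b0a9a) (nat_lit 0) (p (nat_lit 0xb8b0c8a8a1a) (nat_lit 0) (p (nat_lit 0x2a825aa8258b0c0a0b8a) (nat_lit 0) (p (nat_lit 0x2a825aa8258a8b89890a) (nat_lit 0) (p (nat_lit 0xb0014) (nat_lit 1) (p (nat_lit 0x20000c) (nat_lit 0) (p (nat_lit 0x200004) (nat_lit 0) (p (nat_lit 0x111) (nat_lit 1) (p (nat_lit 0x101) (nat_lit 0) (p (nat_lit 0xc1) (nat_lit 1) (p (nat_lit 0x119) (nat_lit 1) (p (nat_lit 0xc9) (nat_lit 0) (p (nat_lit 0x89) (nat_lit 1) (p (nat_lit 0x41) (nat_lit 0) (p (nat_lit 0x8a098b090a9a) (nat_lit 0) (p (nat_lit 0x9890a888a1a) (nat_lit 0) (p (nat_lit 0x89088a08079a) (nat_lit 0) (p (nat_lit 0x8880987871a) (nat_lit 0) (p (nat_lit 0x80000800080907088a) (nat_lit 0) (p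 (nat_lit 0x80000800078886860a) (nat_lit 0) (p (nat_lit 0x8688060782) (nat_lit 0) (p (nat_lit 0x607858702) (nat_lit 0) (p (nat_lit 0x8587050482) (nat_lit 0) (p (nat_lit 0x506848402) (nat_lit 0) (p (nat_lit 0x160014) (nat_lit 0) (p (nat_lit 0x50612) (nat_lit 0) (p (nat_lit 0x40592) (nat_lit 0) (p (nat_lit 0x40492) (nat_lit 0) (p (nat_lit 0x30412) (nat_lit 0) (p (nat_lit 0x30212) (nat_lit 0) (p (nat_lit 0x20192) (nat_lit 0) (p (nat_lit 0x20092) (nat_lit 0) (p (nat_lit 0x10012) (nat_lit 0) pn)))))))))))))))))))))))))))))))))) :=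
  Cl.node (nat_lit 0x8d0c8e0c0d9a) (nat_lit 1) (by decide +kernel) (ClAll.succ ClAll.zero n13)

def n19 : Cl (O (nat_lit 3)) (R (nat_lit 104465))
    (p (nat_lit 0x8c0b8d0b0a9a) (nat_lit 0) (p (nat_lit 0xb8b0c8a8a1a) (nat_lit 0) (p (nat_lit 0x2a825aa8258b0c0a0b8a) (nat_lit 0) (p (nat_lit 0x2a825aa8258a8b89890a) (nat_lit 0) (p (nat_lit 0xb0014) (nat_lit 1) (p (nat_lit 0x20000c) (nat_lit 0) (p (nat_lit 0x200004) (nat_lit 0) (p (nat_lit 0xd1) (nat_lit 0) (p (nat_lit 0x109) (nat_lit 1) (p (nat_lit 0x101) (nat_lit 0) (p (nat_lit 0x119) (nat_lit 0) (p (nat_lit 0xc9) (nat_lit 0) (p (nat_lit 0x89) (nat_lit 1) (p (nat_lit 0x41) (nat_lit 0) (p (nat_lit 0x8a098b090a9a) (nat_lit 0) (p (nat_lit 0x9890a888a1a) (nat_lit 0) (p (nat_lit 0x89088a08079a) (nat_lit 0) (p (nat_lit 0x8880987871a) (nat_lit 0) (p (nat_lit 0x80000800080907088a) (nat_lit 0) (p (nat_lit 0x80000800078886860a) (nat_lit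 0) (p (nat_lit 0x8688060782) (nat_lit 0) (p (nat_lit 0x607858702) (nat_lit 0) (p (nat_lit 0x8587050482) (nat_lit 0) (p (nat_lit 0x506848402) (nat_lit 0) (p (nat_lit 0x160014) (nat_lit 0) (p (nat_lit 0x50612) (nat_lit 0) (p (nat_lit 0x40592) (nat_lit 0) (p (nat_lit 0x40492) (nat_lit 0) (p (nat_lit 0x30412) (nat_lit 0) (p (nat_lit 0x30212) (nat_lit 0) (p (nat_lit 0x20192) (nat_lit 0) (p (nat_lit 0x20092) (nat_lit 0) (p (nat_lit 0x10012) (nat_lit 0) pn))))))))))))))))))))))))))))))))) :=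
  Cl.node (nat_lit 0xc8c0d8b8d1a) (nat_lit 1) (by decide +kernel) (ClAll.succ ClAll.zero n14)

def n20 : Cl (O (nat_lit 3)) (R (nat_lit 104465))
    (p (nat_lit 0x8c0b8d0b0a9a) (nat_lit 0) (p (nat_lit 0xb8b0c8a8a1a) (nat_lit 0) (p (nat_lit 0x2a825aa8258b0c0a0b8a) (nat_lit 0) (p (nat_lit 0x2a825aa8258a8b89890a) (nat_lit 0) (p (nat_lit 0xb0014) (nat_lit 1) (p (nat_lit 0x20000c) (nat_lit 0) (p (nat_lit 0x200004) (nat_lit 0) (p (nat_lit 0xd1) (nat_lit 1) (p (nat_lit 0x109) (nat_lit 1) (p (nat_lit 0x101) (nat_lit 0) (p (nat_lit 0x119) (nat_lit 0) (p (nat_lit 0xc9) (nat_lit 0) (p (nat_lit 0x89) (nat_lit 1) (p (nat_lit 0x41) (nat_lit 0) (p (nat_lit 0x8a098b090a9a) (nat_lit 0) (p (nat_lit 0x9890a888a1a) (nat_lit 0) (p (nat_lit 0x89088a08079a) (nat_lit 0) (p (nat_lit 0x8880987871a) (nat_lit 0) (p (nat_lit 0x80000800080907088a) (nat_lit 0) (p (nat_lit 0x80000800078886860a) (nat_lit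 0) (p (nat_lit 0x8688060782) (nat_lit 0) (p (nat_lit 0x607858702) (nat_lit 0) (p (nat_lit 0x8587050482) (nat_lit 0) (p (nat_lit 0x506848402) (nat_lit 0) (p (nat_lit 0x160014) (nat_lit 0) (p (nat_lit 0x50612) (nat_lit 0) (p (nat_lit 0x40592) (nat_lit 0) (p (nat_lit 0x40492) (nat_lit 0) (p (nat_lit 0x30412) (nat_lit 0) (p (nat_lit 0x30212) (nat_lit 0) (p (nat_lit 0x20192) (nat_lit 0) (p (nat_lit 0x20092) (nat_lit 0) (p (nat_lit 0x10012) (nat_lit 0) pn))))))))))))))))))))))))))))))))) :=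
  Cl.node (nat_lit 0xc8c0d8b8d1a) (nat_lit 1) (by decide +kernel) (ClAll.succ ClAll.zero n15)

def n21 : Cl (O (nat_lit 3)) (R (nat_lit 104465))
    (p (nat_lit 0x8c0b8d0b0a9a) (nat_lit 0) (p (nat_lit 0xb8b0c8a8a1a) (nat_lit 0) (p (nat_lit 0x2a825aa8258b0c0a0b8a) (nat_lit 0) (p (nat_lit 0x2a825aa8258a8b89890a) (nat_lit 0) (p (nat_lit 0xb0014) (nat_lit 1) (p (nat_lit 0x20000c) (nat_lit 0) (p (nat_lit 0x200004) (nat_lit 0) (p (nat_lit 0xd1) (nat_lit 1) (p (nat_lit 0xc1) (nat_lit 0) (p (nat_lit 0x101) (nat_lit 1) (p (nat_lit 0x119) (nat_lit 0) (p (nat_lit 0xc9) (nat_lit 0) (p (nat_lit 0x89) (nat_lit 1) (p (nat_lit 0x41) (nat_lit 0) (p (nat_lit 0x8a098b090a9a) (nat_lit 0) (p (nat_lit 0x9890a888a1a) (nat_lit 0) (p (nat_lit 0x89088a08079a) (nat_lit 0) (p (nat_lit 0x8880987871a) (nat_lit 0) (p (nat_lit 0x80000800080907088a) (nat_lit 0) (p (nat_lit 0x80000800078886860a) (nat_lit 0)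 (p (nat_lit 0x8688060782) (nat_lit 0) (p (nat_lit 0x607858702) (nat_lit 0) (p (nat_lit 0x8587050482) (nat_lit 0) (p (nat_lit 0x506848402) (nat_lit 0) (p (nat_lit 0x160014) (nat_lit 0) (p (nat_lit 0x50612) (nat_lit 0) (p (nat_lit 0x40592) (nat_lit 0) (p (nat_lit 0x40492) (nat_lit 0) (p (nat_lit 0x30412) (nat_lit 0) (p (nat_lit 0x30212) (nat_lit 0) (p (nat_lit 0x20192) (nat_lit 0) (p (nat_lit 0x20092) (nat_lit 0) (p (nat_lit 0x10012) (nat_lit 0) pn))))))))))))))))))))))))))))))))) :=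
  Cl.node (nat_lit 0xc8c0d8b8d1a) (nat_lit 1) (by decide +kernel) (ClAll.succ ClAll.zero n16)

def n22 : Cl (O (nat_lit 3)) (R (nat_lit 104465))
    (p (nat_lit 0x8c0b8d0b0a9a) (nat_lit 0) (p (nat_lit 0xb8b0c8a8a1a) (nat_lit 0) (p (nat_lit 0x2a825aa8258b0c0a0b8a) (nat_lit 0) (p (nat_lit 0x2a825aa8258a8b89890a) (nat_lit 0) (p (nat_lit 0xb0014) (nat_lit 1) (p (nat_lit 0x20000c) (nat_lit 0) (p (nat_lit 0x200004) (nat_lit 0) (p (nat_lit 0x111) (nat_lit 1) (p (nat_lit 0xd1) (nat_lit 1) (p (nat_lit 0xc1) (nat_lit 0) (p (nat_lit 0x119) (nat_lit 1) (p (nat_lit 0xc9) (nat_lit 0) (p (nat_lit 0x89) (nat_lit 1) (p (nat_lit 0x41) (nat_lit 0) (p (nat_lit 0x8a098b090a9a) (nat_lit 0) (p (nat_lit 0x9890a888a1a) (nat_lit 0) (p (nat_lit 0x89088a08079a) (nat_lit 0) (p (nat_lit 0x8880987871a) (nat_lit 0) (p (nat_lit 0x80000800080907088a) (nat_lit 0) (p (nat_lit 0x80000800078886860a) (nat_lit 0)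 (p (nat_lit 0x8688060782) (nat_lit 0) (p (nat_lit 0x607858702) (nat_lit 0) (p (nat_lit 0x8587050482) (nat_lit 0) (p (nat_lit 0x506848402) (nat_lit 0) (p (nat_lit 0x160014) (nat_lit 0) (p (nat_lit 0x50612) (nat_lit 0) (p (nat_lit 0x40592) (nat_lit 0) (p (nat_lit 0x40492) (nat_lit 0) (p (nat_lit 0x30412) (nat_lit 0) (p (nat_lit 0x30212) (nat_lit 0) (p (nat_lit 0x20192) (nat_lit 0) (p (nat_lit 0x20092) (nat_lit 0) (p (nat_lit 0x10012) (nat_lit 0) pn))))))))))))))))))))))))))))))))) :=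
  Cl.node (nat_lit 0xc8c0d8b8d1a) (nat_lit 1) (by decide +kernel) (ClAll.succ ClAll.zero n17)

def n23 : Cl (O (nat_lit 3)) (R (nat_lit 104465))
    (p (nat_lit 0x8c0b8d0b0a9a) (nat_lit 0) (p (nat_lit 0xb8b0c8a8a1a) (nat_lit 0) (p (nat_lit 0x2a825aa8258b0c0a0b8a) (nat_lit 0) (p (nat_lit 0x2a825aa8258a8b89890a) (nat_lit 0) (p (nat_lit 0xb0014) (nat_lit 1) (p (nat_lit 0x20000c) (nat_lit 0) (p (nat_lit 0x200004) (nat_lit 0) (p (nat_lit 0x111) (nat_lit 1) (p (nat_lit 0x101) (nat_lit 0) (p (nat_lit 0xc1) (nat_lit 1) (p (nat_lit 0x119) (nat_lit 1) (p (nat_lit 0xc9) (nat_lit 0) (p (nat_lit 0x89) (nat_lit 1) (p (nat_lit 0x41) (nat_lit 0) (p (nat_lit 0x8a098b090a9a) (nat_lit 0) (p (nat_lit 0x9890a888a1a) (nat_lit 0) (p (nat_lit 0x89088a08079a) (nat_lit 0) (p (nat_lit 0x8880987871a) (nat_lit 0) (p (nat_lit 0x80000800080907088a) (nat_lit 0) (p (nat_lit 0x80000800078886860a) (nat_lit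 0) (p (nat_lit 0x8688060782) (nat_lit 0) (p (nat_lit 0x607858702) (nat_lit 0) (p (nat_lit 0x8587050482) (nat_lit 0) (p (nat_lit 0x506848402) (nat_lit 0) (p (nat_lit 0x160014) (nat_lit 0) (p (nat_lit 0x50612) (nat_lit 0) (p (nat_lit 0x40592) (nat_lit 0) (p (nat_lit 0x40492) (nat_lit 0) (p (nat_lit 0x30412) (nat_lit 0) (p (nat_lit 0x30212) (nat_lit 0) (p (nat_lit 0x20192) (nat_lit 0) (p (nat_lit 0x20092) (nat_lit 0) (p (nat_lit 0x10012) (nat_lit 0) pn))))))))))))))))))))))))))))))))) :=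
  Cl.node (nat_lit 0xc8c0d8b8d1a) (nat_lit 1) (by decide +kernel) (ClAll.succ ClAll.zero n18)

def n24 : Cl (O (nat_lit 3)) (R (nat_lit 104465))
    (p (nat_lit 0xb8b0c8a8a1a) (nat_lit 0) (p (nat_lit 0x2a825aa8258b0c0a0b8a) (nat_lit 0) (p (nat_lit 0x2a825aa8258a8b89890a) (nat_lit 0) (p (nat_lit 0xb0014) (nat_lit 1) (p (nat_lit 0x20000c) (nat_lit 0) (p (nat_lit 0x200004) (nat_lit 0) (p (nat_lit 0xd1) (nat_lit 0) (p (nat_lit 0x109) (nat_lit 1) (p (nat_lit 0x101) (nat_lit 0) (p (nat_lit 0x119) (nat_lit 0) (p (nat_lit 0xc9) (nat_lit 0) (p (nat_lit 0x89) (nat_lit 1) (p (nat_lit 0x41) (nat_lit 0) (p (nat_lit 0x8a098b090a9a) (nat_lit 0) (p (nat_lit 0x9890a888a1a) (nat_lit 0) (p (nat_lit 0x89088a08079a) (nat_lit 0) (p (nat_lit 0x8880987871a) (nat_lit 0) (p (nat_lit 0x80000800080907088a) (nat_lit 0) (p (nat_lit 0x80000800078886860a) (nat_lit 0) (p (nat_lit 0x8688060782) (nat_lit 0)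 (p (nat_lit 0x607858702) (nat_lit 0) (p (nat_lit 0x8587050482) (nat_lit 0) (p (nat_lit 0x506848402) (nat_lit 0) (p (nat_lit 0x160014) (nat_lit 0) (p (nat_lit 0x50612) (nat_lit 0) (p (nat_lit 0x40592) (nat_lit 0) (p (nat_lit 0x40492) (nat_lit 0) (p (nat_lit 0x30412) (nat_lit 0) (p (nat_lit 0x30212) (nat_lit 0) (p (nat_lit 0x20192) (nat_lit 0) (p (nat_lit 0x20092) (nat_lit 0) (p (nat_lit 0x10012) (nat_lit 0) pn)))))))))))))))))))))))))))))))) :=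
  Cl.node (nat_lit 0x8c0b8d0b0a9a) (nat_lit 1) (by decide +kernel) (ClAll.succ ClAll.zero n19)

def n25 : Cl (O (nat_lit 3)) (R (nat_lit 104465))
    (p (nat_lit 0x89) (nat_lit 0) (p (nat_lit 0x111) (nat_lit 1) (p (nat_lit 0x41) (nat_lit 0) (p (nat_lit 0xb0014) (nat_lit 0) (p (nat_lit 0x20000c) (nat_lit 0) (p (nat_lit 0x200004) (nat_lit 0) (p (nat_lit 0xd1) (nat_lit 1) (p (nat_lit 0x109) (nat_lit 1) (p (nat_lit 0x101) (nat_lit 0) (p (nat_lit 0x119) (nat_lit 0) (p (nat_lit 0xc9) (nat_lit 0) (p (nat_lit 0x89) (nat_lit 1) (p (nat_lit 0x41) (nat_lit 0) (p (nat_lit 0x8a098b090a9a) (nat_lit 0) (p (nat_lit 0x9890a888a1a) (nat_lit 0) (p (nat_lit 0x89088a08079a) (nat_lit 0) (p (nat_lit 0x8880987871a) (nat_lit 0) (p (nat_lit 0x80000800080907088a) (nat_lit 0) (p (nat_lit 0x80000800078886860a) (nat_lit 0) (p (nat_lit 0x8688060782) (nat_lit 0) (p (nat_lit 0x607858702) (nat_lit 0) (p (nat_lit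 0x8587050482) (nat_lit 0) (p (nat_lit 0x506848402) (nat_lit 0) (p (nat_lit 0x160014) (nat_lit 0) (p (nat_lit 0x50612) (nat_lit 0) (p (nat_lit 0x40592) (nat_lit 0) (p (nat_lit 0x40492) (nat_lit 0) (p (nat_lit 0x30412) (nat_lit 0) (p (nat_lit 0x30212) (nat_lit 0) (p (nat_lit 0x20192) (nat_lit 0) (p (nat_lit 0x20092) (nat_lit 0) (p (nat_lit 0x10012) (nat_lit 0) pn)))))))))))))))))))))))))))))))) :=
  Cl.node (nat_lit 0x81) (nat_lit 2) (by decide +kernel) (ClAll.succ (ClAll.succ ClAll.zero s77) s78)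

def n26 : Cl (O (nat_lit 3)) (R (nat_lit 104465))
    (p (nat_lit 0xb8b0c8a8a1a) (nat_lit 0) (p (nat_lit 0x2a825aa8258b0c0a0b8a) (nat_lit 0) (p (nat_lit 0x2a825aa8258a8b89890a) (nat_lit 0) (p (nat_lit 0xb0014) (nat_lit 1) (p (nat_lit 0x20000c) (nat_lit 0) (p (nat_lit 0x200004) (nat_lit 0) (p (nat_lit 0xd1) (nat_lit 1) (p (nat_lit 0x109) (nat_lit 1) (p (nat_lit 0x101) (nat_lit 0) (p (nat_lit 0x119) (nat_lit 0) (p (nat_lit 0xc9) (nat_lit 0) (p (nat_lit 0x89) (nat_lit 1) (p (nat_lit 0x41) (nat_lit 0) (p (nat_lit 0x8a098b090a9a) (nat_lit 0) (p (nat_lit 0x9890a888a1a) (nat_lit 0) (p (nat_lit 0x89088a08079a) (nat_lit 0) (p (nat_lit 0x8880987871a) (nat_lit 0) (p (nat_lit 0x80000800080907088a) (nat_lit 0) (p (nat_lit 0x80000800078886860a) (nat_lit 0) (p (nat_lit 0x8688060782) (nat_lit 0) (p (nat_lit 0x607858702) (nat_lit 0) (p (nat_lit 0x8587050482) (nat_lit 0) (p (nat_lit 0x506848402)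 (nat_lit 0) (p (nat_lit 0x160014) (nat_lit 0) (p (nat_lit 0x50612) (nat_lit 0) (p (nat_lit 0x40592) (nat_lit 0) (p (nat_lit 0x40492) (nat_lit 0) (p (nat_lit 0x30412) (nat_lit 0) (p (nat_lit 0x30212) (nat_lit 0) (p (nat_lit 0x20192) (nat_lit 0) (p (nat_lit 0x20092) (nat_lit 0) (p (nat_lit 0x10012) (nat_lit 0) pn)))))))))))))))))))))))))))))))) :=
  Cl.node (nat_lit 0x8c0b8d0b0a9a) (nat_lit 1) (by decide +kernel) (ClAll.succ ClAll.zero n20)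

def n27 : Cl (O (nat_lit 3)) (R (nat_lit 104465))
    (p (nat_lit 0xb8b0c8a8a1a) (nat_lit 0) (p (nat_lit 0x2a825aa8258b0c0a0b8a) (nat_lit 0) (p (nat_lit 0x2a825aa8258a8b89890a) (nat_lit 0) (p (nat_lit 0xb0014) (nat_lit 1) (p (nat_lit 0x20000c) (nat_lit 0) (p (nat_lit 0x200004) (nat_lit 0) (p (nat_lit 0xd1) (nat_lit 1) (p (nat_lit 0xc1) (nat_lit 0) (p (nat_lit 0x101) (nat_lit 1) (p (nat_lit 0x119) (nat_lit 0) (p (nat_lit 0xc9) (nat_lit 0) (p (nat_lit 0x89) (nat_lit 1) (p (nat_lit 0x41) (nat_lit 0) (p (nat_lit 0x8a098b090a9a) (nat_lit 0) (p (nat_lit 0x9890a888a1a) (nat_lit 0) (p (nat_lit 0x89088a08079a) (nat_lit 0) (p (nat_lit 0x8880987871a) (nat_lit 0) (p (nat_lit 0x80000800080907088a) (nat_lit 0) (p (nat_lit 0x80000800078886860a) (nat_lit 0) (p (nat_lit 0x8688060782) (nat_lit 0) (p (nat_lit 0x607858702) (nat_lit 0) (p (nat_lit 0x8587050482) (nat_lit 0) (p (nat_lit 0x506848402)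 (nat_lit 0) (p (nat_lit 0x160014) (nat_lit 0) (p (nat_lit 0x50612) (nat_lit 0) (p (nat_lit 0x40592) (nat_lit 0) (p (nat_lit 0x40492) (nat_lit 0) (p (nat_lit 0x30412) (nat_lit 0) (p (nat_lit 0x30212) (nat_lit 0) (p (nat_lit 0x20192) (nat_lit 0) (p (nat_lit 0x20092) (nat_lit 0) (p (nat_lit 0x10012) (nat_lit 0) pn)))))))))))))))))))))))))))))))) :=
  Cl.node (nat_lit 0x8c0b8d0b0a9a) (nat_lit 1) (by decide +kernel) (ClAll.succ ClAll.zero n21)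

def n28 : Cl (O (nat_lit 3)) (R (nat_lit 104465))
    (p (nat_lit 0xb8b0c8a8a1a) (nat_lit 0) (p (nat_lit 0x2a825aa8258b0c0a0b8a) (nat_lit 0) (p (nat_lit 0x2a825aa8258a8b89890a) (nat_lit 0) (p (nat_lit 0xb0014) (nat_lit 1) (p (nat_lit 0x20000c) (nat_lit 0) (p (nat_lit 0x200004) (nat_lit 0) (p (nat_lit 0x111) (nat_lit 1) (p (nat_lit 0xd1) (nat_lit 1) (p (nat_lit 0xc1) (nat_lit 0) (p (nat_lit 0x119) (nat_lit 1) (p (nat_lit 0xc9) (nat_lit 0) (p (nat_lit 0x89) (nat_lit 1) (p (nat_lit 0x41) (nat_lit 0) (p (nat_lit 0x8a098b090a9a) (nat_lit 0) (p (nat_lit 0x9890a888a1a) (nat_lit 0) (p (nat_lit 0x89088a08079a) (nat_lit 0) (p (nat_lit 0x8880987871a) (nat_lit 0) (p (nat_lit 0x80000800080907088a) (nat_lit 0) (p (nat_lit 0x80000800078886860a) (nat_lit 0) (p (nat_lit 0x8688060782) (nat_lit 0) (p (nat_lit 0x607858702) (nat_lit 0) (p (nat_lit 0x8587050482) (nat_lit 0) (p (nat_lit 0x506848402)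 (nat_lit 0) (p (nat_lit 0x160014) (nat_lit 0) (p (nat_lit 0x50612) (nat_lit 0) (p (nat_lit 0x40592) (nat_lit 0) (p (nat_lit 0x40492) (nat_lit 0) (p (nat_lit 0x30412) (nat_lit 0) (p (nat_lit 0x30212) (nat_lit 0) (p (nat_lit 0x20192) (nat_lit 0) (p (nat_lit 0x20092) (nat_lit 0) (p (nat_lit 0x10012) (nat_lit 0) pn)))))))))))))))))))))))))))))))) :=
  Cl.node (nat_lit 0x8c0b8d0b0a9a) (nat_lit 1) (by decide +kernel) (ClAll.succ ClAll.zero n22)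

def n29 : Cl (O (nat_lit 3)) (R (nat_lit 104465))
    (p (nat_lit 0xb8b0c8a8a1a) (nat_lit 0) (p (nat_lit 0x2a825aa8258b0c0a0b8a) (nat_lit 0) (p (nat_lit 0x2a825aa8258a8b89890a) (nat_lit 0) (p (nat_lit 0xb0014) (nat_lit 1) (p (nat_lit 0x20000c) (nat_lit 0) (p (nat_lit 0x200004) (nat_lit 0) (p (nat_lit 0x111) (nat_lit 1) (p (nat_lit 0x101) (nat_lit 0) (p (nat_lit 0xc1) (nat_lit 1) (p (nat_lit 0x119) (nat_lit 1) (p (nat_lit 0xc9) (nat_lit 0) (p (nat_lit 0x89) (nat_lit 1) (p (nat_lit 0x41) (nat_lit 0) (p (nat_lit 0x8a098b090a9a) (nat_lit 0) (p (nat_lit 0x9890a888a1a) (nat_lit 0) (p (nat_lit 0x89088a08079a) (nat_lit 0) (p (nat_lit 0x8880987871a) (nat_lit 0) (p (nat_lit 0x80000800080907088a) (nat_lit 0) (p (nat_lit 0x80000800078886860a) (nat_lit 0) (p (nat_lit 0x8688060782) (nat_lit 0) (p (nat_lit 0x607858702) (nat_lit 0) (p (nat_lit 0x8587050482) (nat_lit 0) (p (nat_lit 0x506848402)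 (nat_lit 0) (p (nat_lit 0x160014) (nat_lit 0) (p (nat_lit 0x50612) (nat_lit 0) (p (nat_lit 0x40592) (nat_lit 0) (p (nat_lit 0x40492) (nat_lit 0) (p (nat_lit 0x30412) (nat_lit 0) (p (nat_lit 0x30212) (nat_lit 0) (p (nat_lit 0x20192) (nat_lit 0) (p (nat_lit 0x20092) (nat_lit 0) (p (nat_lit 0x10012) (nat_lit 0) pn)))))))))))))))))))))))))))))))) :=
  Cl.node (nat_lit 0x8c0b8d0b0a9a) (nat_lit 1) (by decide +kernel) (ClAll.succ ClAll.zero n23)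

def n30 : Cl (O (nat_lit 3)) (R (nat_lit 104465))
    (p (nat_lit 0xc1) (nat_lit 0) (p (nat_lit 0x101) (nat_lit 1) (p (nat_lit 0x119) (nat_lit 0) (p (nat_lit 0xb0014) (nat_lit 0) (p (nat_lit 0x20000c) (nat_lit 0) (p (nat_lit 0x200004) (nat_lit 0) (p (nat_lit 0xc9) (nat_lit 0) (p (nat_lit 0x89) (nat_lit 1) (p (nat_lit 0x101) (nat_lit 1) (p (nat_lit 0x111) (nat_lit 0) (p (nat_lit 0xd1) (nat_lit 1) (p (nat_lit 0x81) (nat_lit 0) (p (nat_lit 0x41) (nat_lit 1) (p (nat_lit 0x8a098b090a9a) (nat_lit 0) (p (nat_lit 0x9890a888a1a) (nat_lit 0) (p (nat_lit 0x89088a08079a) (nat_lit 0) (p (nat_lit 0x8880987871a) (nat_lit 0) (p (nat_lit 0x80000800080907088a) (nat_lit 0) (p (nat_lit 0x80000800078886860a) (nat_lit 0) (p (nat_lit 0x8688060782) (nat_lit 0) (p (nat_lit 0x607858702) (nat_lit 0) (p (nat_lit 0x8587050482) (nat_lit 0) (p (nat_lit 0x506848402) (nat_lit 0) (p (nat_lit 0x160014) (nat_lit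 0) (p (nat_lit 0x50612) (nat_lit 0) (p (nat_lit 0x40592) (nat_lit 0) (p (nat_lit 0x40492) (nat_lit 0) (p (nat_lit 0x30412) (nat_lit 0) (p (nat_lit 0x30212) (nat_lit 0) (p (nat_lit 0x20192) (nat_lit 0) (p (nat_lit 0x20092) (nat_lit 0) (p (nat_lit 0x10012) (nat_lit 0) pn)))))))))))))))))))))))))))))))) :=
  Cl.node (nat_lit 0x100004) (nat_lit 2) (by decide +kernel) (ClAll.succ (ClAll.succ ClAll.zero s185) s186)

def n31 : Cl (O (nat_lit 3)) (R (nat_lit 104465))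
    (p (nat_lit 0x109) (nat_lit 1) (p (nat_lit 0xb0014) (nat_lit 0) (p (nat_lit 0x111) (nat_lit 0) (p (nat_lit 0x20000c) (nat_lit 0) (p (nat_lit 0x200004) (nat_lit 0) (p (nat_lit 0xc9) (nat_lit 1) (p (nat_lit 0x81) (nat_lit 0) (p (nat_lit 0x101) (nat_lit 1) (p (nat_lit 0x119) (nat_lit 0) (p (nat_lit 0xd1) (nat_lit 0) (p (nat_lit 0x89) (nat_lit 0) (p (nat_lit 0x41) (nat_lit 0) (p (nat_lit 0x8a098b090a9a) (nat_lit 0) (p (nat_lit 0x9890a888a1a) (nat_lit 0) (p (nat_lit 0x89088a08079a) (nat_lit 0) (p (nat_lit 0x8880987871a) (nat_lit 0) (p (nat_lit 0x80000800080907088a) (nat_lit 0) (p (nat_lit 0x80000800078886860a) (nat_lit 0) (p (nat_lit 0x8688060782) (nat_lit 0) (p (nat_lit 0x607858702) (nat_lit 0) (p (nat_lit 0x8587050482) (nat_lit 0) (p (nat_lit 0x506848402) (nat_lit 0) (p (nat_lit 0x160014) (nat_lit 0) (p (nat_lit 0x50612) (nat_lit 0) (p (nat_lit 0x40592) (nat_lit 0) (p (nat_lit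 0x40492) (nat_lit 0) (p (nat_lit 0x30412) (nat_lit 0) (p (nat_lit 0x30212) (nat_lit 0) (p (nat_lit 0x20192) (nat_lit 0) (p (nat_lit 0x20092) (nat_lit 0) (p (nat_lit 0x10012) (nat_lit 0) pn))))))))))))))))))))))))))))))) :=
  Cl.node (nat_lit 0x89) (nat_lit 2) (by decide +kernel) (ClAll.succ (ClAll.succ ClAll.zero s9) s10)

def n32 : Cl (O (nat_lit 3)) (R (nat_lit 104465))
    (p (nat_lit 0x109) (nat_lit 1) (p (nat_lit 0xb0014) (nat_lit 0) (p (nat_lit 0x20000c) (nat_lit 0) (p (nat_lit 0x200004) (nat_lit 0) (p (nat_lit 0xc9) (nat_lit 1) (p (nat_lit 0xc1) (nat_lit 0) (p (nat_lit 0x81) (nat_lit 1) (p (nat_lit 0x101) (nat_lit 1) (p (nat_lit 0x119) (nat_lit 0) (p (nat_lit 0xd1) (nat_lit 0) (p (nat_lit 0x89) (nat_lit 0) (p (nat_lit 0x41) (nat_lit 0) (p (nat_lit 0x8a098b090a9a) (nat_lit 0) (p (nat_lit 0x9890a888a1a) (nat_lit 0) (p (nat_lit 0x89088a08079a) (nat_lit 0) (p (nat_lit 0x8880987871a)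 (nat_lit 0) (p (nat_lit 0x80000800080907088a) (nat_lit 0) (p (nat_lit 0x80000800078886860a) (nat_lit 0) (p (nat_lit 0x8688060782) (nat_lit 0) (p (nat_lit 0x607858702) (nat_lit 0) (p (nat_lit 0x8587050482) (nat_lit 0) (p (nat_lit 0x506848402) (nat_lit 0) (p (nat_lit 0x160014) (nat_lit 0) (p (nat_lit 0x50612) (nat_lit 0) (p (nat_lit 0x40592) (nat_lit 0) (p (nat_lit 0x40492) (nat_lit 0) (p (nat_lit 0x30412) (nat_lit 0) (p (nat_lit 0x30212) (nat_lit 0) (p (nat_lit 0x20192) (nat_lit 0) (p (nat_lit 0x20092) (nat_lit 0) (p (nat_lit 0x10012) (nat_lit 0) pn))))))))))))))))))))))))))))))) :=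
  Cl.node (nat_lit 0x41) (nat_lit 2) (by decide +kernel) (ClAll.succ (ClAll.succ ClAll.zero s17) s18)

def n33 : Cl (O (nat_lit 3)) (R (nat_lit 104465))
    (p (nat_lit 0x2a825aa8258b0c0a0b8a) (nat_lit 0) (p (nat_lit 0x2a825aa8258a8b89890a) (nat_lit 0) (p (nat_lit 0xb0014) (nat_lit 1) (p (nat_lit 0x20000c) (nat_lit 0) (p (nat_lit 0x200004) (nat_lit 0) (p (nat_lit 0xd1) (nat_lit 0) (p (nat_lit 0x109) (nat_lit 1) (p (nat_lit 0x101) (nat_lit 0) (p (nat_lit 0x119) (nat_lit 0) (p (nat_lit 0xc9) (nat_lit 0) (p (nat_lit 0x89) (nat_lit 1) (p (nat_lit 0x41) (nat_lit 0) (p (nat_lit 0x8a098b090a9a) (nat_lit 0) (p (nat_lit 0x9890a888a1a) (nat_lit 0) (p (nat_lit 0x89088a08079a) (nat_lit 0) (p (nat_lit 0x8880987871a) (nat_lit 0) (p (nat_lit 0x80000800080907088a) (nat_lit 0) (p (nat_lit 0x80000800078886860a) (nat_lit 0) (p (nat_lit 0x8688060782) (nat_lit 0) (p (nat_lit 0x607858702) (nat_lit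 0) (p (nat_lit 0x8587050482) (nat_lit 0) (p (nat_lit 0x506848402) (nat_lit 0) (p (nat_lit 0x160014) (nat_lit 0) (p (nat_lit 0x50612) (nat_lit 0) (p (nat_lit 0x40592) (nat_lit 0) (p (nat_lit 0x40492) (nat_lit 0) (p (nat_lit 0x30412) (nat_lit 0) (p (nat_lit 0x30212) (nat_lit 0) (p (nat_lit 0x20192) (nat_lit 0) (p (nat_lit 0x20092) (nat_lit 0) (p (nat_lit 0x10012) (nat_lit 0) pn))))))))))))))))))))))))))))))) :=
  Cl.node (nat_lit 0xb8b0c8a8a1a) (nat_lit 1) (by decide +kernel) (ClAll.succ ClAll.zero n24)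

def n34 : Cl (O (nat_lit 3)) (R (nat_lit 104465))
    (p (nat_lit 0x111) (nat_lit 0) (p (nat_lit 0x41) (nat_lit 0) (p (nat_lit 0xb0014) (nat_lit 0) (p (nat_lit 0x20000c) (nat_lit 0) (p (nat_lit 0x200004) (nat_lit 0) (p (nat_lit 0xd1) (nat_lit 1) (p (nat_lit 0x109) (nat_lit 1) (p (nat_lit 0x101) (nat_lit 0) (p (nat_lit 0x119) (nat_lit 0) (p (nat_lit 0xc9) (nat_lit 0) (p (nat_lit 0x89) (nat_lit 1) (p (nat_lit 0x41) (nat_lit 0) (p (nat_lit 0x8a098b090a9a) (nat_lit 0) (p (nat_lit 0x9890a888a1a) (nat_lit 0) (p (nat_lit 0x89088a08079a) (nat_lit 0) (p (nat_lit 0x8880987871a) (nat_lit 0) (p (nat_lit 0x80000800080907088a) (nat_lit 0) (p (nat_lit 0x80000800078886860a) (nat_lit 0) (p (nat_lit 0x8688060782) (nat_lit 0) (p (nat_lit 0x607858702) (nat_lit 0) (p (nat_lit 0x8587050482) (nat_lit 0) (p (nat_lit 0x506848402) (nat_lit 0) (p (nat_lit 0x160014) (nat_lit 0) (p (nat_lit 0x50612)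 (nat_lit 0) (p (nat_lit 0x40592) (nat_lit 0) (p (nat_lit 0x40492) (nat_lit 0) (p (nat_lit 0x30412) (nat_lit 0) (p (nat_lit 0x30212) (nat_lit 0) (p (nat_lit 0x20192) (nat_lit 0) (p (nat_lit 0x20092) (nat_lit 0) (p (nat_lit 0x10012) (nat_lit 0) pn))))))))))))))))))))))))))))))) :=
  Cl.node (nat_lit 0x109) (nat_lit 2) (by decide +kernel) (ClAll.succ (ClAll.succ ClAll.zero s75) s76)

def n35 : Cl (O (nat_lit 3)) (R (nat_lit 104465))
    (p (nat_lit 0x111) (nat_lit 1) (p (nat_lit 0x41) (nat_lit 0) (p (nat_lit 0xb0014) (nat_lit 0) (p (nat_lit 0x20000c) (nat_lit 0) (p (nat_lit 0x200004) (nat_lit 0) (p (nat_lit 0xd1) (nat_lit 1) (p (nat_lit 0x109) (nat_lit 1) (p (nat_lit 0x101) (nat_lit 0) (p (nat_lit 0x119) (nat_lit 0) (p (nat_lit 0xc9) (nat_lit 0) (p (nat_lit 0x89) (nat_lit 1) (p (nat_lit 0x41) (nat_lit 0) (p (nat_lit 0x8a098b090a9a) (nat_lit 0) (p (nat_lit 0x9890a888a1a) (nat_lit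 0) (p (nat_lit 0x89088a08079a) (nat_lit 0) (p (nat_lit 0x8880987871a) (nat_lit 0) (p (nat_lit 0x80000800080907088a) (nat_lit 0) (p (nat_lit 0x80000800078886860a) (nat_lit 0) (p (nat_lit 0x8688060782) (nat_lit 0) (p (nat_lit 0x607858702) (nat_lit 0) (p (nat_lit 0x8587050482) (nat_lit 0) (p (nat_lit 0x506848402) (nat_lit 0) (p (nat_lit 0x160014) (nat_lit 0) (p (nat_lit 0x50612) (nat_lit 0) (p (nat_lit 0x40592) (nat_lit 0) (p (nat_lit 0x40492) (nat_lit 0) (p (nat_lit 0x30412) (nat_lit 0) (p (nat_lit 0x30212) (nat_lit 0) (p (nat_lit 0x20192) (nat_lit 0) (p (nat_lit 0x20092) (nat_lit 0) (p (nat_lit 0x10012) (nat_lit 0) pn))))))))))))))))))))))))))))))) :=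
  Cl.node (nat_lit 0x89) (nat_lit 2) (by decide +kernel) (ClAll.succ (ClAll.succ ClAll.zero n25) s79)

def n36 : Cl (O (nat_lit 3)) (R (nat_lit 104465))
    (p (nat_lit 0x2a825aa8258b0c0a0b8a) (nat_lit 0) (p (nat_lit 0x2a825aa8258a8b89890a) (nat_lit 0) (p (nat_lit 0xb0014) (nat_lit 1) (p (nat_lit 0x20000c) (nat_lit 0) (p (nat_lit 0x200004) (nat_lit 0) (p (nat_lit 0xd1) (nat_lit 1) (p (nat_lit 0x109) (nat_lit 1) (p (nat_lit 0x101) (nat_lit 0) (p (nat_lit 0x119) (nat_lit 0) (p (nat_lit 0xc9) (nat_lit 0) (p (nat_lit 0x89) (nat_lit 1) (p (nat_lit 0x41) (nat_lit 0) (p (nat_lit 0x8a098b090a9a) (nat_lit 0) (p (nat_lit 0x9890a888a1a) (nat_lit 0) (p (nat_lit 0x89088a08079a) (nat_lit 0) (p (nat_lit 0x8880987871a) (nat_lit 0) (p (nat_lit 0x80000800080907088a) (nat_lit 0) (p (nat_lit 0x80000800078886860a) (nat_lit 0) (p (nat_lit 0x8688060782) (nat_lit 0) (p (nat_lit 0x607858702) (nat_lit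 0) (p (nat_lit 0x8587050482) (nat_lit 0) (p (nat_lit 0x506848402) (nat_lit 0) (p (nat_lit 0x160014) (nat_lit 0) (p (nat_lit 0x50612) (nat_lit 0) (p (nat_lit 0x40592) (nat_lit 0) (p (nat_lit 0x40492) (nat_lit 0) (p (nat_lit 0x30412) (nat_lit 0) (p (nat_lit 0x30212) (nat_lit 0) (p (nat_lit 0x20192) (nat_lit 0) (p (nat_lit 0x20092) (nat_lit 0) (p (nat_lit 0x10012) (nat_lit 0) pn))))))))))))))))))))))))))))))) :=
  Cl.node (nat_lit 0xb8b0c8a8a1a) (nat_lit 1) (by decide +kernel) (ClAll.succ ClAll.zero n26)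

def n37 : Cl (O (nat_lit 3)) (R (nat_lit 104465))
    (p (nat_lit 0x81) (nat_lit 0) (p (nat_lit 0x109) (nat_lit 1) (p (nat_lit 0xb0014) (nat_lit 0) (p (nat_lit 0x20000c) (nat_lit 0) (p (nat_lit 0x200004) (nat_lit 0) (p (nat_lit 0xd1) (nat_lit 1) (p (nat_lit 0xc1) (nat_lit 0) (p (nat_lit 0x101) (nat_lit 1) (p (nat_lit 0x119) (nat_lit 0) (p (nat_lit 0xc9) (nat_lit 0) (p (nat_lit 0x89) (nat_lit 1) (p (nat_lit 0x41) (nat_lit 0) (p (nat_lit 0x8a098b090a9a) (nat_lit 0) (p (nat_lit 0x9890a888a1a) (nat_lit 0) (p (nat_lit 0x89088a08079a) (nat_lit 0) (p (nat_lit 0x8880987871a) (nat_lit 0) (p (nat_lit 0x80000800080907088a) (nat_lit 0) (p (nat_lit 0x80000800078886860a) (nat_lit 0) (p (nat_lit 0x8688060782) (nat_lit 0) (p (nat_lit 0x607858702) (nat_lit 0) (p (nat_lit 0x8587050482) (nat_lit 0) (p (nat_lit 0x506848402) (nat_lit 0) (p (nat_lit 0x160014) (nat_lit 0) (p (nat_lit 0x50612) (nat_lit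 0) (p (nat_lit 0x40592) (nat_lit 0) (p (nat_lit 0x40492) (nat_lit 0) (p (nat_lit 0x30412) (nat_lit 0) (p (nat_lit 0x30212) (nat_lit 0) (p (nat_lit 0x20192) (nat_lit 0) (p (nat_lit 0x20092) (nat_lit 0) (p (nat_lit 0x10012) (nat_lit 0) pn))))))))))))))))))))))))))))))) :=
  Cl.node (nat_lit 0x89) (nat_lit 2) (by decide +kernel) (ClAll.succ (ClAll.succ ClAll.zero s93) s94)

def n38 : Cl (O (nat_lit 3)) (R (nat_lit 104465))
    (p (nat_lit 0x2a825aa8258b0c0a0b8a) (nat_lit 0) (p (nat_lit 0x2a825aa8258a8b89890a) (nat_lit 0) (p (nat_lit 0xb0014) (nat_lit 1) (p (nat_lit 0x20000c) (nat_lit 0) (p (nat_lit 0x200004) (nat_lit 0) (p (nat_lit 0xd1) (nat_lit 1) (p (nat_lit 0xc1) (nat_lit 0) (p (nat_lit 0x101) (nat_lit 1) (p (nat_lit 0x119) (nat_lit 0) (p (nat_lit 0xc9) (nat_lit 0) (p (nat_lit 0x89) (nat_lit 1) (p (nat_lit 0x41) (nat_lit 0) (p (nat_lit 0x8a098b090a9a) (nat_lit 0) (p (nat_lit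 0x9890a888a1a) (nat_lit 0) (p (nat_lit 0x89088a08079a) (nat_lit 0) (p (nat_lit 0x8880987871a) (nat_lit 0) (p (nat_lit 0x80000800080907088a) (nat_lit 0) (p (nat_lit 0x80000800078886860a) (nat_lit 0) (p (nat_lit 0x8688060782) (nat_lit 0) (p (nat_lit 0x607858702) (nat_lit 0) (p (nat_lit 0x8587050482) (nat_lit 0) (p (nat_lit 0x506848402) (nat_lit 0) (p (nat_lit 0x160014) (nat_lit 0) (p (nat_lit 0x50612) (nat_lit 0) (p (nat_lit 0x40592) (nat_lit 0) (p (nat_lit 0x40492) (nat_lit 0) (p (nat_lit 0x30412) (nat_lit 0) (p (nat_lit 0x30212) (nat_lit 0) (p (nat_lit 0x20192) (nat_lit 0) (p (nat_lit 0x20092) (nat_lit 0) (p (nat_lit 0x10012) (nat_lit 0) pn))))))))))))))))))))))))))))))) :=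
  Cl.node (nat_lit 0xb8b0c8a8a1a) (nat_lit 1) (by decide +kernel) (ClAll.succ ClAll.zero n27)

def n39 : Cl (O (nat_lit 3)) (R (nat_lit 104465))
    (p (nat_lit 0x2a825aa8258b0c0a0b8a) (nat_lit 0) (p (nat_lit 0x2a825aa8258a8b89890a) (nat_lit 0) (p (nat_lit 0xb0014) (nat_lit 1) (p (nat_lit 0x20000c) (nat_lit 0) (p (nat_lit 0x200004) (nat_lit 0) (p (nat_lit 0x111) (nat_lit 1) (p (nat_lit 0xd1) (nat_lit 1) (p (nat_lit 0xc1) (nat_lit 0) (p (nat_lit 0x119) (nat_lit 1) (p (nat_lit 0xc9) (nat_lit 0) (p (nat_lit 0x89) (nat_lit 1) (p (nat_lit 0x41) (nat_lit 0) (p (nat_lit 0x8a098b090a9a) (nat_lit 0) (p (nat_lit 0x9890a888a1a) (nat_lit 0) (p (nat_lit 0x89088a08079a) (nat_lit 0) (p (nat_lit 0x8880987871a) (nat_lit 0) (p (nat_lit 0x80000800080907088a) (nat_lit 0) (p (nat_lit 0x80000800078886860a) (nat_lit 0) (p (nat_lit 0x8688060782) (nat_lit 0) (p (nat_lit 0x607858702) (nat_lit 0) (p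 (nat_lit 0x8587050482) (nat_lit 0) (p (nat_lit 0x506848402) (nat_lit 0) (p (nat_lit 0x160014) (nat_lit 0) (p (nat_lit 0x50612) (nat_lit 0) (p (nat_lit 0x40592) (nat_lit 0) (p (nat_lit 0x40492) (nat_lit 0) (p (nat_lit 0x30412) (nat_lit 0) (p (nat_lit 0x30212) (nat_lit 0) (p (nat_lit 0x20192) (nat_lit 0) (p (nat_lit 0x20092) (nat_lit 0) (p (nat_lit 0x10012) (nat_lit 0) pn))))))))))))))))))))))))))))))) :=
  Cl.node (nat_lit 0xb8b0c8a8a1a) (nat_lit 1) (by decide +kernel) (ClAll.succ ClAll.zero n28)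

def n40 : Cl (O (nat_lit 3)) (R (nat_lit 104465))
    (p (nat_lit 0x2a825aa8258b0c0a0b8a) (nat_lit 0) (p (nat_lit 0x2a825aa8258a8b89890a) (nat_lit 0) (p (nat_lit 0xb0014) (nat_lit 1) (p (nat_lit 0x20000c) (nat_lit 0) (p (nat_lit 0x200004) (nat_lit 0) (p (nat_lit 0x111) (nat_lit 1) (p (nat_lit 0x101) (nat_lit 0) (p (nat_lit 0xc1) (nat_lit 1) (p (nat_lit 0x119) (nat_lit 1) (p (nat_lit 0xc9) (nat_lit 0) (p (nat_lit 0x89) (nat_lit 1) (p (nat_lit 0x41) (nat_lit 0) (p (nat_lit 0x8a098b090a9a) (nat_lit 0) (p (nat_lit 0x9890a888a1a) (nat_lit 0) (p (nat_lit 0x89088a08079a) (nat_lit 0) (p (nat_lit 0x8880987871a) (nat_lit 0) (p (nat_lit 0x80000800080907088a) (nat_lit 0) (p (nat_lit 0x80000800078886860a) (nat_lit 0) (p (nat_lit 0x8688060782) (nat_lit 0) (p (nat_lit 0x607858702) (nat_lit 0) (p (nat_lit 0x8587050482) (nat_lit 0) (p (nat_lit 0x506848402) (nat_lit 0) (p (nat_lit 0x160014)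 (nat_lit 0) (p (nat_lit 0x50612) (nat_lit 0) (p (nat_lit 0x40592) (nat_lit 0) (p (nat_lit 0x40492) (nat_lit 0) (p (nat_lit 0x30412) (nat_lit 0) (p (nat_lit 0x30212) (nat_lit 0) (p (nat_lit 0x20192) (nat_lit 0) (p (nat_lit 0x20092) (nat_lit 0) (p (nat_lit 0x10012) (nat_lit 0) pn))))))))))))))))))))))))))))))) :=
  Cl.node (nat_lit 0xb8b0c8a8a1a) (nat_lit 1) (by decide +kernel) (ClAll.succ ClAll.zero n29)

def n41 : Cl (O (nat_lit 3)) (R (nat_lit 104465))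
    (p (nat_lit 0xd1) (nat_lit 0) (p (nat_lit 0xc1) (nat_lit 0) (p (nat_lit 0xb0014) (nat_lit 0) (p (nat_lit 0x20000c) (nat_lit 0) (p (nat_lit 0x200004) (nat_lit 0) (p (nat_lit 0x119) (nat_lit 1) (p (nat_lit 0x111) (nat_lit 0) (p (nat_lit 0x101) (nat_lit 0) (p (nat_lit 0x109) (nat_lit 0) (p (nat_lit 0xc9) (nat_lit 1) (p (nat_lit 0x89) (nat_lit 1) (p (nat_lit 0x41) (nat_lit 0) (p (nat_lit 0x8a098b090a9a) (nat_lit 0) (p (nat_lit 0x9890a888a1a) (nat_lit 0) (p (nat_lit 0x89088a08079a) (nat_lit 0) (p (nat_lit 0x8880987871a) (nat_lit 0) (p (nat_lit 0x80000800080907088a) (nat_lit 0) (p (nat_lit 0x80000800078886860a) (nat_lit 0) (p (nat_lit 0x8688060782) (nat_lit 0) (p (nat_lit 0x607858702) (nat_lit 0) (p (nat_lit 0x8587050482) (nat_lit 0) (p (nat_lit 0x506848402) (nat_lit 0) (p (nat_lit 0x160014) (nat_lit 0) (p (nat_lit 0x50612) (nat_lit 0) (p (nat_lit 0x40592) (nat_lit 0) (p (nat_lit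 0x40492) (nat_lit 0) (p (nat_lit 0x30412) (nat_lit 0) (p (nat_lit 0x30212) (nat_lit 0) (p (nat_lit 0x20192) (nat_lit 0) (p (nat_lit 0x20092) (nat_lit 0) (p (nat_lit 0x10012) (nat_lit 0) pn))))))))))))))))))))))))))))))) :=
  Cl.node (nat_lit 0xc9) (nat_lit 2) (by decide +kernel) (ClAll.succ (ClAll.succ ClAll.zero s123) s124)

def n42 : Cl (O (nat_lit 3)) (R (nat_lit 104465))
    (p (nat_lit 0xb0014) (nat_lit 0) (p (nat_lit 0x119) (nat_lit 1) (p (nat_lit 0x20000c) (nat_lit 0) (p (nat_lit 0x200004) (nat_lit 0) (p (nat_lit 0xc9) (nat_lit 0) (p (nat_lit 0x89) (nat_lit 1) (p (nat_lit 0x109) (nat_lit 1) (p (nat_lit 0x101) (nat_lit 0) (p (nat_lit 0x111) (nat_lit 0) (p (nat_lit 0xd1) (nat_lit 1) (p (nat_lit 0x81) (nat_lit 0) (p (nat_lit 0x41) (nat_lit 1) (p (nat_lit 0x8a098b090a9a) (nat_lit 0) (p (nat_lit 0x9890a888a1a) (nat_lit 0) (p (nat_lit 0x89088a08079a) (nat_lit 0) (p (nat_lit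 0x8880987871a) (nat_lit 0) (p (nat_lit 0x80000800080907088a) (nat_lit 0) (p (nat_lit 0x80000800078886860a) (nat_lit 0) (p (nat_lit 0x8688060782) (nat_lit 0) (p (nat_lit 0x607858702) (nat_lit 0) (p (nat_lit 0x8587050482) (nat_lit 0) (p (nat_lit 0x506848402) (nat_lit 0) (p (nat_lit 0x160014) (nat_lit 0) (p (nat_lit 0x50612) (nat_lit 0) (p (nat_lit 0x40592) (nat_lit 0) (p (nat_lit 0x40492) (nat_lit 0) (p (nat_lit 0x30412) (nat_lit 0) (p (nat_lit 0x30212) (nat_lit 0) (p (nat_lit 0x20192) (nat_lit 0) (p (nat_lit 0x20092) (nat_lit 0) (p (nat_lit 0x10012) (nat_lit 0) pn))))))))))))))))))))))))))))))) :=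
  Cl.node (nat_lit 0xc1) (nat_lit 2) (by decide +kernel) (ClAll.succ (ClAll.succ ClAll.zero s173) s174)

def n43 : Cl (O (nat_lit 3)) (R (nat_lit 104465))
    (p (nat_lit 0x101) (nat_lit 0) (p (nat_lit 0x119) (nat_lit 0) (p (nat_lit 0xb0014) (nat_lit 0) (p (nat_lit 0x20000c) (nat_lit 0) (p (nat_lit 0x200004) (nat_lit 0) (p (nat_lit 0xc9) (nat_lit 0) (p (nat_lit 0x89) (nat_lit 1) (p (nat_lit 0x101) (nat_lit 1) (p (nat_lit 0x111) (nat_lit 0) (p (nat_lit 0xd1) (nat_lit 1) (p (nat_lit 0x81) (nat_lit 0) (p (nat_lit 0x41) (nat_lit 1) (p (nat_lit 0x8a098b090a9a) (nat_lit 0) (p (nat_lit 0x9890a888a1a) (nat_lit 0) (p (nat_lit 0x89088a08079a) (nat_lit 0) (p (nat_lit 0x8880987871a) (nat_lit 0) (p (nat_lit 0x80000800080907088a) (nat_lit 0) (p (nat_lit 0x80000800078886860a) (nat_lit 0) (p (nat_lit 0x8688060782) (nat_lit 0) (p (nat_lit 0x607858702) (nat_lit 0) (p (nat_lit 0x8587050482)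 (nat_lit 0) (p (nat_lit 0x506848402) (nat_lit 0) (p (nat_lit 0x160014) (nat_lit 0) (p (nat_lit 0x50612) (nat_lit 0) (p (nat_lit 0x40592) (nat_lit 0) (p (nat_lit 0x40492) (nat_lit 0) (p (nat_lit 0x30412) (nat_lit 0) (p (nat_lit 0x30212) (nat_lit 0) (p (nat_lit 0x20192) (nat_lit 0) (p (nat_lit 0x20092) (nat_lit 0) (p (nat_lit 0x10012) (nat_lit 0) pn))))))))))))))))))))))))))))))) :=
  Cl.node (nat_lit 0x109) (nat_lit 2) (by decide +kernel) (ClAll.succ (ClAll.succ ClAll.zero s183) s184)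

def n44 : Cl (O (nat_lit 3)) (R (nat_lit 104465))
    (p (nat_lit 0x101) (nat_lit 1) (p (nat_lit 0x119) (nat_lit 0) (p (nat_lit 0xb0014) (nat_lit 0) (p (nat_lit 0x20000c) (nat_lit 0) (p (nat_lit 0x200004) (nat_lit 0) (p (nat_lit 0xc9) (nat_lit 0) (p (nat_lit 0x89) (nat_lit 1) (p (nat_lit 0x101) (nat_lit 1) (p (nat_lit 0x111) (nat_lit 0) (p (nat_lit 0xd1) (nat_lit 1) (p (nat_lit 0x81) (nat_lit 0) (p (nat_lit 0x41) (nat_lit 1) (p (nat_lit 0x8a098b090a9a) (nat_lit 0) (p (nat_lit 0x9890a888a1a) (nat_lit 0) (p (nat_lit 0x89088a08079a) (nat_lit 0) (p (nat_lit 0x8880987871a) (nat_lit 0) (p (nat_lit 0x80000800080907088a) (nat_lit 0) (p (nat_lit 0x80000800078886860a) (nat_lit 0) (p (nat_lit 0x8688060782) (nat_lit 0) (p (nat_lit 0x607858702) (nat_lit 0) (p (nat_lit 0x8587050482) (nat_lit 0) (p (nat_lit 0x506848402) (nat_lit 0) (p (nat_lit 0x160014) (nat_lit 0) (p (nat_lit 0x50612)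 (nat_lit 0) (p (nat_lit 0x40592) (nat_lit 0) (p (nat_lit 0x40492) (nat_lit 0) (p (nat_lit 0x30412) (nat_lit 0) (p (nat_lit 0x30212) (nat_lit 0) (p (nat_lit 0x20192) (nat_lit 0) (p (nat_lit 0x20092) (nat_lit 0) (p (nat_lit 0x10012) (nat_lit 0) pn))))))))))))))))))))))))))))))) :=
  Cl.node (nat_lit 0xc1) (nat_lit 2) (by decide +kernel) (ClAll.succ (ClAll.succ ClAll.zero n30) s187)

def n45 : Cl (O (nat_lit 3)) (R (nat_lit 104465))
    (p (nat_lit 0xc1) (nat_lit 1) (p (nat_lit 0x119) (nat_lit 1) (p (nat_lit 0xb0014) (nat_lit 0) (p (nat_lit 0x20000c) (nat_lit 0) (p (nat_lit 0x200004) (nat_lit 0) (p (nat_lit 0xc9) (nat_lit 0) (p (nat_lit 0x89) (nat_lit 1) (p (nat_lit 0x101) (nat_lit 1) (p (nat_lit 0x111) (nat_lit 0) (p (nat_lit 0xd1) (nat_lit 1) (p (nat_lit 0x81) (nat_lit 0) (p (nat_lit 0x41) (nat_lit 1) (p (nat_lit 0x8a098b090a9a) (nat_lit 0) (p (nat_lit 0x9890a888a1a) (nat_lit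 0) (p (nat_lit 0x89088a08079a) (nat_lit 0) (p (nat_lit 0x8880987871a) (nat_lit 0) (p (nat_lit 0x80000800080907088a) (nat_lit 0) (p (nat_lit 0x80000800078886860a) (nat_lit 0) (p (nat_lit 0x8688060782) (nat_lit 0) (p (nat_lit 0x607858702) (nat_lit 0) (p (nat_lit 0x8587050482) (nat_lit 0) (p (nat_lit 0x506848402) (nat_lit 0) (p (nat_lit 0x160014) (nat_lit 0) (p (nat_lit 0x50612) (nat_lit 0) (p (nat_lit 0x40592) (nat_lit 0) (p (nat_lit 0x40492) (nat_lit 0) (p (nat_lit 0x30412) (nat_lit 0) (p (nat_lit 0x30212) (nat_lit 0) (p (nat_lit 0x20192) (nat_lit 0) (p (nat_lit 0x20092) (nat_lit 0) (p (nat_lit 0x10012) (nat_lit 0) pn))))))))))))))))))))))))))))))) :=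
  Cl.node (nat_lit 0x101) (nat_lit 2) (by decide +kernel) (ClAll.succ (ClAll.succ ClAll.zero s189) s190)

def n46 : Cl (O (nat_lit 3)) (R (nat_lit 104465))
    (p (nat_lit 0xb0014) (nat_lit 0) (p (nat_lit 0x111) (nat_lit 0) (p (nat_lit 0x20000c) (nat_lit 0) (p (nat_lit 0x200004) (nat_lit 0) (p (nat_lit 0xc9) (nat_lit 1) (p (nat_lit 0x81) (nat_lit 0) (p (nat_lit 0x101) (nat_lit 1) (p (nat_lit 0x119) (nat_lit 0) (p (nat_lit 0xd1) (nat_lit 0) (p (nat_lit 0x89) (nat_lit 0) (p (nat_lit 0x41) (nat_lit 0) (p (nat_lit 0x8a098b090a9a) (nat_lit 0) (p (nat_lit 0x9890a888a1a) (nat_lit 0) (p (nat_lit 0x89088a08079a) (nat_lit 0) (p (nat_lit 0x8880987871a) (nat_lit 0) (p (nat_lit 0x80000800080907088a) (nat_lit 0) (p (nat_lit 0x80000800078886860a) (nat_lit 0) (p (nat_lit 0x8688060782) (nat_lit 0) (p (nat_lit 0x607858702) (nat_lit 0) (p (nat_lit 0x8587050482) (nat_lit 0) (p (nat_lit 0x506848402)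 (nat_lit 0) (p (nat_lit 0x160014) (nat_lit 0) (p (nat_lit 0x50612) (nat_lit 0) (p (nat_lit 0x40592) (nat_lit 0) (p (nat_lit 0x40492) (nat_lit 0) (p (nat_lit 0x30412) (nat_lit 0) (p (nat_lit 0x30212) (nat_lit 0) (p (nat_lit 0x20192) (nat_lit 0) (p (nat_lit 0x20092) (nat_lit 0) (p (nat_lit 0x10012) (nat_lit 0) pn)))))))))))))))))))))))))))))) :=
  Cl.node (nat_lit 0x109) (nat_lit 2) (by decide +kernel) (ClAll.succ (ClAll.succ ClAll.zero s8) n31)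

def n47 : Cl (O (nat_lit 3)) (R (nat_lit 104465))
    (p (nat_lit 0xb0014) (nat_lit 0) (p (nat_lit 0x20000c) (nat_lit 0) (p (nat_lit 0x200004) (nat_lit 0) (p (nat_lit 0xc9) (nat_lit 1) (p (nat_lit 0xc1) (nat_lit 0) (p (nat_lit 0x81) (nat_lit 1) (p (nat_lit 0x101) (nat_lit 1) (p (nat_lit 0x119) (nat_lit 0) (p (nat_lit 0xd1) (nat_lit 0) (p (nat_lit 0x89) (nat_lit 0) (p (nat_lit 0x41) (nat_lit 0) (p (nat_lit 0x8a098b090a9a) (nat_lit 0) (p (nat_lit 0x9890a888a1a) (nat_lit 0) (p (nat_lit 0x89088a08079a) (nat_lit 0) (p (nat_lit 0x8880987871a) (nat_lit 0) (p (nat_lit 0x80000800080907088a) (nat_lit 0) (p (nat_lit 0x80000800078886860a) (nat_lit 0) (p (nat_lit 0x8688060782) (nat_lit 0) (p (nat_lit 0x607858702) (nat_lit 0) (p (nat_lit 0x8587050482) (nat_lit 0) (p (nat_lit 0x506848402) (nat_lit 0) (p (nat_lit 0x160014) (nat_lit 0) (p (nat_lit 0x50612) (nat_lit 0) (p (nat_lit 0x40592)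 (nat_lit 0) (p (nat_lit 0x40492) (nat_lit 0) (p (nat_lit 0x30412) (nat_lit 0) (p (nat_lit 0x30212) (nat_lit 0) (p (nat_lit 0x20192) (nat_lit 0) (p (nat_lit 0x20092) (nat_lit 0) (p (nat_lit 0x10012) (nat_lit 0) pn)))))))))))))))))))))))))))))) :=
  Cl.node (nat_lit 0x109) (nat_lit 2) (by decide +kernel) (ClAll.succ (ClAll.succ ClAll.zero s16) n32)

def n48 : Cl (O (nat_lit 3)) (R (nat_lit 104465))
    (p (nat_lit 0xb0014) (nat_lit 0) (p (nat_lit 0x119) (nat_lit 0) (p (nat_lit 0x20000c) (nat_lit 0) (p (nat_lit 0x200004) (nat_lit 0) (p (nat_lit 0xc1) (nat_lit 0) (p (nat_lit 0x81) (nat_lit 1) (p (nat_lit 0x101) (nat_lit 1) (p (nat_lit 0x111) (nat_lit 0) (p (nat_lit 0xd1) (nat_lit 1) (p (nat_lit 0x89) (nat_lit 0) (p (nat_lit 0x41) (nat_lit 0) (p (nat_lit 0x8a098b090a9a) (nat_lit 0) (p (nat_lit 0x9890a888a1a) (nat_lit 0) (p (nat_lit 0x89088a08079a) (nat_lit 0) (p (nat_lit 0x8880987871a)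 (nat_lit 0) (p (nat_lit 0x80000800080907088a) (nat_lit 0) (p (nat_lit 0x80000800078886860a) (nat_lit 0) (p (nat_lit 0x8688060782) (nat_lit 0) (p (nat_lit 0x607858702) (nat_lit 0) (p (nat_lit 0x8587050482) (nat_lit 0) (p (nat_lit 0x506848402) (nat_lit 0) (p (nat_lit 0x160014) (nat_lit 0) (p (nat_lit 0x50612) (nat_lit 0) (p (nat_lit 0x40592) (nat_lit 0) (p (nat_lit 0x40492) (nat_lit 0) (p (nat_lit 0x30412) (nat_lit 0) (p (nat_lit 0x30212) (nat_lit 0) (p (nat_lit 0x20192) (nat_lit 0) (p (nat_lit 0x20092) (nat_lit 0) (p (nat_lit 0x10012) (nat_lit 0) pn)))))))))))))))))))))))))))))) :=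
  Cl.node (nat_lit 0x109) (nat_lit 2) (by decide +kernel) (ClAll.succ (ClAll.succ ClAll.zero s45) s46)

def n49 : Cl (O (nat_lit 3)) (R (nat_lit 104465))
    (p (nat_lit 0xb0014) (nat_lit 0) (p (nat_lit 0x119) (nat_lit 1) (p (nat_lit 0x20000c) (nat_lit 0) (p (nat_lit 0x200004) (nat_lit 0) (p (nat_lit 0xc1) (nat_lit 0) (p (nat_lit 0x81) (nat_lit 1) (p (nat_lit 0x101) (nat_lit 1) (p (nat_lit 0x111) (nat_lit 0) (p (nat_lit 0xd1) (nat_lit 1) (p (nat_lit 0x89) (nat_lit 0) (p (nat_lit 0x41) (nat_lit 0) (p (nat_lit 0x8a098b090a9a) (nat_lit 0) (p (nat_lit 0x9890a888a1a) (nat_lit 0) (p (nat_lit 0x89088a08079a) (nat_lit 0) (p (nat_lit 0x8880987871a) (nat_lit 0) (p (nat_lit 0x80000800080907088a) (nat_lit 0) (p (nat_lit 0x80000800078886860a) (nat_lit 0) (p (nat_lit 0x8688060782) (nat_lit 0) (p (nat_lit 0x607858702) (nat_lit 0) (p (nat_lit 0x8587050482) (nat_lit 0) (p (nat_lit 0x506848402)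 (nat_lit 0) (p (nat_lit 0x160014) (nat_lit 0) (p (nat_lit 0x50612) (nat_lit 0) (p (nat_lit 0x40592) (nat_lit 0) (p (nat_lit 0x40492) (nat_lit 0) (p (nat_lit 0x30412) (nat_lit 0) (p (nat_lit 0x30212) (nat_lit 0) (p (nat_lit 0x20192) (nat_lit 0) (p (nat_lit 0x20092) (nat_lit 0) (p (nat_lit 0x10012) (nat_lit 0) pn)))))))))))))))))))))))))))))) :=
  Cl.node (nat_lit 0xc9) (nat_lit 2) (by decide +kernel) (ClAll.succ (ClAll.succ ClAll.zero s48) s49)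

def n50 : Cl (O (nat_lit 3)) (R (nat_lit 104465))
    (p (nat_lit 0x41) (nat_lit 0) (p (nat_lit 0xb0014) (nat_lit 0) (p (nat_lit 0x20000c) (nat_lit 0) (p (nat_lit 0x200004) (nat_lit 0) (p (nat_lit 0xd1) (nat_lit 0) (p (nat_lit 0x109) (nat_lit 1) (p (nat_lit 0x101) (nat_lit 0) (p (nat_lit 0x119) (nat_lit 0) (p (nat_lit 0xc9) (nat_lit 0) (p (nat_lit 0x89) (nat_lit 1) (p (nat_lit 0x41) (nat_lit 0) (p (nat_lit 0x8a098b090a9a) (nat_lit 0) (p (nat_lit 0x9890a888a1a) (nat_lit 0) (p (nat_lit 0x89088a08079a) (nat_lit 0) (p (nat_lit 0x8880987871a) (nat_lit 0) (p (nat_lit 0x80000800080907088a) (nat_lit 0) (p (nat_lit 0x80000800078886860a) (nat_lit 0) (p (nat_lit 0x8688060782) (nat_lit 0) (p (nat_lit 0x607858702) (nat_lit 0) (p (nat_lit 0x8587050482) (nat_lit 0) (p (nat_lit 0x506848402) (nat_lit 0) (p (nat_lit 0x160014) (nat_lit 0) (p (nat_lit 0x50612) (nat_lit 0) (p (nat_lit 0x40592)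 (nat_lit 0) (p (nat_lit 0x40492) (nat_lit 0) (p (nat_lit 0x30412) (nat_lit 0) (p (nat_lit 0x30212) (nat_lit 0) (p (nat_lit 0x20192) (nat_lit 0) (p (nat_lit 0x20092) (nat_lit 0) (p (nat_lit 0x10012) (nat_lit 0) pn)))))))))))))))))))))))))))))) :=
  Cl.node (nat_lit 0xc9) (nat_lit 2) (by decide +kernel) (ClAll.succ (ClAll.succ ClAll.zero s67) s68)

def n51 : Cl (O (nat_lit 3)) (R (nat_lit 104465))
    (p (nat_lit 0x2a825aa8258a8b89890a) (nat_lit 0) (p (nat_lit 0xb0014) (nat_lit 1) (p (nat_lit 0x20000c) (nat_lit 0) (p (nat_lit 0x200004) (nat_lit 0) (p (nat_lit 0xd1) (nat_lit 0) (p (nat_lit 0x109) (nat_lit 1) (p (nat_lit 0x101) (nat_lit 0) (p (nat_lit 0x119) (nat_lit 0) (p (nat_lit 0xc9) (nat_lit 0) (p (nat_lit 0x89) (nat_lit 1) (p (nat_lit 0x41) (nat_lit 0) (p (nat_lit 0x8a098b090a9a) (nat_lit 0) (p (nat_lit 0x9890a888a1a) (nat_lit 0) (p (nat_lit 0x89088a08079a) (nat_lit 0) (p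 (nat_lit 0x8880987871a) (nat_lit 0) (p (nat_lit 0x80000800080907088a) (nat_lit 0) (p (nat_lit 0x80000800078886860a) (nat_lit 0) (p (nat_lit 0x8688060782) (nat_lit 0) (p (nat_lit 0x607858702) (nat_lit 0) (p (nat_lit 0x8587050482) (nat_lit 0) (p (nat_lit 0x506848402) (nat_lit 0) (p (nat_lit 0x160014) (nat_lit 0) (p (nat_lit 0x50612) (nat_lit 0) (p (nat_lit 0x40592) (nat_lit 0) (p (nat_lit 0x40492) (nat_lit 0) (p (nat_lit 0x30412) (nat_lit 0) (p (nat_lit 0x30212) (nat_lit 0) (p (nat_lit 0x20192) (nat_lit 0) (p (nat_lit 0x20092) (nat_lit 0) (p (nat_lit 0x10012) (nat_lit 0) pn)))))))))))))))))))))))))))))) :=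
  Cl.node (nat_lit 0x2a825aa8258b0c0a0b8a) (nat_lit 1) (by decide +kernel) (ClAll.succ ClAll.zero n33)

def n52 : Cl (O (nat_lit 3)) (R (nat_lit 104465))
    (p (nat_lit 0x41) (nat_lit 0) (p (nat_lit 0xb0014) (nat_lit 0) (p (nat_lit 0x20000c) (nat_lit 0) (p (nat_lit 0x200004) (nat_lit 0) (p (nat_lit 0xd1) (nat_lit 1) (p (nat_lit 0x109) (nat_lit 1) (p (nat_lit 0x101) (nat_lit 0) (p (nat_lit 0x119) (nat_lit 0) (p (nat_lit 0xc9) (nat_lit 0) (p (nat_lit 0x89) (nat_lit 1) (p (nat_lit 0x41) (nat_lit 0) (p (nat_lit 0x8a098b090a9a) (nat_lit 0) (p (nat_lit 0x9890a888a1a) (nat_lit 0) (p (nat_lit 0x89088a08079a) (nat_lit 0) (p (nat_lit 0x8880987871a) (nat_lit 0) (p (nat_lit 0x80000800080907088a) (nat_lit 0) (p (nat_lit 0x80000800078886860a) (nat_lit 0) (p (nat_lit 0x8688060782) (nat_lit 0) (p (nat_lit 0x607858702) (nat_lit 0) (p (nat_lit 0x8587050482) (nat_lit 0) (p (nat_lit 0x506848402)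 (nat_lit 0) (p (nat_lit 0x160014) (nat_lit 0) (p (nat_lit 0x50612) (nat_lit 0) (p (nat_lit 0x40592) (nat_lit 0) (p (nat_lit 0x40492) (nat_lit 0) (p (nat_lit 0x30412) (nat_lit 0) (p (nat_lit 0x30212) (nat_lit 0) (p (nat_lit 0x20192) (nat_lit 0) (p (nat_lit 0x20092) (nat_lit 0) (p (nat_lit 0x10012) (nat_lit 0) pn)))))))))))))))))))))))))))))) :=
  Cl.node (nat_lit 0x111) (nat_lit 2) (by decide +kernel) (ClAll.succ (ClAll.succ ClAll.zero n34) n35)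

def n53 : Cl (O (nat_lit 3)) (R (nat_lit 104465))
    (p (nat_lit 0x2a825aa8258a8b89890a) (nat_lit 0) (p (nat_lit 0xb0014) (nat_lit 1) (p (nat_lit 0x20000c) (nat_lit 0) (p (nat_lit 0x200004) (nat_lit 0) (p (nat_lit 0xd1) (nat_lit 1) (p (nat_lit 0x109) (nat_lit 1) (p (nat_lit 0x101) (nat_lit 0) (p (nat_lit 0x119) (nat_lit 0) (p (nat_lit 0xc9) (nat_lit 0) (p (nat_lit 0x89) (nat_lit 1) (p (nat_lit 0x41) (nat_lit 0) (p (nat_lit 0x8a098b090a9a) (nat_lit 0) (p (nat_lit 0x9890a888a1a) (nat_lit 0) (p (nat_lit 0x89088a08079a) (nat_lit 0) (p (nat_lit 0x8880987871a) (nat_lit 0) (p (nat_lit 0x80000800080907088a) (nat_lit 0) (p (nat_lit 0x80000800078886860a) (nat_lit 0) (p (nat_lit 0x8688060782) (nat_lit 0) (p (nat_lit 0x607858702) (nat_lit 0) (p (nat_lit 0x8587050482) (nat_lit 0) (p (nat_lit 0x506848402) (nat_lit 0) (p (nat_lit 0x160014) (nat_lit 0) (p (nat_lit 0x50612) (nat_lit 0) (p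 (nat_lit 0x40592) (nat_lit 0) (p (nat_lit 0x40492) (nat_lit 0) (p (nat_lit 0x30412) (nat_lit 0) (p (nat_lit 0x30212) (nat_lit 0) (p (nat_lit 0x20192) (nat_lit 0) (p (nat_lit 0x20092) (nat_lit 0) (p (nat_lit 0x10012) (nat_lit 0) pn)))))))))))))))))))))))))))))) :=
  Cl.node (nat_lit 0x2a825aa8258b0c0a0b8a) (nat_lit 1) (by decide +kernel) (ClAll.succ ClAll.zero n36)

def n54 : Cl (O (nat_lit 3)) (R (nat_lit 104465))
    (p (nat_lit 0x109) (nat_lit 1) (p (nat_lit 0xb0014) (nat_lit 0) (p (nat_lit 0x20000c) (nat_lit 0) (p (nat_lit 0x200004) (nat_lit 0) (p (nat_lit 0xd1) (nat_lit 1) (p (nat_lit 0xc1) (nat_lit 0) (p (nat_lit 0x101) (nat_lit 1) (p (nat_lit 0x119) (nat_lit 0) (p (nat_lit 0xc9) (nat_lit 0) (p (nat_lit 0x89) (nat_lit 1) (p (nat_lit 0x41) (nat_lit 0) (p (nat_lit 0x8a098b090a9a) (nat_lit 0) (p (nat_lit 0x9890a888a1a) (nat_lit 0) (p (nat_lit 0x89088a08079a) (nat_lit 0)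 (p (nat_lit 0x8880987871a) (nat_lit 0) (p (nat_lit 0x80000800080907088a) (nat_lit 0) (p (nat_lit 0x80000800078886860a) (nat_lit 0) (p (nat_lit 0x8688060782) (nat_lit 0) (p (nat_lit 0x607858702) (nat_lit 0) (p (nat_lit 0x8587050482) (nat_lit 0) (p (nat_lit 0x506848402) (nat_lit 0) (p (nat_lit 0x160014) (nat_lit 0) (p (nat_lit 0x50612) (nat_lit 0) (p (nat_lit 0x40592) (nat_lit 0) (p (nat_lit 0x40492) (nat_lit 0) (p (nat_lit 0x30412) (nat_lit 0) (p (nat_lit 0x30212) (nat_lit 0) (p (nat_lit 0x20192) (nat_lit 0) (p (nat_lit 0x20092) (nat_lit 0) (p (nat_lit 0x10012) (nat_lit 0) pn)))))))))))))))))))))))))))))) :=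
  Cl.node (nat_lit 0x81) (nat_lit 2) (by decide +kernel) (ClAll.succ (ClAll.succ ClAll.zero n37) s95)

def n55 : Cl (O (nat_lit 3)) (R (nat_lit 104465))
    (p (nat_lit 0x2a825aa8258a8b89890a) (nat_lit 0) (p (nat_lit 0xb0014) (nat_lit 1) (p (nat_lit 0x20000c) (nat_lit 0) (p (nat_lit 0x200004) (nat_lit 0) (p (nat_lit 0xd1) (nat_lit 1) (p (nat_lit 0xc1) (nat_lit 0) (p (nat_lit 0x101) (nat_lit 1) (p (nat_lit 0x119) (nat_lit 0) (p (nat_lit 0xc9) (nat_lit 0) (p (nat_lit 0x89) (nat_lit 1) (p (nat_lit 0x41) (nat_lit 0) (p (nat_lit 0x8a098b090a9a) (nat_lit 0) (p (nat_lit 0x9890a888a1a) (nat_lit 0) (p (nat_lit 0x89088a08079a) (nat_lit 0) (p (nat_lit 0x8880987871a) (nat_lit 0) (p (nat_lit 0x80000800080907088a) (nat_lit 0) (p (nat_lit 0x80000800078886860a) (nat_lit 0) (p (nat_lit 0x8688060782) (nat_lit 0) (p (nat_lit 0x607858702) (nat_lit 0) (p (nat_lit 0x8587050482) (nat_lit 0) (p (nat_lit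 0x506848402) (nat_lit 0) (p (nat_lit 0x160014) (nat_lit 0) (p (nat_lit 0x50612) (nat_lit 0) (p (nat_lit 0x40592) (nat_lit 0) (p (nat_lit 0x40492) (nat_lit 0) (p (nat_lit 0x30412) (nat_lit 0) (p (nat_lit 0x30212) (nat_lit 0) (p (nat_lit 0x20192) (nat_lit 0) (p (nat_lit 0x20092) (nat_lit 0) (p (nat_lit 0x10012) (nat_lit 0) pn)))))))))))))))))))))))))))))) :=
  Cl.node (nat_lit 0x2a825aa8258b0c0a0b8a) (nat_lit 1) (by decide +kernel) (ClAll.succ ClAll.zero n38)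

def n56 : Cl (O (nat_lit 3)) (R (nat_lit 104465))
    (p (nat_lit 0x2a825aa8258a8b89890a) (nat_lit 0) (p (nat_lit 0xb0014) (nat_lit 1) (p (nat_lit 0x20000c) (nat_lit 0) (p (nat_lit 0x200004) (nat_lit 0) (p (nat_lit 0x111) (nat_lit 1) (p (nat_lit 0xd1) (nat_lit 1) (p (nat_lit 0xc1) (nat_lit 0) (p (nat_lit 0x119) (nat_lit 1) (p (nat_lit 0xc9) (nat_lit 0) (p (nat_lit 0x89) (nat_lit 1) (p (nat_lit 0x41) (nat_lit 0) (p (nat_lit 0x8a098b090a9a) (nat_lit 0) (p (nat_lit 0x9890a888a1a) (nat_lit 0) (p (nat_lit 0x89088a08079a) (nat_lit 0) (p (nat_lit 0x8880987871a) (nat_lit 0) (p (nat_lit 0x80000800080907088a) (nat_lit 0) (p (nat_lit 0x80000800078886860a) (nat_lit 0) (p (nat_lit 0x8688060782) (nat_lit 0) (p (nat_lit 0x607858702) (nat_lit 0) (p (nat_lit 0x8587050482) (nat_lit 0) (p (nat_lit 0x506848402) (nat_lit 0) (p (nat_lit 0x160014) (nat_lit 0) (p (nat_lit 0x50612) (nat_lit 0) (p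 (nat_lit 0x40592) (nat_lit 0) (p (nat_lit 0x40492) (nat_lit 0) (p (nat_lit 0x30412) (nat_lit 0) (p (nat_lit 0x30212) (nat_lit 0) (p (nat_lit 0x20192) (nat_lit 0) (p (nat_lit 0x20092) (nat_lit 0) (p (nat_lit 0x10012) (nat_lit 0) pn)))))))))))))))))))))))))))))) :=
  Cl.node (nat_lit 0x2a825aa8258b0c0a0b8a) (nat_lit 1) (by decide +kernel) (ClAll.succ ClAll.zero n39)

def n57 : Cl (O (nat_lit 3)) (R (nat_lit 104465))
    (p (nat_lit 0xd1) (nat_lit 1) (p (nat_lit 0xb0014) (nat_lit 0) (p (nat_lit 0x20000c) (nat_lit 0) (p (nat_lit 0x200004) (nat_lit 0) (p (nat_lit 0x111) (nat_lit 1) (p (nat_lit 0x101) (nat_lit 0) (p (nat_lit 0xc1) (nat_lit 1) (p (nat_lit 0x119) (nat_lit 1) (p (nat_lit 0xc9) (nat_lit 0) (p (nat_lit 0x89) (nat_lit 1) (p (nat_lit 0x41) (nat_lit 0) (p (nat_lit 0x8a098b090a9a) (nat_lit 0) (p (nat_lit 0x9890a888a1a) (nat_lit 0) (p (nat_lit 0x89088a08079a) (nat_lit 0)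 (p (nat_lit 0x8880987871a) (nat_lit 0) (p (nat_lit 0x80000800080907088a) (nat_lit 0) (p (nat_lit 0x80000800078886860a) (nat_lit 0) (p (nat_lit 0x8688060782) (nat_lit 0) (p (nat_lit 0x607858702) (nat_lit 0) (p (nat_lit 0x8587050482) (nat_lit 0) (p (nat_lit 0x506848402) (nat_lit 0) (p (nat_lit 0x160014) (nat_lit 0) (p (nat_lit 0x50612) (nat_lit 0) (p (nat_lit 0x40592) (nat_lit 0) (p (nat_lit 0x40492) (nat_lit 0) (p (nat_lit 0x30412) (nat_lit 0) (p (nat_lit 0x30212) (nat_lit 0) (p (nat_lit 0x20192) (nat_lit 0) (p (nat_lit 0x20092) (nat_lit 0) (p (nat_lit 0x10012) (nat_lit 0) pn)))))))))))))))))))))))))))))) :=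
  Cl.node (nat_lit 0x81) (nat_lit 2) (by decide +kernel) (ClAll.succ (ClAll.succ ClAll.zero s113) s114)

def n58 : Cl (O (nat_lit 3)) (R (nat_lit 104465))
    (p (nat_lit 0x2a825aa8258a8b89890a) (nat_lit 0) (p (nat_lit 0xb0014) (nat_lit 1) (p (nat_lit 0x20000c) (nat_lit 0) (p (nat_lit 0x200004) (nat_lit 0) (p (nat_lit 0x111) (nat_lit 1) (p (nat_lit 0x101) (nat_lit 0) (p (nat_lit 0xc1) (nat_lit 1) (p (nat_lit 0x119) (nat_lit 1) (p (nat_lit 0xc9) (nat_lit 0) (p (nat_lit 0x89) (nat_lit 1) (p (nat_lit 0x41) (nat_lit 0) (p (nat_lit 0x8a098b090a9a) (nat_lit 0) (p (nat_lit 0x9890a888a1a) (nat_lit 0) (p (nat_lit 0x89088a08079a) (nat_lit 0) (p (nat_lit 0x8880987871a) (nat_lit 0) (p (nat_lit 0x80000800080907088a) (nat_lit 0) (p (nat_lit 0x80000800078886860a) (nat_lit 0) (p (nat_lit 0x8688060782) (nat_lit 0) (p (nat_lit 0x607858702) (nat_lit 0) (p (nat_lit 0x8587050482) (nat_lit 0) (p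 (nat_lit 0x506848402) (nat_lit 0) (p (nat_lit 0x160014) (nat_lit 0) (p (nat_lit 0x50612) (nat_lit 0) (p (nat_lit 0x40592) (nat_lit 0) (p (nat_lit 0x40492) (nat_lit 0) (p (nat_lit 0x30412) (nat_lit 0) (p (nat_lit 0x30212) (nat_lit 0) (p (nat_lit 0x20192) (nat_lit 0) (p (nat_lit 0x20092) (nat_lit 0) (p (nat_lit 0x10012) (nat_lit 0) pn)))))))))))))))))))))))))))))) :=
  Cl.node (nat_lit 0x2a825aa8258b0c0a0b8a) (nat_lit 1) (by decide +kernel) (ClAll.succ ClAll.zero n40)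

def n59 : Cl (O (nat_lit 3)) (R (nat_lit 104465))
    (p (nat_lit 0xc1) (nat_lit 0) (p (nat_lit 0xb0014) (nat_lit 0) (p (nat_lit 0x20000c) (nat_lit 0) (p (nat_lit 0x200004) (nat_lit 0) (p (nat_lit 0x119) (nat_lit 1) (p (nat_lit 0x111) (nat_lit 0) (p (nat_lit 0x101) (nat_lit 0) (p (nat_lit 0x109) (nat_lit 0) (p (nat_lit 0xc9) (nat_lit 1) (p (nat_lit 0x89) (nat_lit 1) (p (nat_lit 0x41) (nat_lit 0) (p (nat_lit 0x8a098b090a9a) (nat_lit 0) (p (nat_lit 0x9890a888a1a) (nat_lit 0) (p (nat_lit 0x89088a08079a) (nat_lit 0) (p (nat_lit 0x8880987871a) (nat_lit 0) (p (nat_lit 0x80000800080907088a) (nat_lit 0) (p (nat_lit 0x80000800078886860a) (nat_lit 0) (p (nat_lit 0x8688060782) (nat_lit 0) (p (nat_lit 0x607858702) (nat_lit 0) (p (nat_lit 0x8587050482) (nat_lit 0) (p (nat_lit 0x506848402) (nat_lit 0) (p (nat_lit 0x160014) (nat_lit 0) (p (nat_lit 0x50612) (nat_lit 0) (p (nat_lit 0x40592)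 (nat_lit 0) (p (nat_lit 0x40492) (nat_lit 0) (p (nat_lit 0x30412) (nat_lit 0) (p (nat_lit 0x30212) (nat_lit 0) (p (nat_lit 0x20192) (nat_lit 0) (p (nat_lit 0x20092) (nat_lit 0) (p (nat_lit 0x10012) (nat_lit 0) pn)))))))))))))))))))))))))))))) :=
  Cl.node (nat_lit 0xd1) (nat_lit 2) (by decide +kernel) (ClAll.succ (ClAll.succ ClAll.zero n41) s125)

def n60 : Cl (O (nat_lit 3)) (R (nat_lit 104465))
    (p (nat_lit 0x109) (nat_lit 0) (p (nat_lit 0xb0014) (nat_lit 0) (p (nat_lit 0x20000c) (nat_lit 0) (p (nat_lit 0x200004) (nat_lit 0) (p (nat_lit 0x89) (nat_lit 1) (p (nat_lit 0xc1) (nat_lit 1) (p (nat_lit 0x101) (nat_lit 1) (p (nat_lit 0x119) (nat_lit 0) (p (nat_lit 0xd1) (nat_lit 0) (p (nat_lit 0x81) (nat_lit 0) (p (nat_lit 0x41) (nat_lit 1) (p (nat_lit 0x8a098b090a9a) (nat_lit 0) (p (nat_lit 0x9890a888a1a) (nat_lit 0) (p (nat_lit 0x89088a08079a) (nat_lit 0) (p (nat_lit 0x8880987871a)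 (nat_lit 0) (p (nat_lit 0x80000800080907088a) (nat_lit 0) (p (nat_lit 0x80000800078886860a) (nat_lit 0) (p (nat_lit 0x8688060782) (nat_lit 0) (p (nat_lit 0x607858702) (nat_lit 0) (p (nat_lit 0x8587050482) (nat_lit 0) (p (nat_lit 0x506848402) (nat_lit 0) (p (nat_lit 0x160014) (nat_lit 0) (p (nat_lit 0x50612) (nat_lit 0) (p (nat_lit 0x40592) (nat_lit 0) (p (nat_lit 0x40492) (nat_lit 0) (p (nat_lit 0x30412) (nat_lit 0) (p (nat_lit 0x30212) (nat_lit 0) (p (nat_lit 0x20192) (nat_lit 0) (p (nat_lit 0x20092) (nat_lit 0) (p (nat_lit 0x10012) (nat_lit 0) pn)))))))))))))))))))))))))))))) :=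
  Cl.node (nat_lit 0x101) (nat_lit 2) (by decide +kernel) (ClAll.succ (ClAll.succ ClAll.zero s147) s148)

def n61 : Cl (O (nat_lit 3)) (R (nat_lit 104465))
    (p (nat_lit 0x109) (nat_lit 1) (p (nat_lit 0xb0014) (nat_lit 0) (p (nat_lit 0x20000c) (nat_lit 0) (p (nat_lit 0x200004) (nat_lit 0) (p (nat_lit 0x89) (nat_lit 1) (p (nat_lit 0xc1) (nat_lit 1) (p (nat_lit 0x101) (nat_lit 1) (p (nat_lit 0x119) (nat_lit 0) (p (nat_lit 0xd1) (nat_lit 0) (p (nat_lit 0x81) (nat_lit 0) (p (nat_lit 0x41) (nat_lit 1) (p (nat_lit 0x8a098b090a9a) (nat_lit 0) (p (nat_lit 0x9890a888a1a) (nat_lit 0) (p (nat_lit 0x89088a08079a) (nat_lit 0) (p (nat_lit 0x8880987871a) (nat_lit 0) (p (nat_lit 0x80000800080907088a) (nat_lit 0) (p (nat_lit 0x80000800078886860a) (nat_lit 0) (p (nat_lit 0x8688060782) (nat_lit 0) (p (nat_lit 0x607858702) (nat_lit 0) (p (nat_lit 0x8587050482) (nat_lit 0) (p (nat_lit 0x506848402)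 (nat_lit 0) (p (nat_lit 0x160014) (nat_lit 0) (p (nat_lit 0x50612) (nat_lit 0) (p (nat_lit 0x40592) (nat_lit 0) (p (nat_lit 0x40492) (nat_lit 0) (p (nat_lit 0x30412) (nat_lit 0) (p (nat_lit 0x30212) (nat_lit 0) (p (nat_lit 0x20192) (nat_lit 0) (p (nat_lit 0x20092) (nat_lit 0) (p (nat_lit 0x10012) (nat_lit 0) pn)))))))))))))))))))))))))))))) :=
  Cl.node (nat_lit 0x41) (nat_lit 2) (by decide +kernel) (ClAll.succ (ClAll.succ ClAll.zero s149) s150)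

def n62 : Cl (O (nat_lit 3)) (R (nat_lit 104465))
    (p (nat_lit 0x119) (nat_lit 1) (p (nat_lit 0x20000c) (nat_lit 0) (p (nat_lit 0x200004) (nat_lit 0) (p (nat_lit 0xc9) (nat_lit 0) (p (nat_lit 0x89) (nat_lit 1) (p (nat_lit 0x109) (nat_lit 1) (p (nat_lit 0x101) (nat_lit 0) (p (nat_lit 0x111) (nat_lit 0) (p (nat_lit 0xd1) (nat_lit 1) (p (nat_lit 0x81) (nat_lit 0) (p (nat_lit 0x41) (nat_lit 1) (p (nat_lit 0x8a098b090a9a) (nat_lit 0) (p (nat_lit 0x9890a888a1a) (nat_lit 0) (p (nat_lit 0x89088a08079a) (nat_lit 0) (p (nat_lit 0x8880987871a) (nat_lit 0) (p (nat_lit 0x80000800080907088a) (nat_lit 0) (p (nat_lit 0x80000800078886860a) (nat_lit 0) (p (nat_lit 0x8688060782) (nat_lit 0) (p (nat_lit 0x607858702) (nat_lit 0) (p (nat_lit 0x8587050482) (nat_lit 0) (p (nat_lit 0x506848402) (nat_lit 0) (p (nat_lit 0x160014) (nat_lit 0) (p (nat_lit 0x50612) (nat_lit 0) (p (nat_lit 0x40592)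 (nat_lit 0) (p (nat_lit 0x40492) (nat_lit 0) (p (nat_lit 0x30412) (nat_lit 0) (p (nat_lit 0x30212) (nat_lit 0) (p (nat_lit 0x20192) (nat_lit 0) (p (nat_lit 0x20092) (nat_lit 0) (p (nat_lit 0x10012) (nat_lit 0) pn)))))))))))))))))))))))))))))) :=
  Cl.node (nat_lit 0xb0014) (nat_lit 2) (by decide +kernel) (ClAll.succ (ClAll.succ ClAll.zero n42) s175)

def n63 : Cl (O (nat_lit 3)) (R (nat_lit 104465))
    (p (nat_lit 0x119) (nat_lit 0) (p (nat_lit 0xb0014) (nat_lit 0) (p (nat_lit 0x20000c) (nat_lit 0) (p (nat_lit 0x200004) (nat_lit 0) (p (nat_lit 0xc9) (nat_lit 0) (p (nat_lit 0x89) (nat_lit 1) (p (nat_lit 0x101) (nat_lit 1) (p (nat_lit 0x111) (nat_lit 0) (p (nat_lit 0xd1) (nat_lit 1) (p (nat_lit 0x81) (nat_lit 0) (p (nat_lit 0x41) (nat_lit 1) (p (nat_lit 0x8a098b090a9a) (nat_lit 0) (p (nat_lit 0x9890a888a1a) (nat_lit 0) (p (nat_lit 0x89088a08079a) (nat_lit 0) (p (nat_lit 0x8880987871a)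 (nat_lit 0) (p (nat_lit 0x80000800080907088a) (nat_lit 0) (p (nat_lit 0x80000800078886860a) (nat_lit 0) (p (nat_lit 0x8688060782) (nat_lit 0) (p (nat_lit 0x607858702) (nat_lit 0) (p (nat_lit 0x8587050482) (nat_lit 0) (p (nat_lit 0x506848402) (nat_lit 0) (p (nat_lit 0x160014) (nat_lit 0) (p (nat_lit 0x50612) (nat_lit 0) (p (nat_lit 0x40592) (nat_lit 0) (p (nat_lit 0x40492) (nat_lit 0) (p (nat_lit 0x30412) (nat_lit 0) (p (nat_lit 0x30212) (nat_lit 0) (p (nat_lit 0x20192) (nat_lit 0) (p (nat_lit 0x20092) (nat_lit 0) (p (nat_lit 0x10012) (nat_lit 0) pn)))))))))))))))))))))))))))))) :=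
  Cl.node (nat_lit 0x101) (nat_lit 2) (by decide +kernel) (ClAll.succ (ClAll.succ ClAll.zero n43) n44)

def n64 : Cl (O (nat_lit 3)) (R (nat_lit 104465))
    (p (nat_lit 0x119) (nat_lit 1) (p (nat_lit 0xb0014) (nat_lit 0) (p (nat_lit 0x20000c) (nat_lit 0) (p (nat_lit 0x200004) (nat_lit 0) (p (nat_lit 0xc9) (nat_lit 0) (p (nat_lit 0x89) (nat_lit 1) (p (nat_lit 0x101) (nat_lit 1) (p (nat_lit 0x111) (nat_lit 0) (p (nat_lit 0xd1) (nat_lit 1) (p (nat_lit 0x81) (nat_lit 0) (p (nat_lit 0x41) (nat_lit 1) (p (nat_lit 0x8a098b090a9a) (nat_lit 0) (p (nat_lit 0x9890a888a1a) (nat_lit 0) (p (nat_lit 0x89088a08079a) (nat_lit 0) (p (nat_lit 0x8880987871a) (nat_lit 0) (p (nat_lit 0x80000800080907088a) (nat_lit 0) (p (nat_lit 0x80000800078886860a) (nat_lit 0) (p (nat_lit 0x8688060782) (nat_lit 0) (p (nat_lit 0x607858702) (nat_lit 0) (p (nat_lit 0x8587050482) (nat_lit 0) (p (nat_lit 0x506848402)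 (nat_lit 0) (p (nat_lit 0x160014) (nat_lit 0) (p (nat_lit 0x50612) (nat_lit 0) (p (nat_lit 0x40592) (nat_lit 0) (p (nat_lit 0x40492) (nat_lit 0) (p (nat_lit 0x30412) (nat_lit 0) (p (nat_lit 0x30212) (nat_lit 0) (p (nat_lit 0x20192) (nat_lit 0) (p (nat_lit 0x20092) (nat_lit 0) (p (nat_lit 0x10012) (nat_lit 0) pn)))))))))))))))))))))))))))))) :=
  Cl.node (nat_lit 0xc1) (nat_lit 2) (by decide +kernel) (ClAll.succ (ClAll.succ ClAll.zero s188) n45)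

def n65 : Cl (O (nat_lit 3)) (R (nat_lit 104465))
    (p (nat_lit 0x81) (nat_lit 1) (p (nat_lit 0x20000c) (nat_lit 0) (p (nat_lit 0x200004) (nat_lit 0) (p (nat_lit 0xc9) (nat_lit 1) (p (nat_lit 0x109) (nat_lit 1) (p (nat_lit 0x101) (nat_lit 0) (p (nat_lit 0x119) (nat_lit 0) (p (nat_lit 0xd1) (nat_lit 0) (p (nat_lit 0x89) (nat_lit 0) (p (nat_lit 0x41) (nat_lit 0) (p (nat_lit 0x8a098b090a9a) (nat_lit 0) (p (nat_lit 0x9890a888a1a) (nat_lit 0) (p (nat_lit 0x89088a08079a) (nat_lit 0) (p (nat_lit 0x8880987871a) (nat_lit 0) (p (nat_lit 0x80000800080907088a) (nat_lit 0) (p (nat_lit 0x80000800078886860a) (nat_lit 0) (p (nat_lit 0x8688060782) (nat_lit 0) (p (nat_lit 0x607858702) (nat_lit 0) (p (nat_lit 0x8587050482) (nat_lit 0) (p (nat_lit 0x506848402) (nat_lit 0) (p (nat_lit 0x160014) (nat_lit 0) (p (nat_lit 0x50612) (nat_lit 0) (p (nat_lit 0x40592) (nat_lit 0) (p (nat_lit 0x40492)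 (nat_lit 0) (p (nat_lit 0x30412) (nat_lit 0) (p (nat_lit 0x30212) (nat_lit 0) (p (nat_lit 0x20192) (nat_lit 0) (p (nat_lit 0x20092) (nat_lit 0) (p (nat_lit 0x10012) (nat_lit 0) pn))))))))))))))))))))))))))))) :=
  Cl.node (nat_lit 0xb0014) (nat_lit 2) (by decide +kernel) (ClAll.succ (ClAll.succ ClAll.zero s3) s4)

def n66 : Cl (O (nat_lit 3)) (R (nat_lit 104465))
    (p (nat_lit 0x111) (nat_lit 0) (p (nat_lit 0x20000c) (nat_lit 0) (p (nat_lit 0x200004) (nat_lit 0) (p (nat_lit 0xc9) (nat_lit 1) (p (nat_lit 0x81) (nat_lit 0) (p (nat_lit 0x101) (nat_lit 1) (p (nat_lit 0x119) (nat_lit 0) (p (nat_lit 0xd1) (nat_lit 0) (p (nat_lit 0x89) (nat_lit 0) (p (nat_lit 0x41) (nat_lit 0) (p (nat_lit 0x8a098b090a9a) (nat_lit 0) (p (nat_lit 0x9890a888a1a) (nat_lit 0) (p (nat_lit 0x89088a08079a) (nat_lit 0) (p (nat_lit 0x8880987871a) (nat_lit 0) (p (nat_lit 0x80000800080907088a) (nat_lit 0)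 (p (nat_lit 0x80000800078886860a) (nat_lit 0) (p (nat_lit 0x8688060782) (nat_lit 0) (p (nat_lit 0x607858702) (nat_lit 0) (p (nat_lit 0x8587050482) (nat_lit 0) (p (nat_lit 0x506848402) (nat_lit 0) (p (nat_lit 0x160014) (nat_lit 0) (p (nat_lit 0x50612) (nat_lit 0) (p (nat_lit 0x40592) (nat_lit 0) (p (nat_lit 0x40492) (nat_lit 0) (p (nat_lit 0x30412) (nat_lit 0) (p (nat_lit 0x30212) (nat_lit 0) (p (nat_lit 0x20192) (nat_lit 0) (p (nat_lit 0x20092) (nat_lit 0) (p (nat_lit 0x10012) (nat_lit 0) pn))))))))))))))))))))))))))))) :=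
  Cl.node (nat_lit 0xb0014) (nat_lit 2) (by decide +kernel) (ClAll.succ (ClAll.succ ClAll.zero n46) s11)

def n67 : Cl (O (nat_lit 3)) (R (nat_lit 104465))
    (p (nat_lit 0x20000c) (nat_lit 0) (p (nat_lit 0x200004) (nat_lit 0) (p (nat_lit 0xc9) (nat_lit 1) (p (nat_lit 0xc1) (nat_lit 0) (p (nat_lit 0x81) (nat_lit 1) (p (nat_lit 0x101) (nat_lit 1) (p (nat_lit 0x119) (nat_lit 0) (p (nat_lit 0xd1) (nat_lit 0) (p (nat_lit 0x89) (nat_lit 0) (p (nat_lit 0x41) (nat_lit 0) (p (nat_lit 0x8a098b090a9a) (nat_lit 0) (p (nat_lit 0x9890a888a1a) (nat_lit 0) (p (nat_lit 0x89088a08079a) (nat_lit 0) (p (nat_lit 0x8880987871a) (nat_lit 0) (p (nat_lit 0x80000800080907088a) (nat_lit 0) (p (nat_lit 0x80000800078886860a) (nat_lit 0) (p (nat_lit 0x8688060782) (nat_lit 0) (p (nat_lit 0x607858702) (nat_lit 0) (p (nat_lit 0x8587050482) (nat_lit 0) (p (nat_lit 0x506848402) (nat_lit 0) (p (nat_lit 0x160014)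 (nat_lit 0) (p (nat_lit 0x50612) (nat_lit 0) (p (nat_lit 0x40592) (nat_lit 0) (p (nat_lit 0x40492) (nat_lit 0) (p (nat_lit 0x30412) (nat_lit 0) (p (nat_lit 0x30212) (nat_lit 0) (p (nat_lit 0x20192) (nat_lit 0) (p (nat_lit 0x20092) (nat_lit 0) (p (nat_lit 0x10012) (nat_lit 0) pn))))))))))))))))))))))))))))) :=
  Cl.node (nat_lit 0xb0014) (nat_lit 2) (by decide +kernel) (ClAll.succ (ClAll.succ ClAll.zero n47) s19)

def n68 : Cl (O (nat_lit 3)) (R (nat_lit 104465))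
    (p (nat_lit 0x20000c) (nat_lit 0) (p (nat_lit 0x200004) (nat_lit 0) (p (nat_lit 0x109) (nat_lit 1) (p (nat_lit 0x101) (nat_lit 0) (p (nat_lit 0x81) (nat_lit 1) (p (nat_lit 0xc1) (nat_lit 1) (p (nat_lit 0x119) (nat_lit 1) (p (nat_lit 0xd1) (nat_lit 0) (p (nat_lit 0x89) (nat_lit 0) (p (nat_lit 0x41) (nat_lit 0) (p (nat_lit 0x8a098b090a9a) (nat_lit 0) (p (nat_lit 0x9890a888a1a) (nat_lit 0) (p (nat_lit 0x89088a08079a) (nat_lit 0) (p (nat_lit 0x8880987871a) (nat_lit 0) (p (nat_lit 0x80000800080907088a) (nat_lit 0) (p (nat_lit 0x80000800078886860a) (nat_lit 0) (p (nat_lit 0x8688060782) (nat_lit 0) (p (nat_lit 0x607858702) (nat_lit 0) (p (nat_lit 0x8587050482) (nat_lit 0) (p (nat_lit 0x506848402) (nat_lit 0) (p (nat_lit 0x160014) (nat_lit 0) (p (nat_lit 0x50612) (nat_lit 0) (p (nat_lit 0x40592) (nat_lit 0) (p (nat_lit 0x40492) (nat_lit 0) (p (nat_lit 0x30412) (nat_lit 0) (p (nat_lit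 0x30212) (nat_lit 0) (p (nat_lit 0x20192) (nat_lit 0) (p (nat_lit 0x20092) (nat_lit 0) (p (nat_lit 0x10012) (nat_lit 0) pn))))))))))))))))))))))))))))) :=
  Cl.node (nat_lit 0xb0014) (nat_lit 2) (by decide +kernel) (ClAll.succ (ClAll.succ ClAll.zero s30) s31)

def n69 : Cl (O (nat_lit 3)) (R (nat_lit 104465))
    (p (nat_lit 0x119) (nat_lit 0) (p (nat_lit 0x20000c) (nat_lit 0) (p (nat_lit 0x200004) (nat_lit 0) (p (nat_lit 0xc1) (nat_lit 0) (p (nat_lit 0x81) (nat_lit 1) (p (nat_lit 0x101) (nat_lit 1) (p (nat_lit 0x111) (nat_lit 0) (p (nat_lit 0xd1) (nat_lit 1) (p (nat_lit 0x89) (nat_lit 0) (p (nat_lit 0x41) (nat_lit 0) (p (nat_lit 0x8a098b090a9a) (nat_lit 0) (p (nat_lit 0x9890a888a1a) (nat_lit 0) (p (nat_lit 0x89088a08079a) (nat_lit 0) (p (nat_lit 0x8880987871a) (nat_lit 0) (p (nat_lit 0x80000800080907088a) (nat_lit 0) (p (nat_lit 0x80000800078886860a) (nat_lit 0) (p (nat_lit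 0x8688060782) (nat_lit 0) (p (nat_lit 0x607858702) (nat_lit 0) (p (nat_lit 0x8587050482) (nat_lit 0) (p (nat_lit 0x506848402) (nat_lit 0) (p (nat_lit 0x160014) (nat_lit 0) (p (nat_lit 0x50612) (nat_lit 0) (p (nat_lit 0x40592) (nat_lit 0) (p (nat_lit 0x40492) (nat_lit 0) (p (nat_lit 0x30412) (nat_lit 0) (p (nat_lit 0x30212) (nat_lit 0) (p (nat_lit 0x20192) (nat_lit 0) (p (nat_lit 0x20092) (nat_lit 0) (p (nat_lit 0x10012) (nat_lit 0) pn))))))))))))))))))))))))))))) :=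
  Cl.node (nat_lit 0xb0014) (nat_lit 2) (by decide +kernel) (ClAll.succ (ClAll.succ ClAll.zero n48) s47)

def n70 : Cl (O (nat_lit 3)) (R (nat_lit 104465))
    (p (nat_lit 0x119) (nat_lit 1) (p (nat_lit 0x20000c) (nat_lit 0) (p (nat_lit 0x200004) (nat_lit 0) (p (nat_lit 0xc1) (nat_lit 0) (p (nat_lit 0x81) (nat_lit 1) (p (nat_lit 0x101) (nat_lit 1) (p (nat_lit 0x111) (nat_lit 0) (p (nat_lit 0xd1) (nat_lit 1) (p (nat_lit 0x89) (nat_lit 0) (p (nat_lit 0x41) (nat_lit 0) (p (nat_lit 0x8a098b090a9a) (nat_lit 0) (p (nat_lit 0x9890a888a1a) (nat_lit 0) (p (nat_lit 0x89088a08079a) (nat_lit 0) (p (nat_lit 0x8880987871a) (nat_lit 0) (p (nat_lit 0x80000800080907088a) (nat_lit 0) (p (nat_lit 0x80000800078886860a) (nat_lit 0) (p (nat_lit 0x8688060782) (nat_lit 0) (p (nat_lit 0x607858702) (nat_lit 0) (p (nat_lit 0x8587050482) (nat_lit 0) (p (nat_lit 0x506848402) (nat_lit 0) (p (nat_lit 0x160014)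 (nat_lit 0) (p (nat_lit 0x50612) (nat_lit 0) (p (nat_lit 0x40592) (nat_lit 0) (p (nat_lit 0x40492) (nat_lit 0) (p (nat_lit 0x30412) (nat_lit 0) (p (nat_lit 0x30212) (nat_lit 0) (p (nat_lit 0x20192) (nat_lit 0) (p (nat_lit 0x20092) (nat_lit 0) (p (nat_lit 0x10012) (nat_lit 0) pn))))))))))))))))))))))))))))) :=
  Cl.node (nat_lit 0xb0014) (nat_lit 2) (by decide +kernel) (ClAll.succ (ClAll.succ ClAll.zero n49) s50)

def n71 : Cl (O (nat_lit 3)) (R (nat_lit 104465))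
    (p (nat_lit 0x20000c) (nat_lit 0) (p (nat_lit 0x200004) (nat_lit 0) (p (nat_lit 0xd1) (nat_lit 1) (p (nat_lit 0x111) (nat_lit 1) (p (nat_lit 0x109) (nat_lit 0) (p (nat_lit 0x101) (nat_lit 0) (p (nat_lit 0x119) (nat_lit 0) (p (nat_lit 0xc9) (nat_lit 0) (p (nat_lit 0x89) (nat_lit 1) (p (nat_lit 0x41) (nat_lit 0) (p (nat_lit 0x8a098b090a9a) (nat_lit 0) (p (nat_lit 0x9890a888a1a) (nat_lit 0) (p (nat_lit 0x89088a08079a) (nat_lit 0) (p (nat_lit 0x8880987871a) (nat_lit 0) (p (nat_lit 0x80000800080907088a) (nat_lit 0) (p (nat_lit 0x80000800078886860a) (nat_lit 0) (p (nat_lit 0x8688060782) (nat_lit 0) (p (nat_lit 0x607858702) (nat_lit 0) (p (nat_lit 0x8587050482) (nat_lit 0) (p (nat_lit 0x506848402) (nat_lit 0) (p (nat_lit 0x160014) (nat_lit 0) (p (nat_lit 0x50612) (nat_lit 0) (p (nat_lit 0x40592) (nat_lit 0) (p (nat_lit 0x40492) (nat_lit 0) (p (nat_lit 0x30412) (nat_lit 0) (p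 (nat_lit 0x30212) (nat_lit 0) (p (nat_lit 0x20192) (nat_lit 0) (p (nat_lit 0x20092) (nat_lit 0) (p (nat_lit 0x10012) (nat_lit 0) pn))))))))))))))))))))))))))))) :=
  Cl.node (nat_lit 0xb0014) (nat_lit 2) (by decide +kernel) (ClAll.succ (ClAll.succ ClAll.zero s63) s64)

def n72 : Cl (O (nat_lit 3)) (R (nat_lit 104465))
    (p (nat_lit 0xb0014) (nat_lit 0) (p (nat_lit 0x20000c) (nat_lit 0) (p (nat_lit 0x200004) (nat_lit 0) (p (nat_lit 0xd1) (nat_lit 0) (p (nat_lit 0x109) (nat_lit 1) (p (nat_lit 0x101) (nat_lit 0) (p (nat_lit 0x119) (nat_lit 0) (p (nat_lit 0xc9) (nat_lit 0) (p (nat_lit 0x89) (nat_lit 1) (p (nat_lit 0x41) (nat_lit 0) (p (nat_lit 0x8a098b090a9a) (nat_lit 0) (p (nat_lit 0x9890a888a1a) (nat_lit 0) (p (nat_lit 0x89088a08079a) (nat_lit 0) (p (nat_lit 0x8880987871a) (nat_lit 0) (p (nat_lit 0x80000800080907088a) (nat_lit 0) (p (nat_lit 0x80000800078886860a) (nat_lit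 0) (p (nat_lit 0x8688060782) (nat_lit 0) (p (nat_lit 0x607858702) (nat_lit 0) (p (nat_lit 0x8587050482) (nat_lit 0) (p (nat_lit 0x506848402) (nat_lit 0) (p (nat_lit 0x160014) (nat_lit 0) (p (nat_lit 0x50612) (nat_lit 0) (p (nat_lit 0x40592) (nat_lit 0) (p (nat_lit 0x40492) (nat_lit 0) (p (nat_lit 0x30412) (nat_lit 0) (p (nat_lit 0x30212) (nat_lit 0) (p (nat_lit 0x20192) (nat_lit 0) (p (nat_lit 0x20092) (nat_lit 0) (p (nat_lit 0x10012) (nat_lit 0) pn))))))))))))))))))))))))))))) :=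
  Cl.node (nat_lit 0x41) (nat_lit 2) (by decide +kernel) (ClAll.succ (ClAll.succ ClAll.zero n50) s69)

def n73 : Cl (O (nat_lit 3)) (R (nat_lit 104465))
    (p (nat_lit 0xb0014) (nat_lit 1) (p (nat_lit 0x20000c) (nat_lit 0) (p (nat_lit 0x200004) (nat_lit 0) (p (nat_lit 0xd1) (nat_lit 0) (p (nat_lit 0x109) (nat_lit 1) (p (nat_lit 0x101) (nat_lit 0) (p (nat_lit 0x119) (nat_lit 0) (p (nat_lit 0xc9) (nat_lit 0) (p (nat_lit 0x89) (nat_lit 1) (p (nat_lit 0x41) (nat_lit 0) (p (nat_lit 0x8a098b090a9a) (nat_lit 0) (p (nat_lit 0x9890a888a1a) (nat_lit 0) (p (nat_lit 0x89088a08079a) (nat_lit 0) (p (nat_lit 0x8880987871a) (nat_lit 0) (p (nat_lit 0x80000800080907088a) (nat_lit 0) (p (nat_lit 0x80000800078886860a) (nat_lit 0) (p (nat_lit 0x8688060782) (nat_lit 0) (p (nat_lit 0x607858702) (nat_lit 0) (p (nat_lit 0x8587050482) (nat_lit 0) (p (nat_lit 0x506848402) (nat_lit 0) (p (nat_lit 0x160014)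 (nat_lit 0) (p (nat_lit 0x50612) (nat_lit 0) (p (nat_lit 0x40592) (nat_lit 0) (p (nat_lit 0x40492) (nat_lit 0) (p (nat_lit 0x30412) (nat_lit 0) (p (nat_lit 0x30212) (nat_lit 0) (p (nat_lit 0x20192) (nat_lit 0) (p (nat_lit 0x20092) (nat_lit 0) (p (nat_lit 0x10012) (nat_lit 0) pn))))))))))))))))))))))))))))) :=
  Cl.node (nat_lit 0x2a825aa8258a8b89890a) (nat_lit 1) (by decide +kernel) (ClAll.succ ClAll.zero n51)

def n74 : Cl (O (nat_lit 3)) (R (nat_lit 104465))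
    (p (nat_lit 0xb0014) (nat_lit 0) (p (nat_lit 0x20000c) (nat_lit 0) (p (nat_lit 0x200004) (nat_lit 0) (p (nat_lit 0xd1) (nat_lit 1) (p (nat_lit 0x109) (nat_lit 1) (p (nat_lit 0x101) (nat_lit 0) (p (nat_lit 0x119) (nat_lit 0) (p (nat_lit 0xc9) (nat_lit 0) (p (nat_lit 0x89) (nat_lit 1) (p (nat_lit 0x41) (nat_lit 0) (p (nat_lit 0x8a098b090a9a) (nat_lit 0) (p (nat_lit 0x9890a888a1a) (nat_lit 0) (p (nat_lit 0x89088a08079a) (nat_lit 0) (p (nat_lit 0x8880987871a) (nat_lit 0) (p (nat_lit 0x80000800080907088a) (nat_lit 0) (p (nat_lit 0x80000800078886860a) (nat_lit 0) (p (nat_lit 0x8688060782) (nat_lit 0) (p (nat_lit 0x607858702) (nat_lit 0) (p (nat_lit 0x8587050482) (nat_lit 0) (p (nat_lit 0x506848402) (nat_lit 0) (p (nat_lit 0x160014) (nat_lit 0) (p (nat_lit 0x50612) (nat_lit 0) (p (nat_lit 0x40592) (nat_lit 0) (p (nat_lit 0x40492) (nat_lit 0) (p (nat_lit 0x30412) (nat_lit 0) (p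 (nat_lit 0x30212) (nat_lit 0) (p (nat_lit 0x20192) (nat_lit 0) (p (nat_lit 0x20092) (nat_lit 0) (p (nat_lit 0x10012) (nat_lit 0) pn))))))))))))))))))))))))))))) :=
  Cl.node (nat_lit 0x41) (nat_lit 2) (by decide +kernel) (ClAll.succ (ClAll.succ ClAll.zero n52) s80)

def n75 : Cl (O (nat_lit 3)) (R (nat_lit 104465))
    (p (nat_lit 0xb0014) (nat_lit 1) (p (nat_lit 0x20000c) (nat_lit 0) (p (nat_lit 0x200004) (nat_lit 0) (p (nat_lit 0xd1) (nat_lit 1) (p (nat_lit 0x109) (nat_lit 1) (p (nat_lit 0x101) (nat_lit 0) (p (nat_lit 0x119) (nat_lit 0) (p (nat_lit 0xc9) (nat_lit 0) (p (nat_lit 0x89) (nat_lit 1) (p (nat_lit 0x41) (nat_lit 0) (p (nat_lit 0x8a098b090a9a) (nat_lit 0) (p (nat_lit 0x9890a888a1a) (nat_lit 0) (p (nat_lit 0x89088a08079a) (nat_lit 0) (p (nat_lit 0x8880987871a) (nat_lit 0) (p (nat_lit 0x80000800080907088a) (nat_lit 0) (p (nat_lit 0x80000800078886860a) (nat_lit 0)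 (p (nat_lit 0x8688060782) (nat_lit 0) (p (nat_lit 0x607858702) (nat_lit 0) (p (nat_lit 0x8587050482) (nat_lit 0) (p (nat_lit 0x506848402) (nat_lit 0) (p (nat_lit 0x160014) (nat_lit 0) (p (nat_lit 0x50612) (nat_lit 0) (p (nat_lit 0x40592) (nat_lit 0) (p (nat_lit 0x40492) (nat_lit 0) (p (nat_lit 0x30412) (nat_lit 0) (p (nat_lit 0x30212) (nat_lit 0) (p (nat_lit 0x20192) (nat_lit 0) (p (nat_lit 0x20092) (nat_lit 0) (p (nat_lit 0x10012) (nat_lit 0) pn))))))))))))))))))))))))))))) :=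
  Cl.node (nat_lit 0x2a825aa8258a8b89890a) (nat_lit 1) (by decide +kernel) (ClAll.succ ClAll.zero n53)

def n76 : Cl (O (nat_lit 3)) (R (nat_lit 104465))
    (p (nat_lit 0xb0014) (nat_lit 0) (p (nat_lit 0x20000c) (nat_lit 0) (p (nat_lit 0x200004) (nat_lit 0) (p (nat_lit 0xd1) (nat_lit 1) (p (nat_lit 0xc1) (nat_lit 0) (p (nat_lit 0x101) (nat_lit 1) (p (nat_lit 0x119) (nat_lit 0) (p (nat_lit 0xc9) (nat_lit 0) (p (nat_lit 0x89) (nat_lit 1) (p (nat_lit 0x41) (nat_lit 0) (p (nat_lit 0x8a098b090a9a) (nat_lit 0) (p (nat_lit 0x9890a888a1a) (nat_lit 0) (p (nat_lit 0x89088a08079a) (nat_lit 0) (p (nat_lit 0x8880987871a) (nat_lit 0) (p (nat_lit 0x80000800080907088a) (nat_lit 0) (p (nat_lit 0x80000800078886860a) (nat_lit 0) (p (nat_lit 0x8688060782) (nat_lit 0) (p (nat_lit 0x607858702) (nat_lit 0) (p (nat_lit 0x8587050482) (nat_lit 0) (p (nat_lit 0x506848402) (nat_lit 0) (p (nat_lit 0x160014)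 (nat_lit 0) (p (nat_lit 0x50612) (nat_lit 0) (p (nat_lit 0x40592) (nat_lit 0) (p (nat_lit 0x40492) (nat_lit 0) (p (nat_lit 0x30412) (nat_lit 0) (p (nat_lit 0x30212) (nat_lit 0) (p (nat_lit 0x20192) (nat_lit 0) (p (nat_lit 0x20092) (nat_lit 0) (p (nat_lit 0x10012) (nat_lit 0) pn))))))))))))))))))))))))))))) :=
  Cl.node (nat_lit 0x109) (nat_lit 2) (by decide +kernel) (ClAll.succ (ClAll.succ ClAll.zero s92) n54)

def n77 : Cl (O (nat_lit 3)) (R (nat_lit 104465))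
    (p (nat_lit 0xb0014) (nat_lit 1) (p (nat_lit 0x20000c) (nat_lit 0) (p (nat_lit 0x200004) (nat_lit 0) (p (nat_lit 0xd1) (nat_lit 1) (p (nat_lit 0xc1) (nat_lit 0) (p (nat_lit 0x101) (nat_lit 1) (p (nat_lit 0x119) (nat_lit 0) (p (nat_lit 0xc9) (nat_lit 0) (p (nat_lit 0x89) (nat_lit 1) (p (nat_lit 0x41) (nat_lit 0) (p (nat_lit 0x8a098b090a9a) (nat_lit 0) (p (nat_lit 0x9890a888a1a) (nat_lit 0) (p (nat_lit 0x89088a08079a) (nat_lit 0) (p (nat_lit 0x8880987871a) (nat_lit 0) (p (nat_lit 0x80000800080907088a) (nat_lit 0) (p (nat_lit 0x80000800078886860a) (nat_lit 0) (p (nat_lit 0x8688060782) (nat_lit 0) (p (nat_lit 0x607858702) (nat_lit 0) (p (nat_lit 0x8587050482) (nat_lit 0) (p (nat_lit 0x506848402) (nat_lit 0) (p (nat_lit 0x160014) (nat_lit 0) (p (nat_lit 0x50612) (nat_lit 0) (p (nat_lit 0x40592) (nat_lit 0) (p (nat_lit 0x40492) (nat_lit 0) (p (nat_lit 0x30412) (nat_lit 0) (p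 (nat_lit 0x30212) (nat_lit 0) (p (nat_lit 0x20192) (nat_lit 0) (p (nat_lit 0x20092) (nat_lit 0) (p (nat_lit 0x10012) (nat_lit 0) pn))))))))))))))))))))))))))))) :=
  Cl.node (nat_lit 0x2a825aa8258a8b89890a) (nat_lit 1) (by decide +kernel) (ClAll.succ ClAll.zero n55)

def n78 : Cl (O (nat_lit 3)) (R (nat_lit 104465))
    (p (nat_lit 0xb0014) (nat_lit 1) (p (nat_lit 0x20000c) (nat_lit 0) (p (nat_lit 0x200004) (nat_lit 0) (p (nat_lit 0x111) (nat_lit 1) (p (nat_lit 0xd1) (nat_lit 1) (p (nat_lit 0xc1) (nat_lit 0) (p (nat_lit 0x119) (nat_lit 1) (p (nat_lit 0xc9) (nat_lit 0) (p (nat_lit 0x89) (nat_lit 1) (p (nat_lit 0x41) (nat_lit 0) (p (nat_lit 0x8a098b090a9a) (nat_lit 0) (p (nat_lit 0x9890a888a1a) (nat_lit 0) (p (nat_lit 0x89088a08079a) (nat_lit 0) (p (nat_lit 0x8880987871a) (nat_lit 0) (p (nat_lit 0x80000800080907088a) (nat_lit 0) (p (nat_lit 0x80000800078886860a) (nat_lit 0)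 (p (nat_lit 0x8688060782) (nat_lit 0) (p (nat_lit 0x607858702) (nat_lit 0) (p (nat_lit 0x8587050482) (nat_lit 0) (p (nat_lit 0x506848402) (nat_lit 0) (p (nat_lit 0x160014) (nat_lit 0) (p (nat_lit 0x50612) (nat_lit 0) (p (nat_lit 0x40592) (nat_lit 0) (p (nat_lit 0x40492) (nat_lit 0) (p (nat_lit 0x30412) (nat_lit 0) (p (nat_lit 0x30212) (nat_lit 0) (p (nat_lit 0x20192) (nat_lit 0) (p (nat_lit 0x20092) (nat_lit 0) (p (nat_lit 0x10012) (nat_lit 0) pn))))))))))))))))))))))))))))) :=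
  Cl.node (nat_lit 0x2a825aa8258a8b89890a) (nat_lit 1) (by decide +kernel) (ClAll.succ ClAll.zero n56)

def n79 : Cl (O (nat_lit 3)) (R (nat_lit 104465))
    (p (nat_lit 0xb0014) (nat_lit 0) (p (nat_lit 0x20000c) (nat_lit 0) (p (nat_lit 0x200004) (nat_lit 0) (p (nat_lit 0x111) (nat_lit 1) (p (nat_lit 0x101) (nat_lit 0) (p (nat_lit 0xc1) (nat_lit 1) (p (nat_lit 0x119) (nat_lit 1) (p (nat_lit 0xc9) (nat_lit 0) (p (nat_lit 0x89) (nat_lit 1) (p (nat_lit 0x41) (nat_lit 0) (p (nat_lit 0x8a098b090a9a) (nat_lit 0) (p (nat_lit 0x9890a888a1a) (nat_lit 0) (p (nat_lit 0x89088a08079a) (nat_lit 0) (p (nat_lit 0x8880987871a) (nat_lit 0) (p (nat_lit 0x80000800080907088a) (nat_lit 0) (p (nat_lit 0x80000800078886860a) (nat_lit 0) (p (nat_lit 0x8688060782) (nat_lit 0) (p (nat_lit 0x607858702) (nat_lit 0) (p (nat_lit 0x8587050482) (nat_lit 0) (p (nat_lit 0x506848402) (nat_lit 0) (p (nat_lit 0x160014)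 (nat_lit 0) (p (nat_lit 0x50612) (nat_lit 0) (p (nat_lit 0x40592) (nat_lit 0) (p (nat_lit 0x40492) (nat_lit 0) (p (nat_lit 0x30412) (nat_lit 0) (p (nat_lit 0x30212) (nat_lit 0) (p (nat_lit 0x20192) (nat_lit 0) (p (nat_lit 0x20092) (nat_lit 0) (p (nat_lit 0x10012) (nat_lit 0) pn))))))))))))))))))))))))))))) :=
  Cl.node (nat_lit 0xd1) (nat_lit 2) (by decide +kernel) (ClAll.succ (ClAll.succ ClAll.zero s112) n57)

def n80 : Cl (O (nat_lit 3)) (R (nat_lit 104465))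
    (p (nat_lit 0xb0014) (nat_lit 1) (p (nat_lit 0x20000c) (nat_lit 0) (p (nat_lit 0x200004) (nat_lit 0) (p (nat_lit 0x111) (nat_lit 1) (p (nat_lit 0x101) (nat_lit 0) (p (nat_lit 0xc1) (nat_lit 1) (p (nat_lit 0x119) (nat_lit 1) (p (nat_lit 0xc9) (nat_lit 0) (p (nat_lit 0x89) (nat_lit 1) (p (nat_lit 0x41) (nat_lit 0) (p (nat_lit 0x8a098b090a9a) (nat_lit 0) (p (nat_lit 0x9890a888a1a) (nat_lit 0) (p (nat_lit 0x89088a08079a) (nat_lit 0) (p (nat_lit 0x8880987871a) (nat_lit 0) (p (nat_lit 0x80000800080907088a) (nat_lit 0) (p (nat_lit 0x80000800078886860a) (nat_lit 0) (p (nat_lit 0x8688060782) (nat_lit 0) (p (nat_lit 0x607858702) (nat_lit 0) (p (nat_lit 0x8587050482) (nat_lit 0) (p (nat_lit 0x506848402) (nat_lit 0) (p (nat_lit 0x160014) (nat_lit 0) (p (nat_lit 0x50612) (nat_lit 0) (p (nat_lit 0x40592) (nat_lit 0) (p (nat_lit 0x40492) (nat_lit 0) (p (nat_lit 0x30412) (nat_lit 0) (p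 (nat_lit 0x30212) (nat_lit 0) (p (nat_lit 0x20192) (nat_lit 0) (p (nat_lit 0x20092) (nat_lit 0) (p (nat_lit 0x10012) (nat_lit 0) pn))))))))))))))))))))))))))))) :=
  Cl.node (nat_lit 0x2a825aa8258a8b89890a) (nat_lit 1) (by decide +kernel) (ClAll.succ ClAll.zero n58)

def n81 : Cl (O (nat_lit 3)) (R (nat_lit 104465))
    (p (nat_lit 0xb0014) (nat_lit 0) (p (nat_lit 0x20000c) (nat_lit 0) (p (nat_lit 0x200004) (nat_lit 0) (p (nat_lit 0x119) (nat_lit 1) (p (nat_lit 0x111) (nat_lit 0) (p (nat_lit 0x101) (nat_lit 0) (p (nat_lit 0x109) (nat_lit 0) (p (nat_lit 0xc9) (nat_lit 1) (p (nat_lit 0x89) (nat_lit 1) (p (nat_lit 0x41) (nat_lit 0) (p (nat_lit 0x8a098b090a9a) (nat_lit 0) (p (nat_lit 0x9890a888a1a) (nat_lit 0) (p (nat_lit 0x89088a08079a) (nat_lit 0) (p (nat_lit 0x8880987871a) (nat_lit 0) (p (nat_lit 0x80000800080907088a) (nat_lit 0) (p (nat_lit 0x80000800078886860a) (nat_lit 0)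 (p (nat_lit 0x8688060782) (nat_lit 0) (p (nat_lit 0x607858702) (nat_lit 0) (p (nat_lit 0x8587050482) (nat_lit 0) (p (nat_lit 0x506848402) (nat_lit 0) (p (nat_lit 0x160014) (nat_lit 0) (p (nat_lit 0x50612) (nat_lit 0) (p (nat_lit 0x40592) (nat_lit 0) (p (nat_lit 0x40492) (nat_lit 0) (p (nat_lit 0x30412) (nat_lit 0) (p (nat_lit 0x30212) (nat_lit 0) (p (nat_lit 0x20192) (nat_lit 0) (p (nat_lit 0x20092) (nat_lit 0) (p (nat_lit 0x10012) (nat_lit 0) pn))))))))))))))))))))))))))))) :=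
  Cl.node (nat_lit 0xc1) (nat_lit 2) (by decide +kernel) (ClAll.succ (ClAll.succ ClAll.zero n59) s126)

def n82 : Cl (O (nat_lit 3)) (R (nat_lit 104465))
    (p (nat_lit 0x20000c) (nat_lit 0) (p (nat_lit 0x200004) (nat_lit 0) (p (nat_lit 0xc9) (nat_lit 1) (p (nat_lit 0x89) (nat_lit 1) (p (nat_lit 0xc1) (nat_lit 0) (p (nat_lit 0x101) (nat_lit 1) (p (nat_lit 0x119) (nat_lit 0) (p (nat_lit 0xd1) (nat_lit 0) (p (nat_lit 0x81) (nat_lit 0) (p (nat_lit 0x41) (nat_lit 1) (p (nat_lit 0x8a098b090a9a) (nat_lit 0) (p (nat_lit 0x9890a888a1a) (nat_lit 0) (p (nat_lit 0x89088a08079a) (nat_lit 0) (p (nat_lit 0x8880987871a) (nat_lit 0) (p (nat_lit 0x80000800080907088a) (nat_lit 0) (p (nat_lit 0x80000800078886860a) (nat_lit 0) (p (nat_lit 0x8688060782) (nat_lit 0) (p (nat_lit 0x607858702) (nat_lit 0) (p (nat_lit 0x8587050482) (nat_lit 0) (p (nat_lit 0x506848402) (nat_lit 0) (p (nat_lit 0x160014)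 (nat_lit 0) (p (nat_lit 0x50612) (nat_lit 0) (p (nat_lit 0x40592) (nat_lit 0) (p (nat_lit 0x40492) (nat_lit 0) (p (nat_lit 0x30412) (nat_lit 0) (p (nat_lit 0x30212) (nat_lit 0) (p (nat_lit 0x20192) (nat_lit 0) (p (nat_lit 0x20092) (nat_lit 0) (p (nat_lit 0x10012) (nat_lit 0) pn))))))))))))))))))))))))))))) :=
  Cl.node (nat_lit 0xb0014) (nat_lit 2) (by decide +kernel) (ClAll.succ (ClAll.succ ClAll.zero s141) s142)

def n83 : Cl (O (nat_lit 3)) (R (nat_lit 104465))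
    (p (nat_lit 0xb0014) (nat_lit 0) (p (nat_lit 0x20000c) (nat_lit 0) (p (nat_lit 0x200004) (nat_lit 0) (p (nat_lit 0x89) (nat_lit 1) (p (nat_lit 0xc1) (nat_lit 1) (p (nat_lit 0x101) (nat_lit 1) (p (nat_lit 0x119) (nat_lit 0) (p (nat_lit 0xd1) (nat_lit 0) (p (nat_lit 0x81) (nat_lit 0) (p (nat_lit 0x41) (nat_lit 1) (p (nat_lit 0x8a098b090a9a) (nat_lit 0) (p (nat_lit 0x9890a888a1a) (nat_lit 0) (p (nat_lit 0x89088a08079a) (nat_lit 0) (p (nat_lit 0x8880987871a) (nat_lit 0) (p (nat_lit 0x80000800080907088a) (nat_lit 0) (p (nat_lit 0x80000800078886860a) (nat_lit 0) (p (nat_lit 0x8688060782) (nat_lit 0) (p (nat_lit 0x607858702) (nat_lit 0) (p (nat_lit 0x8587050482) (nat_lit 0) (p (nat_lit 0x506848402) (nat_lit 0) (p (nat_lit 0x160014) (nat_lit 0) (p (nat_lit 0x50612) (nat_lit 0) (p (nat_lit 0x40592) (nat_lit 0) (p (nat_lit 0x40492) (nat_lit 0) (p (nat_lit 0x30412) (nat_lit 0) (p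 (nat_lit 0x30212) (nat_lit 0) (p (nat_lit 0x20192) (nat_lit 0) (p (nat_lit 0x20092) (nat_lit 0) (p (nat_lit 0x10012) (nat_lit 0) pn))))))))))))))))))))))))))))) :=
  Cl.node (nat_lit 0x109) (nat_lit 2) (by decide +kernel) (ClAll.succ (ClAll.succ ClAll.zero n60) n61)

def n84 : Cl (O (nat_lit 3)) (R (nat_lit 104465))
    (p (nat_lit 0xb0014) (nat_lit 0) (p (nat_lit 0x20000c) (nat_lit 0) (p (nat_lit 0x200004) (nat_lit 0) (p (nat_lit 0x89) (nat_lit 1) (p (nat_lit 0x101) (nat_lit 1) (p (nat_lit 0xc1) (nat_lit 1) (p (nat_lit 0x119) (nat_lit 1) (p (nat_lit 0xd1) (nat_lit 0) (p (nat_lit 0x81) (nat_lit 0) (p (nat_lit 0x41) (nat_lit 1) (p (nat_lit 0x8a098b090a9a) (nat_lit 0) (p (nat_lit 0x9890a888a1a) (nat_lit 0) (p (nat_lit 0x89088a08079a) (nat_lit 0) (p (nat_lit 0x8880987871a) (nat_lit 0) (p (nat_lit 0x80000800080907088a) (nat_lit 0) (p (nat_lit 0x80000800078886860a) (nat_lit 0)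 (p (nat_lit 0x8688060782) (nat_lit 0) (p (nat_lit 0x607858702) (nat_lit 0) (p (nat_lit 0x8587050482) (nat_lit 0) (p (nat_lit 0x506848402) (nat_lit 0) (p (nat_lit 0x160014) (nat_lit 0) (p (nat_lit 0x50612) (nat_lit 0) (p (nat_lit 0x40592) (nat_lit 0) (p (nat_lit 0x40492) (nat_lit 0) (p (nat_lit 0x30412) (nat_lit 0) (p (nat_lit 0x30212) (nat_lit 0) (p (nat_lit 0x20192) (nat_lit 0) (p (nat_lit 0x20092) (nat_lit 0) (p (nat_lit 0x10012) (nat_lit 0) pn))))))))))))))))))))))))))))) :=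
  Cl.node (nat_lit 0xc9) (nat_lit 2) (by decide +kernel) (ClAll.succ (ClAll.succ ClAll.zero s165) s166)

def n85 : Cl (O (nat_lit 3)) (R (nat_lit 104465))
    (p (nat_lit 0x20000c) (nat_lit 0) (p (nat_lit 0x200004) (nat_lit 0) (p (nat_lit 0xc9) (nat_lit 0) (p (nat_lit 0x89) (nat_lit 1) (p (nat_lit 0x109) (nat_lit 1) (p (nat_lit 0x101) (nat_lit 0) (p (nat_lit 0x111) (nat_lit 0) (p (nat_lit 0xd1) (nat_lit 1) (p (nat_lit 0x81) (nat_lit 0) (p (nat_lit 0x41) (nat_lit 1) (p (nat_lit 0x8a098b090a9a) (nat_lit 0) (p (nat_lit 0x9890a888a1a) (nat_lit 0) (p (nat_lit 0x89088a08079a) (nat_lit 0) (p (nat_lit 0x8880987871a) (nat_lit 0) (p (nat_lit 0x80000800080907088a) (nat_lit 0) (p (nat_lit 0x80000800078886860a) (nat_lit 0) (p (nat_lit 0x8688060782) (nat_lit 0) (p (nat_lit 0x607858702) (nat_lit 0) (p (nat_lit 0x8587050482) (nat_lit 0) (p (nat_lit 0x506848402) (nat_lit 0) (p (nat_lit 0x160014)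 (nat_lit 0) (p (nat_lit 0x50612) (nat_lit 0) (p (nat_lit 0x40592) (nat_lit 0) (p (nat_lit 0x40492) (nat_lit 0) (p (nat_lit 0x30412) (nat_lit 0) (p (nat_lit 0x30212) (nat_lit 0) (p (nat_lit 0x20192) (nat_lit 0) (p (nat_lit 0x20092) (nat_lit 0) (p (nat_lit 0x10012) (nat_lit 0) pn))))))))))))))))))))))))))))) :=
  Cl.node (nat_lit 0x119) (nat_lit 2) (by decide +kernel) (ClAll.succ (ClAll.succ ClAll.zero s172) n62)

def n86 : Cl (O (nat_lit 3)) (R (nat_lit 104465))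
    (p (nat_lit 0xb0014) (nat_lit 0) (p (nat_lit 0x20000c) (nat_lit 0) (p (nat_lit 0x200004) (nat_lit 0) (p (nat_lit 0xc9) (nat_lit 0) (p (nat_lit 0x89) (nat_lit 1) (p (nat_lit 0x101) (nat_lit 1) (p (nat_lit 0x111) (nat_lit 0) (p (nat_lit 0xd1) (nat_lit 1) (p (nat_lit 0x81) (nat_lit 0) (p (nat_lit 0x41) (nat_lit 1) (p (nat_lit 0x8a098b090a9a) (nat_lit 0) (p (nat_lit 0x9890a888a1a) (nat_lit 0) (p (nat_lit 0x89088a08079a) (nat_lit 0) (p (nat_lit 0x8880987871a) (nat_lit 0) (p (nat_lit 0x80000800080907088a) (nat_lit 0) (p (nat_lit 0x80000800078886860a) (nat_lit 0) (p (nat_lit 0x8688060782) (nat_lit 0) (p (nat_lit 0x607858702) (nat_lit 0) (p (nat_lit 0x8587050482) (nat_lit 0) (p (nat_lit 0x506848402) (nat_lit 0) (p (nat_lit 0x160014) (nat_lit 0) (p (nat_lit 0x50612) (nat_lit 0) (p (nat_lit 0x40592) (nat_lit 0) (p (nat_lit 0x40492) (nat_lit 0) (p (nat_lit 0x30412) (nat_lit 0) (p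 (nat_lit 0x30212) (nat_lit 0) (p (nat_lit 0x20192) (nat_lit 0) (p (nat_lit 0x20092) (nat_lit 0) (p (nat_lit 0x10012) (nat_lit 0) pn))))))))))))))))))))))))))))) :=
  Cl.node (nat_lit 0x119) (nat_lit 2) (by decide +kernel) (ClAll.succ (ClAll.succ ClAll.zero n63) n64)

def n87 : Cl (O (nat_lit 3)) (R (nat_lit 104465))
    (p (nat_lit 0x20000c) (nat_lit 0) (p (nat_lit 0x200004) (nat_lit 0) (p (nat_lit 0xc9) (nat_lit 1) (p (nat_lit 0x109) (nat_lit 1) (p (nat_lit 0x101) (nat_lit 0) (p (nat_lit 0x119) (nat_lit 0) (p (nat_lit 0xd1) (nat_lit 0) (p (nat_lit 0x89) (nat_lit 0) (p (nat_lit 0x41) (nat_lit 0) (p (nat_lit 0x8a098b090a9a) (nat_lit 0) (p (nat_lit 0x9890a888a1a) (nat_lit 0) (p (nat_lit 0x89088a08079a) (nat_lit 0) (p (nat_lit 0x8880987871a) (nat_lit 0) (p (nat_lit 0x80000800080907088a) (nat_lit 0) (p (nat_lit 0x80000800078886860a) (nat_lit 0) (p (nat_lit 0x8688060782) (nat_lit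 0) (p (nat_lit 0x607858702) (nat_lit 0) (p (nat_lit 0x8587050482) (nat_lit 0) (p (nat_lit 0x506848402) (nat_lit 0) (p (nat_lit 0x160014) (nat_lit 0) (p (nat_lit 0x50612) (nat_lit 0) (p (nat_lit 0x40592) (nat_lit 0) (p (nat_lit 0x40492) (nat_lit 0) (p (nat_lit 0x30412) (nat_lit 0) (p (nat_lit 0x30212) (nat_lit 0) (p (nat_lit 0x20192) (nat_lit 0) (p (nat_lit 0x20092) (nat_lit 0) (p (nat_lit 0x10012) (nat_lit 0) pn)))))))))))))))))))))))))))) :=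
  Cl.node (nat_lit 0x81) (nat_lit 2) (by decide +kernel) (ClAll.succ (ClAll.succ ClAll.zero s2) n65)

def n88 : Cl (O (nat_lit 3)) (R (nat_lit 104465))
    (p (nat_lit 0x20000c) (nat_lit 0) (p (nat_lit 0x200004) (nat_lit 0) (p (nat_lit 0xc9) (nat_lit 1) (p (nat_lit 0x81) (nat_lit 0) (p (nat_lit 0x101) (nat_lit 1) (p (nat_lit 0x119) (nat_lit 0) (p (nat_lit 0xd1) (nat_lit 0) (p (nat_lit 0x89) (nat_lit 0) (p (nat_lit 0x41) (nat_lit 0) (p (nat_lit 0x8a098b090a9a) (nat_lit 0) (p (nat_lit 0x9890a888a1a) (nat_lit 0) (p (nat_lit 0x89088a08079a) (nat_lit 0) (p (nat_lit 0x8880987871a) (nat_lit 0) (p (nat_lit 0x80000800080907088a) (nat_lit 0) (p (nat_lit 0x80000800078886860a) (nat_lit 0) (p (nat_lit 0x8688060782) (nat_lit 0) (p (nat_lit 0x607858702) (nat_lit 0) (p (nat_lit 0x8587050482) (nat_lit 0) (p (nat_lit 0x506848402) (nat_lit 0) (p (nat_lit 0x160014) (nat_lit 0) (p (nat_lit 0x50612)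 (nat_lit 0) (p (nat_lit 0x40592) (nat_lit 0) (p (nat_lit 0x40492) (nat_lit 0) (p (nat_lit 0x30412) (nat_lit 0) (p (nat_lit 0x30212) (nat_lit 0) (p (nat_lit 0x20192) (nat_lit 0) (p (nat_lit 0x20092) (nat_lit 0) (p (nat_lit 0x10012) (nat_lit 0) pn)))))))))))))))))))))))))))) :=
  Cl.node (nat_lit 0x111) (nat_lit 2) (by decide +kernel) (ClAll.succ (ClAll.succ ClAll.zero n66) s12)

def n89 : Cl (O (nat_lit 3)) (R (nat_lit 104465))
    (p (nat_lit 0x200004) (nat_lit 0) (p (nat_lit 0xc9) (nat_lit 1) (p (nat_lit 0xc1) (nat_lit 0) (p (nat_lit 0x81) (nat_lit 1) (p (nat_lit 0x101) (nat_lit 1) (p (nat_lit 0x119) (nat_lit 0) (p (nat_lit 0xd1) (nat_lit 0) (p (nat_lit 0x89) (nat_lit 0) (p (nat_lit 0x41) (nat_lit 0) (p (nat_lit 0x8a098b090a9a) (nat_lit 0) (p (nat_lit 0x9890a888a1a) (nat_lit 0) (p (nat_lit 0x89088a08079a) (nat_lit 0) (p (nat_lit 0x8880987871a) (nat_lit 0) (p (nat_lit 0x80000800080907088a)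 (nat_lit 0) (p (nat_lit 0x80000800078886860a) (nat_lit 0) (p (nat_lit 0x8688060782) (nat_lit 0) (p (nat_lit 0x607858702) (nat_lit 0) (p (nat_lit 0x8587050482) (nat_lit 0) (p (nat_lit 0x506848402) (nat_lit 0) (p (nat_lit 0x160014) (nat_lit 0) (p (nat_lit 0x50612) (nat_lit 0) (p (nat_lit 0x40592) (nat_lit 0) (p (nat_lit 0x40492) (nat_lit 0) (p (nat_lit 0x30412) (nat_lit 0) (p (nat_lit 0x30212) (nat_lit 0) (p (nat_lit 0x20192) (nat_lit 0) (p (nat_lit 0x20092) (nat_lit 0) (p (nat_lit 0x10012) (nat_lit 0) pn)))))))))))))))))))))))))))) :=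
  Cl.node (nat_lit 0x20000c) (nat_lit 2) (by decide +kernel) (ClAll.succ (ClAll.succ ClAll.zero n67) s20)

def n90 : Cl (O (nat_lit 3)) (R (nat_lit 104465))
    (p (nat_lit 0x200004) (nat_lit 0) (p (nat_lit 0x109) (nat_lit 1) (p (nat_lit 0x101) (nat_lit 0) (p (nat_lit 0x81) (nat_lit 1) (p (nat_lit 0xc1) (nat_lit 1) (p (nat_lit 0x119) (nat_lit 1) (p (nat_lit 0xd1) (nat_lit 0) (p (nat_lit 0x89) (nat_lit 0) (p (nat_lit 0x41) (nat_lit 0) (p (nat_lit 0x8a098b090a9a) (nat_lit 0) (p (nat_lit 0x9890a888a1a) (nat_lit 0) (p (nat_lit 0x89088a08079a) (nat_lit 0) (p (nat_lit 0x8880987871a) (nat_lit 0) (p (nat_lit 0x80000800080907088a) (nat_lit 0) (p (nat_lit 0x80000800078886860a) (nat_lit 0) (p (nat_lit 0x8688060782) (nat_lit 0) (p (nat_lit 0x607858702) (nat_lit 0) (p (nat_lit 0x8587050482) (nat_lit 0) (p (nat_lit 0x506848402) (nat_lit 0) (p (nat_lit 0x160014) (nat_lit 0) (p (nat_lit 0x50612)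 (nat_lit 0) (p (nat_lit 0x40592) (nat_lit 0) (p (nat_lit 0x40492) (nat_lit 0) (p (nat_lit 0x30412) (nat_lit 0) (p (nat_lit 0x30212) (nat_lit 0) (p (nat_lit 0x20192) (nat_lit 0) (p (nat_lit 0x20092) (nat_lit 0) (p (nat_lit 0x10012) (nat_lit 0) pn)))))))))))))))))))))))))))) :=
  Cl.node (nat_lit 0x20000c) (nat_lit 2) (by decide +kernel) (ClAll.succ (ClAll.succ ClAll.zero n68) s32)

def n91 : Cl (O (nat_lit 3)) (R (nat_lit 104465))
    (p (nat_lit 0xc1) (nat_lit 1) (p (nat_lit 0x20000c) (nat_lit 0) (p (nat_lit 0x200004) (nat_lit 0) (p (nat_lit 0x109) (nat_lit 1) (p (nat_lit 0x101) (nat_lit 0) (p (nat_lit 0x111) (nat_lit 0) (p (nat_lit 0xd1) (nat_lit 1) (p (nat_lit 0x89) (nat_lit 0) (p (nat_lit 0x41) (nat_lit 0) (p (nat_lit 0x8a098b090a9a) (nat_lit 0) (p (nat_lit 0x9890a888a1a) (nat_lit 0) (p (nat_lit 0x89088a08079a) (nat_lit 0) (p (nat_lit 0x8880987871a) (nat_lit 0) (p (nat_lit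 0x80000800080907088a) (nat_lit 0) (p (nat_lit 0x80000800078886860a) (nat_lit 0) (p (nat_lit 0x8688060782) (nat_lit 0) (p (nat_lit 0x607858702) (nat_lit 0) (p (nat_lit 0x8587050482) (nat_lit 0) (p (nat_lit 0x506848402) (nat_lit 0) (p (nat_lit 0x160014) (nat_lit 0) (p (nat_lit 0x50612) (nat_lit 0) (p (nat_lit 0x40592) (nat_lit 0) (p (nat_lit 0x40492) (nat_lit 0) (p (nat_lit 0x30412) (nat_lit 0) (p (nat_lit 0x30212) (nat_lit 0) (p (nat_lit 0x20192) (nat_lit 0) (p (nat_lit 0x20092) (nat_lit 0) (p (nat_lit 0x10012) (nat_lit 0) pn)))))))))))))))))))))))))))) :=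
  Cl.node (nat_lit 0xb0014) (nat_lit 2) (by decide +kernel) (ClAll.succ (ClAll.succ ClAll.zero s37) s38)

def n92 : Cl (O (nat_lit 3)) (R (nat_lit 104465))
    (p (nat_lit 0x20000c) (nat_lit 0) (p (nat_lit 0x200004) (nat_lit 0) (p (nat_lit 0xc1) (nat_lit 0) (p (nat_lit 0x81) (nat_lit 1) (p (nat_lit 0x101) (nat_lit 1) (p (nat_lit 0x111) (nat_lit 0) (p (nat_lit 0xd1) (nat_lit 1) (p (nat_lit 0x89) (nat_lit 0) (p (nat_lit 0x41) (nat_lit 0) (p (nat_lit 0x8a098b090a9a) (nat_lit 0) (p (nat_lit 0x9890a888a1a) (nat_lit 0) (p (nat_lit 0x89088a08079a) (nat_lit 0) (p (nat_lit 0x8880987871a) (nat_lit 0) (p (nat_lit 0x80000800080907088a) (nat_lit 0) (p (nat_lit 0x80000800078886860a) (nat_lit 0) (p (nat_lit 0x8688060782) (nat_lit 0) (p (nat_lit 0x607858702) (nat_lit 0) (p (nat_lit 0x8587050482) (nat_lit 0) (p (nat_lit 0x506848402) (nat_lit 0) (p (nat_lit 0x160014) (nat_lit 0) (p (nat_lit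 0x50612) (nat_lit 0) (p (nat_lit 0x40592) (nat_lit 0) (p (nat_lit 0x40492) (nat_lit 0) (p (nat_lit 0x30412) (nat_lit 0) (p (nat_lit 0x30212) (nat_lit 0) (p (nat_lit 0x20192) (nat_lit 0) (p (nat_lit 0x20092) (nat_lit 0) (p (nat_lit 0x10012) (nat_lit 0) pn)))))))))))))))))))))))))))) :=
  Cl.node (nat_lit 0x119) (nat_lit 2) (by decide +kernel) (ClAll.succ (ClAll.succ ClAll.zero n69) n70)

def n93 : Cl (O (nat_lit 3)) (R (nat_lit 104465))
    (p (nat_lit 0x20000c) (nat_lit 0) (p (nat_lit 0x200004) (nat_lit 0) (p (nat_lit 0x101) (nat_lit 0) (p (nat_lit 0xc1) (nat_lit 1) (p (nat_lit 0x81) (nat_lit 1) (p (nat_lit 0x111) (nat_lit 1) (p (nat_lit 0xd1) (nat_lit 1) (p (nat_lit 0x89) (nat_lit 0) (p (nat_lit 0x41) (nat_lit 0) (p (nat_lit 0x8a098b090a9a) (nat_lit 0) (p (nat_lit 0x9890a888a1a) (nat_lit 0) (p (nat_lit 0x89088a08079a) (nat_lit 0) (p (nat_lit 0x8880987871a) (nat_lit 0) (p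 (nat_lit 0x80000800080907088a) (nat_lit 0) (p (nat_lit 0x80000800078886860a) (nat_lit 0) (p (nat_lit 0x8688060782) (nat_lit 0) (p (nat_lit 0x607858702) (nat_lit 0) (p (nat_lit 0x8587050482) (nat_lit 0) (p (nat_lit 0x506848402) (nat_lit 0) (p (nat_lit 0x160014) (nat_lit 0) (p (nat_lit 0x50612) (nat_lit 0) (p (nat_lit 0x40592) (nat_lit 0) (p (nat_lit 0x40492) (nat_lit 0) (p (nat_lit 0x30412) (nat_lit 0) (p (nat_lit 0x30212) (nat_lit 0) (p (nat_lit 0x20192) (nat_lit 0) (p (nat_lit 0x20092) (nat_lit 0) (p (nat_lit 0x10012) (nat_lit 0) pn)))))))))))))))))))))))))))) :=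
  Cl.node (nat_lit 0xb0014) (nat_lit 2) (by decide +kernel) (ClAll.succ (ClAll.succ ClAll.zero s56) s57)

def n94 : Cl (O (nat_lit 3)) (R (nat_lit 104465))
    (p (nat_lit 0x200004) (nat_lit 0) (p (nat_lit 0xd1) (nat_lit 1) (p (nat_lit 0x111) (nat_lit 1) (p (nat_lit 0x109) (nat_lit 0) (p (nat_lit 0x101) (nat_lit 0) (p (nat_lit 0x119) (nat_lit 0) (p (nat_lit 0xc9) (nat_lit 0) (p (nat_lit 0x89) (nat_lit 1) (p (nat_lit 0x41) (nat_lit 0) (p (nat_lit 0x8a098b090a9a) (nat_lit 0) (p (nat_lit 0x9890a888a1a) (nat_lit 0) (p (nat_lit 0x89088a08079a) (nat_lit 0) (p (nat_lit 0x8880987871a) (nat_lit 0) (p (nat_lit 0x80000800080907088a) (nat_lit 0) (p (nat_lit 0x80000800078886860a) (nat_lit 0) (p (nat_lit 0x8688060782) (nat_lit 0) (p (nat_lit 0x607858702) (nat_lit 0) (p (nat_lit 0x8587050482) (nat_lit 0) (p (nat_lit 0x506848402) (nat_lit 0) (p (nat_lit 0x160014) (nat_lit 0) (p (nat_lit 0x50612)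 (nat_lit 0) (p (nat_lit 0x40592) (nat_lit 0) (p (nat_lit 0x40492) (nat_lit 0) (p (nat_lit 0x30412) (nat_lit 0) (p (nat_lit 0x30212) (nat_lit 0) (p (nat_lit 0x20192) (nat_lit 0) (p (nat_lit 0x20092) (nat_lit 0) (p (nat_lit 0x10012) (nat_lit 0) pn)))))))))))))))))))))))))))) :=
  Cl.node (nat_lit 0x20000c) (nat_lit 2) (by decide +kernel) (ClAll.succ (ClAll.succ ClAll.zero n71) s65)

def n95 : Cl (O (nat_lit 3)) (R (nat_lit 104465))
    (p (nat_lit 0x20000c) (nat_lit 0) (p (nat_lit 0x200004) (nat_lit 0) (p (nat_lit 0xd1) (nat_lit 0) (p (nat_lit 0x109) (nat_lit 1) (p (nat_lit 0x101) (nat_lit 0) (p (nat_lit 0x119) (nat_lit 0) (p (nat_lit 0xc9) (nat_lit 0) (p (nat_lit 0x89) (nat_lit 1) (p (nat_lit 0x41) (nat_lit 0) (p (nat_lit 0x8a098b090a9a) (nat_lit 0) (p (nat_lit 0x9890a888a1a) (nat_lit 0) (p (nat_lit 0x89088a08079a) (nat_lit 0) (p (nat_lit 0x8880987871a) (nat_lit 0) (p (nat_lit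 0x80000800080907088a) (nat_lit 0) (p (nat_lit 0x80000800078886860a) (nat_lit 0) (p (nat_lit 0x8688060782) (nat_lit 0) (p (nat_lit 0x607858702) (nat_lit 0) (p (nat_lit 0x8587050482) (nat_lit 0) (p (nat_lit 0x506848402) (nat_lit 0) (p (nat_lit 0x160014) (nat_lit 0) (p (nat_lit 0x50612) (nat_lit 0) (p (nat_lit 0x40592) (nat_lit 0) (p (nat_lit 0x40492) (nat_lit 0) (p (nat_lit 0x30412) (nat_lit 0) (p (nat_lit 0x30212) (nat_lit 0) (p (nat_lit 0x20192) (nat_lit 0) (p (nat_lit 0x20092) (nat_lit 0) (p (nat_lit 0x10012) (nat_lit 0) pn)))))))))))))))))))))))))))) :=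
  Cl.node (nat_lit 0xb0014) (nat_lit 2) (by decide +kernel) (ClAll.succ (ClAll.succ ClAll.zero n72) n73)

def n96 : Cl (O (nat_lit 3)) (R (nat_lit 104465))
    (p (nat_lit 0x20000c) (nat_lit 0) (p (nat_lit 0x200004) (nat_lit 0) (p (nat_lit 0xd1) (nat_lit 1) (p (nat_lit 0x109) (nat_lit 1) (p (nat_lit 0x101) (nat_lit 0) (p (nat_lit 0x119) (nat_lit 0) (p (nat_lit 0xc9) (nat_lit 0) (p (nat_lit 0x89) (nat_lit 1) (p (nat_lit 0x41) (nat_lit 0) (p (nat_lit 0x8a098b090a9a) (nat_lit 0) (p (nat_lit 0x9890a888a1a) (nat_lit 0) (p (nat_lit 0x89088a08079a) (nat_lit 0) (p (nat_lit 0x8880987871a) (nat_lit 0) (p (nat_lit 0x80000800080907088a) (nat_lit 0) (p (nat_lit 0x80000800078886860a) (nat_lit 0) (p (nat_lit 0x8688060782) (nat_lit 0) (p (nat_lit 0x607858702) (nat_lit 0) (p (nat_lit 0x8587050482) (nat_lit 0) (p (nat_lit 0x506848402) (nat_lit 0) (p (nat_lit 0x160014) (nat_lit 0) (p (nat_lit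 0x50612) (nat_lit 0) (p (nat_lit 0x40592) (nat_lit 0) (p (nat_lit 0x40492) (nat_lit 0) (p (nat_lit 0x30412) (nat_lit 0) (p (nat_lit 0x30212) (nat_lit 0) (p (nat_lit 0x20192) (nat_lit 0) (p (nat_lit 0x20092) (nat_lit 0) (p (nat_lit 0x10012) (nat_lit 0) pn)))))))))))))))))))))))))))) :=
  Cl.node (nat_lit 0xb0014) (nat_lit 2) (by decide +kernel) (ClAll.succ (ClAll.succ ClAll.zero n74) n75)

def n97 : Cl (O (nat_lit 3)) (R (nat_lit 104465))
    (p (nat_lit 0x20000c) (nat_lit 0) (p (nat_lit 0x200004) (nat_lit 0) (p (nat_lit 0xd1) (nat_lit 0) (p (nat_lit 0xc1) (nat_lit 0) (p (nat_lit 0x101) (nat_lit 1) (p (nat_lit 0x119) (nat_lit 0) (p (nat_lit 0xc9) (nat_lit 0) (p (nat_lit 0x89) (nat_lit 1) (p (nat_lit 0x41) (nat_lit 0) (p (nat_lit 0x8a098b090a9a) (nat_lit 0) (p (nat_lit 0x9890a888a1a) (nat_lit 0) (p (nat_lit 0x89088a08079a) (nat_lit 0) (p (nat_lit 0x8880987871a) (nat_lit 0) (p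 (nat_lit 0x80000800080907088a) (nat_lit 0) (p (nat_lit 0x80000800078886860a) (nat_lit 0) (p (nat_lit 0x8688060782) (nat_lit 0) (p (nat_lit 0x607858702) (nat_lit 0) (p (nat_lit 0x8587050482) (nat_lit 0) (p (nat_lit 0x506848402) (nat_lit 0) (p (nat_lit 0x160014) (nat_lit 0) (p (nat_lit 0x50612) (nat_lit 0) (p (nat_lit 0x40592) (nat_lit 0) (p (nat_lit 0x40492) (nat_lit 0) (p (nat_lit 0x30412) (nat_lit 0) (p (nat_lit 0x30212) (nat_lit 0) (p (nat_lit 0x20192) (nat_lit 0) (p (nat_lit 0x20092) (nat_lit 0) (p (nat_lit 0x10012) (nat_lit 0) pn)))))))))))))))))))))))))))) :=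
  Cl.node (nat_lit 0xb0014) (nat_lit 2) (by decide +kernel) (ClAll.succ (ClAll.succ ClAll.zero s88) s89)

def n98 : Cl (O (nat_lit 3)) (R (nat_lit 104465))
    (p (nat_lit 0x20000c) (nat_lit 0) (p (nat_lit 0x200004) (nat_lit 0) (p (nat_lit 0xd1) (nat_lit 1) (p (nat_lit 0xc1) (nat_lit 0) (p (nat_lit 0x101) (nat_lit 1) (p (nat_lit 0x119) (nat_lit 0) (p (nat_lit 0xc9) (nat_lit 0) (p (nat_lit 0x89) (nat_lit 1) (p (nat_lit 0x41) (nat_lit 0) (p (nat_lit 0x8a098b090a9a) (nat_lit 0) (p (nat_lit 0x9890a888a1a) (nat_lit 0) (p (nat_lit 0x89088a08079a) (nat_lit 0) (p (nat_lit 0x8880987871a) (nat_lit 0) (p (nat_lit 0x80000800080907088a) (nat_lit 0) (p (nat_lit 0x80000800078886860a) (nat_lit 0) (p (nat_lit 0x8688060782) (nat_lit 0) (p (nat_lit 0x607858702) (nat_lit 0) (p (nat_lit 0x8587050482) (nat_lit 0) (p (nat_lit 0x506848402) (nat_lit 0) (p (nat_lit 0x160014) (nat_lit 0) (p (nat_lit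 0x50612) (nat_lit 0) (p (nat_lit 0x40592) (nat_lit 0) (p (nat_lit 0x40492) (nat_lit 0) (p (nat_lit 0x30412) (nat_lit 0) (p (nat_lit 0x30212) (nat_lit 0) (p (nat_lit 0x20192) (nat_lit 0) (p (nat_lit 0x20092) (nat_lit 0) (p (nat_lit 0x10012) (nat_lit 0) pn)))))))))))))))))))))))))))) :=
  Cl.node (nat_lit 0xb0014) (nat_lit 2) (by decide +kernel) (ClAll.succ (ClAll.succ ClAll.zero n76) n77)

def n99 : Cl (O (nat_lit 3)) (R (nat_lit 104465))
    (p (nat_lit 0x20000c) (nat_lit 0) (p (nat_lit 0x200004) (nat_lit 0) (p (nat_lit 0x111) (nat_lit 1) (p (nat_lit 0xd1) (nat_lit 1) (p (nat_lit 0xc1) (nat_lit 0) (p (nat_lit 0x119) (nat_lit 1) (p (nat_lit 0xc9) (nat_lit 0) (p (nat_lit 0x89) (nat_lit 1) (p (nat_lit 0x41) (nat_lit 0) (p (nat_lit 0x8a098b090a9a) (nat_lit 0) (p (nat_lit 0x9890a888a1a) (nat_lit 0) (p (nat_lit 0x89088a08079a) (nat_lit 0) (p (nat_lit 0x8880987871a) (nat_lit 0) (p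 (nat_lit 0x80000800080907088a) (nat_lit 0) (p (nat_lit 0x80000800078886860a) (nat_lit 0) (p (nat_lit 0x8688060782) (nat_lit 0) (p (nat_lit 0x607858702) (nat_lit 0) (p (nat_lit 0x8587050482) (nat_lit 0) (p (nat_lit 0x506848402) (nat_lit 0) (p (nat_lit 0x160014) (nat_lit 0) (p (nat_lit 0x50612) (nat_lit 0) (p (nat_lit 0x40592) (nat_lit 0) (p (nat_lit 0x40492) (nat_lit 0) (p (nat_lit 0x30412) (nat_lit 0) (p (nat_lit 0x30212) (nat_lit 0) (p (nat_lit 0x20192) (nat_lit 0) (p (nat_lit 0x20092) (nat_lit 0) (p (nat_lit 0x10012) (nat_lit 0) pn)))))))))))))))))))))))))))) :=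
  Cl.node (nat_lit 0xb0014) (nat_lit 2) (by decide +kernel) (ClAll.succ (ClAll.succ ClAll.zero s105) n78)

def n100 : Cl (O (nat_lit 3)) (R (nat_lit 104465))
    (p (nat_lit 0x20000c) (nat_lit 0) (p (nat_lit 0x200004) (nat_lit 0) (p (nat_lit 0x111) (nat_lit 1) (p (nat_lit 0x101) (nat_lit 0) (p (nat_lit 0xc1) (nat_lit 1) (p (nat_lit 0x119) (nat_lit 1) (p (nat_lit 0xc9) (nat_lit 0) (p (nat_lit 0x89) (nat_lit 1) (p (nat_lit 0x41) (nat_lit 0) (p (nat_lit 0x8a098b090a9a) (nat_lit 0) (p (nat_lit 0x9890a888a1a) (nat_lit 0) (p (nat_lit 0x89088a08079a) (nat_lit 0) (p (nat_lit 0x8880987871a) (nat_lit 0) (p (nat_lit 0x80000800080907088a) (nat_lit 0) (p (nat_lit 0x80000800078886860a) (nat_lit 0) (p (nat_lit 0x8688060782) (nat_lit 0) (p (nat_lit 0x607858702) (nat_lit 0) (p (nat_lit 0x8587050482) (nat_lit 0) (p (nat_lit 0x506848402) (nat_lit 0) (p (nat_lit 0x160014) (nat_lit 0) (p (nat_lit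 0x50612) (nat_lit 0) (p (nat_lit 0x40592) (nat_lit 0) (p (nat_lit 0x40492) (nat_lit 0) (p (nat_lit 0x30412) (nat_lit 0) (p (nat_lit 0x30212) (nat_lit 0) (p (nat_lit 0x20192) (nat_lit 0) (p (nat_lit 0x20092) (nat_lit 0) (p (nat_lit 0x10012) (nat_lit 0) pn)))))))))))))))))))))))))))) :=
  Cl.node (nat_lit 0xb0014) (nat_lit 2) (by decide +kernel) (ClAll.succ (ClAll.succ ClAll.zero n79) n80)

def n101 : Cl (O (nat_lit 3)) (R (nat_lit 104465))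
    (p (nat_lit 0x20000c) (nat_lit 0) (p (nat_lit 0x200004) (nat_lit 0) (p (nat_lit 0x119) (nat_lit 1) (p (nat_lit 0x111) (nat_lit 0) (p (nat_lit 0x101) (nat_lit 0) (p (nat_lit 0x109) (nat_lit 0) (p (nat_lit 0xc9) (nat_lit 1) (p (nat_lit 0x89) (nat_lit 1) (p (nat_lit 0x41) (nat_lit 0) (p (nat_lit 0x8a098b090a9a) (nat_lit 0) (p (nat_lit 0x9890a888a1a) (nat_lit 0) (p (nat_lit 0x89088a08079a) (nat_lit 0) (p (nat_lit 0x8880987871a) (nat_lit 0) (p (nat_lit 0x80000800080907088a) (nat_lit 0) (p (nat_lit 0x80000800078886860a) (nat_lit 0) (p (nat_lit 0x8688060782) (nat_lit 0) (p (nat_lit 0x607858702) (nat_lit 0) (p (nat_lit 0x8587050482) (nat_lit 0) (p (nat_lit 0x506848402) (nat_lit 0) (p (nat_lit 0x160014) (nat_lit 0) (p (nat_lit 0x50612) (nat_lit 0) (p (nat_lit 0x40592) (nat_lit 0) (p (nat_lit 0x40492) (nat_lit 0) (p (nat_lit 0x30412) (nat_lit 0) (p (nat_lit 0x30212) (nat_lit 0)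 (p (nat_lit 0x20192) (nat_lit 0) (p (nat_lit 0x20092) (nat_lit 0) (p (nat_lit 0x10012) (nat_lit 0) pn)))))))))))))))))))))))))))) :=
  Cl.node (nat_lit 0xb0014) (nat_lit 2) (by decide +kernel) (ClAll.succ (ClAll.succ ClAll.zero n81) s127)

def n102 : Cl (O (nat_lit 3)) (R (nat_lit 104465))
    (p (nat_lit 0x200004) (nat_lit 0) (p (nat_lit 0xc9) (nat_lit 1) (p (nat_lit 0x89) (nat_lit 1) (p (nat_lit 0xc1) (nat_lit 0) (p (nat_lit 0x101) (nat_lit 1) (p (nat_lit 0x119) (nat_lit 0) (p (nat_lit 0xd1) (nat_lit 0) (p (nat_lit 0x81) (nat_lit 0) (p (nat_lit 0x41) (nat_lit 1) (p (nat_lit 0x8a098b090a9a) (nat_lit 0) (p (nat_lit 0x9890a888a1a) (nat_lit 0) (p (nat_lit 0x89088a08079a) (nat_lit 0) (p (nat_lit 0x8880987871a) (nat_lit 0) (p (nat_lit 0x80000800080907088a) (nat_lit 0) (p (nat_lit 0x80000800078886860a) (nat_lit 0) (p (nat_lit 0x8688060782) (nat_lit 0) (p (nat_lit 0x607858702) (nat_lit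 0) (p (nat_lit 0x8587050482) (nat_lit 0) (p (nat_lit 0x506848402) (nat_lit 0) (p (nat_lit 0x160014) (nat_lit 0) (p (nat_lit 0x50612) (nat_lit 0) (p (nat_lit 0x40592) (nat_lit 0) (p (nat_lit 0x40492) (nat_lit 0) (p (nat_lit 0x30412) (nat_lit 0) (p (nat_lit 0x30212) (nat_lit 0) (p (nat_lit 0x20192) (nat_lit 0) (p (nat_lit 0x20092) (nat_lit 0) (p (nat_lit 0x10012) (nat_lit 0) pn)))))))))))))))))))))))))))) :=
  Cl.node (nat_lit 0x20000c) (nat_lit 2) (by decide +kernel) (ClAll.succ (ClAll.succ ClAll.zero n82) s143)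

def n103 : Cl (O (nat_lit 3)) (R (nat_lit 104465))
    (p (nat_lit 0x20000c) (nat_lit 0) (p (nat_lit 0x200004) (nat_lit 0) (p (nat_lit 0x89) (nat_lit 1) (p (nat_lit 0xc1) (nat_lit 1) (p (nat_lit 0x101) (nat_lit 1) (p (nat_lit 0x119) (nat_lit 0) (p (nat_lit 0xd1) (nat_lit 0) (p (nat_lit 0x81) (nat_lit 0) (p (nat_lit 0x41) (nat_lit 1) (p (nat_lit 0x8a098b090a9a) (nat_lit 0) (p (nat_lit 0x9890a888a1a) (nat_lit 0) (p (nat_lit 0x89088a08079a) (nat_lit 0) (p (nat_lit 0x8880987871a) (nat_lit 0) (p (nat_lit 0x80000800080907088a) (nat_lit 0) (p (nat_lit 0x80000800078886860a) (nat_lit 0) (p (nat_lit 0x8688060782) (nat_lit 0) (p (nat_lit 0x607858702) (nat_lit 0) (p (nat_lit 0x8587050482) (nat_lit 0) (p (nat_lit 0x506848402) (nat_lit 0) (p (nat_lit 0x160014) (nat_lit 0) (p (nat_lit 0x50612) (nat_lit 0) (p (nat_lit 0x40592) (nat_lit 0) (p (nat_lit 0x40492) (nat_lit 0) (p (nat_lit 0x30412)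 (nat_lit 0) (p (nat_lit 0x30212) (nat_lit 0) (p (nat_lit 0x20192) (nat_lit 0) (p (nat_lit 0x20092) (nat_lit 0) (p (nat_lit 0x10012) (nat_lit 0) pn)))))))))))))))))))))))))))) :=
  Cl.node (nat_lit 0xb0014) (nat_lit 2) (by decide +kernel) (ClAll.succ (ClAll.succ ClAll.zero n83) s151)

def n104 : Cl (O (nat_lit 3)) (R (nat_lit 104465))
    (p (nat_lit 0xb0014) (nat_lit 0) (p (nat_lit 0x200004) (nat_lit 1) (p (nat_lit 0x89) (nat_lit 1) (p (nat_lit 0xc1) (nat_lit 1) (p (nat_lit 0x101) (nat_lit 1) (p (nat_lit 0x119) (nat_lit 0) (p (nat_lit 0xd1) (nat_lit 0) (p (nat_lit 0x81) (nat_lit 0) (p (nat_lit 0x41) (nat_lit 1) (p (nat_lit 0x8a098b090a9a) (nat_lit 0) (p (nat_lit 0x9890a888a1a) (nat_lit 0) (p (nat_lit 0x89088a08079a) (nat_lit 0) (p (nat_lit 0x8880987871a) (nat_lit 0) (p (nat_lit 0x80000800080907088a) (nat_lit 0) (p (nat_lit 0x80000800078886860a) (nat_lit 0) (p (nat_lit 0x8688060782)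 (nat_lit 0) (p (nat_lit 0x607858702) (nat_lit 0) (p (nat_lit 0x8587050482) (nat_lit 0) (p (nat_lit 0x506848402) (nat_lit 0) (p (nat_lit 0x160014) (nat_lit 0) (p (nat_lit 0x50612) (nat_lit 0) (p (nat_lit 0x40592) (nat_lit 0) (p (nat_lit 0x40492) (nat_lit 0) (p (nat_lit 0x30412) (nat_lit 0) (p (nat_lit 0x30212) (nat_lit 0) (p (nat_lit 0x20192) (nat_lit 0) (p (nat_lit 0x20092) (nat_lit 0) (p (nat_lit 0x10012) (nat_lit 0) pn)))))))))))))))))))))))))))) :=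
  Cl.node (nat_lit 0x20000c) (nat_lit 2) (by decide +kernel) (ClAll.succ (ClAll.succ ClAll.zero s153) s154)

def n105 : Cl (O (nat_lit 3)) (R (nat_lit 104465))
    (p (nat_lit 0x20000c) (nat_lit 0) (p (nat_lit 0x200004) (nat_lit 0) (p (nat_lit 0x89) (nat_lit 1) (p (nat_lit 0x101) (nat_lit 1) (p (nat_lit 0xc1) (nat_lit 1) (p (nat_lit 0x119) (nat_lit 1) (p (nat_lit 0xd1) (nat_lit 0) (p (nat_lit 0x81) (nat_lit 0) (p (nat_lit 0x41) (nat_lit 1) (p (nat_lit 0x8a098b090a9a) (nat_lit 0) (p (nat_lit 0x9890a888a1a) (nat_lit 0) (p (nat_lit 0x89088a08079a) (nat_lit 0) (p (nat_lit 0x8880987871a) (nat_lit 0) (p (nat_lit 0x80000800080907088a) (nat_lit 0) (p (nat_lit 0x80000800078886860a) (nat_lit 0) (p (nat_lit 0x8688060782) (nat_lit 0) (p (nat_lit 0x607858702) (nat_lit 0) (p (nat_lit 0x8587050482) (nat_lit 0) (p (nat_lit 0x506848402) (nat_lit 0) (p (nat_lit 0x160014) (nat_lit 0) (p (nat_lit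 0x50612) (nat_lit 0) (p (nat_lit 0x40592) (nat_lit 0) (p (nat_lit 0x40492) (nat_lit 0) (p (nat_lit 0x30412) (nat_lit 0) (p (nat_lit 0x30212) (nat_lit 0) (p (nat_lit 0x20192) (nat_lit 0) (p (nat_lit 0x20092) (nat_lit 0) (p (nat_lit 0x10012) (nat_lit 0) pn)))))))))))))))))))))))))))) :=
  Cl.node (nat_lit 0xb0014) (nat_lit 2) (by decide +kernel) (ClAll.succ (ClAll.succ ClAll.zero n84) s167)

def n106 : Cl (O (nat_lit 3)) (R (nat_lit 104465))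
    (p (nat_lit 0x200004) (nat_lit 0) (p (nat_lit 0xc9) (nat_lit 0) (p (nat_lit 0x89) (nat_lit 1) (p (nat_lit 0x109) (nat_lit 1) (p (nat_lit 0x101) (nat_lit 0) (p (nat_lit 0x111) (nat_lit 0) (p (nat_lit 0xd1) (nat_lit 1) (p (nat_lit 0x81) (nat_lit 0) (p (nat_lit 0x41) (nat_lit 1) (p (nat_lit 0x8a098b090a9a) (nat_lit 0) (p (nat_lit 0x9890a888a1a) (nat_lit 0) (p (nat_lit 0x89088a08079a) (nat_lit 0) (p (nat_lit 0x8880987871a) (nat_lit 0) (p (nat_lit 0x80000800080907088a) (nat_lit 0) (p (nat_lit 0x80000800078886860a) (nat_lit 0) (p (nat_lit 0x8688060782) (nat_lit 0) (p (nat_lit 0x607858702) (nat_lit 0) (p (nat_lit 0x8587050482) (nat_lit 0) (p (nat_lit 0x506848402) (nat_lit 0) (p (nat_lit 0x160014) (nat_lit 0) (p (nat_lit 0x50612) (nat_lit 0) (p (nat_lit 0x40592) (nat_lit 0) (p (nat_lit 0x40492) (nat_lit 0) (p (nat_lit 0x30412) (nat_lit 0) (p (nat_lit 0x30212) (nat_lit 0) (p (nat_lit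 0x20192) (nat_lit 0) (p (nat_lit 0x20092) (nat_lit 0) (p (nat_lit 0x10012) (nat_lit 0) pn)))))))))))))))))))))))))))) :=
  Cl.node (nat_lit 0x20000c) (nat_lit 2) (by decide +kernel) (ClAll.succ (ClAll.succ ClAll.zero n85) s176)

def n107 : Cl (O (nat_lit 3)) (R (nat_lit 104465))
    (p (nat_lit 0x20000c) (nat_lit 0) (p (nat_lit 0x200004) (nat_lit 0) (p (nat_lit 0xc9) (nat_lit 0) (p (nat_lit 0x89) (nat_lit 1) (p (nat_lit 0x101) (nat_lit 1) (p (nat_lit 0x111) (nat_lit 0) (p (nat_lit 0xd1) (nat_lit 1) (p (nat_lit 0x81) (nat_lit 0) (p (nat_lit 0x41) (nat_lit 1) (p (nat_lit 0x8a098b090a9a) (nat_lit 0) (p (nat_lit 0x9890a888a1a) (nat_lit 0) (p (nat_lit 0x89088a08079a) (nat_lit 0) (p (nat_lit 0x8880987871a) (nat_lit 0) (p (nat_lit 0x80000800080907088a) (nat_lit 0) (p (nat_lit 0x80000800078886860a) (nat_lit 0) (p (nat_lit 0x8688060782) (nat_lit 0) (p (nat_lit 0x607858702) (nat_lit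 0) (p (nat_lit 0x8587050482) (nat_lit 0) (p (nat_lit 0x506848402) (nat_lit 0) (p (nat_lit 0x160014) (nat_lit 0) (p (nat_lit 0x50612) (nat_lit 0) (p (nat_lit 0x40592) (nat_lit 0) (p (nat_lit 0x40492) (nat_lit 0) (p (nat_lit 0x30412) (nat_lit 0) (p (nat_lit 0x30212) (nat_lit 0) (p (nat_lit 0x20192) (nat_lit 0) (p (nat_lit 0x20092) (nat_lit 0) (p (nat_lit 0x10012) (nat_lit 0) pn)))))))))))))))))))))))))))) :=
  Cl.node (nat_lit 0xb0014) (nat_lit 2) (by decide +kernel) (ClAll.succ (ClAll.succ ClAll.zero n86) s191)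

def n108 : Cl (O (nat_lit 3)) (R (nat_lit 104465))
    (p (nat_lit 0xb0014) (nat_lit 0) (p (nat_lit 0x200004) (nat_lit 1) (p (nat_lit 0xc9) (nat_lit 0) (p (nat_lit 0x89) (nat_lit 1) (p (nat_lit 0x101) (nat_lit 1) (p (nat_lit 0x111) (nat_lit 0) (p (nat_lit 0xd1) (nat_lit 1) (p (nat_lit 0x81) (nat_lit 0) (p (nat_lit 0x41) (nat_lit 1) (p (nat_lit 0x8a098b090a9a) (nat_lit 0) (p (nat_lit 0x9890a888a1a) (nat_lit 0) (p (nat_lit 0x89088a08079a) (nat_lit 0) (p (nat_lit 0x8880987871a) (nat_lit 0) (p (nat_lit 0x80000800080907088a) (nat_lit 0) (p (nat_lit 0x80000800078886860a) (nat_lit 0) (p (nat_lit 0x8688060782) (nat_lit 0) (p (nat_lit 0x607858702) (nat_lit 0) (p (nat_lit 0x8587050482) (nat_lit 0) (p (nat_lit 0x506848402) (nat_lit 0) (p (nat_lit 0x160014) (nat_lit 0) (p (nat_lit 0x50612) (nat_lit 0) (p (nat_lit 0x40592) (nat_lit 0) (p (nat_lit 0x40492) (nat_lit 0) (p (nat_lit 0x30412)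 (nat_lit 0) (p (nat_lit 0x30212) (nat_lit 0) (p (nat_lit 0x20192) (nat_lit 0) (p (nat_lit 0x20092) (nat_lit 0) (p (nat_lit 0x10012) (nat_lit 0) pn)))))))))))))))))))))))))))) :=
  Cl.node (nat_lit 0x20000c) (nat_lit 2) (by decide +kernel) (ClAll.succ (ClAll.succ ClAll.zero s193) s194)

def n109 : Cl (O (nat_lit 3)) (R (nat_lit 104465))
    (p (nat_lit 0x20000c) (nat_lit 0) (p (nat_lit 0x200004) (nat_lit 0) (p (nat_lit 0x109) (nat_lit 0) (p (nat_lit 0xc9) (nat_lit 1) (p (nat_lit 0x89) (nat_lit 1) (p (nat_lit 0x111) (nat_lit 1) (p (nat_lit 0xd1) (nat_lit 1) (p (nat_lit 0x81) (nat_lit 0) (p (nat_lit 0x41) (nat_lit 1) (p (nat_lit 0x8a098b090a9a) (nat_lit 0) (p (nat_lit 0x9890a888a1a) (nat_lit 0) (p (nat_lit 0x89088a08079a) (nat_lit 0) (p (nat_lit 0x8880987871a) (nat_lit 0) (p (nat_lit 0x80000800080907088a) (nat_lit 0) (p (nat_lit 0x80000800078886860a) (nat_lit 0) (p (nat_lit 0x8688060782)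 (nat_lit 0) (p (nat_lit 0x607858702) (nat_lit 0) (p (nat_lit 0x8587050482) (nat_lit 0) (p (nat_lit 0x506848402) (nat_lit 0) (p (nat_lit 0x160014) (nat_lit 0) (p (nat_lit 0x50612) (nat_lit 0) (p (nat_lit 0x40592) (nat_lit 0) (p (nat_lit 0x40492) (nat_lit 0) (p (nat_lit 0x30412) (nat_lit 0) (p (nat_lit 0x30212) (nat_lit 0) (p (nat_lit 0x20192) (nat_lit 0) (p (nat_lit 0x20092) (nat_lit 0) (p (nat_lit 0x10012) (nat_lit 0) pn)))))))))))))))))))))))))))) :=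
  Cl.node (nat_lit 0xb0014) (nat_lit 2) (by decide +kernel) (ClAll.succ (ClAll.succ ClAll.zero s199) s200)

def n110 : Cl (O (nat_lit 3)) (R (nat_lit 104465))
    (p (nat_lit 0x20000c) (nat_lit 0) (p (nat_lit 0x200004) (nat_lit 0) (p (nat_lit 0xd1) (nat_lit 1) (p (nat_lit 0xc9) (nat_lit 0) (p (nat_lit 0x101) (nat_lit 1) (p (nat_lit 0x119) (nat_lit 0) (p (nat_lit 0xc1) (nat_lit 0) (p (nat_lit 0x81) (nat_lit 1) (p (nat_lit 0x41) (nat_lit 1) (p (nat_lit 0x8a098b090a9a) (nat_lit 0) (p (nat_lit 0x9890a888a1a) (nat_lit 0) (p (nat_lit 0x89088a08079a) (nat_lit 0) (p (nat_lit 0x8880987871a) (nat_lit 0) (p (nat_lit 0x80000800080907088a) (nat_lit 0) (p (nat_lit 0x80000800078886860a) (nat_lit 0) (p (nat_lit 0x8688060782) (nat_lit 0) (p (nat_lit 0x607858702) (nat_lit 0) (p (nat_lit 0x8587050482) (nat_lit 0) (p (nat_lit 0x506848402) (nat_lit 0) (p (nat_lit 0x160014) (nat_lit 0) (p (nat_lit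 0x50612) (nat_lit 0) (p (nat_lit 0x40592) (nat_lit 0) (p (nat_lit 0x40492) (nat_lit 0) (p (nat_lit 0x30412) (nat_lit 0) (p (nat_lit 0x30212) (nat_lit 0) (p (nat_lit 0x20192) (nat_lit 0) (p (nat_lit 0x20092) (nat_lit 0) (p (nat_lit 0x10012) (nat_lit 0) pn)))))))))))))))))))))))))))) :=
  Cl.node (nat_lit 0xb0014) (nat_lit 2) (by decide +kernel) (ClAll.succ (ClAll.succ ClAll.zero s212) s213)

def n111 : Cl (O (nat_lit 3)) (R (nat_lit 104465))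
    (p (nat_lit 0x20000c) (nat_lit 0) (p (nat_lit 0x200004) (nat_lit 0) (p (nat_lit 0x111) (nat_lit 1) (p (nat_lit 0x109) (nat_lit 0) (p (nat_lit 0xc9) (nat_lit 1) (p (nat_lit 0x119) (nat_lit 1) (p (nat_lit 0xc1) (nat_lit 0) (p (nat_lit 0x81) (nat_lit 1) (p (nat_lit 0x41) (nat_lit 1) (p (nat_lit 0x8a098b090a9a) (nat_lit 0) (p (nat_lit 0x9890a888a1a) (nat_lit 0) (p (nat_lit 0x89088a08079a) (nat_lit 0) (p (nat_lit 0x8880987871a) (nat_lit 0) (p (nat_lit 0x80000800080907088a) (nat_lit 0) (p (nat_lit 0x80000800078886860a) (nat_lit 0) (p (nat_lit 0x8688060782) (nat_lit 0) (p (nat_lit 0x607858702) (nat_lit 0) (p (nat_lit 0x8587050482) (nat_lit 0) (p (nat_lit 0x506848402) (nat_lit 0) (p (nat_lit 0x160014) (nat_lit 0) (p (nat_lit 0x50612) (nat_lit 0) (p (nat_lit 0x40592) (nat_lit 0) (p (nat_lit 0x40492) (nat_lit 0) (p (nat_lit 0x30412) (nat_lit 0) (p (nat_lit 0x30212) (nat_lit 0) (p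 (nat_lit 0x20192) (nat_lit 0) (p (nat_lit 0x20092) (nat_lit 0) (p (nat_lit 0x10012) (nat_lit 0) pn)))))))))))))))))))))))))))) :=
  Cl.node (nat_lit 0xb0014) (nat_lit 2) (by decide +kernel) (ClAll.succ (ClAll.succ ClAll.zero s219) s220)

def n112 : Cl (O (nat_lit 3)) (R (nat_lit 104465))
    (p (nat_lit 0x200004) (nat_lit 0) (p (nat_lit 0xc9) (nat_lit 1) (p (nat_lit 0x109) (nat_lit 1) (p (nat_lit 0x101) (nat_lit 0) (p (nat_lit 0x119) (nat_lit 0) (p (nat_lit 0xd1) (nat_lit 0) (p (nat_lit 0x89) (nat_lit 0) (p (nat_lit 0x41) (nat_lit 0) (p (nat_lit 0x8a098b090a9a) (nat_lit 0) (p (nat_lit 0x9890a888a1a) (nat_lit 0) (p (nat_lit 0x89088a08079a) (nat_lit 0) (p (nat_lit 0x8880987871a) (nat_lit 0) (p (nat_lit 0x80000800080907088a) (nat_lit 0) (p (nat_lit 0x80000800078886860a) (nat_lit 0) (p (nat_lit 0x8688060782) (nat_lit 0) (p (nat_lit 0x607858702) (nat_lit 0) (p (nat_lit 0x8587050482)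 (nat_lit 0) (p (nat_lit 0x506848402) (nat_lit 0) (p (nat_lit 0x160014) (nat_lit 0) (p (nat_lit 0x50612) (nat_lit 0) (p (nat_lit 0x40592) (nat_lit 0) (p (nat_lit 0x40492) (nat_lit 0) (p (nat_lit 0x30412) (nat_lit 0) (p (nat_lit 0x30212) (nat_lit 0) (p (nat_lit 0x20192) (nat_lit 0) (p (nat_lit 0x20092) (nat_lit 0) (p (nat_lit 0x10012) (nat_lit 0) pn))))))))))))))))))))))))))) :=
  Cl.node (nat_lit 0x20000c) (nat_lit 2) (by decide +kernel) (ClAll.succ (ClAll.succ ClAll.zero n87) s5)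

def n113 : Cl (O (nat_lit 3)) (R (nat_lit 104465))
    (p (nat_lit 0x200004) (nat_lit 0) (p (nat_lit 0xc9) (nat_lit 1) (p (nat_lit 0x81) (nat_lit 0) (p (nat_lit 0x101) (nat_lit 1) (p (nat_lit 0x119) (nat_lit 0) (p (nat_lit 0xd1) (nat_lit 0) (p (nat_lit 0x89) (nat_lit 0) (p (nat_lit 0x41) (nat_lit 0) (p (nat_lit 0x8a098b090a9a) (nat_lit 0) (p (nat_lit 0x9890a888a1a) (nat_lit 0) (p (nat_lit 0x89088a08079a) (nat_lit 0) (p (nat_lit 0x8880987871a) (nat_lit 0) (p (nat_lit 0x80000800080907088a) (nat_lit 0) (p (nat_lit 0x80000800078886860a) (nat_lit 0) (p (nat_lit 0x8688060782) (nat_lit 0) (p (nat_lit 0x607858702) (nat_lit 0) (p (nat_lit 0x8587050482) (nat_lit 0) (p (nat_lit 0x506848402) (nat_lit 0) (p (nat_lit 0x160014) (nat_lit 0) (p (nat_lit 0x50612) (nat_lit 0) (p (nat_lit 0x40592) (nat_lit 0) (p (nat_lit 0x40492) (nat_lit 0) (p (nat_lit 0x30412) (nat_lit 0) (p (nat_lit 0x30212)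 (nat_lit 0) (p (nat_lit 0x20192) (nat_lit 0) (p (nat_lit 0x20092) (nat_lit 0) (p (nat_lit 0x10012) (nat_lit 0) pn))))))))))))))))))))))))))) :=
  Cl.node (nat_lit 0x20000c) (nat_lit 2) (by decide +kernel) (ClAll.succ (ClAll.succ ClAll.zero n88) s13)

def n114 : Cl (O (nat_lit 3)) (R (nat_lit 104465))
    (p (nat_lit 0xc9) (nat_lit 1) (p (nat_lit 0xc1) (nat_lit 0) (p (nat_lit 0x81) (nat_lit 1) (p (nat_lit 0x101) (nat_lit 1) (p (nat_lit 0x119) (nat_lit 0) (p (nat_lit 0xd1) (nat_lit 0) (p (nat_lit 0x89) (nat_lit 0) (p (nat_lit 0x41) (nat_lit 0) (p (nat_lit 0x8a098b090a9a) (nat_lit 0) (p (nat_lit 0x9890a888a1a) (nat_lit 0) (p (nat_lit 0x89088a08079a) (nat_lit 0) (p (nat_lit 0x8880987871a) (nat_lit 0) (p (nat_lit 0x80000800080907088a) (nat_lit 0) (p (nat_lit 0x80000800078886860a) (nat_lit 0) (p (nat_lit 0x8688060782) (nat_lit 0) (p (nat_lit 0x607858702) (nat_lit 0) (p (nat_lit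 0x8587050482) (nat_lit 0) (p (nat_lit 0x506848402) (nat_lit 0) (p (nat_lit 0x160014) (nat_lit 0) (p (nat_lit 0x50612) (nat_lit 0) (p (nat_lit 0x40592) (nat_lit 0) (p (nat_lit 0x40492) (nat_lit 0) (p (nat_lit 0x30412) (nat_lit 0) (p (nat_lit 0x30212) (nat_lit 0) (p (nat_lit 0x20192) (nat_lit 0) (p (nat_lit 0x20092) (nat_lit 0) (p (nat_lit 0x10012) (nat_lit 0) pn))))))))))))))))))))))))))) :=
  Cl.node (nat_lit 0x200004) (nat_lit 2) (by decide +kernel) (ClAll.succ (ClAll.succ ClAll.zero n89) s21)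

def n115 : Cl (O (nat_lit 3)) (R (nat_lit 104465))
    (p (nat_lit 0x109) (nat_lit 1) (p (nat_lit 0x101) (nat_lit 0) (p (nat_lit 0x81) (nat_lit 1) (p (nat_lit 0xc1) (nat_lit 1) (p (nat_lit 0x119) (nat_lit 1) (p (nat_lit 0xd1) (nat_lit 0) (p (nat_lit 0x89) (nat_lit 0) (p (nat_lit 0x41) (nat_lit 0) (p (nat_lit 0x8a098b090a9a) (nat_lit 0) (p (nat_lit 0x9890a888a1a) (nat_lit 0) (p (nat_lit 0x89088a08079a) (nat_lit 0) (p (nat_lit 0x8880987871a) (nat_lit 0) (p (nat_lit 0x80000800080907088a) (nat_lit 0) (p (nat_lit 0x80000800078886860a) (nat_lit 0) (p (nat_lit 0x8688060782) (nat_lit 0) (p (nat_lit 0x607858702) (nat_lit 0) (p (nat_lit 0x8587050482) (nat_lit 0) (p (nat_lit 0x506848402) (nat_lit 0) (p (nat_lit 0x160014) (nat_lit 0) (p (nat_lit 0x50612) (nat_lit 0) (p (nat_lit 0x40592) (nat_lit 0) (p (nat_lit 0x40492) (nat_lit 0) (p (nat_lit 0x30412) (nat_lit 0) (p (nat_lit 0x30212)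 (nat_lit 0) (p (nat_lit 0x20192) (nat_lit 0) (p (nat_lit 0x20092) (nat_lit 0) (p (nat_lit 0x10012) (nat_lit 0) pn))))))))))))))))))))))))))) :=
  Cl.node (nat_lit 0x200004) (nat_lit 2) (by decide +kernel) (ClAll.succ (ClAll.succ ClAll.zero n90) s33)

def n116 : Cl (O (nat_lit 3)) (R (nat_lit 104465))
    (p (nat_lit 0x20000c) (nat_lit 0) (p (nat_lit 0x200004) (nat_lit 0) (p (nat_lit 0x109) (nat_lit 1) (p (nat_lit 0x101) (nat_lit 0) (p (nat_lit 0x111) (nat_lit 0) (p (nat_lit 0xd1) (nat_lit 1) (p (nat_lit 0x89) (nat_lit 0) (p (nat_lit 0x41) (nat_lit 0) (p (nat_lit 0x8a098b090a9a) (nat_lit 0) (p (nat_lit 0x9890a888a1a) (nat_lit 0) (p (nat_lit 0x89088a08079a) (nat_lit 0) (p (nat_lit 0x8880987871a) (nat_lit 0) (p (nat_lit 0x80000800080907088a) (nat_lit 0) (p (nat_lit 0x80000800078886860a) (nat_lit 0) (p (nat_lit 0x8688060782) (nat_lit 0) (p (nat_lit 0x607858702) (nat_lit 0) (p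 (nat_lit 0x8587050482) (nat_lit 0) (p (nat_lit 0x506848402) (nat_lit 0) (p (nat_lit 0x160014) (nat_lit 0) (p (nat_lit 0x50612) (nat_lit 0) (p (nat_lit 0x40592) (nat_lit 0) (p (nat_lit 0x40492) (nat_lit 0) (p (nat_lit 0x30412) (nat_lit 0) (p (nat_lit 0x30212) (nat_lit 0) (p (nat_lit 0x20192) (nat_lit 0) (p (nat_lit 0x20092) (nat_lit 0) (p (nat_lit 0x10012) (nat_lit 0) pn))))))))))))))))))))))))))) :=
  Cl.node (nat_lit 0xc1) (nat_lit 2) (by decide +kernel) (ClAll.succ (ClAll.succ ClAll.zero s36) n91)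

def n117 : Cl (O (nat_lit 3)) (R (nat_lit 104465))
    (p (nat_lit 0x20000c) (nat_lit 0) (p (nat_lit 0x200004) (nat_lit 0) (p (nat_lit 0x81) (nat_lit 0) (p (nat_lit 0x101) (nat_lit 1) (p (nat_lit 0x111) (nat_lit 0) (p (nat_lit 0xd1) (nat_lit 1) (p (nat_lit 0x89) (nat_lit 0) (p (nat_lit 0x41) (nat_lit 0) (p (nat_lit 0x8a098b090a9a) (nat_lit 0) (p (nat_lit 0x9890a888a1a) (nat_lit 0) (p (nat_lit 0x89088a08079a) (nat_lit 0) (p (nat_lit 0x8880987871a) (nat_lit 0) (p (nat_lit 0x80000800080907088a) (nat_lit 0) (p (nat_lit 0x80000800078886860a) (nat_lit 0) (p (nat_lit 0x8688060782) (nat_lit 0) (p (nat_lit 0x607858702) (nat_lit 0) (p (nat_lit 0x8587050482) (nat_lit 0) (p (nat_lit 0x506848402) (nat_lit 0) (p (nat_lit 0x160014) (nat_lit 0) (p (nat_lit 0x50612) (nat_lit 0) (p (nat_lit 0x40592) (nat_lit 0) (p (nat_lit 0x40492) (nat_lit 0) (p (nat_lit 0x30412) (nat_lit 0) (p (nat_lit 0x30212)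 (nat_lit 0) (p (nat_lit 0x20192) (nat_lit 0) (p (nat_lit 0x20092) (nat_lit 0) (p (nat_lit 0x10012) (nat_lit 0) pn))))))))))))))))))))))))))) :=
  Cl.node (nat_lit 0x119) (nat_lit 2) (by decide +kernel) (ClAll.succ (ClAll.succ ClAll.zero s41) s42)

def n118 : Cl (O (nat_lit 3)) (R (nat_lit 104465))
    (p (nat_lit 0x200004) (nat_lit 0) (p (nat_lit 0xc1) (nat_lit 0) (p (nat_lit 0x81) (nat_lit 1) (p (nat_lit 0x101) (nat_lit 1) (p (nat_lit 0x111) (nat_lit 0) (p (nat_lit 0xd1) (nat_lit 1) (p (nat_lit 0x89) (nat_lit 0) (p (nat_lit 0x41) (nat_lit 0) (p (nat_lit 0x8a098b090a9a) (nat_lit 0) (p (nat_lit 0x9890a888a1a) (nat_lit 0) (p (nat_lit 0x89088a08079a) (nat_lit 0) (p (nat_lit 0x8880987871a) (nat_lit 0) (p (nat_lit 0x80000800080907088a) (nat_lit 0) (p (nat_lit 0x80000800078886860a) (nat_lit 0) (p (nat_lit 0x8688060782) (nat_lit 0) (p (nat_lit 0x607858702) (nat_lit 0) (p (nat_lit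 0x8587050482) (nat_lit 0) (p (nat_lit 0x506848402) (nat_lit 0) (p (nat_lit 0x160014) (nat_lit 0) (p (nat_lit 0x50612) (nat_lit 0) (p (nat_lit 0x40592) (nat_lit 0) (p (nat_lit 0x40492) (nat_lit 0) (p (nat_lit 0x30412) (nat_lit 0) (p (nat_lit 0x30212) (nat_lit 0) (p (nat_lit 0x20192) (nat_lit 0) (p (nat_lit 0x20092) (nat_lit 0) (p (nat_lit 0x10012) (nat_lit 0) pn))))))))))))))))))))))))))) :=
  Cl.node (nat_lit 0x20000c) (nat_lit 2) (by decide +kernel) (ClAll.succ (ClAll.succ ClAll.zero n92) s51)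

def n119 : Cl (O (nat_lit 3)) (R (nat_lit 104465))
    (p (nat_lit 0x200004) (nat_lit 0) (p (nat_lit 0x101) (nat_lit 0) (p (nat_lit 0xc1) (nat_lit 1) (p (nat_lit 0x81) (nat_lit 1) (p (nat_lit 0x111) (nat_lit 1) (p (nat_lit 0xd1) (nat_lit 1) (p (nat_lit 0x89) (nat_lit 0) (p (nat_lit 0x41) (nat_lit 0) (p (nat_lit 0x8a098b090a9a) (nat_lit 0) (p (nat_lit 0x9890a888a1a) (nat_lit 0) (p (nat_lit 0x89088a08079a) (nat_lit 0) (p (nat_lit 0x8880987871a) (nat_lit 0) (p (nat_lit 0x80000800080907088a) (nat_lit 0) (p (nat_lit 0x80000800078886860a) (nat_lit 0) (p (nat_lit 0x8688060782) (nat_lit 0) (p (nat_lit 0x607858702) (nat_lit 0) (p (nat_lit 0x8587050482) (nat_lit 0) (p (nat_lit 0x506848402) (nat_lit 0) (p (nat_lit 0x160014) (nat_lit 0) (p (nat_lit 0x50612) (nat_lit 0) (p (nat_lit 0x40592) (nat_lit 0) (p (nat_lit 0x40492) (nat_lit 0) (p (nat_lit 0x30412) (nat_lit 0) (p (nat_lit 0x30212)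 (nat_lit 0) (p (nat_lit 0x20192) (nat_lit 0) (p (nat_lit 0x20092) (nat_lit 0) (p (nat_lit 0x10012) (nat_lit 0) pn))))))))))))))))))))))))))) :=
  Cl.node (nat_lit 0x20000c) (nat_lit 2) (by decide +kernel) (ClAll.succ (ClAll.succ ClAll.zero n93) s58)

def n120 : Cl (O (nat_lit 3)) (R (nat_lit 104465))
    (p (nat_lit 0xd1) (nat_lit 1) (p (nat_lit 0x111) (nat_lit 1) (p (nat_lit 0x109) (nat_lit 0) (p (nat_lit 0x101) (nat_lit 0) (p (nat_lit 0x119) (nat_lit 0) (p (nat_lit 0xc9) (nat_lit 0) (p (nat_lit 0x89) (nat_lit 1) (p (nat_lit 0x41) (nat_lit 0) (p (nat_lit 0x8a098b090a9a) (nat_lit 0) (p (nat_lit 0x9890a888a1a) (nat_lit 0) (p (nat_lit 0x89088a08079a) (nat_lit 0) (p (nat_lit 0x8880987871a) (nat_lit 0) (p (nat_lit 0x80000800080907088a) (nat_lit 0) (p (nat_lit 0x80000800078886860a) (nat_lit 0) (p (nat_lit 0x8688060782) (nat_lit 0) (p (nat_lit 0x607858702) (nat_lit 0) (p (nat_lit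 0x8587050482) (nat_lit 0) (p (nat_lit 0x506848402) (nat_lit 0) (p (nat_lit 0x160014) (nat_lit 0) (p (nat_lit 0x50612) (nat_lit 0) (p (nat_lit 0x40592) (nat_lit 0) (p (nat_lit 0x40492) (nat_lit 0) (p (nat_lit 0x30412) (nat_lit 0) (p (nat_lit 0x30212) (nat_lit 0) (p (nat_lit 0x20192) (nat_lit 0) (p (nat_lit 0x20092) (nat_lit 0) (p (nat_lit 0x10012) (nat_lit 0) pn))))))))))))))))))))))))))) :=
  Cl.node (nat_lit 0x200004) (nat_lit 2) (by decide +kernel) (ClAll.succ (ClAll.succ ClAll.zero n94) s66)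

def n121 : Cl (O (nat_lit 3)) (R (nat_lit 104465))
    (p (nat_lit 0x200004) (nat_lit 0) (p (nat_lit 0xd1) (nat_lit 0) (p (nat_lit 0x109) (nat_lit 1) (p (nat_lit 0x101) (nat_lit 0) (p (nat_lit 0x119) (nat_lit 0) (p (nat_lit 0xc9) (nat_lit 0) (p (nat_lit 0x89) (nat_lit 1) (p (nat_lit 0x41) (nat_lit 0) (p (nat_lit 0x8a098b090a9a) (nat_lit 0) (p (nat_lit 0x9890a888a1a) (nat_lit 0) (p (nat_lit 0x89088a08079a) (nat_lit 0) (p (nat_lit 0x8880987871a) (nat_lit 0) (p (nat_lit 0x80000800080907088a) (nat_lit 0) (p (nat_lit 0x80000800078886860a) (nat_lit 0) (p (nat_lit 0x8688060782) (nat_lit 0) (p (nat_lit 0x607858702) (nat_lit 0) (p (nat_lit 0x8587050482) (nat_lit 0) (p (nat_lit 0x506848402) (nat_lit 0) (p (nat_lit 0x160014) (nat_lit 0) (p (nat_lit 0x50612) (nat_lit 0) (p (nat_lit 0x40592) (nat_lit 0) (p (nat_lit 0x40492) (nat_lit 0) (p (nat_lit 0x30412) (nat_lit 0) (p (nat_lit 0x30212)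 (nat_lit 0) (p (nat_lit 0x20192) (nat_lit 0) (p (nat_lit 0x20092) (nat_lit 0) (p (nat_lit 0x10012) (nat_lit 0) pn))))))))))))))))))))))))))) :=
  Cl.node (nat_lit 0x20000c) (nat_lit 2) (by decide +kernel) (ClAll.succ (ClAll.succ ClAll.zero n95) s73)

def n122 : Cl (O (nat_lit 3)) (R (nat_lit 104465))
    (p (nat_lit 0x200004) (nat_lit 0) (p (nat_lit 0xd1) (nat_lit 1) (p (nat_lit 0x109) (nat_lit 1) (p (nat_lit 0x101) (nat_lit 0) (p (nat_lit 0x119) (nat_lit 0) (p (nat_lit 0xc9) (nat_lit 0) (p (nat_lit 0x89) (nat_lit 1) (p (nat_lit 0x41) (nat_lit 0) (p (nat_lit 0x8a098b090a9a) (nat_lit 0) (p (nat_lit 0x9890a888a1a) (nat_lit 0) (p (nat_lit 0x89088a08079a) (nat_lit 0) (p (nat_lit 0x8880987871a) (nat_lit 0) (p (nat_lit 0x80000800080907088a) (nat_lit 0) (p (nat_lit 0x80000800078886860a) (nat_lit 0) (p (nat_lit 0x8688060782) (nat_lit 0) (p (nat_lit 0x607858702) (nat_lit 0) (p (nat_lit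 0x8587050482) (nat_lit 0) (p (nat_lit 0x506848402) (nat_lit 0) (p (nat_lit 0x160014) (nat_lit 0) (p (nat_lit 0x50612) (nat_lit 0) (p (nat_lit 0x40592) (nat_lit 0) (p (nat_lit 0x40492) (nat_lit 0) (p (nat_lit 0x30412) (nat_lit 0) (p (nat_lit 0x30212) (nat_lit 0) (p (nat_lit 0x20192) (nat_lit 0) (p (nat_lit 0x20092) (nat_lit 0) (p (nat_lit 0x10012) (nat_lit 0) pn))))))))))))))))))))))))))) :=
  Cl.node (nat_lit 0x20000c) (nat_lit 2) (by decide +kernel) (ClAll.succ (ClAll.succ ClAll.zero n96) s86)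

def n123 : Cl (O (nat_lit 3)) (R (nat_lit 104465))
    (p (nat_lit 0x200004) (nat_lit 0) (p (nat_lit 0xd1) (nat_lit 0) (p (nat_lit 0xc1) (nat_lit 0) (p (nat_lit 0x101) (nat_lit 1) (p (nat_lit 0x119) (nat_lit 0) (p (nat_lit 0xc9) (nat_lit 0) (p (nat_lit 0x89) (nat_lit 1) (p (nat_lit 0x41) (nat_lit 0) (p (nat_lit 0x8a098b090a9a) (nat_lit 0) (p (nat_lit 0x9890a888a1a) (nat_lit 0) (p (nat_lit 0x89088a08079a) (nat_lit 0) (p (nat_lit 0x8880987871a) (nat_lit 0) (p (nat_lit 0x80000800080907088a) (nat_lit 0) (p (nat_lit 0x80000800078886860a) (nat_lit 0) (p (nat_lit 0x8688060782) (nat_lit 0) (p (nat_lit 0x607858702) (nat_lit 0) (p (nat_lit 0x8587050482) (nat_lit 0) (p (nat_lit 0x506848402) (nat_lit 0) (p (nat_lit 0x160014) (nat_lit 0) (p (nat_lit 0x50612) (nat_lit 0) (p (nat_lit 0x40592) (nat_lit 0) (p (nat_lit 0x40492) (nat_lit 0) (p (nat_lit 0x30412) (nat_lit 0) (p (nat_lit 0x30212)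 (nat_lit 0) (p (nat_lit 0x20192) (nat_lit 0) (p (nat_lit 0x20092) (nat_lit 0) (p (nat_lit 0x10012) (nat_lit 0) pn))))))))))))))))))))))))))) :=
  Cl.node (nat_lit 0x20000c) (nat_lit 2) (by decide +kernel) (ClAll.succ (ClAll.succ ClAll.zero n97) s90)

def n124 : Cl (O (nat_lit 3)) (R (nat_lit 104465))
    (p (nat_lit 0x200004) (nat_lit 0) (p (nat_lit 0xd1) (nat_lit 1) (p (nat_lit 0xc1) (nat_lit 0) (p (nat_lit 0x101) (nat_lit 1) (p (nat_lit 0x119) (nat_lit 0) (p (nat_lit 0xc9) (nat_lit 0) (p (nat_lit 0x89) (nat_lit 1) (p (nat_lit 0x41) (nat_lit 0) (p (nat_lit 0x8a098b090a9a) (nat_lit 0) (p (nat_lit 0x9890a888a1a) (nat_lit 0) (p (nat_lit 0x89088a08079a) (nat_lit 0) (p (nat_lit 0x8880987871a) (nat_lit 0) (p (nat_lit 0x80000800080907088a) (nat_lit 0) (p (nat_lit 0x80000800078886860a) (nat_lit 0) (p (nat_lit 0x8688060782) (nat_lit 0) (p (nat_lit 0x607858702) (nat_lit 0) (p (nat_lit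 0x8587050482) (nat_lit 0) (p (nat_lit 0x506848402) (nat_lit 0) (p (nat_lit 0x160014) (nat_lit 0) (p (nat_lit 0x50612) (nat_lit 0) (p (nat_lit 0x40592) (nat_lit 0) (p (nat_lit 0x40492) (nat_lit 0) (p (nat_lit 0x30412) (nat_lit 0) (p (nat_lit 0x30212) (nat_lit 0) (p (nat_lit 0x20192) (nat_lit 0) (p (nat_lit 0x20092) (nat_lit 0) (p (nat_lit 0x10012) (nat_lit 0) pn))))))))))))))))))))))))))) :=
  Cl.node (nat_lit 0x20000c) (nat_lit 2) (by decide +kernel) (ClAll.succ (ClAll.succ ClAll.zero n98) s100)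

def n125 : Cl (O (nat_lit 3)) (R (nat_lit 104465))
    (p (nat_lit 0x200004) (nat_lit 0) (p (nat_lit 0x111) (nat_lit 1) (p (nat_lit 0xd1) (nat_lit 1) (p (nat_lit 0xc1) (nat_lit 0) (p (nat_lit 0x119) (nat_lit 1) (p (nat_lit 0xc9) (nat_lit 0) (p (nat_lit 0x89) (nat_lit 1) (p (nat_lit 0x41) (nat_lit 0) (p (nat_lit 0x8a098b090a9a) (nat_lit 0) (p (nat_lit 0x9890a888a1a) (nat_lit 0) (p (nat_lit 0x89088a08079a) (nat_lit 0) (p (nat_lit 0x8880987871a) (nat_lit 0) (p (nat_lit 0x80000800080907088a) (nat_lit 0) (p (nat_lit 0x80000800078886860a) (nat_lit 0) (p (nat_lit 0x8688060782) (nat_lit 0) (p (nat_lit 0x607858702) (nat_lit 0) (p (nat_lit 0x8587050482) (nat_lit 0) (p (nat_lit 0x506848402) (nat_lit 0) (p (nat_lit 0x160014) (nat_lit 0) (p (nat_lit 0x50612) (nat_lit 0) (p (nat_lit 0x40592) (nat_lit 0) (p (nat_lit 0x40492) (nat_lit 0) (p (nat_lit 0x30412) (nat_lit 0) (p (nat_lit 0x30212)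 (nat_lit 0) (p (nat_lit 0x20192) (nat_lit 0) (p (nat_lit 0x20092) (nat_lit 0) (p (nat_lit 0x10012) (nat_lit 0) pn))))))))))))))))))))))))))) :=
  Cl.node (nat_lit 0x20000c) (nat_lit 2) (by decide +kernel) (ClAll.succ (ClAll.succ ClAll.zero n99) s109)

def n126 : Cl (O (nat_lit 3)) (R (nat_lit 104465))
    (p (nat_lit 0x200004) (nat_lit 0) (p (nat_lit 0x111) (nat_lit 1) (p (nat_lit 0x101) (nat_lit 0) (p (nat_lit 0xc1) (nat_lit 1) (p (nat_lit 0x119) (nat_lit 1) (p (nat_lit 0xc9) (nat_lit 0) (p (nat_lit 0x89) (nat_lit 1) (p (nat_lit 0x41) (nat_lit 0) (p (nat_lit 0x8a098b090a9a) (nat_lit 0) (p (nat_lit 0x9890a888a1a) (nat_lit 0) (p (nat_lit 0x89088a08079a) (nat_lit 0) (p (nat_lit 0x8880987871a) (nat_lit 0) (p (nat_lit 0x80000800080907088a) (nat_lit 0) (p (nat_lit 0x80000800078886860a) (nat_lit 0) (p (nat_lit 0x8688060782) (nat_lit 0) (p (nat_lit 0x607858702) (nat_lit 0) (p (nat_lit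 0x8587050482) (nat_lit 0) (p (nat_lit 0x506848402) (nat_lit 0) (p (nat_lit 0x160014) (nat_lit 0) (p (nat_lit 0x50612) (nat_lit 0) (p (nat_lit 0x40592) (nat_lit 0) (p (nat_lit 0x40492) (nat_lit 0) (p (nat_lit 0x30412) (nat_lit 0) (p (nat_lit 0x30212) (nat_lit 0) (p (nat_lit 0x20192) (nat_lit 0) (p (nat_lit 0x20092) (nat_lit 0) (p (nat_lit 0x10012) (nat_lit 0) pn))))))))))))))))))))))))))) :=
  Cl.node (nat_lit 0x20000c) (nat_lit 2) (by decide +kernel) (ClAll.succ (ClAll.succ ClAll.zero n100) s119)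

def n127 : Cl (O (nat_lit 3)) (R (nat_lit 104465))
    (p (nat_lit 0x200004) (nat_lit 0) (p (nat_lit 0x119) (nat_lit 1) (p (nat_lit 0x111) (nat_lit 0) (p (nat_lit 0x101) (nat_lit 0) (p (nat_lit 0x109) (nat_lit 0) (p (nat_lit 0xc9) (nat_lit 1) (p (nat_lit 0x89) (nat_lit 1) (p (nat_lit 0x41) (nat_lit 0) (p (nat_lit 0x8a098b090a9a) (nat_lit 0) (p (nat_lit 0x9890a888a1a) (nat_lit 0) (p (nat_lit 0x89088a08079a) (nat_lit 0) (p (nat_lit 0x8880987871a) (nat_lit 0) (p (nat_lit 0x80000800080907088a) (nat_lit 0) (p (nat_lit 0x80000800078886860a) (nat_lit 0) (p (nat_lit 0x8688060782) (nat_lit 0) (p (nat_lit 0x607858702) (nat_lit 0) (p (nat_lit 0x8587050482) (nat_lit 0) (p (nat_lit 0x506848402) (nat_lit 0) (p (nat_lit 0x160014) (nat_lit 0) (p (nat_lit 0x50612) (nat_lit 0) (p (nat_lit 0x40592) (nat_lit 0) (p (nat_lit 0x40492) (nat_lit 0) (p (nat_lit 0x30412) (nat_lit 0) (p (nat_lit 0x30212)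 (nat_lit 0) (p (nat_lit 0x20192) (nat_lit 0) (p (nat_lit 0x20092) (nat_lit 0) (p (nat_lit 0x10012) (nat_lit 0) pn))))))))))))))))))))))))))) :=
  Cl.node (nat_lit 0x20000c) (nat_lit 2) (by decide +kernel) (ClAll.succ (ClAll.succ ClAll.zero n101) s128)

def n128 : Cl (O (nat_lit 3)) (R (nat_lit 104465))
    (p (nat_lit 0x200004) (nat_lit 0) (p (nat_lit 0x89) (nat_lit 0) (p (nat_lit 0x109) (nat_lit 1) (p (nat_lit 0x101) (nat_lit 0) (p (nat_lit 0x119) (nat_lit 0) (p (nat_lit 0xd1) (nat_lit 0) (p (nat_lit 0x81) (nat_lit 0) (p (nat_lit 0x41) (nat_lit 1) (p (nat_lit 0x8a098b090a9a) (nat_lit 0) (p (nat_lit 0x9890a888a1a) (nat_lit 0) (p (nat_lit 0x89088a08079a) (nat_lit 0) (p (nat_lit 0x8880987871a) (nat_lit 0) (p (nat_lit 0x80000800080907088a) (nat_lit 0) (p (nat_lit 0x80000800078886860a) (nat_lit 0) (p (nat_lit 0x8688060782) (nat_lit 0) (p (nat_lit 0x607858702) (nat_lit 0) (p (nat_lit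 0x8587050482) (nat_lit 0) (p (nat_lit 0x506848402) (nat_lit 0) (p (nat_lit 0x160014) (nat_lit 0) (p (nat_lit 0x50612) (nat_lit 0) (p (nat_lit 0x40592) (nat_lit 0) (p (nat_lit 0x40492) (nat_lit 0) (p (nat_lit 0x30412) (nat_lit 0) (p (nat_lit 0x30212) (nat_lit 0) (p (nat_lit 0x20192) (nat_lit 0) (p (nat_lit 0x20092) (nat_lit 0) (p (nat_lit 0x10012) (nat_lit 0) pn))))))))))))))))))))))))))) :=
  Cl.node (nat_lit 0x20000c) (nat_lit 2) (by decide +kernel) (ClAll.succ (ClAll.succ ClAll.zero s134) s135)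

def n129 : Cl (O (nat_lit 3)) (R (nat_lit 104465))
    (p (nat_lit 0xc9) (nat_lit 1) (p (nat_lit 0x89) (nat_lit 1) (p (nat_lit 0xc1) (nat_lit 0) (p (nat_lit 0x101) (nat_lit 1) (p (nat_lit 0x119) (nat_lit 0) (p (nat_lit 0xd1) (nat_lit 0) (p (nat_lit 0x81) (nat_lit 0) (p (nat_lit 0x41) (nat_lit 1) (p (nat_lit 0x8a098b090a9a) (nat_lit 0) (p (nat_lit 0x9890a888a1a) (nat_lit 0) (p (nat_lit 0x89088a08079a) (nat_lit 0) (p (nat_lit 0x8880987871a) (nat_lit 0) (p (nat_lit 0x80000800080907088a) (nat_lit 0) (p (nat_lit 0x80000800078886860a) (nat_lit 0) (p (nat_lit 0x8688060782) (nat_lit 0) (p (nat_lit 0x607858702) (nat_lit 0) (p (nat_lit 0x8587050482) (nat_lit 0) (p (nat_lit 0x506848402) (nat_lit 0) (p (nat_lit 0x160014) (nat_lit 0) (p (nat_lit 0x50612) (nat_lit 0) (p (nat_lit 0x40592) (nat_lit 0) (p (nat_lit 0x40492) (nat_lit 0) (p (nat_lit 0x30412) (nat_lit 0) (p (nat_lit 0x30212)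 (nat_lit 0) (p (nat_lit 0x20192) (nat_lit 0) (p (nat_lit 0x20092) (nat_lit 0) (p (nat_lit 0x10012) (nat_lit 0) pn))))))))))))))))))))))))))) :=
  Cl.node (nat_lit 0x200004) (nat_lit 2) (by decide +kernel) (ClAll.succ (ClAll.succ ClAll.zero n102) s144)

def n130 : Cl (O (nat_lit 3)) (R (nat_lit 104465))
    (p (nat_lit 0x200004) (nat_lit 0) (p (nat_lit 0x89) (nat_lit 1) (p (nat_lit 0xc1) (nat_lit 1) (p (nat_lit 0x101) (nat_lit 1) (p (nat_lit 0x119) (nat_lit 0) (p (nat_lit 0xd1) (nat_lit 0) (p (nat_lit 0x81) (nat_lit 0) (p (nat_lit 0x41) (nat_lit 1) (p (nat_lit 0x8a098b090a9a) (nat_lit 0) (p (nat_lit 0x9890a888a1a) (nat_lit 0) (p (nat_lit 0x89088a08079a) (nat_lit 0) (p (nat_lit 0x8880987871a) (nat_lit 0) (p (nat_lit 0x80000800080907088a) (nat_lit 0) (p (nat_lit 0x80000800078886860a) (nat_lit 0) (p (nat_lit 0x8688060782) (nat_lit 0) (p (nat_lit 0x607858702) (nat_lit 0) (p (nat_lit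 0x8587050482) (nat_lit 0) (p (nat_lit 0x506848402) (nat_lit 0) (p (nat_lit 0x160014) (nat_lit 0) (p (nat_lit 0x50612) (nat_lit 0) (p (nat_lit 0x40592) (nat_lit 0) (p (nat_lit 0x40492) (nat_lit 0) (p (nat_lit 0x30412) (nat_lit 0) (p (nat_lit 0x30212) (nat_lit 0) (p (nat_lit 0x20192) (nat_lit 0) (p (nat_lit 0x20092) (nat_lit 0) (p (nat_lit 0x10012) (nat_lit 0) pn))))))))))))))))))))))))))) :=
  Cl.node (nat_lit 0x20000c) (nat_lit 2) (by decide +kernel) (ClAll.succ (ClAll.succ ClAll.zero n103) s152)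

def n131 : Cl (O (nat_lit 3)) (R (nat_lit 104465))
    (p (nat_lit 0x200004) (nat_lit 1) (p (nat_lit 0x89) (nat_lit 1) (p (nat_lit 0xc1) (nat_lit 1) (p (nat_lit 0x101) (nat_lit 1) (p (nat_lit 0x119) (nat_lit 0) (p (nat_lit 0xd1) (nat_lit 0) (p (nat_lit 0x81) (nat_lit 0) (p (nat_lit 0x41) (nat_lit 1) (p (nat_lit 0x8a098b090a9a) (nat_lit 0) (p (nat_lit 0x9890a888a1a) (nat_lit 0) (p (nat_lit 0x89088a08079a) (nat_lit 0) (p (nat_lit 0x8880987871a) (nat_lit 0) (p (nat_lit 0x80000800080907088a) (nat_lit 0) (p (nat_lit 0x80000800078886860a) (nat_lit 0) (p (nat_lit 0x8688060782) (nat_lit 0) (p (nat_lit 0x607858702) (nat_lit 0) (p (nat_lit 0x8587050482) (nat_lit 0) (p (nat_lit 0x506848402) (nat_lit 0) (p (nat_lit 0x160014) (nat_lit 0) (p (nat_lit 0x50612) (nat_lit 0) (p (nat_lit 0x40592) (nat_lit 0) (p (nat_lit 0x40492) (nat_lit 0) (p (nat_lit 0x30412) (nat_lit 0) (p (nat_lit 0x30212)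 (nat_lit 0) (p (nat_lit 0x20192) (nat_lit 0) (p (nat_lit 0x20092) (nat_lit 0) (p (nat_lit 0x10012) (nat_lit 0) pn))))))))))))))))))))))))))) :=
  Cl.node (nat_lit 0xb0014) (nat_lit 2) (by decide +kernel) (ClAll.succ (ClAll.succ ClAll.zero n104) s155)

def n132 : Cl (O (nat_lit 3)) (R (nat_lit 104465))
    (p (nat_lit 0x109) (nat_lit 1) (p (nat_lit 0x89) (nat_lit 1) (p (nat_lit 0x101) (nat_lit 0) (p (nat_lit 0xc1) (nat_lit 1) (p (nat_lit 0x119) (nat_lit 1) (p (nat_lit 0xd1) (nat_lit 0) (p (nat_lit 0x81) (nat_lit 0) (p (nat_lit 0x41) (nat_lit 1) (p (nat_lit 0x8a098b090a9a) (nat_lit 0) (p (nat_lit 0x9890a888a1a) (nat_lit 0) (p (nat_lit 0x89088a08079a) (nat_lit 0) (p (nat_lit 0x8880987871a) (nat_lit 0) (p (nat_lit 0x80000800080907088a) (nat_lit 0) (p (nat_lit 0x80000800078886860a) (nat_lit 0) (p (nat_lit 0x8688060782) (nat_lit 0) (p (nat_lit 0x607858702) (nat_lit 0) (p (nat_lit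 0x8587050482) (nat_lit 0) (p (nat_lit 0x506848402) (nat_lit 0) (p (nat_lit 0x160014) (nat_lit 0) (p (nat_lit 0x50612) (nat_lit 0) (p (nat_lit 0x40592) (nat_lit 0) (p (nat_lit 0x40492) (nat_lit 0) (p (nat_lit 0x30412) (nat_lit 0) (p (nat_lit 0x30212) (nat_lit 0) (p (nat_lit 0x20192) (nat_lit 0) (p (nat_lit 0x20092) (nat_lit 0) (p (nat_lit 0x10012) (nat_lit 0) pn))))))))))))))))))))))))))) :=
  Cl.node (nat_lit 0x200004) (nat_lit 2) (by decide +kernel) (ClAll.succ (ClAll.succ ClAll.zero s162) s163)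

def n133 : Cl (O (nat_lit 3)) (R (nat_lit 104465))
    (p (nat_lit 0x200004) (nat_lit 0) (p (nat_lit 0x89) (nat_lit 1) (p (nat_lit 0x101) (nat_lit 1) (p (nat_lit 0xc1) (nat_lit 1) (p (nat_lit 0x119) (nat_lit 1) (p (nat_lit 0xd1) (nat_lit 0) (p (nat_lit 0x81) (nat_lit 0) (p (nat_lit 0x41) (nat_lit 1) (p (nat_lit 0x8a098b090a9a) (nat_lit 0) (p (nat_lit 0x9890a888a1a) (nat_lit 0) (p (nat_lit 0x89088a08079a) (nat_lit 0) (p (nat_lit 0x8880987871a) (nat_lit 0) (p (nat_lit 0x80000800080907088a) (nat_lit 0) (p (nat_lit 0x80000800078886860a) (nat_lit 0) (p (nat_lit 0x8688060782) (nat_lit 0) (p (nat_lit 0x607858702) (nat_lit 0) (p (nat_lit 0x8587050482) (nat_lit 0) (p (nat_lit 0x506848402) (nat_lit 0) (p (nat_lit 0x160014) (nat_lit 0) (p (nat_lit 0x50612) (nat_lit 0) (p (nat_lit 0x40592) (nat_lit 0) (p (nat_lit 0x40492) (nat_lit 0) (p (nat_lit 0x30412) (nat_lit 0) (p (nat_lit 0x30212)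 (nat_lit 0) (p (nat_lit 0x20192) (nat_lit 0) (p (nat_lit 0x20092) (nat_lit 0) (p (nat_lit 0x10012) (nat_lit 0) pn))))))))))))))))))))))))))) :=
  Cl.node (nat_lit 0x20000c) (nat_lit 2) (by decide +kernel) (ClAll.succ (ClAll.succ ClAll.zero n105) s168)

def n134 : Cl (O (nat_lit 3)) (R (nat_lit 104465))
    (p (nat_lit 0xc9) (nat_lit 0) (p (nat_lit 0x89) (nat_lit 1) (p (nat_lit 0x109) (nat_lit 1) (p (nat_lit 0x101) (nat_lit 0) (p (nat_lit 0x111) (nat_lit 0) (p (nat_lit 0xd1) (nat_lit 1) (p (nat_lit 0x81) (nat_lit 0) (p (nat_lit 0x41) (nat_lit 1) (p (nat_lit 0x8a098b090a9a) (nat_lit 0) (p (nat_lit 0x9890a888a1a) (nat_lit 0) (p (nat_lit 0x89088a08079a) (nat_lit 0) (p (nat_lit 0x8880987871a) (nat_lit 0) (p (nat_lit 0x80000800080907088a) (nat_lit 0) (p (nat_lit 0x80000800078886860a) (nat_lit 0) (p (nat_lit 0x8688060782) (nat_lit 0) (p (nat_lit 0x607858702) (nat_lit 0) (p (nat_lit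 0x8587050482) (nat_lit 0) (p (nat_lit 0x506848402) (nat_lit 0) (p (nat_lit 0x160014) (nat_lit 0) (p (nat_lit 0x50612) (nat_lit 0) (p (nat_lit 0x40592) (nat_lit 0) (p (nat_lit 0x40492) (nat_lit 0) (p (nat_lit 0x30412) (nat_lit 0) (p (nat_lit 0x30212) (nat_lit 0) (p (nat_lit 0x20192) (nat_lit 0) (p (nat_lit 0x20092) (nat_lit 0) (p (nat_lit 0x10012) (nat_lit 0) pn))))))))))))))))))))))))))) :=
  Cl.node (nat_lit 0x200004) (nat_lit 2) (by decide +kernel) (ClAll.succ (ClAll.succ ClAll.zero n106) s177)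

def n135 : Cl (O (nat_lit 3)) (R (nat_lit 104465))
    (p (nat_lit 0x20000c) (nat_lit 0) (p (nat_lit 0x200004) (nat_lit 0) (p (nat_lit 0x89) (nat_lit 0) (p (nat_lit 0x101) (nat_lit 1) (p (nat_lit 0x111) (nat_lit 0) (p (nat_lit 0xd1) (nat_lit 1) (p (nat_lit 0x81) (nat_lit 0) (p (nat_lit 0x41) (nat_lit 1) (p (nat_lit 0x8a098b090a9a) (nat_lit 0) (p (nat_lit 0x9890a888a1a) (nat_lit 0) (p (nat_lit 0x89088a08079a) (nat_lit 0) (p (nat_lit 0x8880987871a) (nat_lit 0) (p (nat_lit 0x80000800080907088a) (nat_lit 0) (p (nat_lit 0x80000800078886860a) (nat_lit 0) (p (nat_lit 0x8688060782) (nat_lit 0) (p (nat_lit 0x607858702) (nat_lit 0) (p (nat_lit 0x8587050482) (nat_lit 0) (p (nat_lit 0x506848402) (nat_lit 0) (p (nat_lit 0x160014) (nat_lit 0) (p (nat_lit 0x50612) (nat_lit 0) (p (nat_lit 0x40592) (nat_lit 0) (p (nat_lit 0x40492) (nat_lit 0) (p (nat_lit 0x30412) (nat_lit 0) (p (nat_lit 0x30212)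 (nat_lit 0) (p (nat_lit 0x20192) (nat_lit 0) (p (nat_lit 0x20092) (nat_lit 0) (p (nat_lit 0x10012) (nat_lit 0) pn))))))))))))))))))))))))))) :=
  Cl.node (nat_lit 0xb0014) (nat_lit 2) (by decide +kernel) (ClAll.succ (ClAll.succ ClAll.zero s179) s180)

def n136 : Cl (O (nat_lit 3)) (R (nat_lit 104465))
    (p (nat_lit 0x200004) (nat_lit 0) (p (nat_lit 0xc9) (nat_lit 0) (p (nat_lit 0x89) (nat_lit 1) (p (nat_lit 0x101) (nat_lit 1) (p (nat_lit 0x111) (nat_lit 0) (p (nat_lit 0xd1) (nat_lit 1) (p (nat_lit 0x81) (nat_lit 0) (p (nat_lit 0x41) (nat_lit 1) (p (nat_lit 0x8a098b090a9a) (nat_lit 0) (p (nat_lit 0x9890a888a1a) (nat_lit 0) (p (nat_lit 0x89088a08079a) (nat_lit 0) (p (nat_lit 0x8880987871a) (nat_lit 0) (p (nat_lit 0x80000800080907088a) (nat_lit 0) (p (nat_lit 0x80000800078886860a) (nat_lit 0) (p (nat_lit 0x8688060782) (nat_lit 0) (p (nat_lit 0x607858702) (nat_lit 0) (p (nat_lit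 0x8587050482) (nat_lit 0) (p (nat_lit 0x506848402) (nat_lit 0) (p (nat_lit 0x160014) (nat_lit 0) (p (nat_lit 0x50612) (nat_lit 0) (p (nat_lit 0x40592) (nat_lit 0) (p (nat_lit 0x40492) (nat_lit 0) (p (nat_lit 0x30412) (nat_lit 0) (p (nat_lit 0x30212) (nat_lit 0) (p (nat_lit 0x20192) (nat_lit 0) (p (nat_lit 0x20092) (nat_lit 0) (p (nat_lit 0x10012) (nat_lit 0) pn))))))))))))))))))))))))))) :=
  Cl.node (nat_lit 0x20000c) (nat_lit 2) (by decide +kernel) (ClAll.succ (ClAll.succ ClAll.zero n107) s192)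

def n137 : Cl (O (nat_lit 3)) (R (nat_lit 104465))
    (p (nat_lit 0x200004) (nat_lit 1) (p (nat_lit 0xc9) (nat_lit 0) (p (nat_lit 0x89) (nat_lit 1) (p (nat_lit 0x101) (nat_lit 1) (p (nat_lit 0x111) (nat_lit 0) (p (nat_lit 0xd1) (nat_lit 1) (p (nat_lit 0x81) (nat_lit 0) (p (nat_lit 0x41) (nat_lit 1) (p (nat_lit 0x8a098b090a9a) (nat_lit 0) (p (nat_lit 0x9890a888a1a) (nat_lit 0) (p (nat_lit 0x89088a08079a) (nat_lit 0) (p (nat_lit 0x8880987871a) (nat_lit 0) (p (nat_lit 0x80000800080907088a) (nat_lit 0) (p (nat_lit 0x80000800078886860a) (nat_lit 0) (p (nat_lit 0x8688060782) (nat_lit 0) (p (nat_lit 0x607858702) (nat_lit 0) (p (nat_lit 0x8587050482) (nat_lit 0) (p (nat_lit 0x506848402) (nat_lit 0) (p (nat_lit 0x160014) (nat_lit 0) (p (nat_lit 0x50612) (nat_lit 0) (p (nat_lit 0x40592) (nat_lit 0) (p (nat_lit 0x40492) (nat_lit 0) (p (nat_lit 0x30412) (nat_lit 0) (p (nat_lit 0x30212)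 (nat_lit 0) (p (nat_lit 0x20192) (nat_lit 0) (p (nat_lit 0x20092) (nat_lit 0) (p (nat_lit 0x10012) (nat_lit 0) pn))))))))))))))))))))))))))) :=
  Cl.node (nat_lit 0xb0014) (nat_lit 2) (by decide +kernel) (ClAll.succ (ClAll.succ ClAll.zero n108) s195)

def n138 : Cl (O (nat_lit 3)) (R (nat_lit 104465))
    (p (nat_lit 0x200004) (nat_lit 0) (p (nat_lit 0x109) (nat_lit 0) (p (nat_lit 0xc9) (nat_lit 1) (p (nat_lit 0x89) (nat_lit 1) (p (nat_lit 0x111) (nat_lit 1) (p (nat_lit 0xd1) (nat_lit 1) (p (nat_lit 0x81) (nat_lit 0) (p (nat_lit 0x41) (nat_lit 1) (p (nat_lit 0x8a098b090a9a) (nat_lit 0) (p (nat_lit 0x9890a888a1a) (nat_lit 0) (p (nat_lit 0x89088a08079a) (nat_lit 0) (p (nat_lit 0x8880987871a) (nat_lit 0) (p (nat_lit 0x80000800080907088a) (nat_lit 0) (p (nat_lit 0x80000800078886860a) (nat_lit 0) (p (nat_lit 0x8688060782) (nat_lit 0) (p (nat_lit 0x607858702) (nat_lit 0) (p (nat_lit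 0x8587050482) (nat_lit 0) (p (nat_lit 0x506848402) (nat_lit 0) (p (nat_lit 0x160014) (nat_lit 0) (p (nat_lit 0x50612) (nat_lit 0) (p (nat_lit 0x40592) (nat_lit 0) (p (nat_lit 0x40492) (nat_lit 0) (p (nat_lit 0x30412) (nat_lit 0) (p (nat_lit 0x30212) (nat_lit 0) (p (nat_lit 0x20192) (nat_lit 0) (p (nat_lit 0x20092) (nat_lit 0) (p (nat_lit 0x10012) (nat_lit 0) pn))))))))))))))))))))))))))) :=
  Cl.node (nat_lit 0x20000c) (nat_lit 2) (by decide +kernel) (ClAll.succ (ClAll.succ ClAll.zero n109) s201)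

def n139 : Cl (O (nat_lit 3)) (R (nat_lit 104465))
    (p (nat_lit 0xd1) (nat_lit 1) (p (nat_lit 0x111) (nat_lit 1) (p (nat_lit 0x109) (nat_lit 0) (p (nat_lit 0x101) (nat_lit 0) (p (nat_lit 0x119) (nat_lit 0) (p (nat_lit 0xc1) (nat_lit 0) (p (nat_lit 0x81) (nat_lit 1) (p (nat_lit 0x41) (nat_lit 1) (p (nat_lit 0x8a098b090a9a) (nat_lit 0) (p (nat_lit 0x9890a888a1a) (nat_lit 0) (p (nat_lit 0x89088a08079a) (nat_lit 0) (p (nat_lit 0x8880987871a) (nat_lit 0) (p (nat_lit 0x80000800080907088a) (nat_lit 0) (p (nat_lit 0x80000800078886860a) (nat_lit 0) (p (nat_lit 0x8688060782) (nat_lit 0) (p (nat_lit 0x607858702) (nat_lit 0) (p (nat_lit 0x8587050482) (nat_lit 0) (p (nat_lit 0x506848402) (nat_lit 0) (p (nat_lit 0x160014) (nat_lit 0) (p (nat_lit 0x50612) (nat_lit 0) (p (nat_lit 0x40592) (nat_lit 0) (p (nat_lit 0x40492) (nat_lit 0) (p (nat_lit 0x30412) (nat_lit 0) (p (nat_lit 0x30212)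 (nat_lit 0) (p (nat_lit 0x20192) (nat_lit 0) (p (nat_lit 0x20092) (nat_lit 0) (p (nat_lit 0x10012) (nat_lit 0) pn))))))))))))))))))))))))))) :=
  Cl.node (nat_lit 0x200004) (nat_lit 2) (by decide +kernel) (ClAll.succ (ClAll.succ ClAll.zero s206) s207)

def n140 : Cl (O (nat_lit 3)) (R (nat_lit 104465))
    (p (nat_lit 0x200004) (nat_lit 0) (p (nat_lit 0xd1) (nat_lit 1) (p (nat_lit 0xc9) (nat_lit 0) (p (nat_lit 0x101) (nat_lit 1) (p (nat_lit 0x119) (nat_lit 0) (p (nat_lit 0xc1) (nat_lit 0) (p (nat_lit 0x81) (nat_lit 1) (p (nat_lit 0x41) (nat_lit 1) (p (nat_lit 0x8a098b090a9a) (nat_lit 0) (p (nat_lit 0x9890a888a1a) (nat_lit 0) (p (nat_lit 0x89088a08079a) (nat_lit 0) (p (nat_lit 0x8880987871a) (nat_lit 0) (p (nat_lit 0x80000800080907088a) (nat_lit 0) (p (nat_lit 0x80000800078886860a) (nat_lit 0) (p (nat_lit 0x8688060782) (nat_lit 0) (p (nat_lit 0x607858702) (nat_lit 0) (p (nat_lit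 0x8587050482) (nat_lit 0) (p (nat_lit 0x506848402) (nat_lit 0) (p (nat_lit 0x160014) (nat_lit 0) (p (nat_lit 0x50612) (nat_lit 0) (p (nat_lit 0x40592) (nat_lit 0) (p (nat_lit 0x40492) (nat_lit 0) (p (nat_lit 0x30412) (nat_lit 0) (p (nat_lit 0x30212) (nat_lit 0) (p (nat_lit 0x20192) (nat_lit 0) (p (nat_lit 0x20092) (nat_lit 0) (p (nat_lit 0x10012) (nat_lit 0) pn))))))))))))))))))))))))))) :=
  Cl.node (nat_lit 0x20000c) (nat_lit 2) (by decide +kernel) (ClAll.succ (ClAll.succ ClAll.zero n110) s214)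

def n141 : Cl (O (nat_lit 3)) (R (nat_lit 104465))
    (p (nat_lit 0x200004) (nat_lit 0) (p (nat_lit 0x111) (nat_lit 1) (p (nat_lit 0x109) (nat_lit 0) (p (nat_lit 0xc9) (nat_lit 1) (p (nat_lit 0x119) (nat_lit 1) (p (nat_lit 0xc1) (nat_lit 0) (p (nat_lit 0x81) (nat_lit 1) (p (nat_lit 0x41) (nat_lit 1) (p (nat_lit 0x8a098b090a9a) (nat_lit 0) (p (nat_lit 0x9890a888a1a) (nat_lit 0) (p (nat_lit 0x89088a08079a) (nat_lit 0) (p (nat_lit 0x8880987871a) (nat_lit 0) (p (nat_lit 0x80000800080907088a) (nat_lit 0) (p (nat_lit 0x80000800078886860a) (nat_lit 0) (p (nat_lit 0x8688060782) (nat_lit 0) (p (nat_lit 0x607858702) (nat_lit 0) (p (nat_lit 0x8587050482) (nat_lit 0) (p (nat_lit 0x506848402) (nat_lit 0) (p (nat_lit 0x160014) (nat_lit 0) (p (nat_lit 0x50612) (nat_lit 0) (p (nat_lit 0x40592) (nat_lit 0) (p (nat_lit 0x40492) (nat_lit 0) (p (nat_lit 0x30412) (nat_lit 0) (p (nat_lit 0x30212)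 (nat_lit 0) (p (nat_lit 0x20192) (nat_lit 0) (p (nat_lit 0x20092) (nat_lit 0) (p (nat_lit 0x10012) (nat_lit 0) pn))))))))))))))))))))))))))) :=
  Cl.node (nat_lit 0x20000c) (nat_lit 2) (by decide +kernel) (ClAll.succ (ClAll.succ ClAll.zero n111) s221)

def n142 : Cl (O (nat_lit 3)) (R (nat_lit 104465))
    (p (nat_lit 0xc9) (nat_lit 1) (p (nat_lit 0x109) (nat_lit 1) (p (nat_lit 0x101) (nat_lit 0) (p (nat_lit 0x119) (nat_lit 0) (p (nat_lit 0xd1) (nat_lit 0) (p (nat_lit 0x89) (nat_lit 0) (p (nat_lit 0x41) (nat_lit 0) (p (nat_lit 0x8a098b090a9a) (nat_lit 0) (p (nat_lit 0x9890a888a1a) (nat_lit 0) (p (nat_lit 0x89088a08079a) (nat_lit 0) (p (nat_lit 0x8880987871a) (nat_lit 0) (p (nat_lit 0x80000800080907088a) (nat_lit 0) (p (nat_lit 0x80000800078886860a) (nat_lit 0) (p (nat_lit 0x8688060782) (nat_lit 0) (p (nat_lit 0x607858702) (nat_lit 0) (p (nat_lit 0x8587050482) (nat_lit 0) (p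 (nat_lit 0x506848402) (nat_lit 0) (p (nat_lit 0x160014) (nat_lit 0) (p (nat_lit 0x50612) (nat_lit 0) (p (nat_lit 0x40592) (nat_lit 0) (p (nat_lit 0x40492) (nat_lit 0) (p (nat_lit 0x30412) (nat_lit 0) (p (nat_lit 0x30212) (nat_lit 0) (p (nat_lit 0x20192) (nat_lit 0) (p (nat_lit 0x20092) (nat_lit 0) (p (nat_lit 0x10012) (nat_lit 0) pn)))))))))))))))))))))))))) :=
  Cl.node (nat_lit 0x200004) (nat_lit 2) (by decide +kernel) (ClAll.succ (ClAll.succ ClAll.zero n112) s6)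

def n143 : Cl (O (nat_lit 3)) (R (nat_lit 104465))
    (p (nat_lit 0xc9) (nat_lit 1) (p (nat_lit 0x81) (nat_lit 0) (p (nat_lit 0x101) (nat_lit 1) (p (nat_lit 0x119) (nat_lit 0) (p (nat_lit 0xd1) (nat_lit 0) (p (nat_lit 0x89) (nat_lit 0) (p (nat_lit 0x41) (nat_lit 0) (p (nat_lit 0x8a098b090a9a) (nat_lit 0) (p (nat_lit 0x9890a888a1a) (nat_lit 0) (p (nat_lit 0x89088a08079a) (nat_lit 0) (p (nat_lit 0x8880987871a) (nat_lit 0) (p (nat_lit 0x80000800080907088a) (nat_lit 0) (p (nat_lit 0x80000800078886860a) (nat_lit 0) (p (nat_lit 0x8688060782) (nat_lit 0) (p (nat_lit 0x607858702) (nat_lit 0) (p (nat_lit 0x8587050482) (nat_lit 0) (p (nat_lit 0x506848402) (nat_lit 0) (p (nat_lit 0x160014) (nat_lit 0) (p (nat_lit 0x50612) (nat_lit 0) (p (nat_lit 0x40592) (nat_lit 0) (p (nat_lit 0x40492) (nat_lit 0) (p (nat_lit 0x30412) (nat_lit 0) (p (nat_lit 0x30212) (nat_lit 0) (p (nat_lit 0x20192)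 (nat_lit 0) (p (nat_lit 0x20092) (nat_lit 0) (p (nat_lit 0x10012) (nat_lit 0) pn)))))))))))))))))))))))))) :=
  Cl.node (nat_lit 0x200004) (nat_lit 2) (by decide +kernel) (ClAll.succ (ClAll.succ ClAll.zero n113) s14)

def n144 : Cl (O (nat_lit 3)) (R (nat_lit 104465))
    (p (nat_lit 0xc1) (nat_lit 0) (p (nat_lit 0x81) (nat_lit 1) (p (nat_lit 0x101) (nat_lit 1) (p (nat_lit 0x119) (nat_lit 0) (p (nat_lit 0xd1) (nat_lit 0) (p (nat_lit 0x89) (nat_lit 0) (p (nat_lit 0x41) (nat_lit 0) (p (nat_lit 0x8a098b090a9a) (nat_lit 0) (p (nat_lit 0x9890a888a1a) (nat_lit 0) (p (nat_lit 0x89088a08079a) (nat_lit 0) (p (nat_lit 0x8880987871a) (nat_lit 0) (p (nat_lit 0x80000800080907088a) (nat_lit 0) (p (nat_lit 0x80000800078886860a) (nat_lit 0) (p (nat_lit 0x8688060782) (nat_lit 0) (p (nat_lit 0x607858702) (nat_lit 0) (p (nat_lit 0x8587050482) (nat_lit 0) (p (nat_lit 0x506848402) (nat_lit 0)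 (p (nat_lit 0x160014) (nat_lit 0) (p (nat_lit 0x50612) (nat_lit 0) (p (nat_lit 0x40592) (nat_lit 0) (p (nat_lit 0x40492) (nat_lit 0) (p (nat_lit 0x30412) (nat_lit 0) (p (nat_lit 0x30212) (nat_lit 0) (p (nat_lit 0x20192) (nat_lit 0) (p (nat_lit 0x20092) (nat_lit 0) (p (nat_lit 0x10012) (nat_lit 0) pn)))))))))))))))))))))))))) :=
  Cl.node (nat_lit 0xc9) (nat_lit 2) (by decide +kernel) (ClAll.succ (ClAll.succ ClAll.zero s15) n114)

def n145 : Cl (O (nat_lit 3)) (R (nat_lit 104465))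
    (p (nat_lit 0x109) (nat_lit 1) (p (nat_lit 0xc9) (nat_lit 1) (p (nat_lit 0xc1) (nat_lit 0) (p (nat_lit 0x119) (nat_lit 1) (p (nat_lit 0xd1) (nat_lit 0) (p (nat_lit 0x89) (nat_lit 0) (p (nat_lit 0x41) (nat_lit 0) (p (nat_lit 0x8a098b090a9a) (nat_lit 0) (p (nat_lit 0x9890a888a1a) (nat_lit 0) (p (nat_lit 0x89088a08079a) (nat_lit 0) (p (nat_lit 0x8880987871a) (nat_lit 0) (p (nat_lit 0x80000800080907088a) (nat_lit 0) (p (nat_lit 0x80000800078886860a) (nat_lit 0) (p (nat_lit 0x8688060782) (nat_lit 0) (p (nat_lit 0x607858702) (nat_lit 0) (p (nat_lit 0x8587050482) (nat_lit 0) (p (nat_lit 0x506848402) (nat_lit 0) (p (nat_lit 0x160014) (nat_lit 0) (p (nat_lit 0x50612) (nat_lit 0) (p (nat_lit 0x40592) (nat_lit 0) (p (nat_lit 0x40492) (nat_lit 0) (p (nat_lit 0x30412) (nat_lit 0) (p (nat_lit 0x30212) (nat_lit 0) (p (nat_lit 0x20192) (nat_lit 0) (p (nat_lit 0x20092) (nat_lit 0) (p (nat_lit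 0x10012) (nat_lit 0) pn)))))))))))))))))))))))))) :=
  Cl.node (nat_lit 0x200004) (nat_lit 2) (by decide +kernel) (ClAll.succ (ClAll.succ ClAll.zero s25) s26)

def n146 : Cl (O (nat_lit 3)) (R (nat_lit 104465))
    (p (nat_lit 0x101) (nat_lit 0) (p (nat_lit 0x81) (nat_lit 1) (p (nat_lit 0xc1) (nat_lit 1) (p (nat_lit 0x119) (nat_lit 1) (p (nat_lit 0xd1) (nat_lit 0) (p (nat_lit 0x89) (nat_lit 0) (p (nat_lit 0x41) (nat_lit 0) (p (nat_lit 0x8a098b090a9a) (nat_lit 0) (p (nat_lit 0x9890a888a1a) (nat_lit 0) (p (nat_lit 0x89088a08079a) (nat_lit 0) (p (nat_lit 0x8880987871a) (nat_lit 0) (p (nat_lit 0x80000800080907088a) (nat_lit 0) (p (nat_lit 0x80000800078886860a) (nat_lit 0) (p (nat_lit 0x8688060782) (nat_lit 0) (p (nat_lit 0x607858702) (nat_lit 0) (p (nat_lit 0x8587050482) (nat_lit 0) (p (nat_lit 0x506848402) (nat_lit 0) (p (nat_lit 0x160014) (nat_lit 0) (p (nat_lit 0x50612) (nat_lit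 0) (p (nat_lit 0x40592) (nat_lit 0) (p (nat_lit 0x40492) (nat_lit 0) (p (nat_lit 0x30412) (nat_lit 0) (p (nat_lit 0x30212) (nat_lit 0) (p (nat_lit 0x20192) (nat_lit 0) (p (nat_lit 0x20092) (nat_lit 0) (p (nat_lit 0x10012) (nat_lit 0) pn)))))))))))))))))))))))))) :=
  Cl.node (nat_lit 0x109) (nat_lit 2) (by decide +kernel) (ClAll.succ (ClAll.succ ClAll.zero s29) n115)

def n147 : Cl (O (nat_lit 3)) (R (nat_lit 104465))
    (p (nat_lit 0x200004) (nat_lit 0) (p (nat_lit 0x109) (nat_lit 1) (p (nat_lit 0x101) (nat_lit 0) (p (nat_lit 0x111) (nat_lit 0) (p (nat_lit 0xd1) (nat_lit 1) (p (nat_lit 0x89) (nat_lit 0) (p (nat_lit 0x41) (nat_lit 0) (p (nat_lit 0x8a098b090a9a) (nat_lit 0) (p (nat_lit 0x9890a888a1a) (nat_lit 0) (p (nat_lit 0x89088a08079a) (nat_lit 0) (p (nat_lit 0x8880987871a) (nat_lit 0) (p (nat_lit 0x80000800080907088a) (nat_lit 0) (p (nat_lit 0x80000800078886860a) (nat_lit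 0) (p (nat_lit 0x8688060782) (nat_lit 0) (p (nat_lit 0x607858702) (nat_lit 0) (p (nat_lit 0x8587050482) (nat_lit 0) (p (nat_lit 0x506848402) (nat_lit 0) (p (nat_lit 0x160014) (nat_lit 0) (p (nat_lit 0x50612) (nat_lit 0) (p (nat_lit 0x40592) (nat_lit 0) (p (nat_lit 0x40492) (nat_lit 0) (p (nat_lit 0x30412) (nat_lit 0) (p (nat_lit 0x30212) (nat_lit 0) (p (nat_lit 0x20192) (nat_lit 0) (p (nat_lit 0x20092) (nat_lit 0) (p (nat_lit 0x10012) (nat_lit 0) pn)))))))))))))))))))))))))) :=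
  Cl.node (nat_lit 0x20000c) (nat_lit 2) (by decide +kernel) (ClAll.succ (ClAll.succ ClAll.zero n116) s39)

def n148 : Cl (O (nat_lit 3)) (R (nat_lit 104465))
    (p (nat_lit 0x200004) (nat_lit 0) (p (nat_lit 0x81) (nat_lit 0) (p (nat_lit 0x101) (nat_lit 1) (p (nat_lit 0x111) (nat_lit 0) (p (nat_lit 0xd1) (nat_lit 1) (p (nat_lit 0x89) (nat_lit 0) (p (nat_lit 0x41) (nat_lit 0) (p (nat_lit 0x8a098b090a9a) (nat_lit 0) (p (nat_lit 0x9890a888a1a) (nat_lit 0) (p (nat_lit 0x89088a08079a) (nat_lit 0) (p (nat_lit 0x8880987871a) (nat_lit 0) (p (nat_lit 0x80000800080907088a) (nat_lit 0) (p (nat_lit 0x80000800078886860a) (nat_lit 0) (p (nat_lit 0x8688060782) (nat_lit 0) (p (nat_lit 0x607858702) (nat_lit 0) (p (nat_lit 0x8587050482) (nat_lit 0) (p (nat_lit 0x506848402) (nat_lit 0) (p (nat_lit 0x160014) (nat_lit 0) (p (nat_lit 0x50612) (nat_lit 0) (p (nat_lit 0x40592) (nat_lit 0) (p (nat_lit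 0x40492) (nat_lit 0) (p (nat_lit 0x30412) (nat_lit 0) (p (nat_lit 0x30212) (nat_lit 0) (p (nat_lit 0x20192) (nat_lit 0) (p (nat_lit 0x20092) (nat_lit 0) (p (nat_lit 0x10012) (nat_lit 0) pn)))))))))))))))))))))))))) :=
  Cl.node (nat_lit 0x20000c) (nat_lit 2) (by decide +kernel) (ClAll.succ (ClAll.succ ClAll.zero n117) s43)

def n149 : Cl (O (nat_lit 3)) (R (nat_lit 104465))
    (p (nat_lit 0xc1) (nat_lit 0) (p (nat_lit 0x81) (nat_lit 1) (p (nat_lit 0x101) (nat_lit 1) (p (nat_lit 0x111) (nat_lit 0) (p (nat_lit 0xd1) (nat_lit 1) (p (nat_lit 0x89) (nat_lit 0) (p (nat_lit 0x41) (nat_lit 0) (p (nat_lit 0x8a098b090a9a) (nat_lit 0) (p (nat_lit 0x9890a888a1a) (nat_lit 0) (p (nat_lit 0x89088a08079a) (nat_lit 0) (p (nat_lit 0x8880987871a) (nat_lit 0) (p (nat_lit 0x80000800080907088a) (nat_lit 0) (p (nat_lit 0x80000800078886860a) (nat_lit 0) (p (nat_lit 0x8688060782) (nat_lit 0) (p (nat_lit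 0x607858702) (nat_lit 0) (p (nat_lit 0x8587050482) (nat_lit 0) (p (nat_lit 0x506848402) (nat_lit 0) (p (nat_lit 0x160014) (nat_lit 0) (p (nat_lit 0x50612) (nat_lit 0) (p (nat_lit 0x40592) (nat_lit 0) (p (nat_lit 0x40492) (nat_lit 0) (p (nat_lit 0x30412) (nat_lit 0) (p (nat_lit 0x30212) (nat_lit 0) (p (nat_lit 0x20192) (nat_lit 0) (p (nat_lit 0x20092) (nat_lit 0) (p (nat_lit 0x10012) (nat_lit 0) pn)))))))))))))))))))))))))) :=
  Cl.node (nat_lit 0x200004) (nat_lit 2) (by decide +kernel) (ClAll.succ (ClAll.succ ClAll.zero n118) s52)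

def n150 : Cl (O (nat_lit 3)) (R (nat_lit 104465))
    (p (nat_lit 0x101) (nat_lit 0) (p (nat_lit 0xc1) (nat_lit 1) (p (nat_lit 0x81) (nat_lit 1) (p (nat_lit 0x111) (nat_lit 1) (p (nat_lit 0xd1) (nat_lit 1) (p (nat_lit 0x89) (nat_lit 0) (p (nat_lit 0x41) (nat_lit 0) (p (nat_lit 0x8a098b090a9a) (nat_lit 0) (p (nat_lit 0x9890a888a1a) (nat_lit 0) (p (nat_lit 0x89088a08079a) (nat_lit 0) (p (nat_lit 0x8880987871a) (nat_lit 0) (p (nat_lit 0x80000800080907088a) (nat_lit 0) (p (nat_lit 0x80000800078886860a) (nat_lit 0) (p (nat_lit 0x8688060782) (nat_lit 0) (p (nat_lit 0x607858702) (nat_lit 0) (p (nat_lit 0x8587050482) (nat_lit 0) (p (nat_lit 0x506848402) (nat_lit 0) (p (nat_lit 0x160014) (nat_lit 0) (p (nat_lit 0x50612) (nat_lit 0) (p (nat_lit 0x40592) (nat_lit 0) (p (nat_lit 0x40492) (nat_lit 0) (p (nat_lit 0x30412) (nat_lit 0) (p (nat_lit 0x30212) (nat_lit 0) (p (nat_lit 0x20192)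 (nat_lit 0) (p (nat_lit 0x20092) (nat_lit 0) (p (nat_lit 0x10012) (nat_lit 0) pn)))))))))))))))))))))))))) :=
  Cl.node (nat_lit 0x200004) (nat_lit 2) (by decide +kernel) (ClAll.succ (ClAll.succ ClAll.zero n119) s59)

def n151 : Cl (O (nat_lit 3)) (R (nat_lit 104465))
    (p (nat_lit 0x111) (nat_lit 1) (p (nat_lit 0x109) (nat_lit 0) (p (nat_lit 0x101) (nat_lit 0) (p (nat_lit 0x119) (nat_lit 0) (p (nat_lit 0xc9) (nat_lit 0) (p (nat_lit 0x89) (nat_lit 1) (p (nat_lit 0x41) (nat_lit 0) (p (nat_lit 0x8a098b090a9a) (nat_lit 0) (p (nat_lit 0x9890a888a1a) (nat_lit 0) (p (nat_lit 0x89088a08079a) (nat_lit 0) (p (nat_lit 0x8880987871a) (nat_lit 0) (p (nat_lit 0x80000800080907088a) (nat_lit 0) (p (nat_lit 0x80000800078886860a) (nat_lit 0) (p (nat_lit 0x8688060782) (nat_lit 0) (p (nat_lit 0x607858702) (nat_lit 0) (p (nat_lit 0x8587050482) (nat_lit 0) (p (nat_lit 0x506848402) (nat_lit 0)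 (p (nat_lit 0x160014) (nat_lit 0) (p (nat_lit 0x50612) (nat_lit 0) (p (nat_lit 0x40592) (nat_lit 0) (p (nat_lit 0x40492) (nat_lit 0) (p (nat_lit 0x30412) (nat_lit 0) (p (nat_lit 0x30212) (nat_lit 0) (p (nat_lit 0x20192) (nat_lit 0) (p (nat_lit 0x20092) (nat_lit 0) (p (nat_lit 0x10012) (nat_lit 0) pn)))))))))))))))))))))))))) :=
  Cl.node (nat_lit 0xd1) (nat_lit 2) (by decide +kernel) (ClAll.succ (ClAll.succ ClAll.zero s62) n120)

def n152 : Cl (O (nat_lit 3)) (R (nat_lit 104465))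
    (p (nat_lit 0xd1) (nat_lit 0) (p (nat_lit 0x109) (nat_lit 1) (p (nat_lit 0x101) (nat_lit 0) (p (nat_lit 0x119) (nat_lit 0) (p (nat_lit 0xc9) (nat_lit 0) (p (nat_lit 0x89) (nat_lit 1) (p (nat_lit 0x41) (nat_lit 0) (p (nat_lit 0x8a098b090a9a) (nat_lit 0) (p (nat_lit 0x9890a888a1a) (nat_lit 0) (p (nat_lit 0x89088a08079a) (nat_lit 0) (p (nat_lit 0x8880987871a) (nat_lit 0) (p (nat_lit 0x80000800080907088a) (nat_lit 0) (p (nat_lit 0x80000800078886860a) (nat_lit 0) (p (nat_lit 0x8688060782) (nat_lit 0) (p (nat_lit 0x607858702) (nat_lit 0) (p (nat_lit 0x8587050482) (nat_lit 0) (p (nat_lit 0x506848402) (nat_lit 0) (p (nat_lit 0x160014) (nat_lit 0) (p (nat_lit 0x50612) (nat_lit 0) (p (nat_lit 0x40592) (nat_lit 0) (p (nat_lit 0x40492) (nat_lit 0) (p (nat_lit 0x30412) (nat_lit 0) (p (nat_lit 0x30212) (nat_lit 0) (p (nat_lit 0x20192) (nat_lit 0) (p (nat_lit 0x20092) (nat_lit 0) (p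 (nat_lit 0x10012) (nat_lit 0) pn)))))))))))))))))))))))))) :=
  Cl.node (nat_lit 0x200004) (nat_lit 2) (by decide +kernel) (ClAll.succ (ClAll.succ ClAll.zero n121) s74)

def n153 : Cl (O (nat_lit 3)) (R (nat_lit 104465))
    (p (nat_lit 0xd1) (nat_lit 1) (p (nat_lit 0x109) (nat_lit 1) (p (nat_lit 0x101) (nat_lit 0) (p (nat_lit 0x119) (nat_lit 0) (p (nat_lit 0xc9) (nat_lit 0) (p (nat_lit 0x89) (nat_lit 1) (p (nat_lit 0x41) (nat_lit 0) (p (nat_lit 0x8a098b090a9a) (nat_lit 0) (p (nat_lit 0x9890a888a1a) (nat_lit 0) (p (nat_lit 0x89088a08079a) (nat_lit 0) (p (nat_lit 0x8880987871a) (nat_lit 0) (p (nat_lit 0x80000800080907088a) (nat_lit 0) (p (nat_lit 0x80000800078886860a) (nat_lit 0) (p (nat_lit 0x8688060782) (nat_lit 0) (p (nat_lit 0x607858702) (nat_lit 0) (p (nat_lit 0x8587050482) (nat_lit 0) (p (nat_lit 0x506848402) (nat_lit 0) (p (nat_lit 0x160014) (nat_lit 0) (p (nat_lit 0x50612)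 (nat_lit 0) (p (nat_lit 0x40592) (nat_lit 0) (p (nat_lit 0x40492) (nat_lit 0) (p (nat_lit 0x30412) (nat_lit 0) (p (nat_lit 0x30212) (nat_lit 0) (p (nat_lit 0x20192) (nat_lit 0) (p (nat_lit 0x20092) (nat_lit 0) (p (nat_lit 0x10012) (nat_lit 0) pn)))))))))))))))))))))))))) :=
  Cl.node (nat_lit 0x200004) (nat_lit 2) (by decide +kernel) (ClAll.succ (ClAll.succ ClAll.zero n122) s87)

def n154 : Cl (O (nat_lit 3)) (R (nat_lit 104465))
    (p (nat_lit 0xd1) (nat_lit 0) (p (nat_lit 0xc1) (nat_lit 0) (p (nat_lit 0x101) (nat_lit 1) (p (nat_lit 0x119) (nat_lit 0) (p (nat_lit 0xc9) (nat_lit 0) (p (nat_lit 0x89) (nat_lit 1) (p (nat_lit 0x41) (nat_lit 0) (p (nat_lit 0x8a098b090a9a) (nat_lit 0) (p (nat_lit 0x9890a888a1a) (nat_lit 0) (p (nat_lit 0x89088a08079a) (nat_lit 0) (p (nat_lit 0x8880987871a) (nat_lit 0) (p (nat_lit 0x80000800080907088a) (nat_lit 0) (p (nat_lit 0x80000800078886860a)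 (nat_lit 0) (p (nat_lit 0x8688060782) (nat_lit 0) (p (nat_lit 0x607858702) (nat_lit 0) (p (nat_lit 0x8587050482) (nat_lit 0) (p (nat_lit 0x506848402) (nat_lit 0) (p (nat_lit 0x160014) (nat_lit 0) (p (nat_lit 0x50612) (nat_lit 0) (p (nat_lit 0x40592) (nat_lit 0) (p (nat_lit 0x40492) (nat_lit 0) (p (nat_lit 0x30412) (nat_lit 0) (p (nat_lit 0x30212) (nat_lit 0) (p (nat_lit 0x20192) (nat_lit 0) (p (nat_lit 0x20092) (nat_lit 0) (p (nat_lit 0x10012) (nat_lit 0) pn)))))))))))))))))))))))))) :=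
  Cl.node (nat_lit 0x200004) (nat_lit 2) (by decide +kernel) (ClAll.succ (ClAll.succ ClAll.zero n123) s91)

def n155 : Cl (O (nat_lit 3)) (R (nat_lit 104465))
    (p (nat_lit 0xd1) (nat_lit 1) (p (nat_lit 0xc1) (nat_lit 0) (p (nat_lit 0x101) (nat_lit 1) (p (nat_lit 0x119) (nat_lit 0) (p (nat_lit 0xc9) (nat_lit 0) (p (nat_lit 0x89) (nat_lit 1) (p (nat_lit 0x41) (nat_lit 0) (p (nat_lit 0x8a098b090a9a) (nat_lit 0) (p (nat_lit 0x9890a888a1a) (nat_lit 0) (p (nat_lit 0x89088a08079a) (nat_lit 0) (p (nat_lit 0x8880987871a) (nat_lit 0) (p (nat_lit 0x80000800080907088a) (nat_lit 0) (p (nat_lit 0x80000800078886860a) (nat_lit 0) (p (nat_lit 0x8688060782) (nat_lit 0) (p (nat_lit 0x607858702) (nat_lit 0) (p (nat_lit 0x8587050482) (nat_lit 0) (p (nat_lit 0x506848402) (nat_lit 0) (p (nat_lit 0x160014) (nat_lit 0) (p (nat_lit 0x50612) (nat_lit 0) (p (nat_lit 0x40592) (nat_lit 0) (p (nat_lit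 0x40492) (nat_lit 0) (p (nat_lit 0x30412) (nat_lit 0) (p (nat_lit 0x30212) (nat_lit 0) (p (nat_lit 0x20192) (nat_lit 0) (p (nat_lit 0x20092) (nat_lit 0) (p (nat_lit 0x10012) (nat_lit 0) pn)))))))))))))))))))))))))) :=
  Cl.node (nat_lit 0x200004) (nat_lit 2) (by decide +kernel) (ClAll.succ (ClAll.succ ClAll.zero n124) s101)

def n156 : Cl (O (nat_lit 3)) (R (nat_lit 104465))
    (p (nat_lit 0x111) (nat_lit 1) (p (nat_lit 0xd1) (nat_lit 1) (p (nat_lit 0xc1) (nat_lit 0) (p (nat_lit 0x119) (nat_lit 1) (p (nat_lit 0xc9) (nat_lit 0) (p (nat_lit 0x89) (nat_lit 1) (p (nat_lit 0x41) (nat_lit 0) (p (nat_lit 0x8a098b090a9a) (nat_lit 0) (p (nat_lit 0x9890a888a1a) (nat_lit 0) (p (nat_lit 0x89088a08079a) (nat_lit 0) (p (nat_lit 0x8880987871a) (nat_lit 0) (p (nat_lit 0x80000800080907088a) (nat_lit 0) (p (nat_lit 0x80000800078886860a) (nat_lit 0) (p (nat_lit 0x8688060782) (nat_lit 0) (p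 (nat_lit 0x607858702) (nat_lit 0) (p (nat_lit 0x8587050482) (nat_lit 0) (p (nat_lit 0x506848402) (nat_lit 0) (p (nat_lit 0x160014) (nat_lit 0) (p (nat_lit 0x50612) (nat_lit 0) (p (nat_lit 0x40592) (nat_lit 0) (p (nat_lit 0x40492) (nat_lit 0) (p (nat_lit 0x30412) (nat_lit 0) (p (nat_lit 0x30212) (nat_lit 0) (p (nat_lit 0x20192) (nat_lit 0) (p (nat_lit 0x20092) (nat_lit 0) (p (nat_lit 0x10012) (nat_lit 0) pn)))))))))))))))))))))))))) :=
  Cl.node (nat_lit 0x200004) (nat_lit 2) (by decide +kernel) (ClAll.succ (ClAll.succ ClAll.zero n125) s110)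

def n157 : Cl (O (nat_lit 3)) (R (nat_lit 104465))
    (p (nat_lit 0x111) (nat_lit 1) (p (nat_lit 0x101) (nat_lit 0) (p (nat_lit 0xc1) (nat_lit 1) (p (nat_lit 0x119) (nat_lit 1) (p (nat_lit 0xc9) (nat_lit 0) (p (nat_lit 0x89) (nat_lit 1) (p (nat_lit 0x41) (nat_lit 0) (p (nat_lit 0x8a098b090a9a) (nat_lit 0) (p (nat_lit 0x9890a888a1a) (nat_lit 0) (p (nat_lit 0x89088a08079a) (nat_lit 0) (p (nat_lit 0x8880987871a) (nat_lit 0) (p (nat_lit 0x80000800080907088a) (nat_lit 0) (p (nat_lit 0x80000800078886860a) (nat_lit 0) (p (nat_lit 0x8688060782) (nat_lit 0) (p (nat_lit 0x607858702) (nat_lit 0) (p (nat_lit 0x8587050482) (nat_lit 0) (p (nat_lit 0x506848402) (nat_lit 0) (p (nat_lit 0x160014) (nat_lit 0) (p (nat_lit 0x50612) (nat_lit 0) (p (nat_lit 0x40592) (nat_lit 0) (p (nat_lit 0x40492) (nat_lit 0) (p (nat_lit 0x30412) (nat_lit 0) (p (nat_lit 0x30212) (nat_lit 0) (p (nat_lit 0x20192)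 (nat_lit 0) (p (nat_lit 0x20092) (nat_lit 0) (p (nat_lit 0x10012) (nat_lit 0) pn)))))))))))))))))))))))))) :=
  Cl.node (nat_lit 0x200004) (nat_lit 2) (by decide +kernel) (ClAll.succ (ClAll.succ ClAll.zero n126) s120)

def n158 : Cl (O (nat_lit 3)) (R (nat_lit 104465))
    (p (nat_lit 0x119) (nat_lit 1) (p (nat_lit 0x111) (nat_lit 0) (p (nat_lit 0x101) (nat_lit 0) (p (nat_lit 0x109) (nat_lit 0) (p (nat_lit 0xc9) (nat_lit 1) (p (nat_lit 0x89) (nat_lit 1) (p (nat_lit 0x41) (nat_lit 0) (p (nat_lit 0x8a098b090a9a) (nat_lit 0) (p (nat_lit 0x9890a888a1a) (nat_lit 0) (p (nat_lit 0x89088a08079a) (nat_lit 0) (p (nat_lit 0x8880987871a) (nat_lit 0) (p (nat_lit 0x80000800080907088a) (nat_lit 0) (p (nat_lit 0x80000800078886860a) (nat_lit 0) (p (nat_lit 0x8688060782) (nat_lit 0) (p (nat_lit 0x607858702) (nat_lit 0) (p (nat_lit 0x8587050482) (nat_lit 0) (p (nat_lit 0x506848402) (nat_lit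 0) (p (nat_lit 0x160014) (nat_lit 0) (p (nat_lit 0x50612) (nat_lit 0) (p (nat_lit 0x40592) (nat_lit 0) (p (nat_lit 0x40492) (nat_lit 0) (p (nat_lit 0x30412) (nat_lit 0) (p (nat_lit 0x30212) (nat_lit 0) (p (nat_lit 0x20192) (nat_lit 0) (p (nat_lit 0x20092) (nat_lit 0) (p (nat_lit 0x10012) (nat_lit 0) pn)))))))))))))))))))))))))) :=
  Cl.node (nat_lit 0x200004) (nat_lit 2) (by decide +kernel) (ClAll.succ (ClAll.succ ClAll.zero n127) s129)

def n159 : Cl (O (nat_lit 3)) (R (nat_lit 104465))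
    (p (nat_lit 0x89) (nat_lit 0) (p (nat_lit 0x109) (nat_lit 1) (p (nat_lit 0x101) (nat_lit 0) (p (nat_lit 0x119) (nat_lit 0) (p (nat_lit 0xd1) (nat_lit 0) (p (nat_lit 0x81) (nat_lit 0) (p (nat_lit 0x41) (nat_lit 1) (p (nat_lit 0x8a098b090a9a) (nat_lit 0) (p (nat_lit 0x9890a888a1a) (nat_lit 0) (p (nat_lit 0x89088a08079a) (nat_lit 0) (p (nat_lit 0x8880987871a) (nat_lit 0) (p (nat_lit 0x80000800080907088a) (nat_lit 0) (p (nat_lit 0x80000800078886860a) (nat_lit 0) (p (nat_lit 0x8688060782) (nat_lit 0) (p (nat_lit 0x607858702) (nat_lit 0) (p (nat_lit 0x8587050482) (nat_lit 0) (p (nat_lit 0x506848402) (nat_lit 0) (p (nat_lit 0x160014) (nat_lit 0) (p (nat_lit 0x50612) (nat_lit 0) (p (nat_lit 0x40592) (nat_lit 0) (p (nat_lit 0x40492) (nat_lit 0) (p (nat_lit 0x30412) (nat_lit 0) (p (nat_lit 0x30212) (nat_lit 0) (p (nat_lit 0x20192) (nat_lit 0) (p (nat_lit 0x20092) (nat_lit 0) (p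 (nat_lit 0x10012) (nat_lit 0) pn)))))))))))))))))))))))))) :=
  Cl.node (nat_lit 0x200004) (nat_lit 2) (by decide +kernel) (ClAll.succ (ClAll.succ ClAll.zero n128) s136)

def n160 : Cl (O (nat_lit 3)) (R (nat_lit 104465))
    (p (nat_lit 0x89) (nat_lit 1) (p (nat_lit 0x109) (nat_lit 1) (p (nat_lit 0x101) (nat_lit 0) (p (nat_lit 0x119) (nat_lit 0) (p (nat_lit 0xd1) (nat_lit 0) (p (nat_lit 0x81) (nat_lit 0) (p (nat_lit 0x41) (nat_lit 1) (p (nat_lit 0x8a098b090a9a) (nat_lit 0) (p (nat_lit 0x9890a888a1a) (nat_lit 0) (p (nat_lit 0x89088a08079a) (nat_lit 0) (p (nat_lit 0x8880987871a) (nat_lit 0) (p (nat_lit 0x80000800080907088a) (nat_lit 0) (p (nat_lit 0x80000800078886860a) (nat_lit 0) (p (nat_lit 0x8688060782) (nat_lit 0) (p (nat_lit 0x607858702) (nat_lit 0) (p (nat_lit 0x8587050482) (nat_lit 0) (p (nat_lit 0x506848402) (nat_lit 0) (p (nat_lit 0x160014) (nat_lit 0) (p (nat_lit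 0x50612) (nat_lit 0) (p (nat_lit 0x40592) (nat_lit 0) (p (nat_lit 0x40492) (nat_lit 0) (p (nat_lit 0x30412) (nat_lit 0) (p (nat_lit 0x30212) (nat_lit 0) (p (nat_lit 0x20192) (nat_lit 0) (p (nat_lit 0x20092) (nat_lit 0) (p (nat_lit 0x10012) (nat_lit 0) pn)))))))))))))))))))))))))) :=
  Cl.node (nat_lit 0xc9) (nat_lit 2) (by decide +kernel) (ClAll.succ (ClAll.succ ClAll.zero s137) s138)

def n161 : Cl (O (nat_lit 3)) (R (nat_lit 104465))
    (p (nat_lit 0x89) (nat_lit 1) (p (nat_lit 0xc1) (nat_lit 0) (p (nat_lit 0x101) (nat_lit 1) (p (nat_lit 0x119) (nat_lit 0) (p (nat_lit 0xd1) (nat_lit 0) (p (nat_lit 0x81) (nat_lit 0) (p (nat_lit 0x41) (nat_lit 1) (p (nat_lit 0x8a098b090a9a) (nat_lit 0) (p (nat_lit 0x9890a888a1a) (nat_lit 0) (p (nat_lit 0x89088a08079a) (nat_lit 0) (p (nat_lit 0x8880987871a) (nat_lit 0) (p (nat_lit 0x80000800080907088a) (nat_lit 0) (p (nat_lit 0x80000800078886860a)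 (nat_lit 0) (p (nat_lit 0x8688060782) (nat_lit 0) (p (nat_lit 0x607858702) (nat_lit 0) (p (nat_lit 0x8587050482) (nat_lit 0) (p (nat_lit 0x506848402) (nat_lit 0) (p (nat_lit 0x160014) (nat_lit 0) (p (nat_lit 0x50612) (nat_lit 0) (p (nat_lit 0x40592) (nat_lit 0) (p (nat_lit 0x40492) (nat_lit 0) (p (nat_lit 0x30412) (nat_lit 0) (p (nat_lit 0x30212) (nat_lit 0) (p (nat_lit 0x20192) (nat_lit 0) (p (nat_lit 0x20092) (nat_lit 0) (p (nat_lit 0x10012) (nat_lit 0) pn)))))))))))))))))))))))))) :=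
  Cl.node (nat_lit 0xc9) (nat_lit 2) (by decide +kernel) (ClAll.succ (ClAll.succ ClAll.zero s140) n129)

def n162 : Cl (O (nat_lit 3)) (R (nat_lit 104465))
    (p (nat_lit 0x89) (nat_lit 0) (p (nat_lit 0xc1) (nat_lit 1) (p (nat_lit 0x101) (nat_lit 1) (p (nat_lit 0x119) (nat_lit 0) (p (nat_lit 0xd1) (nat_lit 0) (p (nat_lit 0x81) (nat_lit 0) (p (nat_lit 0x41) (nat_lit 1) (p (nat_lit 0x8a098b090a9a) (nat_lit 0) (p (nat_lit 0x9890a888a1a) (nat_lit 0) (p (nat_lit 0x89088a08079a) (nat_lit 0) (p (nat_lit 0x8880987871a) (nat_lit 0) (p (nat_lit 0x80000800080907088a) (nat_lit 0) (p (nat_lit 0x80000800078886860a) (nat_lit 0) (p (nat_lit 0x8688060782) (nat_lit 0) (p (nat_lit 0x607858702) (nat_lit 0) (p (nat_lit 0x8587050482) (nat_lit 0) (p (nat_lit 0x506848402) (nat_lit 0) (p (nat_lit 0x160014) (nat_lit 0) (p (nat_lit 0x50612) (nat_lit 0) (p (nat_lit 0x40592) (nat_lit 0) (p (nat_lit 0x40492)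 (nat_lit 0) (p (nat_lit 0x30412) (nat_lit 0) (p (nat_lit 0x30212) (nat_lit 0) (p (nat_lit 0x20192) (nat_lit 0) (p (nat_lit 0x20092) (nat_lit 0) (p (nat_lit 0x10012) (nat_lit 0) pn)))))))))))))))))))))))))) :=
  Cl.node (nat_lit 0x200004) (nat_lit 2) (by decide +kernel) (ClAll.succ (ClAll.succ ClAll.zero s145) s146)

def n163 : Cl (O (nat_lit 3)) (R (nat_lit 104465))
    (p (nat_lit 0x89) (nat_lit 1) (p (nat_lit 0xc1) (nat_lit 1) (p (nat_lit 0x101) (nat_lit 1) (p (nat_lit 0x119) (nat_lit 0) (p (nat_lit 0xd1) (nat_lit 0) (p (nat_lit 0x81) (nat_lit 0) (p (nat_lit 0x41) (nat_lit 1) (p (nat_lit 0x8a098b090a9a) (nat_lit 0) (p (nat_lit 0x9890a888a1a) (nat_lit 0) (p (nat_lit 0x89088a08079a) (nat_lit 0) (p (nat_lit 0x8880987871a) (nat_lit 0) (p (nat_lit 0x80000800080907088a) (nat_lit 0) (p (nat_lit 0x80000800078886860a) (nat_lit 0) (p (nat_lit 0x8688060782) (nat_lit 0) (p (nat_lit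 0x607858702) (nat_lit 0) (p (nat_lit 0x8587050482) (nat_lit 0) (p (nat_lit 0x506848402) (nat_lit 0) (p (nat_lit 0x160014) (nat_lit 0) (p (nat_lit 0x50612) (nat_lit 0) (p (nat_lit 0x40592) (nat_lit 0) (p (nat_lit 0x40492) (nat_lit 0) (p (nat_lit 0x30412) (nat_lit 0) (p (nat_lit 0x30212) (nat_lit 0) (p (nat_lit 0x20192) (nat_lit 0) (p (nat_lit 0x20092) (nat_lit 0) (p (nat_lit 0x10012) (nat_lit 0) pn)))))))))))))))))))))))))) :=
  Cl.node (nat_lit 0x200004) (nat_lit 2) (by decide +kernel) (ClAll.succ (ClAll.succ ClAll.zero n130) n131)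

def n164 : Cl (O (nat_lit 3)) (R (nat_lit 104465))
    (p (nat_lit 0x89) (nat_lit 1) (p (nat_lit 0xc9) (nat_lit 1) (p (nat_lit 0xc1) (nat_lit 0) (p (nat_lit 0x119) (nat_lit 1) (p (nat_lit 0xd1) (nat_lit 0) (p (nat_lit 0x81) (nat_lit 0) (p (nat_lit 0x41) (nat_lit 1) (p (nat_lit 0x8a098b090a9a) (nat_lit 0) (p (nat_lit 0x9890a888a1a) (nat_lit 0) (p (nat_lit 0x89088a08079a) (nat_lit 0) (p (nat_lit 0x8880987871a) (nat_lit 0) (p (nat_lit 0x80000800080907088a) (nat_lit 0) (p (nat_lit 0x80000800078886860a) (nat_lit 0) (p (nat_lit 0x8688060782) (nat_lit 0) (p (nat_lit 0x607858702) (nat_lit 0) (p (nat_lit 0x8587050482) (nat_lit 0) (p (nat_lit 0x506848402) (nat_lit 0) (p (nat_lit 0x160014) (nat_lit 0) (p (nat_lit 0x50612) (nat_lit 0) (p (nat_lit 0x40592) (nat_lit 0) (p (nat_lit 0x40492) (nat_lit 0) (p (nat_lit 0x30412) (nat_lit 0) (p (nat_lit 0x30212) (nat_lit 0) (p (nat_lit 0x20192)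 (nat_lit 0) (p (nat_lit 0x20092) (nat_lit 0) (p (nat_lit 0x10012) (nat_lit 0) pn)))))))))))))))))))))))))) :=
  Cl.node (nat_lit 0x109) (nat_lit 2) (by decide +kernel) (ClAll.succ (ClAll.succ ClAll.zero s158) s159)

def n165 : Cl (O (nat_lit 3)) (R (nat_lit 104465))
    (p (nat_lit 0x89) (nat_lit 1) (p (nat_lit 0x101) (nat_lit 0) (p (nat_lit 0xc1) (nat_lit 1) (p (nat_lit 0x119) (nat_lit 1) (p (nat_lit 0xd1) (nat_lit 0) (p (nat_lit 0x81) (nat_lit 0) (p (nat_lit 0x41) (nat_lit 1) (p (nat_lit 0x8a098b090a9a) (nat_lit 0) (p (nat_lit 0x9890a888a1a) (nat_lit 0) (p (nat_lit 0x89088a08079a) (nat_lit 0) (p (nat_lit 0x8880987871a) (nat_lit 0) (p (nat_lit 0x80000800080907088a) (nat_lit 0) (p (nat_lit 0x80000800078886860a) (nat_lit 0) (p (nat_lit 0x8688060782) (nat_lit 0) (p (nat_lit 0x607858702) (nat_lit 0) (p (nat_lit 0x8587050482) (nat_lit 0) (p (nat_lit 0x506848402) (nat_lit 0) (p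 (nat_lit 0x160014) (nat_lit 0) (p (nat_lit 0x50612) (nat_lit 0) (p (nat_lit 0x40592) (nat_lit 0) (p (nat_lit 0x40492) (nat_lit 0) (p (nat_lit 0x30412) (nat_lit 0) (p (nat_lit 0x30212) (nat_lit 0) (p (nat_lit 0x20192) (nat_lit 0) (p (nat_lit 0x20092) (nat_lit 0) (p (nat_lit 0x10012) (nat_lit 0) pn)))))))))))))))))))))))))) :=
  Cl.node (nat_lit 0x109) (nat_lit 2) (by decide +kernel) (ClAll.succ (ClAll.succ ClAll.zero s161) n132)

def n166 : Cl (O (nat_lit 3)) (R (nat_lit 104465))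
    (p (nat_lit 0x89) (nat_lit 1) (p (nat_lit 0x101) (nat_lit 1) (p (nat_lit 0xc1) (nat_lit 1) (p (nat_lit 0x119) (nat_lit 1) (p (nat_lit 0xd1) (nat_lit 0) (p (nat_lit 0x81) (nat_lit 0) (p (nat_lit 0x41) (nat_lit 1) (p (nat_lit 0x8a098b090a9a) (nat_lit 0) (p (nat_lit 0x9890a888a1a) (nat_lit 0) (p (nat_lit 0x89088a08079a) (nat_lit 0) (p (nat_lit 0x8880987871a) (nat_lit 0) (p (nat_lit 0x80000800080907088a) (nat_lit 0) (p (nat_lit 0x80000800078886860a) (nat_lit 0) (p (nat_lit 0x8688060782) (nat_lit 0) (p (nat_lit 0x607858702) (nat_lit 0) (p (nat_lit 0x8587050482) (nat_lit 0) (p (nat_lit 0x506848402) (nat_lit 0) (p (nat_lit 0x160014) (nat_lit 0) (p (nat_lit 0x50612) (nat_lit 0) (p (nat_lit 0x40592) (nat_lit 0) (p (nat_lit 0x40492) (nat_lit 0) (p (nat_lit 0x30412) (nat_lit 0) (p (nat_lit 0x30212) (nat_lit 0) (p (nat_lit 0x20192) (nat_lit 0) (p (nat_lit 0x20092) (nat_lit 0) (p (nat_lit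 0x10012) (nat_lit 0) pn)))))))))))))))))))))))))) :=
  Cl.node (nat_lit 0x200004) (nat_lit 2) (by decide +kernel) (ClAll.succ (ClAll.succ ClAll.zero n133) s169)

def n167 : Cl (O (nat_lit 3)) (R (nat_lit 104465))
    (p (nat_lit 0x89) (nat_lit 1) (p (nat_lit 0x109) (nat_lit 1) (p (nat_lit 0x101) (nat_lit 0) (p (nat_lit 0x111) (nat_lit 0) (p (nat_lit 0xd1) (nat_lit 1) (p (nat_lit 0x81) (nat_lit 0) (p (nat_lit 0x41) (nat_lit 1) (p (nat_lit 0x8a098b090a9a) (nat_lit 0) (p (nat_lit 0x9890a888a1a) (nat_lit 0) (p (nat_lit 0x89088a08079a) (nat_lit 0) (p (nat_lit 0x8880987871a) (nat_lit 0) (p (nat_lit 0x80000800080907088a) (nat_lit 0) (p (nat_lit 0x80000800078886860a) (nat_lit 0) (p (nat_lit 0x8688060782) (nat_lit 0) (p (nat_lit 0x607858702) (nat_lit 0) (p (nat_lit 0x8587050482) (nat_lit 0) (p (nat_lit 0x506848402) (nat_lit 0) (p (nat_lit 0x160014) (nat_lit 0) (p (nat_lit 0x50612)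 (nat_lit 0) (p (nat_lit 0x40592) (nat_lit 0) (p (nat_lit 0x40492) (nat_lit 0) (p (nat_lit 0x30412) (nat_lit 0) (p (nat_lit 0x30212) (nat_lit 0) (p (nat_lit 0x20192) (nat_lit 0) (p (nat_lit 0x20092) (nat_lit 0) (p (nat_lit 0x10012) (nat_lit 0) pn)))))))))))))))))))))))))) :=
  Cl.node (nat_lit 0xc9) (nat_lit 2) (by decide +kernel) (ClAll.succ (ClAll.succ ClAll.zero n134) s178)

def n168 : Cl (O (nat_lit 3)) (R (nat_lit 104465))
    (p (nat_lit 0x200004) (nat_lit 0) (p (nat_lit 0x89) (nat_lit 0) (p (nat_lit 0x101) (nat_lit 1) (p (nat_lit 0x111) (nat_lit 0) (p (nat_lit 0xd1) (nat_lit 1) (p (nat_lit 0x81) (nat_lit 0) (p (nat_lit 0x41) (nat_lit 1) (p (nat_lit 0x8a098b090a9a) (nat_lit 0) (p (nat_lit 0x9890a888a1a) (nat_lit 0) (p (nat_lit 0x89088a08079a) (nat_lit 0) (p (nat_lit 0x8880987871a) (nat_lit 0) (p (nat_lit 0x80000800080907088a) (nat_lit 0) (p (nat_lit 0x80000800078886860a)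 (nat_lit 0) (p (nat_lit 0x8688060782) (nat_lit 0) (p (nat_lit 0x607858702) (nat_lit 0) (p (nat_lit 0x8587050482) (nat_lit 0) (p (nat_lit 0x506848402) (nat_lit 0) (p (nat_lit 0x160014) (nat_lit 0) (p (nat_lit 0x50612) (nat_lit 0) (p (nat_lit 0x40592) (nat_lit 0) (p (nat_lit 0x40492) (nat_lit 0) (p (nat_lit 0x30412) (nat_lit 0) (p (nat_lit 0x30212) (nat_lit 0) (p (nat_lit 0x20192) (nat_lit 0) (p (nat_lit 0x20092) (nat_lit 0) (p (nat_lit 0x10012) (nat_lit 0) pn)))))))))))))))))))))))))) :=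
  Cl.node (nat_lit 0x20000c) (nat_lit 2) (by decide +kernel) (ClAll.succ (ClAll.succ ClAll.zero n135) s181)

def n169 : Cl (O (nat_lit 3)) (R (nat_lit 104465))
    (p (nat_lit 0xc9) (nat_lit 0) (p (nat_lit 0x89) (nat_lit 1) (p (nat_lit 0x101) (nat_lit 1) (p (nat_lit 0x111) (nat_lit 0) (p (nat_lit 0xd1) (nat_lit 1) (p (nat_lit 0x81) (nat_lit 0) (p (nat_lit 0x41) (nat_lit 1) (p (nat_lit 0x8a098b090a9a) (nat_lit 0) (p (nat_lit 0x9890a888a1a) (nat_lit 0) (p (nat_lit 0x89088a08079a) (nat_lit 0) (p (nat_lit 0x8880987871a) (nat_lit 0) (p (nat_lit 0x80000800080907088a) (nat_lit 0) (p (nat_lit 0x80000800078886860a) (nat_lit 0) (p (nat_lit 0x8688060782) (nat_lit 0) (p (nat_lit 0x607858702) (nat_lit 0) (p (nat_lit 0x8587050482) (nat_lit 0) (p (nat_lit 0x506848402) (nat_lit 0) (p (nat_lit 0x160014) (nat_lit 0) (p (nat_lit 0x50612) (nat_lit 0) (p (nat_lit 0x40592) (nat_lit 0) (p (nat_lit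 0x40492) (nat_lit 0) (p (nat_lit 0x30412) (nat_lit 0) (p (nat_lit 0x30212) (nat_lit 0) (p (nat_lit 0x20192) (nat_lit 0) (p (nat_lit 0x20092) (nat_lit 0) (p (nat_lit 0x10012) (nat_lit 0) pn)))))))))))))))))))))))))) :=
  Cl.node (nat_lit 0x200004) (nat_lit 2) (by decide +kernel) (ClAll.succ (ClAll.succ ClAll.zero n136) n137)

def n170 : Cl (O (nat_lit 3)) (R (nat_lit 104465))
    (p (nat_lit 0x109) (nat_lit 0) (p (nat_lit 0xc9) (nat_lit 1) (p (nat_lit 0x89) (nat_lit 1) (p (nat_lit 0x111) (nat_lit 1) (p (nat_lit 0xd1) (nat_lit 1) (p (nat_lit 0x81) (nat_lit 0) (p (nat_lit 0x41) (nat_lit 1) (p (nat_lit 0x8a098b090a9a) (nat_lit 0) (p (nat_lit 0x9890a888a1a) (nat_lit 0) (p (nat_lit 0x89088a08079a) (nat_lit 0) (p (nat_lit 0x8880987871a) (nat_lit 0) (p (nat_lit 0x80000800080907088a) (nat_lit 0) (p (nat_lit 0x80000800078886860a) (nat_lit 0) (p (nat_lit 0x8688060782) (nat_lit 0) (p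 (nat_lit 0x607858702) (nat_lit 0) (p (nat_lit 0x8587050482) (nat_lit 0) (p (nat_lit 0x506848402) (nat_lit 0) (p (nat_lit 0x160014) (nat_lit 0) (p (nat_lit 0x50612) (nat_lit 0) (p (nat_lit 0x40592) (nat_lit 0) (p (nat_lit 0x40492) (nat_lit 0) (p (nat_lit 0x30412) (nat_lit 0) (p (nat_lit 0x30212) (nat_lit 0) (p (nat_lit 0x20192) (nat_lit 0) (p (nat_lit 0x20092) (nat_lit 0) (p (nat_lit 0x10012) (nat_lit 0) pn)))))))))))))))))))))))))) :=
  Cl.node (nat_lit 0x200004) (nat_lit 2) (by decide +kernel) (ClAll.succ (ClAll.succ ClAll.zero n138) s202)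

def n171 : Cl (O (nat_lit 3)) (R (nat_lit 104465))
    (p (nat_lit 0x111) (nat_lit 1) (p (nat_lit 0x109) (nat_lit 0) (p (nat_lit 0x101) (nat_lit 0) (p (nat_lit 0x119) (nat_lit 0) (p (nat_lit 0xc1) (nat_lit 0) (p (nat_lit 0x81) (nat_lit 1) (p (nat_lit 0x41) (nat_lit 1) (p (nat_lit 0x8a098b090a9a) (nat_lit 0) (p (nat_lit 0x9890a888a1a) (nat_lit 0) (p (nat_lit 0x89088a08079a) (nat_lit 0) (p (nat_lit 0x8880987871a) (nat_lit 0) (p (nat_lit 0x80000800080907088a) (nat_lit 0) (p (nat_lit 0x80000800078886860a) (nat_lit 0) (p (nat_lit 0x8688060782) (nat_lit 0) (p (nat_lit 0x607858702) (nat_lit 0) (p (nat_lit 0x8587050482) (nat_lit 0) (p (nat_lit 0x506848402) (nat_lit 0) (p (nat_lit 0x160014) (nat_lit 0) (p (nat_lit 0x50612) (nat_lit 0) (p (nat_lit 0x40592) (nat_lit 0) (p (nat_lit 0x40492) (nat_lit 0) (p (nat_lit 0x30412) (nat_lit 0) (p (nat_lit 0x30212) (nat_lit 0) (p (nat_lit 0x20192)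 (nat_lit 0) (p (nat_lit 0x20092) (nat_lit 0) (p (nat_lit 0x10012) (nat_lit 0) pn)))))))))))))))))))))))))) :=
  Cl.node (nat_lit 0xd1) (nat_lit 2) (by decide +kernel) (ClAll.succ (ClAll.succ ClAll.zero s205) n139)

def n172 : Cl (O (nat_lit 3)) (R (nat_lit 104465))
    (p (nat_lit 0xd1) (nat_lit 0) (p (nat_lit 0xc9) (nat_lit 0) (p (nat_lit 0x101) (nat_lit 1) (p (nat_lit 0x119) (nat_lit 0) (p (nat_lit 0xc1) (nat_lit 0) (p (nat_lit 0x81) (nat_lit 1) (p (nat_lit 0x41) (nat_lit 1) (p (nat_lit 0x8a098b090a9a) (nat_lit 0) (p (nat_lit 0x9890a888a1a) (nat_lit 0) (p (nat_lit 0x89088a08079a) (nat_lit 0) (p (nat_lit 0x8880987871a) (nat_lit 0) (p (nat_lit 0x80000800080907088a) (nat_lit 0) (p (nat_lit 0x80000800078886860a) (nat_lit 0) (p (nat_lit 0x8688060782) (nat_lit 0) (p (nat_lit 0x607858702) (nat_lit 0) (p (nat_lit 0x8587050482) (nat_lit 0) (p (nat_lit 0x506848402) (nat_lit 0) (p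 (nat_lit 0x160014) (nat_lit 0) (p (nat_lit 0x50612) (nat_lit 0) (p (nat_lit 0x40592) (nat_lit 0) (p (nat_lit 0x40492) (nat_lit 0) (p (nat_lit 0x30412) (nat_lit 0) (p (nat_lit 0x30212) (nat_lit 0) (p (nat_lit 0x20192) (nat_lit 0) (p (nat_lit 0x20092) (nat_lit 0) (p (nat_lit 0x10012) (nat_lit 0) pn)))))))))))))))))))))))))) :=
  Cl.node (nat_lit 0x200004) (nat_lit 2) (by decide +kernel) (ClAll.succ (ClAll.succ ClAll.zero s210) s211)

def n173 : Cl (O (nat_lit 3)) (R (nat_lit 104465))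
    (p (nat_lit 0xd1) (nat_lit 1) (p (nat_lit 0xc9) (nat_lit 0) (p (nat_lit 0x101) (nat_lit 1) (p (nat_lit 0x119) (nat_lit 0) (p (nat_lit 0xc1) (nat_lit 0) (p (nat_lit 0x81) (nat_lit 1) (p (nat_lit 0x41) (nat_lit 1) (p (nat_lit 0x8a098b090a9a) (nat_lit 0) (p (nat_lit 0x9890a888a1a) (nat_lit 0) (p (nat_lit 0x89088a08079a) (nat_lit 0) (p (nat_lit 0x8880987871a) (nat_lit 0) (p (nat_lit 0x80000800080907088a) (nat_lit 0) (p (nat_lit 0x80000800078886860a) (nat_lit 0) (p (nat_lit 0x8688060782) (nat_lit 0) (p (nat_lit 0x607858702) (nat_lit 0) (p (nat_lit 0x8587050482) (nat_lit 0) (p (nat_lit 0x506848402) (nat_lit 0) (p (nat_lit 0x160014) (nat_lit 0) (p (nat_lit 0x50612) (nat_lit 0) (p (nat_lit 0x40592) (nat_lit 0) (p (nat_lit 0x40492) (nat_lit 0) (p (nat_lit 0x30412) (nat_lit 0) (p (nat_lit 0x30212) (nat_lit 0) (p (nat_lit 0x20192) (nat_lit 0) (p (nat_lit 0x20092) (nat_lit 0) (p (nat_lit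 0x10012) (nat_lit 0) pn)))))))))))))))))))))))))) :=
  Cl.node (nat_lit 0x200004) (nat_lit 2) (by decide +kernel) (ClAll.succ (ClAll.succ ClAll.zero n140) s215)

def n174 : Cl (O (nat_lit 3)) (R (nat_lit 104465))
    (p (nat_lit 0x111) (nat_lit 1) (p (nat_lit 0x109) (nat_lit 0) (p (nat_lit 0xc9) (nat_lit 1) (p (nat_lit 0x119) (nat_lit 1) (p (nat_lit 0xc1) (nat_lit 0) (p (nat_lit 0x81) (nat_lit 1) (p (nat_lit 0x41) (nat_lit 1) (p (nat_lit 0x8a098b090a9a) (nat_lit 0) (p (nat_lit 0x9890a888a1a) (nat_lit 0) (p (nat_lit 0x89088a08079a) (nat_lit 0) (p (nat_lit 0x8880987871a) (nat_lit 0) (p (nat_lit 0x80000800080907088a) (nat_lit 0) (p (nat_lit 0x80000800078886860a) (nat_lit 0) (p (nat_lit 0x8688060782) (nat_lit 0) (p (nat_lit 0x607858702) (nat_lit 0) (p (nat_lit 0x8587050482) (nat_lit 0) (p (nat_lit 0x506848402) (nat_lit 0) (p (nat_lit 0x160014) (nat_lit 0) (p (nat_lit 0x50612)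 (nat_lit 0) (p (nat_lit 0x40592) (nat_lit 0) (p (nat_lit 0x40492) (nat_lit 0) (p (nat_lit 0x30412) (nat_lit 0) (p (nat_lit 0x30212) (nat_lit 0) (p (nat_lit 0x20192) (nat_lit 0) (p (nat_lit 0x20092) (nat_lit 0) (p (nat_lit 0x10012) (nat_lit 0) pn)))))))))))))))))))))))))) :=
  Cl.node (nat_lit 0x200004) (nat_lit 2) (by decide +kernel) (ClAll.succ (ClAll.succ ClAll.zero n141) s222)

def n175 : Cl (O (nat_lit 3)) (R (nat_lit 104465))
    (p (nat_lit 0x109) (nat_lit 1) (p (nat_lit 0x101) (nat_lit 0) (p (nat_lit 0x119) (nat_lit 0) (p (nat_lit 0xd1) (nat_lit 0) (p (nat_lit 0x89) (nat_lit 0) (p (nat_lit 0x41) (nat_lit 0) (p (nat_lit 0x8a098b090a9a) (nat_lit 0) (p (nat_lit 0x9890a888a1a) (nat_lit 0) (p (nat_lit 0x89088a08079a) (nat_lit 0) (p (nat_lit 0x8880987871a) (nat_lit 0) (p (nat_lit 0x80000800080907088a) (nat_lit 0) (p (nat_lit 0x80000800078886860a) (nat_lit 0) (p (nat_lit 0x8688060782)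 (nat_lit 0) (p (nat_lit 0x607858702) (nat_lit 0) (p (nat_lit 0x8587050482) (nat_lit 0) (p (nat_lit 0x506848402) (nat_lit 0) (p (nat_lit 0x160014) (nat_lit 0) (p (nat_lit 0x50612) (nat_lit 0) (p (nat_lit 0x40592) (nat_lit 0) (p (nat_lit 0x40492) (nat_lit 0) (p (nat_lit 0x30412) (nat_lit 0) (p (nat_lit 0x30212) (nat_lit 0) (p (nat_lit 0x20192) (nat_lit 0) (p (nat_lit 0x20092) (nat_lit 0) (p (nat_lit 0x10012) (nat_lit 0) pn))))))))))))))))))))))))) :=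
  Cl.node (nat_lit 0xc9) (nat_lit 2) (by decide +kernel) (ClAll.succ (ClAll.succ ClAll.zero s1) n142)

def n176 : Cl (O (nat_lit 3)) (R (nat_lit 104465))
    (p (nat_lit 0x81) (nat_lit 0) (p (nat_lit 0x101) (nat_lit 1) (p (nat_lit 0x119) (nat_lit 0) (p (nat_lit 0xd1) (nat_lit 0) (p (nat_lit 0x89) (nat_lit 0) (p (nat_lit 0x41) (nat_lit 0) (p (nat_lit 0x8a098b090a9a) (nat_lit 0) (p (nat_lit 0x9890a888a1a) (nat_lit 0) (p (nat_lit 0x89088a08079a) (nat_lit 0) (p (nat_lit 0x8880987871a) (nat_lit 0) (p (nat_lit 0x80000800080907088a) (nat_lit 0) (p (nat_lit 0x80000800078886860a) (nat_lit 0) (p (nat_lit 0x8688060782) (nat_lit 0) (p (nat_lit 0x607858702) (nat_lit 0) (p (nat_lit 0x8587050482) (nat_lit 0) (p (nat_lit 0x506848402) (nat_lit 0) (p (nat_lit 0x160014) (nat_lit 0) (p (nat_lit 0x50612) (nat_lit 0) (p (nat_lit 0x40592) (nat_lit 0) (p (nat_lit 0x40492) (nat_lit 0) (p (nat_lit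 0x30412) (nat_lit 0) (p (nat_lit 0x30212) (nat_lit 0) (p (nat_lit 0x20192) (nat_lit 0) (p (nat_lit 0x20092) (nat_lit 0) (p (nat_lit 0x10012) (nat_lit 0) pn))))))))))))))))))))))))) :=
  Cl.node (nat_lit 0xc9) (nat_lit 2) (by decide +kernel) (ClAll.succ (ClAll.succ ClAll.zero s7) n143)

def n177 : Cl (O (nat_lit 3)) (R (nat_lit 104465))
    (p (nat_lit 0x81) (nat_lit 1) (p (nat_lit 0x101) (nat_lit 1) (p (nat_lit 0x119) (nat_lit 0) (p (nat_lit 0xd1) (nat_lit 0) (p (nat_lit 0x89) (nat_lit 0) (p (nat_lit 0x41) (nat_lit 0) (p (nat_lit 0x8a098b090a9a) (nat_lit 0) (p (nat_lit 0x9890a888a1a) (nat_lit 0) (p (nat_lit 0x89088a08079a) (nat_lit 0) (p (nat_lit 0x8880987871a) (nat_lit 0) (p (nat_lit 0x80000800080907088a) (nat_lit 0) (p (nat_lit 0x80000800078886860a) (nat_lit 0) (p (nat_lit 0x8688060782) (nat_lit 0) (p (nat_lit 0x607858702) (nat_lit 0) (p (nat_lit 0x8587050482) (nat_lit 0)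 (p (nat_lit 0x506848402) (nat_lit 0) (p (nat_lit 0x160014) (nat_lit 0) (p (nat_lit 0x50612) (nat_lit 0) (p (nat_lit 0x40592) (nat_lit 0) (p (nat_lit 0x40492) (nat_lit 0) (p (nat_lit 0x30412) (nat_lit 0) (p (nat_lit 0x30212) (nat_lit 0) (p (nat_lit 0x20192) (nat_lit 0) (p (nat_lit 0x20092) (nat_lit 0) (p (nat_lit 0x10012) (nat_lit 0) pn))))))))))))))))))))))))) :=
  Cl.node (nat_lit 0xc1) (nat_lit 2) (by decide +kernel) (ClAll.succ (ClAll.succ ClAll.zero n144) s22)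

def n178 : Cl (O (nat_lit 3)) (R (nat_lit 104465))
    (p (nat_lit 0xc9) (nat_lit 1) (p (nat_lit 0xc1) (nat_lit 0) (p (nat_lit 0x119) (nat_lit 1) (p (nat_lit 0xd1) (nat_lit 0) (p (nat_lit 0x89) (nat_lit 0) (p (nat_lit 0x41) (nat_lit 0) (p (nat_lit 0x8a098b090a9a) (nat_lit 0) (p (nat_lit 0x9890a888a1a) (nat_lit 0) (p (nat_lit 0x89088a08079a) (nat_lit 0) (p (nat_lit 0x8880987871a) (nat_lit 0) (p (nat_lit 0x80000800080907088a) (nat_lit 0) (p (nat_lit 0x80000800078886860a) (nat_lit 0) (p (nat_lit 0x8688060782) (nat_lit 0) (p (nat_lit 0x607858702) (nat_lit 0) (p (nat_lit 0x8587050482) (nat_lit 0) (p (nat_lit 0x506848402) (nat_lit 0) (p (nat_lit 0x160014) (nat_lit 0) (p (nat_lit 0x50612) (nat_lit 0) (p (nat_lit 0x40592) (nat_lit 0) (p (nat_lit 0x40492) (nat_lit 0) (p (nat_lit 0x30412) (nat_lit 0) (p (nat_lit 0x30212) (nat_lit 0) (p (nat_lit 0x20192) (nat_lit 0) (p (nat_lit 0x20092)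 (nat_lit 0) (p (nat_lit 0x10012) (nat_lit 0) pn))))))))))))))))))))))))) :=
  Cl.node (nat_lit 0x109) (nat_lit 2) (by decide +kernel) (ClAll.succ (ClAll.succ ClAll.zero s24) n145)

def n179 : Cl (O (nat_lit 3)) (R (nat_lit 104465))
    (p (nat_lit 0x81) (nat_lit 0) (p (nat_lit 0xc1) (nat_lit 1) (p (nat_lit 0x119) (nat_lit 1) (p (nat_lit 0xd1) (nat_lit 0) (p (nat_lit 0x89) (nat_lit 0) (p (nat_lit 0x41) (nat_lit 0) (p (nat_lit 0x8a098b090a9a) (nat_lit 0) (p (nat_lit 0x9890a888a1a) (nat_lit 0) (p (nat_lit 0x89088a08079a) (nat_lit 0) (p (nat_lit 0x8880987871a) (nat_lit 0) (p (nat_lit 0x80000800080907088a) (nat_lit 0) (p (nat_lit 0x80000800078886860a) (nat_lit 0) (p (nat_lit 0x8688060782) (nat_lit 0) (p (nat_lit 0x607858702) (nat_lit 0) (p (nat_lit 0x8587050482) (nat_lit 0) (p (nat_lit 0x506848402) (nat_lit 0) (p (nat_lit 0x160014) (nat_lit 0) (p (nat_lit 0x50612) (nat_lit 0) (p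 (nat_lit 0x40592) (nat_lit 0) (p (nat_lit 0x40492) (nat_lit 0) (p (nat_lit 0x30412) (nat_lit 0) (p (nat_lit 0x30212) (nat_lit 0) (p (nat_lit 0x20192) (nat_lit 0) (p (nat_lit 0x20092) (nat_lit 0) (p (nat_lit 0x10012) (nat_lit 0) pn))))))))))))))))))))))))) :=
  Cl.node (nat_lit 0x109) (nat_lit 2) (by decide +kernel) (ClAll.succ (ClAll.succ ClAll.zero s27) s28)

def n180 : Cl (O (nat_lit 3)) (R (nat_lit 104465))
    (p (nat_lit 0x81) (nat_lit 1) (p (nat_lit 0xc1) (nat_lit 1) (p (nat_lit 0x119) (nat_lit 1) (p (nat_lit 0xd1) (nat_lit 0) (p (nat_lit 0x89) (nat_lit 0) (p (nat_lit 0x41) (nat_lit 0) (p (nat_lit 0x8a098b090a9a) (nat_lit 0) (p (nat_lit 0x9890a888a1a) (nat_lit 0) (p (nat_lit 0x89088a08079a) (nat_lit 0) (p (nat_lit 0x8880987871a) (nat_lit 0) (p (nat_lit 0x80000800080907088a) (nat_lit 0) (p (nat_lit 0x80000800078886860a) (nat_lit 0) (p (nat_lit 0x8688060782) (nat_lit 0)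 (p (nat_lit 0x607858702) (nat_lit 0) (p (nat_lit 0x8587050482) (nat_lit 0) (p (nat_lit 0x506848402) (nat_lit 0) (p (nat_lit 0x160014) (nat_lit 0) (p (nat_lit 0x50612) (nat_lit 0) (p (nat_lit 0x40592) (nat_lit 0) (p (nat_lit 0x40492) (nat_lit 0) (p (nat_lit 0x30412) (nat_lit 0) (p (nat_lit 0x30212) (nat_lit 0) (p (nat_lit 0x20192) (nat_lit 0) (p (nat_lit 0x20092) (nat_lit 0) (p (nat_lit 0x10012) (nat_lit 0) pn))))))))))))))))))))))))) :=
  Cl.node (nat_lit 0x101) (nat_lit 2) (by decide +kernel) (ClAll.succ (ClAll.succ ClAll.zero n146) s34)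

def n181 : Cl (O (nat_lit 3)) (R (nat_lit 104465))
    (p (nat_lit 0x109) (nat_lit 1) (p (nat_lit 0x101) (nat_lit 0) (p (nat_lit 0x111) (nat_lit 0) (p (nat_lit 0xd1) (nat_lit 1) (p (nat_lit 0x89) (nat_lit 0) (p (nat_lit 0x41) (nat_lit 0) (p (nat_lit 0x8a098b090a9a) (nat_lit 0) (p (nat_lit 0x9890a888a1a) (nat_lit 0) (p (nat_lit 0x89088a08079a) (nat_lit 0) (p (nat_lit 0x8880987871a) (nat_lit 0) (p (nat_lit 0x80000800080907088a) (nat_lit 0) (p (nat_lit 0x80000800078886860a) (nat_lit 0) (p (nat_lit 0x8688060782) (nat_lit 0) (p (nat_lit 0x607858702) (nat_lit 0) (p (nat_lit 0x8587050482) (nat_lit 0) (p (nat_lit 0x506848402) (nat_lit 0) (p (nat_lit 0x160014) (nat_lit 0) (p (nat_lit 0x50612) (nat_lit 0) (p (nat_lit 0x40592) (nat_lit 0) (p (nat_lit 0x40492) (nat_lit 0) (p (nat_lit 0x30412) (nat_lit 0) (p (nat_lit 0x30212) (nat_lit 0) (p (nat_lit 0x20192) (nat_lit 0) (p (nat_lit 0x20092)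 (nat_lit 0) (p (nat_lit 0x10012) (nat_lit 0) pn))))))))))))))))))))))))) :=
  Cl.node (nat_lit 0x200004) (nat_lit 2) (by decide +kernel) (ClAll.succ (ClAll.succ ClAll.zero n147) s40)

def n182 : Cl (O (nat_lit 3)) (R (nat_lit 104465))
    (p (nat_lit 0x81) (nat_lit 0) (p (nat_lit 0x101) (nat_lit 1) (p (nat_lit 0x111) (nat_lit 0) (p (nat_lit 0xd1) (nat_lit 1) (p (nat_lit 0x89) (nat_lit 0) (p (nat_lit 0x41) (nat_lit 0) (p (nat_lit 0x8a098b090a9a) (nat_lit 0) (p (nat_lit 0x9890a888a1a) (nat_lit 0) (p (nat_lit 0x89088a08079a) (nat_lit 0) (p (nat_lit 0x8880987871a) (nat_lit 0) (p (nat_lit 0x80000800080907088a) (nat_lit 0) (p (nat_lit 0x80000800078886860a) (nat_lit 0) (p (nat_lit 0x8688060782) (nat_lit 0) (p (nat_lit 0x607858702) (nat_lit 0) (p (nat_lit 0x8587050482) (nat_lit 0) (p (nat_lit 0x506848402) (nat_lit 0) (p (nat_lit 0x160014) (nat_lit 0) (p (nat_lit 0x50612) (nat_lit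 0) (p (nat_lit 0x40592) (nat_lit 0) (p (nat_lit 0x40492) (nat_lit 0) (p (nat_lit 0x30412) (nat_lit 0) (p (nat_lit 0x30212) (nat_lit 0) (p (nat_lit 0x20192) (nat_lit 0) (p (nat_lit 0x20092) (nat_lit 0) (p (nat_lit 0x10012) (nat_lit 0) pn))))))))))))))))))))))))) :=
  Cl.node (nat_lit 0x200004) (nat_lit 2) (by decide +kernel) (ClAll.succ (ClAll.succ ClAll.zero n148) s44)

def n183 : Cl (O (nat_lit 3)) (R (nat_lit 104465))
    (p (nat_lit 0x81) (nat_lit 1) (p (nat_lit 0x101) (nat_lit 1) (p (nat_lit 0x111) (nat_lit 0) (p (nat_lit 0xd1) (nat_lit 1) (p (nat_lit 0x89) (nat_lit 0) (p (nat_lit 0x41) (nat_lit 0) (p (nat_lit 0x8a098b090a9a) (nat_lit 0) (p (nat_lit 0x9890a888a1a) (nat_lit 0) (p (nat_lit 0x89088a08079a) (nat_lit 0) (p (nat_lit 0x8880987871a) (nat_lit 0) (p (nat_lit 0x80000800080907088a) (nat_lit 0) (p (nat_lit 0x80000800078886860a) (nat_lit 0) (p (nat_lit 0x8688060782)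 (nat_lit 0) (p (nat_lit 0x607858702) (nat_lit 0) (p (nat_lit 0x8587050482) (nat_lit 0) (p (nat_lit 0x506848402) (nat_lit 0) (p (nat_lit 0x160014) (nat_lit 0) (p (nat_lit 0x50612) (nat_lit 0) (p (nat_lit 0x40592) (nat_lit 0) (p (nat_lit 0x40492) (nat_lit 0) (p (nat_lit 0x30412) (nat_lit 0) (p (nat_lit 0x30212) (nat_lit 0) (p (nat_lit 0x20192) (nat_lit 0) (p (nat_lit 0x20092) (nat_lit 0) (p (nat_lit 0x10012) (nat_lit 0) pn))))))))))))))))))))))))) :=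
  Cl.node (nat_lit 0xc1) (nat_lit 2) (by decide +kernel) (ClAll.succ (ClAll.succ ClAll.zero n149) s53)

def n184 : Cl (O (nat_lit 3)) (R (nat_lit 104465))
    (p (nat_lit 0xc1) (nat_lit 1) (p (nat_lit 0x81) (nat_lit 1) (p (nat_lit 0x111) (nat_lit 1) (p (nat_lit 0xd1) (nat_lit 1) (p (nat_lit 0x89) (nat_lit 0) (p (nat_lit 0x41) (nat_lit 0) (p (nat_lit 0x8a098b090a9a) (nat_lit 0) (p (nat_lit 0x9890a888a1a) (nat_lit 0) (p (nat_lit 0x89088a08079a) (nat_lit 0) (p (nat_lit 0x8880987871a) (nat_lit 0) (p (nat_lit 0x80000800080907088a) (nat_lit 0) (p (nat_lit 0x80000800078886860a) (nat_lit 0) (p (nat_lit 0x8688060782) (nat_lit 0) (p (nat_lit 0x607858702) (nat_lit 0) (p (nat_lit 0x8587050482) (nat_lit 0) (p (nat_lit 0x506848402) (nat_lit 0) (p (nat_lit 0x160014) (nat_lit 0) (p (nat_lit 0x50612) (nat_lit 0) (p (nat_lit 0x40592) (nat_lit 0) (p (nat_lit 0x40492) (nat_lit 0) (p (nat_lit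 0x30412) (nat_lit 0) (p (nat_lit 0x30212) (nat_lit 0) (p (nat_lit 0x20192) (nat_lit 0) (p (nat_lit 0x20092) (nat_lit 0) (p (nat_lit 0x10012) (nat_lit 0) pn))))))))))))))))))))))))) :=
  Cl.node (nat_lit 0x101) (nat_lit 2) (by decide +kernel) (ClAll.succ (ClAll.succ ClAll.zero n150) s60)

def n185 : Cl (O (nat_lit 3)) (R (nat_lit 104465))
    (p (nat_lit 0x109) (nat_lit 0) (p (nat_lit 0x101) (nat_lit 0) (p (nat_lit 0x119) (nat_lit 0) (p (nat_lit 0xc9) (nat_lit 0) (p (nat_lit 0x89) (nat_lit 1) (p (nat_lit 0x41) (nat_lit 0) (p (nat_lit 0x8a098b090a9a) (nat_lit 0) (p (nat_lit 0x9890a888a1a) (nat_lit 0) (p (nat_lit 0x89088a08079a) (nat_lit 0) (p (nat_lit 0x8880987871a) (nat_lit 0) (p (nat_lit 0x80000800080907088a) (nat_lit 0) (p (nat_lit 0x80000800078886860a) (nat_lit 0) (p (nat_lit 0x8688060782) (nat_lit 0) (p (nat_lit 0x607858702) (nat_lit 0) (p (nat_lit 0x8587050482) (nat_lit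 0) (p (nat_lit 0x506848402) (nat_lit 0) (p (nat_lit 0x160014) (nat_lit 0) (p (nat_lit 0x50612) (nat_lit 0) (p (nat_lit 0x40592) (nat_lit 0) (p (nat_lit 0x40492) (nat_lit 0) (p (nat_lit 0x30412) (nat_lit 0) (p (nat_lit 0x30212) (nat_lit 0) (p (nat_lit 0x20192) (nat_lit 0) (p (nat_lit 0x20092) (nat_lit 0) (p (nat_lit 0x10012) (nat_lit 0) pn))))))))))))))))))))))))) :=
  Cl.node (nat_lit 0x111) (nat_lit 2) (by decide +kernel) (ClAll.succ (ClAll.succ ClAll.zero s61) n151)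

def n186 : Cl (O (nat_lit 3)) (R (nat_lit 104465))
    (p (nat_lit 0x109) (nat_lit 1) (p (nat_lit 0x101) (nat_lit 0) (p (nat_lit 0x119) (nat_lit 0) (p (nat_lit 0xc9) (nat_lit 0) (p (nat_lit 0x89) (nat_lit 1) (p (nat_lit 0x41) (nat_lit 0) (p (nat_lit 0x8a098b090a9a) (nat_lit 0) (p (nat_lit 0x9890a888a1a) (nat_lit 0) (p (nat_lit 0x89088a08079a) (nat_lit 0) (p (nat_lit 0x8880987871a) (nat_lit 0) (p (nat_lit 0x80000800080907088a) (nat_lit 0) (p (nat_lit 0x80000800078886860a) (nat_lit 0) (p (nat_lit 0x8688060782) (nat_lit 0) (p (nat_lit 0x607858702) (nat_lit 0) (p (nat_lit 0x8587050482) (nat_lit 0) (p (nat_lit 0x506848402) (nat_lit 0) (p (nat_lit 0x160014) (nat_lit 0) (p (nat_lit 0x50612) (nat_lit 0) (p (nat_lit 0x40592) (nat_lit 0) (p (nat_lit 0x40492) (nat_lit 0) (p (nat_lit 0x30412) (nat_lit 0) (p (nat_lit 0x30212) (nat_lit 0) (p (nat_lit 0x20192) (nat_lit 0) (p (nat_lit 0x20092)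 (nat_lit 0) (p (nat_lit 0x10012) (nat_lit 0) pn))))))))))))))))))))))))) :=
  Cl.node (nat_lit 0xd1) (nat_lit 2) (by decide +kernel) (ClAll.succ (ClAll.succ ClAll.zero n152) n153)

def n187 : Cl (O (nat_lit 3)) (R (nat_lit 104465))
    (p (nat_lit 0xc1) (nat_lit 0) (p (nat_lit 0x101) (nat_lit 1) (p (nat_lit 0x119) (nat_lit 0) (p (nat_lit 0xc9) (nat_lit 0) (p (nat_lit 0x89) (nat_lit 1) (p (nat_lit 0x41) (nat_lit 0) (p (nat_lit 0x8a098b090a9a) (nat_lit 0) (p (nat_lit 0x9890a888a1a) (nat_lit 0) (p (nat_lit 0x89088a08079a) (nat_lit 0) (p (nat_lit 0x8880987871a) (nat_lit 0) (p (nat_lit 0x80000800080907088a) (nat_lit 0) (p (nat_lit 0x80000800078886860a) (nat_lit 0) (p (nat_lit 0x8688060782) (nat_lit 0) (p (nat_lit 0x607858702) (nat_lit 0) (p (nat_lit 0x8587050482) (nat_lit 0) (p (nat_lit 0x506848402) (nat_lit 0) (p (nat_lit 0x160014) (nat_lit 0) (p (nat_lit 0x50612) (nat_lit 0)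 (p (nat_lit 0x40592) (nat_lit 0) (p (nat_lit 0x40492) (nat_lit 0) (p (nat_lit 0x30412) (nat_lit 0) (p (nat_lit 0x30212) (nat_lit 0) (p (nat_lit 0x20192) (nat_lit 0) (p (nat_lit 0x20092) (nat_lit 0) (p (nat_lit 0x10012) (nat_lit 0) pn))))))))))))))))))))))))) :=
  Cl.node (nat_lit 0xd1) (nat_lit 2) (by decide +kernel) (ClAll.succ (ClAll.succ ClAll.zero n154) n155)

def n188 : Cl (O (nat_lit 3)) (R (nat_lit 104465))
    (p (nat_lit 0xd1) (nat_lit 1) (p (nat_lit 0xc1) (nat_lit 0) (p (nat_lit 0x119) (nat_lit 1) (p (nat_lit 0xc9) (nat_lit 0) (p (nat_lit 0x89) (nat_lit 1) (p (nat_lit 0x41) (nat_lit 0) (p (nat_lit 0x8a098b090a9a) (nat_lit 0) (p (nat_lit 0x9890a888a1a) (nat_lit 0) (p (nat_lit 0x89088a08079a) (nat_lit 0) (p (nat_lit 0x8880987871a) (nat_lit 0) (p (nat_lit 0x80000800080907088a) (nat_lit 0) (p (nat_lit 0x80000800078886860a) (nat_lit 0) (p (nat_lit 0x8688060782) (nat_lit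 0) (p (nat_lit 0x607858702) (nat_lit 0) (p (nat_lit 0x8587050482) (nat_lit 0) (p (nat_lit 0x506848402) (nat_lit 0) (p (nat_lit 0x160014) (nat_lit 0) (p (nat_lit 0x50612) (nat_lit 0) (p (nat_lit 0x40592) (nat_lit 0) (p (nat_lit 0x40492) (nat_lit 0) (p (nat_lit 0x30412) (nat_lit 0) (p (nat_lit 0x30212) (nat_lit 0) (p (nat_lit 0x20192) (nat_lit 0) (p (nat_lit 0x20092) (nat_lit 0) (p (nat_lit 0x10012) (nat_lit 0) pn))))))))))))))))))))))))) :=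
  Cl.node (nat_lit 0x111) (nat_lit 2) (by decide +kernel) (ClAll.succ (ClAll.succ ClAll.zero s104) n156)

def n189 : Cl (O (nat_lit 3)) (R (nat_lit 104465))
    (p (nat_lit 0x101) (nat_lit 0) (p (nat_lit 0xc1) (nat_lit 1) (p (nat_lit 0x119) (nat_lit 1) (p (nat_lit 0xc9) (nat_lit 0) (p (nat_lit 0x89) (nat_lit 1) (p (nat_lit 0x41) (nat_lit 0) (p (nat_lit 0x8a098b090a9a) (nat_lit 0) (p (nat_lit 0x9890a888a1a) (nat_lit 0) (p (nat_lit 0x89088a08079a) (nat_lit 0) (p (nat_lit 0x8880987871a) (nat_lit 0) (p (nat_lit 0x80000800080907088a) (nat_lit 0) (p (nat_lit 0x80000800078886860a) (nat_lit 0) (p (nat_lit 0x8688060782) (nat_lit 0) (p (nat_lit 0x607858702) (nat_lit 0) (p (nat_lit 0x8587050482) (nat_lit 0) (p (nat_lit 0x506848402) (nat_lit 0) (p (nat_lit 0x160014) (nat_lit 0) (p (nat_lit 0x50612) (nat_lit 0) (p (nat_lit 0x40592) (nat_lit 0) (p (nat_lit 0x40492) (nat_lit 0) (p (nat_lit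 0x30412) (nat_lit 0) (p (nat_lit 0x30212) (nat_lit 0) (p (nat_lit 0x20192) (nat_lit 0) (p (nat_lit 0x20092) (nat_lit 0) (p (nat_lit 0x10012) (nat_lit 0) pn))))))))))))))))))))))))) :=
  Cl.node (nat_lit 0x111) (nat_lit 2) (by decide +kernel) (ClAll.succ (ClAll.succ ClAll.zero s111) n157)

def n190 : Cl (O (nat_lit 3)) (R (nat_lit 104465))
    (p (nat_lit 0x111) (nat_lit 0) (p (nat_lit 0x101) (nat_lit 0) (p (nat_lit 0x109) (nat_lit 0) (p (nat_lit 0xc9) (nat_lit 1) (p (nat_lit 0x89) (nat_lit 1) (p (nat_lit 0x41) (nat_lit 0) (p (nat_lit 0x8a098b090a9a) (nat_lit 0) (p (nat_lit 0x9890a888a1a) (nat_lit 0) (p (nat_lit 0x89088a08079a) (nat_lit 0) (p (nat_lit 0x8880987871a) (nat_lit 0) (p (nat_lit 0x80000800080907088a) (nat_lit 0) (p (nat_lit 0x80000800078886860a) (nat_lit 0) (p (nat_lit 0x8688060782) (nat_lit 0) (p (nat_lit 0x607858702) (nat_lit 0) (p (nat_lit 0x8587050482) (nat_lit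 0) (p (nat_lit 0x506848402) (nat_lit 0) (p (nat_lit 0x160014) (nat_lit 0) (p (nat_lit 0x50612) (nat_lit 0) (p (nat_lit 0x40592) (nat_lit 0) (p (nat_lit 0x40492) (nat_lit 0) (p (nat_lit 0x30412) (nat_lit 0) (p (nat_lit 0x30212) (nat_lit 0) (p (nat_lit 0x20192) (nat_lit 0) (p (nat_lit 0x20092) (nat_lit 0) (p (nat_lit 0x10012) (nat_lit 0) pn))))))))))))))))))))))))) :=
  Cl.node (nat_lit 0x119) (nat_lit 2) (by decide +kernel) (ClAll.succ (ClAll.succ ClAll.zero s122) n158)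

def n191 : Cl (O (nat_lit 3)) (R (nat_lit 104465))
    (p (nat_lit 0x109) (nat_lit 1) (p (nat_lit 0x101) (nat_lit 0) (p (nat_lit 0x119) (nat_lit 0) (p (nat_lit 0xd1) (nat_lit 0) (p (nat_lit 0x81) (nat_lit 0) (p (nat_lit 0x41) (nat_lit 1) (p (nat_lit 0x8a098b090a9a) (nat_lit 0) (p (nat_lit 0x9890a888a1a) (nat_lit 0) (p (nat_lit 0x89088a08079a) (nat_lit 0) (p (nat_lit 0x8880987871a) (nat_lit 0) (p (nat_lit 0x80000800080907088a) (nat_lit 0) (p (nat_lit 0x80000800078886860a) (nat_lit 0) (p (nat_lit 0x8688060782) (nat_lit 0) (p (nat_lit 0x607858702) (nat_lit 0) (p (nat_lit 0x8587050482) (nat_lit 0) (p (nat_lit 0x506848402) (nat_lit 0) (p (nat_lit 0x160014) (nat_lit 0) (p (nat_lit 0x50612) (nat_lit 0) (p (nat_lit 0x40592) (nat_lit 0) (p (nat_lit 0x40492) (nat_lit 0) (p (nat_lit 0x30412) (nat_lit 0) (p (nat_lit 0x30212) (nat_lit 0) (p (nat_lit 0x20192) (nat_lit 0) (p (nat_lit 0x20092)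 (nat_lit 0) (p (nat_lit 0x10012) (nat_lit 0) pn))))))))))))))))))))))))) :=
  Cl.node (nat_lit 0x89) (nat_lit 2) (by decide +kernel) (ClAll.succ (ClAll.succ ClAll.zero n159) n160)

def n192 : Cl (O (nat_lit 3)) (R (nat_lit 104465))
    (p (nat_lit 0xc1) (nat_lit 0) (p (nat_lit 0x101) (nat_lit 1) (p (nat_lit 0x119) (nat_lit 0) (p (nat_lit 0xd1) (nat_lit 0) (p (nat_lit 0x81) (nat_lit 0) (p (nat_lit 0x41) (nat_lit 1) (p (nat_lit 0x8a098b090a9a) (nat_lit 0) (p (nat_lit 0x9890a888a1a) (nat_lit 0) (p (nat_lit 0x89088a08079a) (nat_lit 0) (p (nat_lit 0x8880987871a) (nat_lit 0) (p (nat_lit 0x80000800080907088a) (nat_lit 0) (p (nat_lit 0x80000800078886860a) (nat_lit 0) (p (nat_lit 0x8688060782) (nat_lit 0) (p (nat_lit 0x607858702) (nat_lit 0) (p (nat_lit 0x8587050482) (nat_lit 0) (p (nat_lit 0x506848402) (nat_lit 0) (p (nat_lit 0x160014) (nat_lit 0) (p (nat_lit 0x50612) (nat_lit 0)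 (p (nat_lit 0x40592) (nat_lit 0) (p (nat_lit 0x40492) (nat_lit 0) (p (nat_lit 0x30412) (nat_lit 0) (p (nat_lit 0x30212) (nat_lit 0) (p (nat_lit 0x20192) (nat_lit 0) (p (nat_lit 0x20092) (nat_lit 0) (p (nat_lit 0x10012) (nat_lit 0) pn))))))))))))))))))))))))) :=
  Cl.node (nat_lit 0x89) (nat_lit 2) (by decide +kernel) (ClAll.succ (ClAll.succ ClAll.zero s139) n161)

def n193 : Cl (O (nat_lit 3)) (R (nat_lit 104465))
    (p (nat_lit 0xc1) (nat_lit 1) (p (nat_lit 0x101) (nat_lit 1) (p (nat_lit 0x119) (nat_lit 0) (p (nat_lit 0xd1) (nat_lit 0) (p (nat_lit 0x81) (nat_lit 0) (p (nat_lit 0x41) (nat_lit 1) (p (nat_lit 0x8a098b090a9a) (nat_lit 0) (p (nat_lit 0x9890a888a1a) (nat_lit 0) (p (nat_lit 0x89088a08079a) (nat_lit 0) (p (nat_lit 0x8880987871a) (nat_lit 0) (p (nat_lit 0x80000800080907088a) (nat_lit 0) (p (nat_lit 0x80000800078886860a) (nat_lit 0) (p (nat_lit 0x8688060782) (nat_lit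 0) (p (nat_lit 0x607858702) (nat_lit 0) (p (nat_lit 0x8587050482) (nat_lit 0) (p (nat_lit 0x506848402) (nat_lit 0) (p (nat_lit 0x160014) (nat_lit 0) (p (nat_lit 0x50612) (nat_lit 0) (p (nat_lit 0x40592) (nat_lit 0) (p (nat_lit 0x40492) (nat_lit 0) (p (nat_lit 0x30412) (nat_lit 0) (p (nat_lit 0x30212) (nat_lit 0) (p (nat_lit 0x20192) (nat_lit 0) (p (nat_lit 0x20092) (nat_lit 0) (p (nat_lit 0x10012) (nat_lit 0) pn))))))))))))))))))))))))) :=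
  Cl.node (nat_lit 0x89) (nat_lit 2) (by decide +kernel) (ClAll.succ (ClAll.succ ClAll.zero n162) n163)

def n194 : Cl (O (nat_lit 3)) (R (nat_lit 104465))
    (p (nat_lit 0xc9) (nat_lit 1) (p (nat_lit 0xc1) (nat_lit 0) (p (nat_lit 0x119) (nat_lit 1) (p (nat_lit 0xd1) (nat_lit 0) (p (nat_lit 0x81) (nat_lit 0) (p (nat_lit 0x41) (nat_lit 1) (p (nat_lit 0x8a098b090a9a) (nat_lit 0) (p (nat_lit 0x9890a888a1a) (nat_lit 0) (p (nat_lit 0x89088a08079a) (nat_lit 0) (p (nat_lit 0x8880987871a) (nat_lit 0) (p (nat_lit 0x80000800080907088a) (nat_lit 0) (p (nat_lit 0x80000800078886860a) (nat_lit 0) (p (nat_lit 0x8688060782) (nat_lit 0) (p (nat_lit 0x607858702) (nat_lit 0) (p (nat_lit 0x8587050482) (nat_lit 0) (p (nat_lit 0x506848402) (nat_lit 0) (p (nat_lit 0x160014) (nat_lit 0) (p (nat_lit 0x50612) (nat_lit 0) (p (nat_lit 0x40592) (nat_lit 0) (p (nat_lit 0x40492) (nat_lit 0) (p (nat_lit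 0x30412) (nat_lit 0) (p (nat_lit 0x30212) (nat_lit 0) (p (nat_lit 0x20192) (nat_lit 0) (p (nat_lit 0x20092) (nat_lit 0) (p (nat_lit 0x10012) (nat_lit 0) pn))))))))))))))))))))))))) :=
  Cl.node (nat_lit 0x89) (nat_lit 2) (by decide +kernel) (ClAll.succ (ClAll.succ ClAll.zero s157) n164)

def n195 : Cl (O (nat_lit 3)) (R (nat_lit 104465))
    (p (nat_lit 0x101) (nat_lit 0) (p (nat_lit 0xc1) (nat_lit 1) (p (nat_lit 0x119) (nat_lit 1) (p (nat_lit 0xd1) (nat_lit 0) (p (nat_lit 0x81) (nat_lit 0) (p (nat_lit 0x41) (nat_lit 1) (p (nat_lit 0x8a098b090a9a) (nat_lit 0) (p (nat_lit 0x9890a888a1a) (nat_lit 0) (p (nat_lit 0x89088a08079a) (nat_lit 0) (p (nat_lit 0x8880987871a) (nat_lit 0) (p (nat_lit 0x80000800080907088a) (nat_lit 0) (p (nat_lit 0x80000800078886860a) (nat_lit 0) (p (nat_lit 0x8688060782) (nat_lit 0) (p (nat_lit 0x607858702) (nat_lit 0) (p (nat_lit 0x8587050482) (nat_lit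 0) (p (nat_lit 0x506848402) (nat_lit 0) (p (nat_lit 0x160014) (nat_lit 0) (p (nat_lit 0x50612) (nat_lit 0) (p (nat_lit 0x40592) (nat_lit 0) (p (nat_lit 0x40492) (nat_lit 0) (p (nat_lit 0x30412) (nat_lit 0) (p (nat_lit 0x30212) (nat_lit 0) (p (nat_lit 0x20192) (nat_lit 0) (p (nat_lit 0x20092) (nat_lit 0) (p (nat_lit 0x10012) (nat_lit 0) pn))))))))))))))))))))))))) :=
  Cl.node (nat_lit 0x89) (nat_lit 2) (by decide +kernel) (ClAll.succ (ClAll.succ ClAll.zero s160) n165)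

def n196 : Cl (O (nat_lit 3)) (R (nat_lit 104465))
    (p (nat_lit 0x101) (nat_lit 1) (p (nat_lit 0xc1) (nat_lit 1) (p (nat_lit 0x119) (nat_lit 1) (p (nat_lit 0xd1) (nat_lit 0) (p (nat_lit 0x81) (nat_lit 0) (p (nat_lit 0x41) (nat_lit 1) (p (nat_lit 0x8a098b090a9a) (nat_lit 0) (p (nat_lit 0x9890a888a1a) (nat_lit 0) (p (nat_lit 0x89088a08079a) (nat_lit 0) (p (nat_lit 0x8880987871a) (nat_lit 0) (p (nat_lit 0x80000800080907088a) (nat_lit 0) (p (nat_lit 0x80000800078886860a) (nat_lit 0) (p (nat_lit 0x8688060782) (nat_lit 0) (p (nat_lit 0x607858702) (nat_lit 0) (p (nat_lit 0x8587050482) (nat_lit 0) (p (nat_lit 0x506848402) (nat_lit 0) (p (nat_lit 0x160014) (nat_lit 0) (p (nat_lit 0x50612) (nat_lit 0) (p (nat_lit 0x40592) (nat_lit 0) (p (nat_lit 0x40492) (nat_lit 0) (p (nat_lit 0x30412) (nat_lit 0) (p (nat_lit 0x30212) (nat_lit 0) (p (nat_lit 0x20192) (nat_lit 0) (p (nat_lit 0x20092)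 (nat_lit 0) (p (nat_lit 0x10012) (nat_lit 0) pn))))))))))))))))))))))))) :=
  Cl.node (nat_lit 0x89) (nat_lit 2) (by decide +kernel) (ClAll.succ (ClAll.succ ClAll.zero s164) n166)

def n197 : Cl (O (nat_lit 3)) (R (nat_lit 104465))
    (p (nat_lit 0x109) (nat_lit 1) (p (nat_lit 0x101) (nat_lit 0) (p (nat_lit 0x111) (nat_lit 0) (p (nat_lit 0xd1) (nat_lit 1) (p (nat_lit 0x81) (nat_lit 0) (p (nat_lit 0x41) (nat_lit 1) (p (nat_lit 0x8a098b090a9a) (nat_lit 0) (p (nat_lit 0x9890a888a1a) (nat_lit 0) (p (nat_lit 0x89088a08079a) (nat_lit 0) (p (nat_lit 0x8880987871a) (nat_lit 0) (p (nat_lit 0x80000800080907088a) (nat_lit 0) (p (nat_lit 0x80000800078886860a) (nat_lit 0) (p (nat_lit 0x8688060782) (nat_lit 0) (p (nat_lit 0x607858702) (nat_lit 0) (p (nat_lit 0x8587050482) (nat_lit 0) (p (nat_lit 0x506848402) (nat_lit 0) (p (nat_lit 0x160014) (nat_lit 0) (p (nat_lit 0x50612) (nat_lit 0)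 (p (nat_lit 0x40592) (nat_lit 0) (p (nat_lit 0x40492) (nat_lit 0) (p (nat_lit 0x30412) (nat_lit 0) (p (nat_lit 0x30212) (nat_lit 0) (p (nat_lit 0x20192) (nat_lit 0) (p (nat_lit 0x20092) (nat_lit 0) (p (nat_lit 0x10012) (nat_lit 0) pn))))))))))))))))))))))))) :=
  Cl.node (nat_lit 0x89) (nat_lit 2) (by decide +kernel) (ClAll.succ (ClAll.succ ClAll.zero s171) n167)

def n198 : Cl (O (nat_lit 3)) (R (nat_lit 104465))
    (p (nat_lit 0x89) (nat_lit 0) (p (nat_lit 0x101) (nat_lit 1) (p (nat_lit 0x111) (nat_lit 0) (p (nat_lit 0xd1) (nat_lit 1) (p (nat_lit 0x81) (nat_lit 0) (p (nat_lit 0x41) (nat_lit 1) (p (nat_lit 0x8a098b090a9a) (nat_lit 0) (p (nat_lit 0x9890a888a1a) (nat_lit 0) (p (nat_lit 0x89088a08079a) (nat_lit 0) (p (nat_lit 0x8880987871a) (nat_lit 0) (p (nat_lit 0x80000800080907088a) (nat_lit 0) (p (nat_lit 0x80000800078886860a) (nat_lit 0) (p (nat_lit 0x8688060782) (nat_lit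 0) (p (nat_lit 0x607858702) (nat_lit 0) (p (nat_lit 0x8587050482) (nat_lit 0) (p (nat_lit 0x506848402) (nat_lit 0) (p (nat_lit 0x160014) (nat_lit 0) (p (nat_lit 0x50612) (nat_lit 0) (p (nat_lit 0x40592) (nat_lit 0) (p (nat_lit 0x40492) (nat_lit 0) (p (nat_lit 0x30412) (nat_lit 0) (p (nat_lit 0x30212) (nat_lit 0) (p (nat_lit 0x20192) (nat_lit 0) (p (nat_lit 0x20092) (nat_lit 0) (p (nat_lit 0x10012) (nat_lit 0) pn))))))))))))))))))))))))) :=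
  Cl.node (nat_lit 0x200004) (nat_lit 2) (by decide +kernel) (ClAll.succ (ClAll.succ ClAll.zero n168) s182)

def n199 : Cl (O (nat_lit 3)) (R (nat_lit 104465))
    (p (nat_lit 0x89) (nat_lit 1) (p (nat_lit 0x101) (nat_lit 1) (p (nat_lit 0x111) (nat_lit 0) (p (nat_lit 0xd1) (nat_lit 1) (p (nat_lit 0x81) (nat_lit 0) (p (nat_lit 0x41) (nat_lit 1) (p (nat_lit 0x8a098b090a9a) (nat_lit 0) (p (nat_lit 0x9890a888a1a) (nat_lit 0) (p (nat_lit 0x89088a08079a) (nat_lit 0) (p (nat_lit 0x8880987871a) (nat_lit 0) (p (nat_lit 0x80000800080907088a) (nat_lit 0) (p (nat_lit 0x80000800078886860a) (nat_lit 0) (p (nat_lit 0x8688060782) (nat_lit 0) (p (nat_lit 0x607858702) (nat_lit 0) (p (nat_lit 0x8587050482) (nat_lit 0) (p (nat_lit 0x506848402) (nat_lit 0) (p (nat_lit 0x160014) (nat_lit 0) (p (nat_lit 0x50612) (nat_lit 0) (p (nat_lit 0x40592) (nat_lit 0) (p (nat_lit 0x40492) (nat_lit 0) (p (nat_lit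 0x30412) (nat_lit 0) (p (nat_lit 0x30212) (nat_lit 0) (p (nat_lit 0x20192) (nat_lit 0) (p (nat_lit 0x20092) (nat_lit 0) (p (nat_lit 0x10012) (nat_lit 0) pn))))))))))))))))))))))))) :=
  Cl.node (nat_lit 0xc9) (nat_lit 2) (by decide +kernel) (ClAll.succ (ClAll.succ ClAll.zero n169) s196)

def n200 : Cl (O (nat_lit 3)) (R (nat_lit 104465))
    (p (nat_lit 0xc9) (nat_lit 1) (p (nat_lit 0x89) (nat_lit 1) (p (nat_lit 0x111) (nat_lit 1) (p (nat_lit 0xd1) (nat_lit 1) (p (nat_lit 0x81) (nat_lit 0) (p (nat_lit 0x41) (nat_lit 1) (p (nat_lit 0x8a098b090a9a) (nat_lit 0) (p (nat_lit 0x9890a888a1a) (nat_lit 0) (p (nat_lit 0x89088a08079a) (nat_lit 0) (p (nat_lit 0x8880987871a) (nat_lit 0) (p (nat_lit 0x80000800080907088a) (nat_lit 0) (p (nat_lit 0x80000800078886860a) (nat_lit 0) (p (nat_lit 0x8688060782) (nat_lit 0) (p (nat_lit 0x607858702) (nat_lit 0) (p (nat_lit 0x8587050482) (nat_lit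 0) (p (nat_lit 0x506848402) (nat_lit 0) (p (nat_lit 0x160014) (nat_lit 0) (p (nat_lit 0x50612) (nat_lit 0) (p (nat_lit 0x40592) (nat_lit 0) (p (nat_lit 0x40492) (nat_lit 0) (p (nat_lit 0x30412) (nat_lit 0) (p (nat_lit 0x30212) (nat_lit 0) (p (nat_lit 0x20192) (nat_lit 0) (p (nat_lit 0x20092) (nat_lit 0) (p (nat_lit 0x10012) (nat_lit 0) pn))))))))))))))))))))))))) :=
  Cl.node (nat_lit 0x109) (nat_lit 2) (by decide +kernel) (ClAll.succ (ClAll.succ ClAll.zero n170) s203)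

def n201 : Cl (O (nat_lit 3)) (R (nat_lit 104465))
    (p (nat_lit 0x109) (nat_lit 0) (p (nat_lit 0x101) (nat_lit 0) (p (nat_lit 0x119) (nat_lit 0) (p (nat_lit 0xc1) (nat_lit 0) (p (nat_lit 0x81) (nat_lit 1) (p (nat_lit 0x41) (nat_lit 1) (p (nat_lit 0x8a098b090a9a) (nat_lit 0) (p (nat_lit 0x9890a888a1a) (nat_lit 0) (p (nat_lit 0x89088a08079a) (nat_lit 0) (p (nat_lit 0x8880987871a) (nat_lit 0) (p (nat_lit 0x80000800080907088a) (nat_lit 0) (p (nat_lit 0x80000800078886860a) (nat_lit 0) (p (nat_lit 0x8688060782) (nat_lit 0) (p (nat_lit 0x607858702) (nat_lit 0) (p (nat_lit 0x8587050482) (nat_lit 0) (p (nat_lit 0x506848402) (nat_lit 0) (p (nat_lit 0x160014) (nat_lit 0) (p (nat_lit 0x50612) (nat_lit 0) (p (nat_lit 0x40592) (nat_lit 0) (p (nat_lit 0x40492) (nat_lit 0) (p (nat_lit 0x30412) (nat_lit 0) (p (nat_lit 0x30212) (nat_lit 0) (p (nat_lit 0x20192) (nat_lit 0) (p (nat_lit 0x20092)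 (nat_lit 0) (p (nat_lit 0x10012) (nat_lit 0) pn))))))))))))))))))))))))) :=
  Cl.node (nat_lit 0x111) (nat_lit 2) (by decide +kernel) (ClAll.succ (ClAll.succ ClAll.zero s204) n171)

def n202 : Cl (O (nat_lit 3)) (R (nat_lit 104465))
    (p (nat_lit 0x109) (nat_lit 1) (p (nat_lit 0x101) (nat_lit 0) (p (nat_lit 0x119) (nat_lit 0) (p (nat_lit 0xc1) (nat_lit 0) (p (nat_lit 0x81) (nat_lit 1) (p (nat_lit 0x41) (nat_lit 1) (p (nat_lit 0x8a098b090a9a) (nat_lit 0) (p (nat_lit 0x9890a888a1a) (nat_lit 0) (p (nat_lit 0x89088a08079a) (nat_lit 0) (p (nat_lit 0x8880987871a) (nat_lit 0) (p (nat_lit 0x80000800080907088a) (nat_lit 0) (p (nat_lit 0x80000800078886860a) (nat_lit 0) (p (nat_lit 0x8688060782) (nat_lit 0) (p (nat_lit 0x607858702) (nat_lit 0) (p (nat_lit 0x8587050482) (nat_lit 0) (p (nat_lit 0x506848402) (nat_lit 0) (p (nat_lit 0x160014) (nat_lit 0) (p (nat_lit 0x50612) (nat_lit 0)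 (p (nat_lit 0x40592) (nat_lit 0) (p (nat_lit 0x40492) (nat_lit 0) (p (nat_lit 0x30412) (nat_lit 0) (p (nat_lit 0x30212) (nat_lit 0) (p (nat_lit 0x20192) (nat_lit 0) (p (nat_lit 0x20092) (nat_lit 0) (p (nat_lit 0x10012) (nat_lit 0) pn))))))))))))))))))))))))) :=
  Cl.node (nat_lit 0xc9) (nat_lit 2) (by decide +kernel) (ClAll.succ (ClAll.succ ClAll.zero s208) s209)

def n203 : Cl (O (nat_lit 3)) (R (nat_lit 104465))
    (p (nat_lit 0xc9) (nat_lit 0) (p (nat_lit 0x101) (nat_lit 1) (p (nat_lit 0x119) (nat_lit 0) (p (nat_lit 0xc1) (nat_lit 0) (p (nat_lit 0x81) (nat_lit 1) (p (nat_lit 0x41) (nat_lit 1) (p (nat_lit 0x8a098b090a9a) (nat_lit 0) (p (nat_lit 0x9890a888a1a) (nat_lit 0) (p (nat_lit 0x89088a08079a) (nat_lit 0) (p (nat_lit 0x8880987871a) (nat_lit 0) (p (nat_lit 0x80000800080907088a) (nat_lit 0) (p (nat_lit 0x80000800078886860a) (nat_lit 0) (p (nat_lit 0x8688060782) (nat_lit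 0) (p (nat_lit 0x607858702) (nat_lit 0) (p (nat_lit 0x8587050482) (nat_lit 0) (p (nat_lit 0x506848402) (nat_lit 0) (p (nat_lit 0x160014) (nat_lit 0) (p (nat_lit 0x50612) (nat_lit 0) (p (nat_lit 0x40592) (nat_lit 0) (p (nat_lit 0x40492) (nat_lit 0) (p (nat_lit 0x30412) (nat_lit 0) (p (nat_lit 0x30212) (nat_lit 0) (p (nat_lit 0x20192) (nat_lit 0) (p (nat_lit 0x20092) (nat_lit 0) (p (nat_lit 0x10012) (nat_lit 0) pn))))))))))))))))))))))))) :=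
  Cl.node (nat_lit 0xd1) (nat_lit 2) (by decide +kernel) (ClAll.succ (ClAll.succ ClAll.zero n172) n173)

def n204 : Cl (O (nat_lit 3)) (R (nat_lit 104465))
    (p (nat_lit 0x109) (nat_lit 0) (p (nat_lit 0xc9) (nat_lit 1) (p (nat_lit 0x119) (nat_lit 1) (p (nat_lit 0xc1) (nat_lit 0) (p (nat_lit 0x81) (nat_lit 1) (p (nat_lit 0x41) (nat_lit 1) (p (nat_lit 0x8a098b090a9a) (nat_lit 0) (p (nat_lit 0x9890a888a1a) (nat_lit 0) (p (nat_lit 0x89088a08079a) (nat_lit 0) (p (nat_lit 0x8880987871a) (nat_lit 0) (p (nat_lit 0x80000800080907088a) (nat_lit 0) (p (nat_lit 0x80000800078886860a) (nat_lit 0) (p (nat_lit 0x8688060782) (nat_lit 0) (p (nat_lit 0x607858702) (nat_lit 0) (p (nat_lit 0x8587050482) (nat_lit 0) (p (nat_lit 0x506848402) (nat_lit 0) (p (nat_lit 0x160014) (nat_lit 0) (p (nat_lit 0x50612) (nat_lit 0) (p (nat_lit 0x40592) (nat_lit 0) (p (nat_lit 0x40492) (nat_lit 0) (p (nat_lit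 0x30412) (nat_lit 0) (p (nat_lit 0x30212) (nat_lit 0) (p (nat_lit 0x20192) (nat_lit 0) (p (nat_lit 0x20092) (nat_lit 0) (p (nat_lit 0x10012) (nat_lit 0) pn))))))))))))))))))))))))) :=
  Cl.node (nat_lit 0x111) (nat_lit 2) (by decide +kernel) (ClAll.succ (ClAll.succ ClAll.zero s218) n174)

def n205 : Cl (O (nat_lit 3)) (R (nat_lit 104465))
    (p (nat_lit 0x101) (nat_lit 0) (p (nat_lit 0x119) (nat_lit 0) (p (nat_lit 0xd1) (nat_lit 0) (p (nat_lit 0x89) (nat_lit 0) (p (nat_lit 0x41) (nat_lit 0) (p (nat_lit 0x8a098b090a9a) (nat_lit 0) (p (nat_lit 0x9890a888a1a) (nat_lit 0) (p (nat_lit 0x89088a08079a) (nat_lit 0) (p (nat_lit 0x8880987871a) (nat_lit 0) (p (nat_lit 0x80000800080907088a) (nat_lit 0) (p (nat_lit 0x80000800078886860a) (nat_lit 0) (p (nat_lit 0x8688060782) (nat_lit 0) (p (nat_lit 0x607858702) (nat_lit 0) (p (nat_lit 0x8587050482) (nat_lit 0) (p (nat_lit 0x506848402)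 (nat_lit 0) (p (nat_lit 0x160014) (nat_lit 0) (p (nat_lit 0x50612) (nat_lit 0) (p (nat_lit 0x40592) (nat_lit 0) (p (nat_lit 0x40492) (nat_lit 0) (p (nat_lit 0x30412) (nat_lit 0) (p (nat_lit 0x30212) (nat_lit 0) (p (nat_lit 0x20192) (nat_lit 0) (p (nat_lit 0x20092) (nat_lit 0) (p (nat_lit 0x10012) (nat_lit 0) pn)))))))))))))))))))))))) :=
  Cl.node (nat_lit 0x109) (nat_lit 2) (by decide +kernel) (ClAll.succ (ClAll.succ ClAll.zero s0) n175)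

def n206 : Cl (O (nat_lit 3)) (R (nat_lit 104465))
    (p (nat_lit 0x101) (nat_lit 1) (p (nat_lit 0x119) (nat_lit 0) (p (nat_lit 0xd1) (nat_lit 0) (p (nat_lit 0x89) (nat_lit 0) (p (nat_lit 0x41) (nat_lit 0) (p (nat_lit 0x8a098b090a9a) (nat_lit 0) (p (nat_lit 0x9890a888a1a) (nat_lit 0) (p (nat_lit 0x89088a08079a) (nat_lit 0) (p (nat_lit 0x8880987871a) (nat_lit 0) (p (nat_lit 0x80000800080907088a) (nat_lit 0) (p (nat_lit 0x80000800078886860a) (nat_lit 0) (p (nat_lit 0x8688060782) (nat_lit 0) (p (nat_lit 0x607858702) (nat_lit 0) (p (nat_lit 0x8587050482) (nat_lit 0) (p (nat_lit 0x506848402) (nat_lit 0) (p (nat_lit 0x160014) (nat_lit 0) (p (nat_lit 0x50612) (nat_lit 0) (p (nat_lit 0x40592) (nat_lit 0) (p (nat_lit 0x40492) (nat_lit 0) (p (nat_lit 0x30412) (nat_lit 0) (p (nat_lit 0x30212) (nat_lit 0) (p (nat_lit 0x20192) (nat_lit 0) (p (nat_lit 0x20092) (nat_lit 0) (p (nat_lit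 0x10012) (nat_lit 0) pn)))))))))))))))))))))))) :=
  Cl.node (nat_lit 0x81) (nat_lit 2) (by decide +kernel) (ClAll.succ (ClAll.succ ClAll.zero n176) n177)

def n207 : Cl (O (nat_lit 3)) (R (nat_lit 104465))
    (p (nat_lit 0xc1) (nat_lit 0) (p (nat_lit 0x119) (nat_lit 1) (p (nat_lit 0xd1) (nat_lit 0) (p (nat_lit 0x89) (nat_lit 0) (p (nat_lit 0x41) (nat_lit 0) (p (nat_lit 0x8a098b090a9a) (nat_lit 0) (p (nat_lit 0x9890a888a1a) (nat_lit 0) (p (nat_lit 0x89088a08079a) (nat_lit 0) (p (nat_lit 0x8880987871a) (nat_lit 0) (p (nat_lit 0x80000800080907088a) (nat_lit 0) (p (nat_lit 0x80000800078886860a) (nat_lit 0) (p (nat_lit 0x8688060782) (nat_lit 0) (p (nat_lit 0x607858702) (nat_lit 0) (p (nat_lit 0x8587050482) (nat_lit 0) (p (nat_lit 0x506848402) (nat_lit 0) (p (nat_lit 0x160014) (nat_lit 0) (p (nat_lit 0x50612) (nat_lit 0) (p (nat_lit 0x40592) (nat_lit 0) (p (nat_lit 0x40492) (nat_lit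 0) (p (nat_lit 0x30412) (nat_lit 0) (p (nat_lit 0x30212) (nat_lit 0) (p (nat_lit 0x20192) (nat_lit 0) (p (nat_lit 0x20092) (nat_lit 0) (p (nat_lit 0x10012) (nat_lit 0) pn)))))))))))))))))))))))) :=
  Cl.node (nat_lit 0xc9) (nat_lit 2) (by decide +kernel) (ClAll.succ (ClAll.succ ClAll.zero s23) n178)

def n208 : Cl (O (nat_lit 3)) (R (nat_lit 104465))
    (p (nat_lit 0xc1) (nat_lit 1) (p (nat_lit 0x119) (nat_lit 1) (p (nat_lit 0xd1) (nat_lit 0) (p (nat_lit 0x89) (nat_lit 0) (p (nat_lit 0x41) (nat_lit 0) (p (nat_lit 0x8a098b090a9a) (nat_lit 0) (p (nat_lit 0x9890a888a1a) (nat_lit 0) (p (nat_lit 0x89088a08079a) (nat_lit 0) (p (nat_lit 0x8880987871a) (nat_lit 0) (p (nat_lit 0x80000800080907088a) (nat_lit 0) (p (nat_lit 0x80000800078886860a) (nat_lit 0) (p (nat_lit 0x8688060782) (nat_lit 0) (p (nat_lit 0x607858702) (nat_lit 0) (p (nat_lit 0x8587050482) (nat_lit 0) (p (nat_lit 0x506848402)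 (nat_lit 0) (p (nat_lit 0x160014) (nat_lit 0) (p (nat_lit 0x50612) (nat_lit 0) (p (nat_lit 0x40592) (nat_lit 0) (p (nat_lit 0x40492) (nat_lit 0) (p (nat_lit 0x30412) (nat_lit 0) (p (nat_lit 0x30212) (nat_lit 0) (p (nat_lit 0x20192) (nat_lit 0) (p (nat_lit 0x20092) (nat_lit 0) (p (nat_lit 0x10012) (nat_lit 0) pn)))))))))))))))))))))))) :=
  Cl.node (nat_lit 0x81) (nat_lit 2) (by decide +kernel) (ClAll.succ (ClAll.succ ClAll.zero n179) n180)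

def n209 : Cl (O (nat_lit 3)) (R (nat_lit 104465))
    (p (nat_lit 0x101) (nat_lit 0) (p (nat_lit 0x111) (nat_lit 0) (p (nat_lit 0xd1) (nat_lit 1) (p (nat_lit 0x89) (nat_lit 0) (p (nat_lit 0x41) (nat_lit 0) (p (nat_lit 0x8a098b090a9a) (nat_lit 0) (p (nat_lit 0x9890a888a1a) (nat_lit 0) (p (nat_lit 0x89088a08079a) (nat_lit 0) (p (nat_lit 0x8880987871a) (nat_lit 0) (p (nat_lit 0x80000800080907088a) (nat_lit 0) (p (nat_lit 0x80000800078886860a) (nat_lit 0) (p (nat_lit 0x8688060782) (nat_lit 0) (p (nat_lit 0x607858702) (nat_lit 0) (p (nat_lit 0x8587050482) (nat_lit 0) (p (nat_lit 0x506848402) (nat_lit 0) (p (nat_lit 0x160014) (nat_lit 0) (p (nat_lit 0x50612) (nat_lit 0) (p (nat_lit 0x40592) (nat_lit 0) (p (nat_lit 0x40492) (nat_lit 0) (p (nat_lit 0x30412) (nat_lit 0) (p (nat_lit 0x30212) (nat_lit 0) (p (nat_lit 0x20192) (nat_lit 0) (p (nat_lit 0x20092) (nat_lit 0) (p (nat_lit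 0x10012) (nat_lit 0) pn)))))))))))))))))))))))) :=
  Cl.node (nat_lit 0x109) (nat_lit 2) (by decide +kernel) (ClAll.succ (ClAll.succ ClAll.zero s35) n181)

def n210 : Cl (O (nat_lit 3)) (R (nat_lit 104465))
    (p (nat_lit 0x101) (nat_lit 1) (p (nat_lit 0x111) (nat_lit 0) (p (nat_lit 0xd1) (nat_lit 1) (p (nat_lit 0x89) (nat_lit 0) (p (nat_lit 0x41) (nat_lit 0) (p (nat_lit 0x8a098b090a9a) (nat_lit 0) (p (nat_lit 0x9890a888a1a) (nat_lit 0) (p (nat_lit 0x89088a08079a) (nat_lit 0) (p (nat_lit 0x8880987871a) (nat_lit 0) (p (nat_lit 0x80000800080907088a) (nat_lit 0) (p (nat_lit 0x80000800078886860a) (nat_lit 0) (p (nat_lit 0x8688060782) (nat_lit 0) (p (nat_lit 0x607858702) (nat_lit 0) (p (nat_lit 0x8587050482) (nat_lit 0) (p (nat_lit 0x506848402) (nat_lit 0) (p (nat_lit 0x160014) (nat_lit 0) (p (nat_lit 0x50612) (nat_lit 0) (p (nat_lit 0x40592) (nat_lit 0) (p (nat_lit 0x40492) (nat_lit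 0) (p (nat_lit 0x30412) (nat_lit 0) (p (nat_lit 0x30212) (nat_lit 0) (p (nat_lit 0x20192) (nat_lit 0) (p (nat_lit 0x20092) (nat_lit 0) (p (nat_lit 0x10012) (nat_lit 0) pn)))))))))))))))))))))))) :=
  Cl.node (nat_lit 0x81) (nat_lit 2) (by decide +kernel) (ClAll.succ (ClAll.succ ClAll.zero n182) n183)

def n211 : Cl (O (nat_lit 3)) (R (nat_lit 104465))
    (p (nat_lit 0x81) (nat_lit 1) (p (nat_lit 0x111) (nat_lit 1) (p (nat_lit 0xd1) (nat_lit 1) (p (nat_lit 0x89) (nat_lit 0) (p (nat_lit 0x41) (nat_lit 0) (p (nat_lit 0x8a098b090a9a) (nat_lit 0) (p (nat_lit 0x9890a888a1a) (nat_lit 0) (p (nat_lit 0x89088a08079a) (nat_lit 0) (p (nat_lit 0x8880987871a) (nat_lit 0) (p (nat_lit 0x80000800080907088a) (nat_lit 0) (p (nat_lit 0x80000800078886860a) (nat_lit 0) (p (nat_lit 0x8688060782) (nat_lit 0) (p (nat_lit 0x607858702) (nat_lit 0) (p (nat_lit 0x8587050482) (nat_lit 0) (p (nat_lit 0x506848402)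 (nat_lit 0) (p (nat_lit 0x160014) (nat_lit 0) (p (nat_lit 0x50612) (nat_lit 0) (p (nat_lit 0x40592) (nat_lit 0) (p (nat_lit 0x40492) (nat_lit 0) (p (nat_lit 0x30412) (nat_lit 0) (p (nat_lit 0x30212) (nat_lit 0) (p (nat_lit 0x20192) (nat_lit 0) (p (nat_lit 0x20092) (nat_lit 0) (p (nat_lit 0x10012) (nat_lit 0) pn)))))))))))))))))))))))) :=
  Cl.node (nat_lit 0xc1) (nat_lit 2) (by decide +kernel) (ClAll.succ (ClAll.succ ClAll.zero s55) n184)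

def n212 : Cl (O (nat_lit 3)) (R (nat_lit 104465))
    (p (nat_lit 0x101) (nat_lit 0) (p (nat_lit 0x119) (nat_lit 0) (p (nat_lit 0xc9) (nat_lit 0) (p (nat_lit 0x89) (nat_lit 1) (p (nat_lit 0x41) (nat_lit 0) (p (nat_lit 0x8a098b090a9a) (nat_lit 0) (p (nat_lit 0x9890a888a1a) (nat_lit 0) (p (nat_lit 0x89088a08079a) (nat_lit 0) (p (nat_lit 0x8880987871a) (nat_lit 0) (p (nat_lit 0x80000800080907088a) (nat_lit 0) (p (nat_lit 0x80000800078886860a) (nat_lit 0) (p (nat_lit 0x8688060782) (nat_lit 0) (p (nat_lit 0x607858702) (nat_lit 0) (p (nat_lit 0x8587050482) (nat_lit 0) (p (nat_lit 0x506848402) (nat_lit 0) (p (nat_lit 0x160014) (nat_lit 0) (p (nat_lit 0x50612) (nat_lit 0) (p (nat_lit 0x40592) (nat_lit 0) (p (nat_lit 0x40492) (nat_lit 0) (p (nat_lit 0x30412) (nat_lit 0) (p (nat_lit 0x30212) (nat_lit 0) (p (nat_lit 0x20192) (nat_lit 0) (p (nat_lit 0x20092) (nat_lit 0) (p (nat_lit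 0x10012) (nat_lit 0) pn)))))))))))))))))))))))) :=
  Cl.node (nat_lit 0x109) (nat_lit 2) (by decide +kernel) (ClAll.succ (ClAll.succ ClAll.zero n185) n186)

def n213 : Cl (O (nat_lit 3)) (R (nat_lit 104465))
    (p (nat_lit 0x101) (nat_lit 1) (p (nat_lit 0x119) (nat_lit 0) (p (nat_lit 0xc9) (nat_lit 0) (p (nat_lit 0x89) (nat_lit 1) (p (nat_lit 0x41) (nat_lit 0) (p (nat_lit 0x8a098b090a9a) (nat_lit 0) (p (nat_lit 0x9890a888a1a) (nat_lit 0) (p (nat_lit 0x89088a08079a) (nat_lit 0) (p (nat_lit 0x8880987871a) (nat_lit 0) (p (nat_lit 0x80000800080907088a) (nat_lit 0) (p (nat_lit 0x80000800078886860a) (nat_lit 0) (p (nat_lit 0x8688060782) (nat_lit 0) (p (nat_lit 0x607858702) (nat_lit 0) (p (nat_lit 0x8587050482) (nat_lit 0) (p (nat_lit 0x506848402) (nat_lit 0) (p (nat_lit 0x160014) (nat_lit 0) (p (nat_lit 0x50612) (nat_lit 0) (p (nat_lit 0x40592) (nat_lit 0) (p (nat_lit 0x40492)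 (nat_lit 0) (p (nat_lit 0x30412) (nat_lit 0) (p (nat_lit 0x30212) (nat_lit 0) (p (nat_lit 0x20192) (nat_lit 0) (p (nat_lit 0x20092) (nat_lit 0) (p (nat_lit 0x10012) (nat_lit 0) pn)))))))))))))))))))))))) :=
  Cl.node (nat_lit 0xc1) (nat_lit 2) (by decide +kernel) (ClAll.succ (ClAll.succ ClAll.zero n187) s102)

def n214 : Cl (O (nat_lit 3)) (R (nat_lit 104465))
    (p (nat_lit 0xc1) (nat_lit 0) (p (nat_lit 0x119) (nat_lit 1) (p (nat_lit 0xc9) (nat_lit 0) (p (nat_lit 0x89) (nat_lit 1) (p (nat_lit 0x41) (nat_lit 0) (p (nat_lit 0x8a098b090a9a) (nat_lit 0) (p (nat_lit 0x9890a888a1a) (nat_lit 0) (p (nat_lit 0x89088a08079a) (nat_lit 0) (p (nat_lit 0x8880987871a) (nat_lit 0) (p (nat_lit 0x80000800080907088a) (nat_lit 0) (p (nat_lit 0x80000800078886860a) (nat_lit 0) (p (nat_lit 0x8688060782) (nat_lit 0) (p (nat_lit 0x607858702) (nat_lit 0) (p (nat_lit 0x8587050482) (nat_lit 0) (p (nat_lit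 0x506848402) (nat_lit 0) (p (nat_lit 0x160014) (nat_lit 0) (p (nat_lit 0x50612) (nat_lit 0) (p (nat_lit 0x40592) (nat_lit 0) (p (nat_lit 0x40492) (nat_lit 0) (p (nat_lit 0x30412) (nat_lit 0) (p (nat_lit 0x30212) (nat_lit 0) (p (nat_lit 0x20192) (nat_lit 0) (p (nat_lit 0x20092) (nat_lit 0) (p (nat_lit 0x10012) (nat_lit 0) pn)))))))))))))))))))))))) :=
  Cl.node (nat_lit 0xd1) (nat_lit 2) (by decide +kernel) (ClAll.succ (ClAll.succ ClAll.zero s103) n188)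

def n215 : Cl (O (nat_lit 3)) (R (nat_lit 104465))
    (p (nat_lit 0xc1) (nat_lit 1) (p (nat_lit 0x119) (nat_lit 1) (p (nat_lit 0xc9) (nat_lit 0) (p (nat_lit 0x89) (nat_lit 1) (p (nat_lit 0x41) (nat_lit 0) (p (nat_lit 0x8a098b090a9a) (nat_lit 0) (p (nat_lit 0x9890a888a1a) (nat_lit 0) (p (nat_lit 0x89088a08079a) (nat_lit 0) (p (nat_lit 0x8880987871a) (nat_lit 0) (p (nat_lit 0x80000800080907088a) (nat_lit 0) (p (nat_lit 0x80000800078886860a) (nat_lit 0) (p (nat_lit 0x8688060782) (nat_lit 0) (p (nat_lit 0x607858702) (nat_lit 0) (p (nat_lit 0x8587050482) (nat_lit 0) (p (nat_lit 0x506848402) (nat_lit 0) (p (nat_lit 0x160014) (nat_lit 0) (p (nat_lit 0x50612) (nat_lit 0) (p (nat_lit 0x40592) (nat_lit 0) (p (nat_lit 0x40492) (nat_lit 0) (p (nat_lit 0x30412) (nat_lit 0) (p (nat_lit 0x30212) (nat_lit 0) (p (nat_lit 0x20192) (nat_lit 0) (p (nat_lit 0x20092) (nat_lit 0) (p (nat_lit 0x10012)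 (nat_lit 0) pn)))))))))))))))))))))))) :=
  Cl.node (nat_lit 0x101) (nat_lit 2) (by decide +kernel) (ClAll.succ (ClAll.succ ClAll.zero n189) s121)

def n216 : Cl (O (nat_lit 3)) (R (nat_lit 104465))
    (p (nat_lit 0x101) (nat_lit 0) (p (nat_lit 0x109) (nat_lit 0) (p (nat_lit 0xc9) (nat_lit 1) (p (nat_lit 0x89) (nat_lit 1) (p (nat_lit 0x41) (nat_lit 0) (p (nat_lit 0x8a098b090a9a) (nat_lit 0) (p (nat_lit 0x9890a888a1a) (nat_lit 0) (p (nat_lit 0x89088a08079a) (nat_lit 0) (p (nat_lit 0x8880987871a) (nat_lit 0) (p (nat_lit 0x80000800080907088a) (nat_lit 0) (p (nat_lit 0x80000800078886860a) (nat_lit 0) (p (nat_lit 0x8688060782) (nat_lit 0) (p (nat_lit 0x607858702) (nat_lit 0) (p (nat_lit 0x8587050482) (nat_lit 0) (p (nat_lit 0x506848402) (nat_lit 0) (p (nat_lit 0x160014) (nat_lit 0) (p (nat_lit 0x50612) (nat_lit 0) (p (nat_lit 0x40592) (nat_lit 0) (p (nat_lit 0x40492) (nat_lit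 0) (p (nat_lit 0x30412) (nat_lit 0) (p (nat_lit 0x30212) (nat_lit 0) (p (nat_lit 0x20192) (nat_lit 0) (p (nat_lit 0x20092) (nat_lit 0) (p (nat_lit 0x10012) (nat_lit 0) pn)))))))))))))))))))))))) :=
  Cl.node (nat_lit 0x111) (nat_lit 2) (by decide +kernel) (ClAll.succ (ClAll.succ ClAll.zero n190) s130)

def n217 : Cl (O (nat_lit 3)) (R (nat_lit 104465))
    (p (nat_lit 0x101) (nat_lit 0) (p (nat_lit 0x119) (nat_lit 0) (p (nat_lit 0xd1) (nat_lit 0) (p (nat_lit 0x81) (nat_lit 0) (p (nat_lit 0x41) (nat_lit 1) (p (nat_lit 0x8a098b090a9a) (nat_lit 0) (p (nat_lit 0x9890a888a1a) (nat_lit 0) (p (nat_lit 0x89088a08079a) (nat_lit 0) (p (nat_lit 0x8880987871a) (nat_lit 0) (p (nat_lit 0x80000800080907088a) (nat_lit 0) (p (nat_lit 0x80000800078886860a) (nat_lit 0) (p (nat_lit 0x8688060782) (nat_lit 0) (p (nat_lit 0x607858702) (nat_lit 0) (p (nat_lit 0x8587050482) (nat_lit 0) (p (nat_lit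 0x506848402) (nat_lit 0) (p (nat_lit 0x160014) (nat_lit 0) (p (nat_lit 0x50612) (nat_lit 0) (p (nat_lit 0x40592) (nat_lit 0) (p (nat_lit 0x40492) (nat_lit 0) (p (nat_lit 0x30412) (nat_lit 0) (p (nat_lit 0x30212) (nat_lit 0) (p (nat_lit 0x20192) (nat_lit 0) (p (nat_lit 0x20092) (nat_lit 0) (p (nat_lit 0x10012) (nat_lit 0) pn)))))))))))))))))))))))) :=
  Cl.node (nat_lit 0x109) (nat_lit 2) (by decide +kernel) (ClAll.succ (ClAll.succ ClAll.zero s133) n191)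

def n218 : Cl (O (nat_lit 3)) (R (nat_lit 104465))
    (p (nat_lit 0x101) (nat_lit 1) (p (nat_lit 0x119) (nat_lit 0) (p (nat_lit 0xd1) (nat_lit 0) (p (nat_lit 0x81) (nat_lit 0) (p (nat_lit 0x41) (nat_lit 1) (p (nat_lit 0x8a098b090a9a) (nat_lit 0) (p (nat_lit 0x9890a888a1a) (nat_lit 0) (p (nat_lit 0x89088a08079a) (nat_lit 0) (p (nat_lit 0x8880987871a) (nat_lit 0) (p (nat_lit 0x80000800080907088a) (nat_lit 0) (p (nat_lit 0x80000800078886860a) (nat_lit 0) (p (nat_lit 0x8688060782) (nat_lit 0) (p (nat_lit 0x607858702) (nat_lit 0) (p (nat_lit 0x8587050482) (nat_lit 0) (p (nat_lit 0x506848402) (nat_lit 0) (p (nat_lit 0x160014) (nat_lit 0) (p (nat_lit 0x50612) (nat_lit 0) (p (nat_lit 0x40592) (nat_lit 0) (p (nat_lit 0x40492) (nat_lit 0) (p (nat_lit 0x30412) (nat_lit 0) (p (nat_lit 0x30212) (nat_lit 0) (p (nat_lit 0x20192) (nat_lit 0) (p (nat_lit 0x20092) (nat_lit 0) (p (nat_lit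 0x10012) (nat_lit 0) pn)))))))))))))))))))))))) :=
  Cl.node (nat_lit 0xc1) (nat_lit 2) (by decide +kernel) (ClAll.succ (ClAll.succ ClAll.zero n192) n193)

def n219 : Cl (O (nat_lit 3)) (R (nat_lit 104465))
    (p (nat_lit 0xc1) (nat_lit 0) (p (nat_lit 0x119) (nat_lit 1) (p (nat_lit 0xd1) (nat_lit 0) (p (nat_lit 0x81) (nat_lit 0) (p (nat_lit 0x41) (nat_lit 1) (p (nat_lit 0x8a098b090a9a) (nat_lit 0) (p (nat_lit 0x9890a888a1a) (nat_lit 0) (p (nat_lit 0x89088a08079a) (nat_lit 0) (p (nat_lit 0x8880987871a) (nat_lit 0) (p (nat_lit 0x80000800080907088a) (nat_lit 0) (p (nat_lit 0x80000800078886860a) (nat_lit 0) (p (nat_lit 0x8688060782) (nat_lit 0) (p (nat_lit 0x607858702) (nat_lit 0) (p (nat_lit 0x8587050482) (nat_lit 0) (p (nat_lit 0x506848402) (nat_lit 0) (p (nat_lit 0x160014) (nat_lit 0) (p (nat_lit 0x50612) (nat_lit 0) (p (nat_lit 0x40592) (nat_lit 0) (p (nat_lit 0x40492) (nat_lit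 0) (p (nat_lit 0x30412) (nat_lit 0) (p (nat_lit 0x30212) (nat_lit 0) (p (nat_lit 0x20192) (nat_lit 0) (p (nat_lit 0x20092) (nat_lit 0) (p (nat_lit 0x10012) (nat_lit 0) pn)))))))))))))))))))))))) :=
  Cl.node (nat_lit 0xc9) (nat_lit 2) (by decide +kernel) (ClAll.succ (ClAll.succ ClAll.zero s156) n194)

def n220 : Cl (O (nat_lit 3)) (R (nat_lit 104465))
    (p (nat_lit 0xc1) (nat_lit 1) (p (nat_lit 0x119) (nat_lit 1) (p (nat_lit 0xd1) (nat_lit 0) (p (nat_lit 0x81) (nat_lit 0) (p (nat_lit 0x41) (nat_lit 1) (p (nat_lit 0x8a098b090a9a) (nat_lit 0) (p (nat_lit 0x9890a888a1a) (nat_lit 0) (p (nat_lit 0x89088a08079a) (nat_lit 0) (p (nat_lit 0x8880987871a) (nat_lit 0) (p (nat_lit 0x80000800080907088a) (nat_lit 0) (p (nat_lit 0x80000800078886860a) (nat_lit 0) (p (nat_lit 0x8688060782) (nat_lit 0) (p (nat_lit 0x607858702) (nat_lit 0) (p (nat_lit 0x8587050482) (nat_lit 0) (p (nat_lit 0x506848402)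 (nat_lit 0) (p (nat_lit 0x160014) (nat_lit 0) (p (nat_lit 0x50612) (nat_lit 0) (p (nat_lit 0x40592) (nat_lit 0) (p (nat_lit 0x40492) (nat_lit 0) (p (nat_lit 0x30412) (nat_lit 0) (p (nat_lit 0x30212) (nat_lit 0) (p (nat_lit 0x20192) (nat_lit 0) (p (nat_lit 0x20092) (nat_lit 0) (p (nat_lit 0x10012) (nat_lit 0) pn)))))))))))))))))))))))) :=
  Cl.node (nat_lit 0x101) (nat_lit 2) (by decide +kernel) (ClAll.succ (ClAll.succ ClAll.zero n195) n196)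

def n221 : Cl (O (nat_lit 3)) (R (nat_lit 104465))
    (p (nat_lit 0x101) (nat_lit 0) (p (nat_lit 0x111) (nat_lit 0) (p (nat_lit 0xd1) (nat_lit 1) (p (nat_lit 0x81) (nat_lit 0) (p (nat_lit 0x41) (nat_lit 1) (p (nat_lit 0x8a098b090a9a) (nat_lit 0) (p (nat_lit 0x9890a888a1a) (nat_lit 0) (p (nat_lit 0x89088a08079a) (nat_lit 0) (p (nat_lit 0x8880987871a) (nat_lit 0) (p (nat_lit 0x80000800080907088a) (nat_lit 0) (p (nat_lit 0x80000800078886860a) (nat_lit 0) (p (nat_lit 0x8688060782) (nat_lit 0) (p (nat_lit 0x607858702) (nat_lit 0) (p (nat_lit 0x8587050482) (nat_lit 0) (p (nat_lit 0x506848402) (nat_lit 0) (p (nat_lit 0x160014) (nat_lit 0) (p (nat_lit 0x50612) (nat_lit 0) (p (nat_lit 0x40592) (nat_lit 0) (p (nat_lit 0x40492) (nat_lit 0) (p (nat_lit 0x30412) (nat_lit 0) (p (nat_lit 0x30212) (nat_lit 0) (p (nat_lit 0x20192) (nat_lit 0) (p (nat_lit 0x20092) (nat_lit 0) (p (nat_lit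 0x10012) (nat_lit 0) pn)))))))))))))))))))))))) :=
  Cl.node (nat_lit 0x109) (nat_lit 2) (by decide +kernel) (ClAll.succ (ClAll.succ ClAll.zero s170) n197)

def n222 : Cl (O (nat_lit 3)) (R (nat_lit 104465))
    (p (nat_lit 0x101) (nat_lit 1) (p (nat_lit 0x111) (nat_lit 0) (p (nat_lit 0xd1) (nat_lit 1) (p (nat_lit 0x81) (nat_lit 0) (p (nat_lit 0x41) (nat_lit 1) (p (nat_lit 0x8a098b090a9a) (nat_lit 0) (p (nat_lit 0x9890a888a1a) (nat_lit 0) (p (nat_lit 0x89088a08079a) (nat_lit 0) (p (nat_lit 0x8880987871a) (nat_lit 0) (p (nat_lit 0x80000800080907088a) (nat_lit 0) (p (nat_lit 0x80000800078886860a) (nat_lit 0) (p (nat_lit 0x8688060782) (nat_lit 0) (p (nat_lit 0x607858702) (nat_lit 0) (p (nat_lit 0x8587050482) (nat_lit 0) (p (nat_lit 0x506848402) (nat_lit 0) (p (nat_lit 0x160014) (nat_lit 0) (p (nat_lit 0x50612) (nat_lit 0) (p (nat_lit 0x40592) (nat_lit 0) (p (nat_lit 0x40492)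 (nat_lit 0) (p (nat_lit 0x30412) (nat_lit 0) (p (nat_lit 0x30212) (nat_lit 0) (p (nat_lit 0x20192) (nat_lit 0) (p (nat_lit 0x20092) (nat_lit 0) (p (nat_lit 0x10012) (nat_lit 0) pn)))))))))))))))))))))))) :=
  Cl.node (nat_lit 0x89) (nat_lit 2) (by decide +kernel) (ClAll.succ (ClAll.succ ClAll.zero n198) n199)

def n223 : Cl (O (nat_lit 3)) (R (nat_lit 104465))
    (p (nat_lit 0x89) (nat_lit 1) (p (nat_lit 0x111) (nat_lit 1) (p (nat_lit 0xd1) (nat_lit 1) (p (nat_lit 0x81) (nat_lit 0) (p (nat_lit 0x41) (nat_lit 1) (p (nat_lit 0x8a098b090a9a) (nat_lit 0) (p (nat_lit 0x9890a888a1a) (nat_lit 0) (p (nat_lit 0x89088a08079a) (nat_lit 0) (p (nat_lit 0x8880987871a) (nat_lit 0) (p (nat_lit 0x80000800080907088a) (nat_lit 0) (p (nat_lit 0x80000800078886860a) (nat_lit 0) (p (nat_lit 0x8688060782) (nat_lit 0) (p (nat_lit 0x607858702) (nat_lit 0) (p (nat_lit 0x8587050482) (nat_lit 0) (p (nat_lit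 0x506848402) (nat_lit 0) (p (nat_lit 0x160014) (nat_lit 0) (p (nat_lit 0x50612) (nat_lit 0) (p (nat_lit 0x40592) (nat_lit 0) (p (nat_lit 0x40492) (nat_lit 0) (p (nat_lit 0x30412) (nat_lit 0) (p (nat_lit 0x30212) (nat_lit 0) (p (nat_lit 0x20192) (nat_lit 0) (p (nat_lit 0x20092) (nat_lit 0) (p (nat_lit 0x10012) (nat_lit 0) pn)))))))))))))))))))))))) :=
  Cl.node (nat_lit 0xc9) (nat_lit 2) (by decide +kernel) (ClAll.succ (ClAll.succ ClAll.zero s198) n200)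

def n224 : Cl (O (nat_lit 3)) (R (nat_lit 104465))
    (p (nat_lit 0x101) (nat_lit 0) (p (nat_lit 0x119) (nat_lit 0) (p (nat_lit 0xc1) (nat_lit 0) (p (nat_lit 0x81) (nat_lit 1) (p (nat_lit 0x41) (nat_lit 1) (p (nat_lit 0x8a098b090a9a) (nat_lit 0) (p (nat_lit 0x9890a888a1a) (nat_lit 0) (p (nat_lit 0x89088a08079a) (nat_lit 0) (p (nat_lit 0x8880987871a) (nat_lit 0) (p (nat_lit 0x80000800080907088a) (nat_lit 0) (p (nat_lit 0x80000800078886860a) (nat_lit 0) (p (nat_lit 0x8688060782) (nat_lit 0) (p (nat_lit 0x607858702) (nat_lit 0) (p (nat_lit 0x8587050482) (nat_lit 0) (p (nat_lit 0x506848402) (nat_lit 0) (p (nat_lit 0x160014) (nat_lit 0) (p (nat_lit 0x50612) (nat_lit 0) (p (nat_lit 0x40592) (nat_lit 0) (p (nat_lit 0x40492) (nat_lit 0) (p (nat_lit 0x30412) (nat_lit 0) (p (nat_lit 0x30212) (nat_lit 0) (p (nat_lit 0x20192) (nat_lit 0) (p (nat_lit 0x20092) (nat_lit 0) (p (nat_lit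 0x10012) (nat_lit 0) pn)))))))))))))))))))))))) :=
  Cl.node (nat_lit 0x109) (nat_lit 2) (by decide +kernel) (ClAll.succ (ClAll.succ ClAll.zero n201) n202)

def n225 : Cl (O (nat_lit 3)) (R (nat_lit 104465))
    (p (nat_lit 0x101) (nat_lit 1) (p (nat_lit 0x119) (nat_lit 0) (p (nat_lit 0xc1) (nat_lit 0) (p (nat_lit 0x81) (nat_lit 1) (p (nat_lit 0x41) (nat_lit 1) (p (nat_lit 0x8a098b090a9a) (nat_lit 0) (p (nat_lit 0x9890a888a1a) (nat_lit 0) (p (nat_lit 0x89088a08079a) (nat_lit 0) (p (nat_lit 0x8880987871a) (nat_lit 0) (p (nat_lit 0x80000800080907088a) (nat_lit 0) (p (nat_lit 0x80000800078886860a) (nat_lit 0) (p (nat_lit 0x8688060782) (nat_lit 0) (p (nat_lit 0x607858702) (nat_lit 0) (p (nat_lit 0x8587050482) (nat_lit 0) (p (nat_lit 0x506848402) (nat_lit 0) (p (nat_lit 0x160014) (nat_lit 0) (p (nat_lit 0x50612) (nat_lit 0) (p (nat_lit 0x40592) (nat_lit 0) (p (nat_lit 0x40492)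 (nat_lit 0) (p (nat_lit 0x30412) (nat_lit 0) (p (nat_lit 0x30212) (nat_lit 0) (p (nat_lit 0x20192) (nat_lit 0) (p (nat_lit 0x20092) (nat_lit 0) (p (nat_lit 0x10012) (nat_lit 0) pn)))))))))))))))))))))))) :=
  Cl.node (nat_lit 0xc9) (nat_lit 2) (by decide +kernel) (ClAll.succ (ClAll.succ ClAll.zero n203) s216)

def n226 : Cl (O (nat_lit 3)) (R (nat_lit 104465))
    (p (nat_lit 0xc9) (nat_lit 1) (p (nat_lit 0x119) (nat_lit 1) (p (nat_lit 0xc1) (nat_lit 0) (p (nat_lit 0x81) (nat_lit 1) (p (nat_lit 0x41) (nat_lit 1) (p (nat_lit 0x8a098b090a9a) (nat_lit 0) (p (nat_lit 0x9890a888a1a) (nat_lit 0) (p (nat_lit 0x89088a08079a) (nat_lit 0) (p (nat_lit 0x8880987871a) (nat_lit 0) (p (nat_lit 0x80000800080907088a) (nat_lit 0) (p (nat_lit 0x80000800078886860a) (nat_lit 0) (p (nat_lit 0x8688060782) (nat_lit 0) (p (nat_lit 0x607858702) (nat_lit 0) (p (nat_lit 0x8587050482) (nat_lit 0) (p (nat_lit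 0x506848402) (nat_lit 0) (p (nat_lit 0x160014) (nat_lit 0) (p (nat_lit 0x50612) (nat_lit 0) (p (nat_lit 0x40592) (nat_lit 0) (p (nat_lit 0x40492) (nat_lit 0) (p (nat_lit 0x30412) (nat_lit 0) (p (nat_lit 0x30212) (nat_lit 0) (p (nat_lit 0x20192) (nat_lit 0) (p (nat_lit 0x20092) (nat_lit 0) (p (nat_lit 0x10012) (nat_lit 0) pn)))))))))))))))))))))))) :=
  Cl.node (nat_lit 0x109) (nat_lit 2) (by decide +kernel) (ClAll.succ (ClAll.succ ClAll.zero n204) s223)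

def n227 : Cl (O (nat_lit 3)) (R (nat_lit 104465))
    (p (nat_lit 0x109) (nat_lit 0) (p (nat_lit 0x101) (nat_lit 0) (p (nat_lit 0xc1) (nat_lit 1) (p (nat_lit 0x81) (nat_lit 1) (p (nat_lit 0x41) (nat_lit 1) (p (nat_lit 0x8a098b090a9a) (nat_lit 0) (p (nat_lit 0x9890a888a1a) (nat_lit 0) (p (nat_lit 0x89088a08079a) (nat_lit 0) (p (nat_lit 0x8880987871a) (nat_lit 0) (p (nat_lit 0x80000800080907088a) (nat_lit 0) (p (nat_lit 0x80000800078886860a) (nat_lit 0) (p (nat_lit 0x8688060782) (nat_lit 0) (p (nat_lit 0x607858702) (nat_lit 0) (p (nat_lit 0x8587050482) (nat_lit 0) (p (nat_lit 0x506848402) (nat_lit 0) (p (nat_lit 0x160014) (nat_lit 0) (p (nat_lit 0x50612) (nat_lit 0) (p (nat_lit 0x40592) (nat_lit 0) (p (nat_lit 0x40492) (nat_lit 0) (p (nat_lit 0x30412) (nat_lit 0) (p (nat_lit 0x30212) (nat_lit 0) (p (nat_lit 0x20192) (nat_lit 0) (p (nat_lit 0x20092) (nat_lit 0) (p (nat_lit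 0x10012) (nat_lit 0) pn)))))))))))))))))))))))) :=
  Cl.node (nat_lit 0x111) (nat_lit 2) (by decide +kernel) (ClAll.succ (ClAll.succ ClAll.zero s224) s225)

def n228 : Cl (O (nat_lit 3)) (R (nat_lit 104465))
    (p (nat_lit 0x119) (nat_lit 0) (p (nat_lit 0xd1) (nat_lit 0) (p (nat_lit 0x89) (nat_lit 0) (p (nat_lit 0x41) (nat_lit 0) (p (nat_lit 0x8a098b090a9a) (nat_lit 0) (p (nat_lit 0x9890a888a1a) (nat_lit 0) (p (nat_lit 0x89088a08079a) (nat_lit 0) (p (nat_lit 0x8880987871a) (nat_lit 0) (p (nat_lit 0x80000800080907088a) (nat_lit 0) (p (nat_lit 0x80000800078886860a) (nat_lit 0) (p (nat_lit 0x8688060782) (nat_lit 0) (p (nat_lit 0x607858702) (nat_lit 0) (p (nat_lit 0x8587050482) (nat_lit 0) (p (nat_lit 0x506848402) (nat_lit 0) (p (nat_lit 0x160014) (nat_lit 0) (p (nat_lit 0x50612) (nat_lit 0) (p (nat_lit 0x40592) (nat_lit 0) (p (nat_lit 0x40492) (nat_lit 0) (p (nat_lit 0x30412)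 (nat_lit 0) (p (nat_lit 0x30212) (nat_lit 0) (p (nat_lit 0x20192) (nat_lit 0) (p (nat_lit 0x20092) (nat_lit 0) (p (nat_lit 0x10012) (nat_lit 0) pn))))))))))))))))))))))) :=
  Cl.node (nat_lit 0x101) (nat_lit 2) (by decide +kernel) (ClAll.succ (ClAll.succ ClAll.zero n205) n206)

def n229 : Cl (O (nat_lit 3)) (R (nat_lit 104465))
    (p (nat_lit 0x119) (nat_lit 1) (p (nat_lit 0xd1) (nat_lit 0) (p (nat_lit 0x89) (nat_lit 0) (p (nat_lit 0x41) (nat_lit 0) (p (nat_lit 0x8a098b090a9a) (nat_lit 0) (p (nat_lit 0x9890a888a1a) (nat_lit 0) (p (nat_lit 0x89088a08079a) (nat_lit 0) (p (nat_lit 0x8880987871a) (nat_lit 0) (p (nat_lit 0x80000800080907088a) (nat_lit 0) (p (nat_lit 0x80000800078886860a) (nat_lit 0) (p (nat_lit 0x8688060782) (nat_lit 0) (p (nat_lit 0x607858702) (nat_lit 0) (p (nat_lit 0x8587050482) (nat_lit 0) (p (nat_lit 0x506848402) (nat_lit 0) (p (nat_lit 0x160014) (nat_lit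 0) (p (nat_lit 0x50612) (nat_lit 0) (p (nat_lit 0x40592) (nat_lit 0) (p (nat_lit 0x40492) (nat_lit 0) (p (nat_lit 0x30412) (nat_lit 0) (p (nat_lit 0x30212) (nat_lit 0) (p (nat_lit 0x20192) (nat_lit 0) (p (nat_lit 0x20092) (nat_lit 0) (p (nat_lit 0x10012) (nat_lit 0) pn))))))))))))))))))))))) :=
  Cl.node (nat_lit 0xc1) (nat_lit 2) (by decide +kernel) (ClAll.succ (ClAll.succ ClAll.zero n207) n208)

def n230 : Cl (O (nat_lit 3)) (R (nat_lit 104465))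
    (p (nat_lit 0x111) (nat_lit 0) (p (nat_lit 0xd1) (nat_lit 1) (p (nat_lit 0x89) (nat_lit 0) (p (nat_lit 0x41) (nat_lit 0) (p (nat_lit 0x8a098b090a9a) (nat_lit 0) (p (nat_lit 0x9890a888a1a) (nat_lit 0) (p (nat_lit 0x89088a08079a) (nat_lit 0) (p (nat_lit 0x8880987871a) (nat_lit 0) (p (nat_lit 0x80000800080907088a) (nat_lit 0) (p (nat_lit 0x80000800078886860a) (nat_lit 0) (p (nat_lit 0x8688060782) (nat_lit 0) (p (nat_lit 0x607858702) (nat_lit 0) (p (nat_lit 0x8587050482) (nat_lit 0) (p (nat_lit 0x506848402) (nat_lit 0) (p (nat_lit 0x160014) (nat_lit 0) (p (nat_lit 0x50612) (nat_lit 0) (p (nat_lit 0x40592) (nat_lit 0) (p (nat_lit 0x40492) (nat_lit 0) (p (nat_lit 0x30412) (nat_lit 0) (p (nat_lit 0x30212) (nat_lit 0) (p (nat_lit 0x20192) (nat_lit 0) (p (nat_lit 0x20092) (nat_lit 0) (p (nat_lit 0x10012) (nat_lit 0) pn))))))))))))))))))))))) :=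
  Cl.node (nat_lit 0x101) (nat_lit 2) (by decide +kernel) (ClAll.succ (ClAll.succ ClAll.zero n209) n210)

def n231 : Cl (O (nat_lit 3)) (R (nat_lit 104465))
    (p (nat_lit 0x111) (nat_lit 1) (p (nat_lit 0xd1) (nat_lit 1) (p (nat_lit 0x89) (nat_lit 0) (p (nat_lit 0x41) (nat_lit 0) (p (nat_lit 0x8a098b090a9a) (nat_lit 0) (p (nat_lit 0x9890a888a1a) (nat_lit 0) (p (nat_lit 0x89088a08079a) (nat_lit 0) (p (nat_lit 0x8880987871a) (nat_lit 0) (p (nat_lit 0x80000800080907088a) (nat_lit 0) (p (nat_lit 0x80000800078886860a) (nat_lit 0) (p (nat_lit 0x8688060782) (nat_lit 0) (p (nat_lit 0x607858702) (nat_lit 0) (p (nat_lit 0x8587050482) (nat_lit 0) (p (nat_lit 0x506848402) (nat_lit 0) (p (nat_lit 0x160014) (nat_lit 0) (p (nat_lit 0x50612) (nat_lit 0) (p (nat_lit 0x40592) (nat_lit 0) (p (nat_lit 0x40492) (nat_lit 0) (p (nat_lit 0x30412) (nat_lit 0) (p (nat_lit 0x30212) (nat_lit 0) (p (nat_lit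 0x20192) (nat_lit 0) (p (nat_lit 0x20092) (nat_lit 0) (p (nat_lit 0x10012) (nat_lit 0) pn))))))))))))))))))))))) :=
  Cl.node (nat_lit 0x81) (nat_lit 2) (by decide +kernel) (ClAll.succ (ClAll.succ ClAll.zero s54) n211)

def n232 : Cl (O (nat_lit 3)) (R (nat_lit 104465))
    (p (nat_lit 0x119) (nat_lit 0) (p (nat_lit 0xc9) (nat_lit 0) (p (nat_lit 0x89) (nat_lit 1) (p (nat_lit 0x41) (nat_lit 0) (p (nat_lit 0x8a098b090a9a) (nat_lit 0) (p (nat_lit 0x9890a888a1a) (nat_lit 0) (p (nat_lit 0x89088a08079a) (nat_lit 0) (p (nat_lit 0x8880987871a) (nat_lit 0) (p (nat_lit 0x80000800080907088a) (nat_lit 0) (p (nat_lit 0x80000800078886860a) (nat_lit 0) (p (nat_lit 0x8688060782) (nat_lit 0) (p (nat_lit 0x607858702) (nat_lit 0) (p (nat_lit 0x8587050482) (nat_lit 0) (p (nat_lit 0x506848402) (nat_lit 0) (p (nat_lit 0x160014) (nat_lit 0) (p (nat_lit 0x50612) (nat_lit 0) (p (nat_lit 0x40592) (nat_lit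 0) (p (nat_lit 0x40492) (nat_lit 0) (p (nat_lit 0x30412) (nat_lit 0) (p (nat_lit 0x30212) (nat_lit 0) (p (nat_lit 0x20192) (nat_lit 0) (p (nat_lit 0x20092) (nat_lit 0) (p (nat_lit 0x10012) (nat_lit 0) pn))))))))))))))))))))))) :=
  Cl.node (nat_lit 0x101) (nat_lit 2) (by decide +kernel) (ClAll.succ (ClAll.succ ClAll.zero n212) n213)

def n233 : Cl (O (nat_lit 3)) (R (nat_lit 104465))
    (p (nat_lit 0x119) (nat_lit 1) (p (nat_lit 0xc9) (nat_lit 0) (p (nat_lit 0x89) (nat_lit 1) (p (nat_lit 0x41) (nat_lit 0) (p (nat_lit 0x8a098b090a9a) (nat_lit 0) (p (nat_lit 0x9890a888a1a) (nat_lit 0) (p (nat_lit 0x89088a08079a) (nat_lit 0) (p (nat_lit 0x8880987871a) (nat_lit 0) (p (nat_lit 0x80000800080907088a) (nat_lit 0) (p (nat_lit 0x80000800078886860a) (nat_lit 0) (p (nat_lit 0x8688060782) (nat_lit 0) (p (nat_lit 0x607858702) (nat_lit 0) (p (nat_lit 0x8587050482) (nat_lit 0) (p (nat_lit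 0x506848402) (nat_lit 0) (p (nat_lit 0x160014) (nat_lit 0) (p (nat_lit 0x50612) (nat_lit 0) (p (nat_lit 0x40592) (nat_lit 0) (p (nat_lit 0x40492) (nat_lit 0) (p (nat_lit 0x30412) (nat_lit 0) (p (nat_lit 0x30212) (nat_lit 0) (p (nat_lit 0x20192) (nat_lit 0) (p (nat_lit 0x20092) (nat_lit 0) (p (nat_lit 0x10012) (nat_lit 0) pn))))))))))))))))))))))) :=
  Cl.node (nat_lit 0xc1) (nat_lit 2) (by decide +kernel) (ClAll.succ (ClAll.succ ClAll.zero n214) n215)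

def n234 : Cl (O (nat_lit 3)) (R (nat_lit 104465))
    (p (nat_lit 0x109) (nat_lit 0) (p (nat_lit 0xc9) (nat_lit 1) (p (nat_lit 0x89) (nat_lit 1) (p (nat_lit 0x41) (nat_lit 0) (p (nat_lit 0x8a098b090a9a) (nat_lit 0) (p (nat_lit 0x9890a888a1a) (nat_lit 0) (p (nat_lit 0x89088a08079a) (nat_lit 0) (p (nat_lit 0x8880987871a) (nat_lit 0) (p (nat_lit 0x80000800080907088a) (nat_lit 0) (p (nat_lit 0x80000800078886860a) (nat_lit 0) (p (nat_lit 0x8688060782) (nat_lit 0) (p (nat_lit 0x607858702) (nat_lit 0) (p (nat_lit 0x8587050482) (nat_lit 0) (p (nat_lit 0x506848402) (nat_lit 0) (p (nat_lit 0x160014) (nat_lit 0) (p (nat_lit 0x50612) (nat_lit 0) (p (nat_lit 0x40592) (nat_lit 0) (p (nat_lit 0x40492) (nat_lit 0) (p (nat_lit 0x30412) (nat_lit 0) (p (nat_lit 0x30212) (nat_lit 0) (p (nat_lit 0x20192) (nat_lit 0) (p (nat_lit 0x20092) (nat_lit 0) (p (nat_lit 0x10012) (nat_lit 0) pn)))))))))))))))))))))))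 :=
  Cl.node (nat_lit 0x101) (nat_lit 2) (by decide +kernel) (ClAll.succ (ClAll.succ ClAll.zero n216) s131)

def n235 : Cl (O (nat_lit 3)) (R (nat_lit 104465))
    (p (nat_lit 0x119) (nat_lit 0) (p (nat_lit 0xd1) (nat_lit 0) (p (nat_lit 0x81) (nat_lit 0) (p (nat_lit 0x41) (nat_lit 1) (p (nat_lit 0x8a098b090a9a) (nat_lit 0) (p (nat_lit 0x9890a888a1a) (nat_lit 0) (p (nat_lit 0x89088a08079a) (nat_lit 0) (p (nat_lit 0x8880987871a) (nat_lit 0) (p (nat_lit 0x80000800080907088a) (nat_lit 0) (p (nat_lit 0x80000800078886860a) (nat_lit 0) (p (nat_lit 0x8688060782) (nat_lit 0) (p (nat_lit 0x607858702) (nat_lit 0) (p (nat_lit 0x8587050482) (nat_lit 0) (p (nat_lit 0x506848402) (nat_lit 0) (p (nat_lit 0x160014) (nat_lit 0) (p (nat_lit 0x50612) (nat_lit 0) (p (nat_lit 0x40592) (nat_lit 0) (p (nat_lit 0x40492) (nat_lit 0) (p (nat_lit 0x30412) (nat_lit 0) (p (nat_lit 0x30212) (nat_lit 0) (p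 (nat_lit 0x20192) (nat_lit 0) (p (nat_lit 0x20092) (nat_lit 0) (p (nat_lit 0x10012) (nat_lit 0) pn))))))))))))))))))))))) :=
  Cl.node (nat_lit 0x101) (nat_lit 2) (by decide +kernel) (ClAll.succ (ClAll.succ ClAll.zero n217) n218)

def n236 : Cl (O (nat_lit 3)) (R (nat_lit 104465))
    (p (nat_lit 0x119) (nat_lit 1) (p (nat_lit 0xd1) (nat_lit 0) (p (nat_lit 0x81) (nat_lit 0) (p (nat_lit 0x41) (nat_lit 1) (p (nat_lit 0x8a098b090a9a) (nat_lit 0) (p (nat_lit 0x9890a888a1a) (nat_lit 0) (p (nat_lit 0x89088a08079a) (nat_lit 0) (p (nat_lit 0x8880987871a) (nat_lit 0) (p (nat_lit 0x80000800080907088a) (nat_lit 0) (p (nat_lit 0x80000800078886860a) (nat_lit 0) (p (nat_lit 0x8688060782) (nat_lit 0) (p (nat_lit 0x607858702) (nat_lit 0) (p (nat_lit 0x8587050482) (nat_lit 0) (p (nat_lit 0x506848402) (nat_lit 0) (p (nat_lit 0x160014) (nat_lit 0) (p (nat_lit 0x50612) (nat_lit 0) (p (nat_lit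 0x40592) (nat_lit 0) (p (nat_lit 0x40492) (nat_lit 0) (p (nat_lit 0x30412) (nat_lit 0) (p (nat_lit 0x30212) (nat_lit 0) (p (nat_lit 0x20192) (nat_lit 0) (p (nat_lit 0x20092) (nat_lit 0) (p (nat_lit 0x10012) (nat_lit 0) pn))))))))))))))))))))))) :=
  Cl.node (nat_lit 0xc1) (nat_lit 2) (by decide +kernel) (ClAll.succ (ClAll.succ ClAll.zero n219) n220)

def n237 : Cl (O (nat_lit 3)) (R (nat_lit 104465))
    (p (nat_lit 0x111) (nat_lit 0) (p (nat_lit 0xd1) (nat_lit 1) (p (nat_lit 0x81) (nat_lit 0) (p (nat_lit 0x41) (nat_lit 1) (p (nat_lit 0x8a098b090a9a) (nat_lit 0) (p (nat_lit 0x9890a888a1a) (nat_lit 0) (p (nat_lit 0x89088a08079a) (nat_lit 0) (p (nat_lit 0x8880987871a) (nat_lit 0) (p (nat_lit 0x80000800080907088a) (nat_lit 0) (p (nat_lit 0x80000800078886860a) (nat_lit 0) (p (nat_lit 0x8688060782) (nat_lit 0) (p (nat_lit 0x607858702) (nat_lit 0) (p (nat_lit 0x8587050482) (nat_lit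 0) (p (nat_lit 0x506848402) (nat_lit 0) (p (nat_lit 0x160014) (nat_lit 0) (p (nat_lit 0x50612) (nat_lit 0) (p (nat_lit 0x40592) (nat_lit 0) (p (nat_lit 0x40492) (nat_lit 0) (p (nat_lit 0x30412) (nat_lit 0) (p (nat_lit 0x30212) (nat_lit 0) (p (nat_lit 0x20192) (nat_lit 0) (p (nat_lit 0x20092) (nat_lit 0) (p (nat_lit 0x10012) (nat_lit 0) pn))))))))))))))))))))))) :=
  Cl.node (nat_lit 0x101) (nat_lit 2) (by decide +kernel) (ClAll.succ (ClAll.succ ClAll.zero n221) n222)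

def n238 : Cl (O (nat_lit 3)) (R (nat_lit 104465))
    (p (nat_lit 0x111) (nat_lit 1) (p (nat_lit 0xd1) (nat_lit 1) (p (nat_lit 0x81) (nat_lit 0) (p (nat_lit 0x41) (nat_lit 1) (p (nat_lit 0x8a098b090a9a) (nat_lit 0) (p (nat_lit 0x9890a888a1a) (nat_lit 0) (p (nat_lit 0x89088a08079a) (nat_lit 0) (p (nat_lit 0x8880987871a) (nat_lit 0) (p (nat_lit 0x80000800080907088a) (nat_lit 0) (p (nat_lit 0x80000800078886860a) (nat_lit 0) (p (nat_lit 0x8688060782) (nat_lit 0) (p (nat_lit 0x607858702) (nat_lit 0) (p (nat_lit 0x8587050482) (nat_lit 0) (p (nat_lit 0x506848402) (nat_lit 0) (p (nat_lit 0x160014) (nat_lit 0) (p (nat_lit 0x50612) (nat_lit 0) (p (nat_lit 0x40592) (nat_lit 0) (p (nat_lit 0x40492) (nat_lit 0) (p (nat_lit 0x30412) (nat_lit 0) (p (nat_lit 0x30212) (nat_lit 0) (p (nat_lit 0x20192) (nat_lit 0) (p (nat_lit 0x20092) (nat_lit 0) (p (nat_lit 0x10012) (nat_lit 0) pn)))))))))))))))))))))))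 :=
  Cl.node (nat_lit 0x89) (nat_lit 2) (by decide +kernel) (ClAll.succ (ClAll.succ ClAll.zero s197) n223)

def n239 : Cl (O (nat_lit 3)) (R (nat_lit 104465))
    (p (nat_lit 0x119) (nat_lit 0) (p (nat_lit 0xc1) (nat_lit 0) (p (nat_lit 0x81) (nat_lit 1) (p (nat_lit 0x41) (nat_lit 1) (p (nat_lit 0x8a098b090a9a) (nat_lit 0) (p (nat_lit 0x9890a888a1a) (nat_lit 0) (p (nat_lit 0x89088a08079a) (nat_lit 0) (p (nat_lit 0x8880987871a) (nat_lit 0) (p (nat_lit 0x80000800080907088a) (nat_lit 0) (p (nat_lit 0x80000800078886860a) (nat_lit 0) (p (nat_lit 0x8688060782) (nat_lit 0) (p (nat_lit 0x607858702) (nat_lit 0) (p (nat_lit 0x8587050482) (nat_lit 0) (p (nat_lit 0x506848402) (nat_lit 0) (p (nat_lit 0x160014) (nat_lit 0) (p (nat_lit 0x50612) (nat_lit 0) (p (nat_lit 0x40592) (nat_lit 0) (p (nat_lit 0x40492) (nat_lit 0) (p (nat_lit 0x30412) (nat_lit 0) (p (nat_lit 0x30212) (nat_lit 0) (p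 (nat_lit 0x20192) (nat_lit 0) (p (nat_lit 0x20092) (nat_lit 0) (p (nat_lit 0x10012) (nat_lit 0) pn))))))))))))))))))))))) :=
  Cl.node (nat_lit 0x101) (nat_lit 2) (by decide +kernel) (ClAll.succ (ClAll.succ ClAll.zero n224) n225)

def n240 : Cl (O (nat_lit 3)) (R (nat_lit 104465))
    (p (nat_lit 0x119) (nat_lit 1) (p (nat_lit 0xc1) (nat_lit 0) (p (nat_lit 0x81) (nat_lit 1) (p (nat_lit 0x41) (nat_lit 1) (p (nat_lit 0x8a098b090a9a) (nat_lit 0) (p (nat_lit 0x9890a888a1a) (nat_lit 0) (p (nat_lit 0x89088a08079a) (nat_lit 0) (p (nat_lit 0x8880987871a) (nat_lit 0) (p (nat_lit 0x80000800080907088a) (nat_lit 0) (p (nat_lit 0x80000800078886860a) (nat_lit 0) (p (nat_lit 0x8688060782) (nat_lit 0) (p (nat_lit 0x607858702) (nat_lit 0) (p (nat_lit 0x8587050482) (nat_lit 0) (p (nat_lit 0x506848402) (nat_lit 0) (p (nat_lit 0x160014) (nat_lit 0) (p (nat_lit 0x50612) (nat_lit 0) (p (nat_lit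 0x40592) (nat_lit 0) (p (nat_lit 0x40492) (nat_lit 0) (p (nat_lit 0x30412) (nat_lit 0) (p (nat_lit 0x30212) (nat_lit 0) (p (nat_lit 0x20192) (nat_lit 0) (p (nat_lit 0x20092) (nat_lit 0) (p (nat_lit 0x10012) (nat_lit 0) pn))))))))))))))))))))))) :=
  Cl.node (nat_lit 0xc9) (nat_lit 2) (by decide +kernel) (ClAll.succ (ClAll.succ ClAll.zero s217) n226)

def n241 : Cl (O (nat_lit 3)) (R (nat_lit 104465))
    (p (nat_lit 0x101) (nat_lit 0) (p (nat_lit 0xc1) (nat_lit 1) (p (nat_lit 0x81) (nat_lit 1) (p (nat_lit 0x41) (nat_lit 1) (p (nat_lit 0x8a098b090a9a) (nat_lit 0) (p (nat_lit 0x9890a888a1a) (nat_lit 0) (p (nat_lit 0x89088a08079a) (nat_lit 0) (p (nat_lit 0x8880987871a) (nat_lit 0) (p (nat_lit 0x80000800080907088a) (nat_lit 0) (p (nat_lit 0x80000800078886860a) (nat_lit 0) (p (nat_lit 0x8688060782) (nat_lit 0) (p (nat_lit 0x607858702) (nat_lit 0) (p (nat_lit 0x8587050482) (nat_lit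 0) (p (nat_lit 0x506848402) (nat_lit 0) (p (nat_lit 0x160014) (nat_lit 0) (p (nat_lit 0x50612) (nat_lit 0) (p (nat_lit 0x40592) (nat_lit 0) (p (nat_lit 0x40492) (nat_lit 0) (p (nat_lit 0x30412) (nat_lit 0) (p (nat_lit 0x30212) (nat_lit 0) (p (nat_lit 0x20192) (nat_lit 0) (p (nat_lit 0x20092) (nat_lit 0) (p (nat_lit 0x10012) (nat_lit 0) pn))))))))))))))))))))))) :=
  Cl.node (nat_lit 0x109) (nat_lit 2) (by decide +kernel) (ClAll.succ (ClAll.succ ClAll.zero n227) s226)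

def n242 : Cl (O (nat_lit 3)) (R (nat_lit 104465))
    (p (nat_lit 0xd1) (nat_lit 0) (p (nat_lit 0x89) (nat_lit 0) (p (nat_lit 0x41) (nat_lit 0) (p (nat_lit 0x8a098b090a9a) (nat_lit 0) (p (nat_lit 0x9890a888a1a) (nat_lit 0) (p (nat_lit 0x89088a08079a) (nat_lit 0) (p (nat_lit 0x8880987871a) (nat_lit 0) (p (nat_lit 0x80000800080907088a) (nat_lit 0) (p (nat_lit 0x80000800078886860a) (nat_lit 0) (p (nat_lit 0x8688060782) (nat_lit 0) (p (nat_lit 0x607858702) (nat_lit 0) (p (nat_lit 0x8587050482) (nat_lit 0) (p (nat_lit 0x506848402) (nat_lit 0) (p (nat_lit 0x160014) (nat_lit 0) (p (nat_lit 0x50612) (nat_lit 0) (p (nat_lit 0x40592) (nat_lit 0) (p (nat_lit 0x40492) (nat_lit 0) (p (nat_lit 0x30412) (nat_lit 0) (p (nat_lit 0x30212) (nat_lit 0) (p (nat_lit 0x20192) (nat_lit 0) (p (nat_lit 0x20092) (nat_lit 0) (p (nat_lit 0x10012) (nat_lit 0) pn)))))))))))))))))))))) :=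
  Cl.node (nat_lit 0x119) (nat_lit 2) (by decide +kernel) (ClAll.succ (ClAll.succ ClAll.zero n228) n229)

def n243 : Cl (O (nat_lit 3)) (R (nat_lit 104465))
    (p (nat_lit 0xd1) (nat_lit 1) (p (nat_lit 0x89) (nat_lit 0) (p (nat_lit 0x41) (nat_lit 0) (p (nat_lit 0x8a098b090a9a) (nat_lit 0) (p (nat_lit 0x9890a888a1a) (nat_lit 0) (p (nat_lit 0x89088a08079a) (nat_lit 0) (p (nat_lit 0x8880987871a) (nat_lit 0) (p (nat_lit 0x80000800080907088a) (nat_lit 0) (p (nat_lit 0x80000800078886860a) (nat_lit 0) (p (nat_lit 0x8688060782) (nat_lit 0) (p (nat_lit 0x607858702) (nat_lit 0) (p (nat_lit 0x8587050482) (nat_lit 0) (p (nat_lit 0x506848402) (nat_lit 0) (p (nat_lit 0x160014) (nat_lit 0) (p (nat_lit 0x50612) (nat_lit 0) (p (nat_lit 0x40592) (nat_lit 0) (p (nat_lit 0x40492) (nat_lit 0) (p (nat_lit 0x30412) (nat_lit 0) (p (nat_lit 0x30212) (nat_lit 0) (p (nat_lit 0x20192) (nat_lit 0) (p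 (nat_lit 0x20092) (nat_lit 0) (p (nat_lit 0x10012) (nat_lit 0) pn)))))))))))))))))))))) :=
  Cl.node (nat_lit 0x111) (nat_lit 2) (by decide +kernel) (ClAll.succ (ClAll.succ ClAll.zero n230) n231)

def n244 : Cl (O (nat_lit 3)) (R (nat_lit 104465))
    (p (nat_lit 0xc9) (nat_lit 0) (p (nat_lit 0x89) (nat_lit 1) (p (nat_lit 0x41) (nat_lit 0) (p (nat_lit 0x8a098b090a9a) (nat_lit 0) (p (nat_lit 0x9890a888a1a) (nat_lit 0) (p (nat_lit 0x89088a08079a) (nat_lit 0) (p (nat_lit 0x8880987871a) (nat_lit 0) (p (nat_lit 0x80000800080907088a) (nat_lit 0) (p (nat_lit 0x80000800078886860a) (nat_lit 0) (p (nat_lit 0x8688060782) (nat_lit 0) (p (nat_lit 0x607858702) (nat_lit 0) (p (nat_lit 0x8587050482) (nat_lit 0) (p (nat_lit 0x506848402) (nat_lit 0) (p (nat_lit 0x160014) (nat_lit 0) (p (nat_lit 0x50612) (nat_lit 0) (p (nat_lit 0x40592) (nat_lit 0) (p (nat_lit 0x40492) (nat_lit 0) (p (nat_lit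 0x30412) (nat_lit 0) (p (nat_lit 0x30212) (nat_lit 0) (p (nat_lit 0x20192) (nat_lit 0) (p (nat_lit 0x20092) (nat_lit 0) (p (nat_lit 0x10012) (nat_lit 0) pn)))))))))))))))))))))) :=
  Cl.node (nat_lit 0x119) (nat_lit 2) (by decide +kernel) (ClAll.succ (ClAll.succ ClAll.zero n232) n233)

def n245 : Cl (O (nat_lit 3)) (R (nat_lit 104465))
    (p (nat_lit 0xc9) (nat_lit 1) (p (nat_lit 0x89) (nat_lit 1) (p (nat_lit 0x41) (nat_lit 0) (p (nat_lit 0x8a098b090a9a) (nat_lit 0) (p (nat_lit 0x9890a888a1a) (nat_lit 0) (p (nat_lit 0x89088a08079a) (nat_lit 0) (p (nat_lit 0x8880987871a) (nat_lit 0) (p (nat_lit 0x80000800080907088a) (nat_lit 0) (p (nat_lit 0x80000800078886860a) (nat_lit 0) (p (nat_lit 0x8688060782) (nat_lit 0) (p (nat_lit 0x607858702) (nat_lit 0) (p (nat_lit 0x8587050482) (nat_lit 0) (p (nat_lit 0x506848402) (nat_lit 0) (p (nat_lit 0x160014) (nat_lit 0) (p (nat_lit 0x50612)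 (nat_lit 0) (p (nat_lit 0x40592) (nat_lit 0) (p (nat_lit 0x40492) (nat_lit 0) (p (nat_lit 0x30412) (nat_lit 0) (p (nat_lit 0x30212) (nat_lit 0) (p (nat_lit 0x20192) (nat_lit 0) (p (nat_lit 0x20092) (nat_lit 0) (p (nat_lit 0x10012) (nat_lit 0) pn)))))))))))))))))))))) :=
  Cl.node (nat_lit 0x109) (nat_lit 2) (by decide +kernel) (ClAll.succ (ClAll.succ ClAll.zero n234) s132)

def n246 : Cl (O (nat_lit 3)) (R (nat_lit 104465))
    (p (nat_lit 0xd1) (nat_lit 0) (p (nat_lit 0x81) (nat_lit 0) (p (nat_lit 0x41) (nat_lit 1) (p (nat_lit 0x8a098b090a9a) (nat_lit 0) (p (nat_lit 0x9890a888a1a) (nat_lit 0) (p (nat_lit 0x89088a08079a) (nat_lit 0) (p (nat_lit 0x8880987871a) (nat_lit 0) (p (nat_lit 0x80000800080907088a) (nat_lit 0) (p (nat_lit 0x80000800078886860a) (nat_lit 0) (p (nat_lit 0x8688060782) (nat_lit 0) (p (nat_lit 0x607858702) (nat_lit 0) (p (nat_lit 0x8587050482) (nat_lit 0)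 (p (nat_lit 0x506848402) (nat_lit 0) (p (nat_lit 0x160014) (nat_lit 0) (p (nat_lit 0x50612) (nat_lit 0) (p (nat_lit 0x40592) (nat_lit 0) (p (nat_lit 0x40492) (nat_lit 0) (p (nat_lit 0x30412) (nat_lit 0) (p (nat_lit 0x30212) (nat_lit 0) (p (nat_lit 0x20192) (nat_lit 0) (p (nat_lit 0x20092) (nat_lit 0) (p (nat_lit 0x10012) (nat_lit 0) pn)))))))))))))))))))))) :=
  Cl.node (nat_lit 0x119) (nat_lit 2) (by decide +kernel) (ClAll.succ (ClAll.succ ClAll.zero n235) n236)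

def n247 : Cl (O (nat_lit 3)) (R (nat_lit 104465))
    (p (nat_lit 0xd1) (nat_lit 1) (p (nat_lit 0x81) (nat_lit 0) (p (nat_lit 0x41) (nat_lit 1) (p (nat_lit 0x8a098b090a9a) (nat_lit 0) (p (nat_lit 0x9890a888a1a) (nat_lit 0) (p (nat_lit 0x89088a08079a) (nat_lit 0) (p (nat_lit 0x8880987871a) (nat_lit 0) (p (nat_lit 0x80000800080907088a) (nat_lit 0) (p (nat_lit 0x80000800078886860a) (nat_lit 0) (p (nat_lit 0x8688060782) (nat_lit 0) (p (nat_lit 0x607858702) (nat_lit 0) (p (nat_lit 0x8587050482) (nat_lit 0) (p (nat_lit 0x506848402) (nat_lit 0) (p (nat_lit 0x160014) (nat_lit 0) (p (nat_lit 0x50612) (nat_lit 0) (p (nat_lit 0x40592) (nat_lit 0) (p (nat_lit 0x40492) (nat_lit 0) (p (nat_lit 0x30412) (nat_lit 0) (p (nat_lit 0x30212) (nat_lit 0) (p (nat_lit 0x20192) (nat_lit 0) (p (nat_lit 0x20092) (nat_lit 0) (p (nat_lit 0x10012) (nat_lit 0) pn)))))))))))))))))))))) :=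
  Cl.node (nat_lit 0x111) (nat_lit 2) (by decide +kernel) (ClAll.succ (ClAll.succ ClAll.zero n237) n238)

def n248 : Cl (O (nat_lit 3)) (R (nat_lit 104465))
    (p (nat_lit 0xc1) (nat_lit 0) (p (nat_lit 0x81) (nat_lit 1) (p (nat_lit 0x41) (nat_lit 1) (p (nat_lit 0x8a098b090a9a) (nat_lit 0) (p (nat_lit 0x9890a888a1a) (nat_lit 0) (p (nat_lit 0x89088a08079a) (nat_lit 0) (p (nat_lit 0x8880987871a) (nat_lit 0) (p (nat_lit 0x80000800080907088a) (nat_lit 0) (p (nat_lit 0x80000800078886860a) (nat_lit 0) (p (nat_lit 0x8688060782) (nat_lit 0) (p (nat_lit 0x607858702) (nat_lit 0) (p (nat_lit 0x8587050482) (nat_lit 0) (p (nat_lit 0x506848402) (nat_lit 0) (p (nat_lit 0x160014) (nat_lit 0) (p (nat_lit 0x50612) (nat_lit 0) (p (nat_lit 0x40592) (nat_lit 0) (p (nat_lit 0x40492) (nat_lit 0) (p (nat_lit 0x30412) (nat_lit 0) (p (nat_lit 0x30212) (nat_lit 0) (p (nat_lit 0x20192) (nat_lit 0) (p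 (nat_lit 0x20092) (nat_lit 0) (p (nat_lit 0x10012) (nat_lit 0) pn)))))))))))))))))))))) :=
  Cl.node (nat_lit 0x119) (nat_lit 2) (by decide +kernel) (ClAll.succ (ClAll.succ ClAll.zero n239) n240)

def n249 : Cl (O (nat_lit 3)) (R (nat_lit 104465))
    (p (nat_lit 0xc1) (nat_lit 1) (p (nat_lit 0x81) (nat_lit 1) (p (nat_lit 0x41) (nat_lit 1) (p (nat_lit 0x8a098b090a9a) (nat_lit 0) (p (nat_lit 0x9890a888a1a) (nat_lit 0) (p (nat_lit 0x89088a08079a) (nat_lit 0) (p (nat_lit 0x8880987871a) (nat_lit 0) (p (nat_lit 0x80000800080907088a) (nat_lit 0) (p (nat_lit 0x80000800078886860a) (nat_lit 0) (p (nat_lit 0x8688060782) (nat_lit 0) (p (nat_lit 0x607858702) (nat_lit 0) (p (nat_lit 0x8587050482) (nat_lit 0) (p (nat_lit 0x506848402) (nat_lit 0) (p (nat_lit 0x160014) (nat_lit 0) (p (nat_lit 0x50612) (nat_lit 0) (p (nat_lit 0x40592) (nat_lit 0) (p (nat_lit 0x40492) (nat_lit 0) (p (nat_lit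 0x30412) (nat_lit 0) (p (nat_lit 0x30212) (nat_lit 0) (p (nat_lit 0x20192) (nat_lit 0) (p (nat_lit 0x20092) (nat_lit 0) (p (nat_lit 0x10012) (nat_lit 0) pn)))))))))))))))))))))) :=
  Cl.node (nat_lit 0x101) (nat_lit 2) (by decide +kernel) (ClAll.succ (ClAll.succ ClAll.zero n241) s227)

def n250 : Cl (O (nat_lit 3)) (R (nat_lit 104465))
    (p (nat_lit 0x89) (nat_lit 0) (p (nat_lit 0x41) (nat_lit 0) (p (nat_lit 0x8a098b090a9a) (nat_lit 0) (p (nat_lit 0x9890a888a1a) (nat_lit 0) (p (nat_lit 0x89088a08079a) (nat_lit 0) (p (nat_lit 0x8880987871a) (nat_lit 0) (p (nat_lit 0x80000800080907088a) (nat_lit 0) (p (nat_lit 0x80000800078886860a) (nat_lit 0) (p (nat_lit 0x8688060782) (nat_lit 0) (p (nat_lit 0x607858702) (nat_lit 0) (p (nat_lit 0x8587050482) (nat_lit 0) (p (nat_lit 0x506848402) (nat_lit 0) (p (nat_lit 0x160014) (nat_lit 0) (p (nat_lit 0x50612) (nat_lit 0) (p (nat_lit 0x40592)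 (nat_lit 0) (p (nat_lit 0x40492) (nat_lit 0) (p (nat_lit 0x30412) (nat_lit 0) (p (nat_lit 0x30212) (nat_lit 0) (p (nat_lit 0x20192) (nat_lit 0) (p (nat_lit 0x20092) (nat_lit 0) (p (nat_lit 0x10012) (nat_lit 0) pn))))))))))))))))))))) :=
  Cl.node (nat_lit 0xd1) (nat_lit 2) (by decide +kernel) (ClAll.succ (ClAll.succ ClAll.zero n242) n243)

def n251 : Cl (O (nat_lit 3)) (R (nat_lit 104465))
    (p (nat_lit 0x89) (nat_lit 1) (p (nat_lit 0x41) (nat_lit 0) (p (nat_lit 0x8a098b090a9a) (nat_lit 0) (p (nat_lit 0x9890a888a1a) (nat_lit 0) (p (nat_lit 0x89088a08079a) (nat_lit 0) (p (nat_lit 0x8880987871a) (nat_lit 0) (p (nat_lit 0x80000800080907088a) (nat_lit 0) (p (nat_lit 0x80000800078886860a) (nat_lit 0) (p (nat_lit 0x8688060782) (nat_lit 0) (p (nat_lit 0x607858702) (nat_lit 0) (p (nat_lit 0x8587050482) (nat_lit 0) (p (nat_lit 0x506848402) (nat_lit 0) (p (nat_lit 0x160014) (nat_lit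 0) (p (nat_lit 0x50612) (nat_lit 0) (p (nat_lit 0x40592) (nat_lit 0) (p (nat_lit 0x40492) (nat_lit 0) (p (nat_lit 0x30412) (nat_lit 0) (p (nat_lit 0x30212) (nat_lit 0) (p (nat_lit 0x20192) (nat_lit 0) (p (nat_lit 0x20092) (nat_lit 0) (p (nat_lit 0x10012) (nat_lit 0) pn))))))))))))))))))))) :=
  Cl.node (nat_lit 0xc9) (nat_lit 2) (by decide +kernel) (ClAll.succ (ClAll.succ ClAll.zero n244) n245)

def n252 : Cl (O (nat_lit 3)) (R (nat_lit 104465))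
    (p (nat_lit 0x81) (nat_lit 0) (p (nat_lit 0x41) (nat_lit 1) (p (nat_lit 0x8a098b090a9a) (nat_lit 0) (p (nat_lit 0x9890a888a1a) (nat_lit 0) (p (nat_lit 0x89088a08079a) (nat_lit 0) (p (nat_lit 0x8880987871a) (nat_lit 0) (p (nat_lit 0x80000800080907088a) (nat_lit 0) (p (nat_lit 0x80000800078886860a) (nat_lit 0) (p (nat_lit 0x8688060782) (nat_lit 0) (p (nat_lit 0x607858702) (nat_lit 0) (p (nat_lit 0x8587050482) (nat_lit 0) (p (nat_lit 0x506848402) (nat_lit 0) (p (nat_lit 0x160014) (nat_lit 0) (p (nat_lit 0x50612) (nat_lit 0) (p (nat_lit 0x40592) (nat_lit 0) (p (nat_lit 0x40492) (nat_lit 0) (p (nat_lit 0x30412) (nat_lit 0) (p (nat_lit 0x30212) (nat_lit 0) (p (nat_lit 0x20192) (nat_lit 0) (p (nat_lit 0x20092) (nat_lit 0) (p (nat_lit 0x10012) (nat_lit 0) pn))))))))))))))))))))) :=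
  Cl.node (nat_lit 0xd1) (nat_lit 2) (by decide +kernel) (ClAll.succ (ClAll.succ ClAll.zero n246) n247)

def n253 : Cl (O (nat_lit 3)) (R (nat_lit 104465))
    (p (nat_lit 0x81) (nat_lit 1) (p (nat_lit 0x41) (nat_lit 1) (p (nat_lit 0x8a098b090a9a) (nat_lit 0) (p (nat_lit 0x9890a888a1a) (nat_lit 0) (p (nat_lit 0x89088a08079a) (nat_lit 0) (p (nat_lit 0x8880987871a) (nat_lit 0) (p (nat_lit 0x80000800080907088a) (nat_lit 0) (p (nat_lit 0x80000800078886860a) (nat_lit 0) (p (nat_lit 0x8688060782) (nat_lit 0) (p (nat_lit 0x607858702) (nat_lit 0) (p (nat_lit 0x8587050482) (nat_lit 0) (p (nat_lit 0x506848402) (nat_lit 0) (p (nat_lit 0x160014) (nat_lit 0) (p (nat_lit 0x50612) (nat_lit 0) (p (nat_lit 0x40592) (nat_lit 0) (p (nat_lit 0x40492) (nat_lit 0) (p (nat_lit 0x30412) (nat_lit 0) (p (nat_lit 0x30212) (nat_lit 0) (p (nat_lit 0x20192) (nat_lit 0) (p (nat_lit 0x20092) (nat_lit 0)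 (p (nat_lit 0x10012) (nat_lit 0) pn))))))))))))))))))))) :=
  Cl.node (nat_lit 0xc1) (nat_lit 2) (by decide +kernel) (ClAll.succ (ClAll.succ ClAll.zero n248) n249)

def n254 : Cl (O (nat_lit 3)) (R (nat_lit 104465))
    (p (nat_lit 0x41) (nat_lit 0) (p (nat_lit 0x8a098b090a9a) (nat_lit 0) (p (nat_lit 0x9890a888a1a) (nat_lit 0) (p (nat_lit 0x89088a08079a) (nat_lit 0) (p (nat_lit 0x8880987871a) (nat_lit 0) (p (nat_lit 0x80000800080907088a) (nat_lit 0) (p (nat_lit 0x80000800078886860a) (nat_lit 0) (p (nat_lit 0x8688060782) (nat_lit 0) (p (nat_lit 0x607858702) (nat_lit 0) (p (nat_lit 0x8587050482) (nat_lit 0) (p (nat_lit 0x506848402) (nat_lit 0) (p (nat_lit 0x160014) (nat_lit 0) (p (nat_lit 0x50612) (nat_lit 0) (p (nat_lit 0x40592) (nat_lit 0) (p (nat_lit 0x40492) (nat_lit 0) (p (nat_lit 0x30412) (nat_lit 0) (p (nat_lit 0x30212) (nat_lit 0) (p (nat_lit 0x20192) (nat_lit 0) (p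 (nat_lit 0x20092) (nat_lit 0) (p (nat_lit 0x10012) (nat_lit 0) pn)))))))))))))))))))) :=
  Cl.node (nat_lit 0x89) (nat_lit 2) (by decide +kernel) (ClAll.succ (ClAll.succ ClAll.zero n250) n251)

def n255 : Cl (O (nat_lit 3)) (R (nat_lit 104465))
    (p (nat_lit 0x41) (nat_lit 1) (p (nat_lit 0x8a098b090a9a) (nat_lit 0) (p (nat_lit 0x9890a888a1a) (nat_lit 0) (p (nat_lit 0x89088a08079a) (nat_lit 0) (p (nat_lit 0x8880987871a) (nat_lit 0) (p (nat_lit 0x80000800080907088a) (nat_lit 0) (p (nat_lit 0x80000800078886860a) (nat_lit 0) (p (nat_lit 0x8688060782) (nat_lit 0) (p (nat_lit 0x607858702) (nat_lit 0) (p (nat_lit 0x8587050482) (nat_lit 0) (p (nat_lit 0x506848402) (nat_lit 0) (p (nat_lit 0x160014) (nat_lit 0) (p (nat_lit 0x50612) (nat_lit 0) (p (nat_lit 0x40592) (nat_lit 0) (p (nat_lit 0x40492) (nat_lit 0) (p (nat_lit 0x30412) (nat_lit 0) (p (nat_lit 0x30212) (nat_lit 0) (p (nat_lit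 0x20192) (nat_lit 0) (p (nat_lit 0x20092) (nat_lit 0) (p (nat_lit 0x10012) (nat_lit 0) pn)))))))))))))))))))) :=
  Cl.node (nat_lit 0x81) (nat_lit 2) (by decide +kernel) (ClAll.succ (ClAll.succ ClAll.zero n252) n253)

def n256 : Cl (O (nat_lit 3)) (R (nat_lit 104465))
    (p (nat_lit 0x8a098b090a9a) (nat_lit 0) (p (nat_lit 0x9890a888a1a) (nat_lit 0) (p (nat_lit 0x89088a08079a) (nat_lit 0) (p (nat_lit 0x8880987871a) (nat_lit 0) (p (nat_lit 0x80000800080907088a) (nat_lit 0) (p (nat_lit 0x80000800078886860a) (nat_lit 0) (p (nat_lit 0x8688060782) (nat_lit 0) (p (nat_lit 0x607858702) (nat_lit 0) (p (nat_lit 0x8587050482) (nat_lit 0) (p (nat_lit 0x506848402) (nat_lit 0) (p (nat_lit 0x160014) (nat_lit 0) (p (nat_lit 0x50612) (nat_lit 0) (p (nat_lit 0x40592) (nat_lit 0) (p (nat_lit 0x40492) (nat_lit 0) (p (nat_lit 0x30412) (nat_lit 0) (p (nat_lit 0x30212) (nat_lit 0) (p (nat_lit 0x20192)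 (nat_lit 0) (p (nat_lit 0x20092) (nat_lit 0) (p (nat_lit 0x10012) (nat_lit 0) pn))))))))))))))))))) :=
  Cl.node (nat_lit 0x41) (nat_lit 2) (by decide +kernel) (ClAll.succ (ClAll.succ ClAll.zero n254) n255)

def n257 : Cl (O (nat_lit 3)) (R (nat_lit 104465))
    (p (nat_lit 0x9890a888a1a) (nat_lit 0) (p (nat_lit 0x89088a08079a) (nat_lit 0) (p (nat_lit 0x8880987871a) (nat_lit 0) (p (nat_lit 0x80000800080907088a) (nat_lit 0) (p (nat_lit 0x80000800078886860a) (nat_lit 0) (p (nat_lit 0x8688060782) (nat_lit 0) (p (nat_lit 0x607858702) (nat_lit 0) (p (nat_lit 0x8587050482) (nat_lit 0) (p (nat_lit 0x506848402) (nat_lit 0) (p (nat_lit 0x160014) (nat_lit 0) (p (nat_lit 0x50612) (nat_lit 0) (p (nat_lit 0x40592) (nat_lit 0) (p (nat_lit 0x40492) (nat_lit 0) (p (nat_lit 0x30412) (nat_lit 0) (p (nat_lit 0x30212) (nat_lit 0) (p (nat_lit 0x20192) (nat_lit 0) (p (nat_lit 0x20092) (nat_lit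 0) (p (nat_lit 0x10012) (nat_lit 0) pn)))))))))))))))))) :=
  Cl.node (nat_lit 0x8a098b090a9a) (nat_lit 1) (by decide +kernel) (ClAll.succ ClAll.zero n256)

def n258 : Cl (O (nat_lit 3)) (R (nat_lit 104465))
    (p (nat_lit 0x89088a08079a) (nat_lit 0) (p (nat_lit 0x8880987871a) (nat_lit 0) (p (nat_lit 0x80000800080907088a) (nat_lit 0) (p (nat_lit 0x80000800078886860a) (nat_lit 0) (p (nat_lit 0x8688060782) (nat_lit 0) (p (nat_lit 0x607858702) (nat_lit 0) (p (nat_lit 0x8587050482) (nat_lit 0) (p (nat_lit 0x506848402) (nat_lit 0) (p (nat_lit 0x160014) (nat_lit 0) (p (nat_lit 0x50612) (nat_lit 0) (p (nat_lit 0x40592) (nat_lit 0) (p (nat_lit 0x40492) (nat_lit 0) (p (nat_lit 0x30412) (nat_lit 0) (p (nat_lit 0x30212) (nat_lit 0) (p (nat_lit 0x20192) (nat_lit 0) (p (nat_lit 0x20092) (nat_lit 0) (p (nat_lit 0x10012) (nat_lit 0) pn))))))))))))))))) :=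
  Cl.node (nat_lit 0x9890a888a1a) (nat_lit 1) (by decide +kernel) (ClAll.succ ClAll.zero n257)

def n259 : Cl (O (nat_lit 3)) (R (nat_lit 104465))
    (p (nat_lit 0x8880987871a) (nat_lit 0) (p (nat_lit 0x80000800080907088a) (nat_lit 0) (p (nat_lit 0x80000800078886860a) (nat_lit 0) (p (nat_lit 0x8688060782) (nat_lit 0) (p (nat_lit 0x607858702) (nat_lit 0) (p (nat_lit 0x8587050482) (nat_lit 0) (p (nat_lit 0x506848402) (nat_lit 0) (p (nat_lit 0x160014) (nat_lit 0) (p (nat_lit 0x50612) (nat_lit 0) (p (nat_lit 0x40592) (nat_lit 0) (p (nat_lit 0x40492) (nat_lit 0) (p (nat_lit 0x30412) (nat_lit 0) (p (nat_lit 0x30212) (nat_lit 0) (p (nat_lit 0x20192) (nat_lit 0) (p (nat_lit 0x20092) (nat_lit 0) (p (nat_lit 0x10012) (nat_lit 0) pn)))))))))))))))) :=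
  Cl.node (nat_lit 0x89088a08079a) (nat_lit 1) (by decide +kernel) (ClAll.succ ClAll.zero n258)

def n260 : Cl (O (nat_lit 3)) (R (nat_lit 104465))
    (p (nat_lit 0x80000800080907088a) (nat_lit 0) (p (nat_lit 0x80000800078886860a) (nat_lit 0) (p (nat_lit 0x8688060782) (nat_lit 0) (p (nat_lit 0x607858702) (nat_lit 0) (p (nat_lit 0x8587050482) (nat_lit 0) (p (nat_lit 0x506848402) (nat_lit 0) (p (nat_lit 0x160014) (nat_lit 0) (p (nat_lit 0x50612) (nat_lit 0) (p (nat_lit 0x40592) (nat_lit 0) (p (nat_lit 0x40492) (nat_lit 0) (p (nat_lit 0x30412) (nat_lit 0) (p (nat_lit 0x30212) (nat_lit 0) (p (nat_lit 0x20192) (nat_lit 0) (p (nat_lit 0x20092) (nat_lit 0) (p (nat_lit 0x10012) (nat_lit 0) pn))))))))))))))) :=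
  Cl.node (nat_lit 0x8880987871a) (nat_lit 1) (by decide +kernel) (ClAll.succ ClAll.zero n259)

def n261 : Cl (O (nat_lit 3)) (R (nat_lit 104465))
    (p (nat_lit 0x80000800078886860a) (nat_lit 0) (p (nat_lit 0x8688060782) (nat_lit 0) (p (nat_lit 0x607858702) (nat_lit 0) (p (nat_lit 0x8587050482) (nat_lit 0) (p (nat_lit 0x506848402) (nat_lit 0) (p (nat_lit 0x160014) (nat_lit 0) (p (nat_lit 0x50612) (nat_lit 0) (p (nat_lit 0x40592) (nat_lit 0) (p (nat_lit 0x40492) (nat_lit 0) (p (nat_lit 0x30412) (nat_lit 0) (p (nat_lit 0x30212) (nat_lit 0) (p (nat_lit 0x20192) (nat_lit 0) (p (nat_lit 0x20092) (nat_lit 0) (p (nat_lit 0x10012) (nat_lit 0) pn)))))))))))))) :=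
  Cl.node (nat_lit 0x80000800080907088a) (nat_lit 1) (by decide +kernel) (ClAll.succ ClAll.zero n260)

def n262 : Cl (O (nat_lit 3)) (R (nat_lit 104465))
    (p (nat_lit 0x8688060782) (nat_lit 0) (p (nat_lit 0x607858702) (nat_lit 0) (p (nat_lit 0x8587050482) (nat_lit 0) (p (nat_lit 0x506848402) (nat_lit 0) (p (nat_lit 0x160014) (nat_lit 0) (p (nat_lit 0x50612) (nat_lit 0) (p (nat_lit 0x40592) (nat_lit 0) (p (nat_lit 0x40492) (nat_lit 0) (p (nat_lit 0x30412) (nat_lit 0) (p (nat_lit 0x30212) (nat_lit 0) (p (nat_lit 0x20192) (nat_lit 0) (p (nat_lit 0x20092) (nat_lit 0) (p (nat_lit 0x10012) (nat_lit 0) pn))))))))))))) :=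
  Cl.node (nat_lit 0x80000800078886860a) (nat_lit 1) (by decide +kernel) (ClAll.succ ClAll.zero n261)

def n263 : Cl (O (nat_lit 3)) (R (nat_lit 104465))
    (p (nat_lit 0x607858702) (nat_lit 0) (p (nat_lit 0x8587050482) (nat_lit 0) (p (nat_lit 0x506848402) (nat_lit 0) (p (nat_lit 0x160014) (nat_lit 0) (p (nat_lit 0x50612) (nat_lit 0) (p (nat_lit 0x40592) (nat_lit 0) (p (nat_lit 0x40492) (nat_lit 0) (p (nat_lit 0x30412) (nat_lit 0) (p (nat_lit 0x30212) (nat_lit 0) (p (nat_lit 0x20192) (nat_lit 0) (p (nat_lit 0x20092) (nat_lit 0) (p (nat_lit 0x10012) (nat_lit 0) pn)))))))))))) :=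
  Cl.node (nat_lit 0x8688060782) (nat_lit 1) (by decide +kernel) (ClAll.succ ClAll.zero n262)

def n264 : Cl (O (nat_lit 3)) (R (nat_lit 104465))
    (p (nat_lit 0x8587050482) (nat_lit 0) (p (nat_lit 0x506848402) (nat_lit 0) (p (nat_lit 0x160014) (nat_lit 0) (p (nat_lit 0x50612) (nat_lit 0) (p (nat_lit 0x40592) (nat_lit 0) (p (nat_lit 0x40492) (nat_lit 0) (p (nat_lit 0x30412) (nat_lit 0) (p (nat_lit 0x30212) (nat_lit 0) (p (nat_lit 0x20192) (nat_lit 0) (p (nat_lit 0x20092) (nat_lit 0) (p (nat_lit 0x10012) (nat_lit 0) pn))))))))))) :=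
  Cl.node (nat_lit 0x607858702) (nat_lit 1) (by decide +kernel) (ClAll.succ ClAll.zero n263)

def n265 : Cl (O (nat_lit 3)) (R (nat_lit 104465))
    (p (nat_lit 0x506848402) (nat_lit 0) (p (nat_lit 0x160014) (nat_lit 0) (p (nat_lit 0x50612) (nat_lit 0) (p (nat_lit 0x40592) (nat_lit 0) (p (nat_lit 0x40492) (nat_lit 0) (p (nat_lit 0x30412) (nat_lit 0) (p (nat_lit 0x30212) (nat_lit 0) (p (nat_lit 0x20192) (nat_lit 0) (p (nat_lit 0x20092) (nat_lit 0) (p (nat_lit 0x10012) (nat_lit 0) pn)))))))))) :=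
  Cl.node (nat_lit 0x8587050482) (nat_lit 1) (by decide +kernel) (ClAll.succ ClAll.zero n264)

def n266 : Cl (O (nat_lit 3)) (R (nat_lit 104465))
    (p (nat_lit 0x160014) (nat_lit 0) (p (nat_lit 0x50612) (nat_lit 0) (p (nat_lit 0x40592) (nat_lit 0) (p (nat_lit 0x40492) (nat_lit 0) (p (nat_lit 0x30412) (nat_lit 0) (p (nat_lit 0x30212) (nat_lit 0) (p (nat_lit 0x20192) (nat_lit 0) (p (nat_lit 0x20092) (nat_lit 0) (p (nat_lit 0x10012) (nat_lit 0) pn))))))))) :=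
  Cl.node (nat_lit 0x506848402) (nat_lit 1) (by decide +kernel) (ClAll.succ ClAll.zero n265)

def n267 : Cl (O (nat_lit 3)) (R (nat_lit 104465))
    (p (nat_lit 0x50612) (nat_lit 0) (p (nat_lit 0x40592) (nat_lit 0) (p (nat_lit 0x40492) (nat_lit 0) (p (nat_lit 0x30412) (nat_lit 0) (p (nat_lit 0x30212) (nat_lit 0) (p (nat_lit 0x20192) (nat_lit 0) (p (nat_lit 0x20092) (nat_lit 0) (p (nat_lit 0x10012) (nat_lit 0) pn)))))))) :=
  Cl.node (nat_lit 0x160014) (nat_lit 2) (by decide +kernel) (ClAll.succ (ClAll.succ ClAll.zero n266) s228)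

def n268 : Cl (O (nat_lit 3)) (R (nat_lit 104465))
    (p (nat_lit 0x40592) (nat_lit 0) (p (nat_lit 0x40492) (nat_lit 0) (p (nat_lit 0x30412) (nat_lit 0) (p (nat_lit 0x30212) (nat_lit 0) (p (nat_lit 0x20192) (nat_lit 0) (p (nat_lit 0x20092) (nat_lit 0) (p (nat_lit 0x10012) (nat_lit 0) pn))))))) :=
  Cl.node (nat_lit 0x50612) (nat_lit 1) (by decide +kernel) (ClAll.succ ClAll.zero n267)

def n269 : Cl (O (nat_lit 3)) (R (nat_lit 104465))
    (p (nat_lit 0x40492) (nat_lit 0) (p (nat_lit 0x30412) (nat_lit 0) (p (nat_lit 0x30212) (nat_lit 0) (p (nat_lit 0x20192) (nat_lit 0) (p (nat_lit 0x20092) (nat_lit 0) (p (nat_lit 0x10012) (nat_lit 0) pn)))))) :=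
  Cl.node (nat_lit 0x40592) (nat_lit 1) (by decide +kernel) (ClAll.succ ClAll.zero n268)

def n270 : Cl (O (nat_lit 3)) (R (nat_lit 104465))
    (p (nat_lit 0x30412) (nat_lit 0) (p (nat_lit 0x30212) (nat_lit 0) (p (nat_lit 0x20192) (nat_lit 0) (p (nat_lit 0x20092) (nat_lit 0) (p (nat_lit 0x10012) (nat_lit 0) pn))))) :=
  Cl.node (nat_lit 0x40492) (nat_lit 1) (by decide +kernel) (ClAll.succ ClAll.zero n269)

def n271 : Cl (O (nat_lit 3)) (R (nat_lit 104465))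
    (p (nat_lit 0x30212) (nat_lit 0) (p (nat_lit 0x20192) (nat_lit 0) (p (nat_lit 0x20092) (nat_lit 0) (p (nat_lit 0x10012) (nat_lit 0) pn)))) :=
  Cl.node (nat_lit 0x30412) (nat_lit 1) (by decide +kernel) (ClAll.succ ClAll.zero n270)

def n272 : Cl (O (nat_lit 3)) (R (nat_lit 104465))
    (p (nat_lit 0x20192) (nat_lit 0) (p (nat_lit 0x20092) (nat_lit 0) (p (nat_lit 0x10012) (nat_lit 0) pn))) :=
  Cl.node (nat_lit 0x30212) (nat_lit 1) (by decide +kernel) (ClAll.succ ClAll.zero n271)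

def n273 : Cl (O (nat_lit 3)) (R (nat_lit 104465))
    (p (nat_lit 0x20092) (nat_lit 0) (p (nat_lit 0x10012) (nat_lit 0) pn)) :=
  Cl.node (nat_lit 0x20192) (nat_lit 1) (by decide +kernel) (ClAll.succ ClAll.zero n272)

def n274 : Cl (O (nat_lit 3)) (R (nat_lit 104465))
    (p (nat_lit 0x10012) (nat_lit 0) pn) :=
  Cl.node (nat_lit 0x20092) (nat_lit 1) (by decide +kernel) (ClAll.succ ClAll.zero n273)

def n275 : Cl (O (nat_lit 3)) (R (nat_lit 104465))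
    pn :=
  Cl.node (nat_lit 0x10012) (nat_lit 1) (by decide +kernel) (ClAll.succ ClAll.zero n274)

theorem top : Cl (O (nat_lit 3)) (R (nat_lit 104465)) pn := n275

end Pool.Agent.Gen.F5.X12CD13m3
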